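import Pool.Agent.Lib.MP_40b13d_lc.Defs

/-!
The fair coin measure and the sentence of the Cantor space in terms of it.
-/

open MeasureTheory Set

namespace Pool.Agent.Lib.MP_40b13d_lc

/-- The fair coin measure on the Cantor space. -/
noncomputable def coin : Measure (ℕ → Bool) :=
  Measure.infinitePi (fun _ : ℕ => (PMF.uniformOfFintype Bool).toMeasure)

/-- The sentence `(♣)` in Mathlib terms. -/
def ClubMeas : Prop :=
  ∀ A : Set (ℕ → Bool),
    (∃ F : ℕ → Set (ℕ → Bool), (∀ k, IsClosed (F k) ∧ coin (F k) = 0) ∧ A ⊆ ⋃ k, F k) ∨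
    (∃ Z : ℕ → Set (ℕ → Bool), (∀ n, IsClosed (Z n) ∧ coin (Z n) ≠ 0) ∧
      ∀ F : ℕ → Set (ℕ → Bool), (∀ k, IsClosed (F k)) → A ⊆ (⋃ k, F k) → ∃ n k, Z n ⊆ F k)

instance : IsProbabilityMeasure coin := by
  unfold coin
  infer_instance

/-- The coin measure of a basic clopen set given by its first `n` digits. -/
theorem coin_cylinder (z : ℕ → Bool) (n : ℕ) :
    coin {y | ∀ i < n, y i = z i} = ((2 : ENNReal) ^ n)⁻¹ := by
  have h0 : {y : ℕ → Bool | ∀ i < n, y i = z i} =
      Set.pi (Finset.range n : Set ℕ) (fun i => {z i}) := by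
    ext y
    simp only [Set.mem_pi, Finset.coe_range, Set.mem_Iio, Set.mem_singleton_iff]
    rfl
  rw [h0, coin, Measure.infinitePi_pi _ (fun i _ => measurableSet_singleton _)]
  have h1 : ∀ i ∈ Finset.range n, (PMF.uniformOfFintype Bool).toMeasure {z i} = (2 : ENNReal)⁻¹ := by
    intro i _
    rw [PMF.toMeasure_apply_singleton _ _ (measurableSet_singleton _),
      PMF.uniformOfFintype_apply]
    simp
  rw [Finset.prod_congr rfl h1, Finset.prod_const, Finset.card_range, ENNReal.inv_pow]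

theorem coin_singleton (z : ℕ → Bool) : coin {z} = 0 := by
  have h1 : ∀ n : ℕ, coin {z} ≤ ((2 : ENNReal) ^ n)⁻¹ := by
    intro n
    rw [← coin_cylinder z n]
    refine measure_mono ?_
    rintro y rfl i _
    rfl
  have h2 : Filter.Tendsto (fun n : ℕ => ((2 : ENNReal) ^ n)⁻¹) Filter.atTop (nhds 0) := by
    have h3 : ∀ n : ℕ, ((2 : ENNReal) ^ n)⁻¹ = (2 : ENNReal)⁻¹ ^ n := fun n => by
      rw [ENNReal.inv_pow]
    simp_rw [h3]
    exact ENNReal.tendsto_pow_atTop_nhds_zero_of_lt_one (by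
      rw [ENNReal.inv_lt_one]; exact ENNReal.one_lt_two)
  exact le_antisymm (ge_of_tendsto' h2 h1) zero_le

end Pool.Agent.Lib.MP_40b13d_lc
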