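import Mathlib
import Pool.Agent.Lib.MP_40b13d_lc.Coin

/-!
# Closed subsets of the Cantor space
-/

open MeasureTheory Set Topology Filter

namespace Pool.Agent.Lib.MP_40b13d_lc

/-- The first `n` bits of `z`. -/
def bini (z : ℕ → Bool) (n : ℕ) : List Bool := (List.range n).map z

@[simp] theorem bini_length (z : ℕ → Bool) (n : ℕ) : (bini z n).length = n := by simp [bini]

@[simp] theorem bini_zero (z : ℕ → Bool) : bini z 0 = [] := rfl

theorem bini_succ (z : ℕ → Bool) (n : ℕ) : bini z (n + 1) = bini z n ++ [z n] := by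
  simp [bini, List.range_succ]

theorem bini_prefix (z : ℕ → Bool) {m n : ℕ} (h : m ≤ n) : bini z m <+: bini z n := by
  induction n, h using Nat.le_induction with
  | base => exact List.prefix_rfl
  | succ n _ ih => rw [bini_succ]; exact ih.trans (List.prefix_append _ _)

theorem bini_take (z : ℕ → Bool) {m n : ℕ} (h : m ≤ n) : (bini z n).take m = bini z m := by
  have := List.prefix_iff_eq_take.1 (bini_prefix z h)
  rw [bini_length] at this
  exact this.symm

/-- The cylinder of all points extending `s`. -/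
def cyl (s : List Bool) : Set (ℕ → Bool) := {z | bini z s.length = s}

theorem mem_cyl {s : List Bool} {z : ℕ → Bool} : z ∈ cyl s ↔ bini z s.length = s := Iff.rfl

theorem mem_cyl_bini (z : ℕ → Bool) (n : ℕ) : z ∈ cyl (bini z n) := by simp [cyl]

theorem mem_cyl_iff {s : List Bool} {z : ℕ → Bool} :
    z ∈ cyl s ↔ ∀ i (h : i < s.length), z i = s[i] := by
  rw [mem_cyl]
  constructor
  · intro h i hi
    have : (bini z s.length)[i]'(by simpa using hi) = z i := by simp [bini]
    rw [← this]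
    congr 1
  · intro h
    apply List.ext_getElem (by simp)
    intro i h1 h2
    simp [bini, h i h2]

theorem cyl_anti {s t : List Bool} (h : s <+: t) : cyl t ⊆ cyl s := by
  intro z hz
  rw [mem_cyl] at hz ⊢
  obtain ⟨u, rfl⟩ := h
  have := bini_take z (m := s.length) (n := (s ++ u).length) (by simp)
  rw [hz] at this
  simpa using this.symm

theorem prefix_of_mem_cyl {s t : List Bool} {z : ℕ → Bool} (hs : z ∈ cyl s) (ht : z ∈ cyl t)
    (h : s.length ≤ t.length) : s <+: t := by
  rw [mem_cyl] at hs ht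
  rw [← hs, ← ht]
  exact bini_prefix z h

@[simp] theorem cyl_nil : cyl [] = univ := by ext z; simp [cyl]

theorem mem_cyl_snoc {s : List Bool} {z : ℕ → Bool} (hz : z ∈ cyl s) :
    z ∈ cyl (s ++ [z s.length]) := by
  rw [mem_cyl] at hz ⊢
  rw [List.length_append, List.length_singleton, bini_succ, hz]

theorem isOpen_cyl (s : List Bool) : IsOpen (cyl s) := by
  have : cyl s = ⋂ i : Fin s.length, {z | z i = s[i]} := by
    ext z
    simp only [mem_cyl_iff, mem_iInter, mem_ofPred_eq]
    exact ⟨fun h i => h i i.2, fun h i hi => h ⟨i, hi⟩⟩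
  rw [this]
  refine isOpen_iInter_of_finite fun i => ?_
  have hc : Continuous fun z : ℕ → Bool => z (i : ℕ) := continuous_apply _
  exact (isOpen_discrete ({s[i]} : Set Bool)).preimage hc

theorem isClosed_cyl (s : List Bool) : IsClosed (cyl s) := by
  have : cyl s = ⋂ i : Fin s.length, {z | z i = s[i]} := by
    ext z
    simp only [mem_cyl_iff, mem_iInter, mem_ofPred_eq]
    exact ⟨fun h i => h i i.2, fun h i hi => h ⟨i, hi⟩⟩
  rw [this]
  refine isClosed_iInter fun i => ?_
  have hc : Continuous fun z : ℕ → Bool => z (i : ℕ) := continuous_apply _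
  exact (isClosed_discrete ({s[i]} : Set Bool)).preimage hc

theorem exists_cyl_subset {U : Set (ℕ → Bool)} (hU : IsOpen U) {z : ℕ → Bool} (hz : z ∈ U) :
    ∃ n, cyl (bini z n) ⊆ U := by
  rw [isOpen_pi_iff] at hU
  obtain ⟨I, u, hI, hIU⟩ := hU z hz
  refine ⟨I.sup id + 1, fun w hw => hIU ?_⟩
  intro i hi
  have h1 : i < I.sup id + 1 := Nat.lt_succ_of_le (Finset.le_sup (f := id) hi)
  have h2 := mem_cyl_iff.1 hw i (by simpa using h1)
  have h3 : w i = z i := by rw [h2]; simp [bini]
  rw [h3]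
  exact (hI i hi).2

/-- `C` meets the cylinder of `s`. -/
def hits (C : Set (ℕ → Bool)) (s : List Bool) : Prop := (C ∩ cyl s).Nonempty

theorem hits_mono {C D : Set (ℕ → Bool)} (h : C ⊆ D) {s : List Bool} (hs : hits C s) :
    hits D s := hs.mono (inter_subset_inter_left _ h)

theorem hits_anti {C : Set (ℕ → Bool)} {s t : List Bool} (h : s <+: t) (ht : hits C t) :
    hits C s := ht.mono (inter_subset_inter_right _ (cyl_anti h))

theorem hits_snoc {C : Set (ℕ → Bool)} {s : List Bool} :
    hits C s ↔ ∃ b, hits C (s ++ [b]) := by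
  constructor
  · rintro ⟨z, hz, hs⟩
    exact ⟨z s.length, z, hz, mem_cyl_snoc hs⟩
  · rintro ⟨b, h⟩
    exact hits_anti (List.prefix_append _ _) h

theorem hits_union {C D : Set (ℕ → Bool)} {s : List Bool} :
    hits (C ∪ D) s ↔ hits C s ∨ hits D s := by
  simp only [hits, union_inter_distrib_right, union_nonempty]

theorem hits_iUnion {κ : Sort*} {C : κ → Set (ℕ → Bool)} {s : List Bool} :
    hits (⋃ i, C i) s ↔ ∃ i, hits (C i) s := by
  simp only [hits, iUnion_inter, nonempty_iUnion]

theorem hits_closure {C : Set (ℕ → Bool)} {s : List Bool} : hits (closure C) s ↔ hits C s := by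
  constructor
  · rintro ⟨z, hz, hs⟩
    obtain ⟨w, hw1, hw2⟩ := mem_closure_iff.1 hz _ (isOpen_cyl s) hs
    exact ⟨w, hw2, hw1⟩
  · exact hits_mono subset_closure

theorem mem_closed_iff {C : Set (ℕ → Bool)} (hC : IsClosed C) {z : ℕ → Bool} :
    z ∈ C ↔ ∀ n, hits C (bini z n) := by
  constructor
  · intro hz n
    exact ⟨z, hz, mem_cyl_bini z n⟩
  · intro h
    rw [← hC.closure_eq, mem_closure_iff]
    intro U hU hz
    obtain ⟨n, hn⟩ := exists_cyl_subset hU hz
    obtain ⟨w, hw1, hw2⟩ := h n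
    exact ⟨w, hn hw2, hw1⟩

theorem subset_iff_hits {C D : Set (ℕ → Bool)} (hD : IsClosed D) :
    C ⊆ D ↔ ∀ s, hits C s → hits D s := by
  constructor
  · intro h s hs
    exact hits_mono h hs
  · intro h z hz
    rw [mem_closed_iff hD]
    exact fun n => h _ ⟨z, hz, mem_cyl_bini z n⟩

/-- The closed set of all branches of a tree. -/
def treeSet (D : List Bool → Prop) : Set (ℕ → Bool) := {z | ∀ n, D (bini z n)}

theorem isClosed_treeSet (D : List Bool → Prop) : IsClosed (treeSet D) := by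
  rw [← isOpen_compl_iff, isOpen_iff_mem_nhds]
  intro z hz
  simp only [treeSet, mem_compl_iff, mem_ofPred_eq, not_forall] at hz
  obtain ⟨n, hn⟩ := hz
  refine mem_of_superset ((isOpen_cyl _).mem_nhds (mem_cyl_bini z n)) ?_
  intro w hw
  rw [mem_cyl, bini_length] at hw
  simp only [treeSet, mem_compl_iff, mem_ofPred_eq, not_forall]
  exact ⟨n, hw ▸ hn⟩

/-- A pruned tree is recovered from its set of branches. -/
theorem hits_treeSet {D : List Bool → Prop} (hD : ∀ s, D s ↔ ∃ b, D (s ++ [b])) {s : List Bool} :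
    hits (treeSet D) s ↔ D s := by
  have hpre : ∀ (u s : List Bool), D (s ++ u) → D s := by
    intro u
    induction u with
    | nil => intro s h; simpa using h
    | cons b u ih =>
      intro s h
      have : D ((s ++ [b]) ++ u) := by simpa using h
      exact (hD s).2 ⟨b, ih _ this⟩
  constructor
  · rintro ⟨z, hz, hs⟩
    rw [mem_cyl] at hs
    rw [← hs]
    exact hz _
  · intro h
    choose! f hf using fun s => (hD s).1
    -- build a branch
    let g : ℕ → List Bool := fun n => Nat.rec s (fun _ t => t ++ [f t]) n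
    have hg : ∀ n, D (g n) := by
      intro n
      induction n with
      | zero => exact h
      | succ n ih => exact hf _ ih
    have hglen : ∀ n, (g n).length = s.length + n := by
      intro n
      induction n with
      | zero => rfl
      | succ n ih =>
        have : g (n + 1) = g n ++ [f (g n)] := rfl
        rw [this, List.length_append, ih]; simp; ring
    have hgp : ∀ m n, m ≤ n → g m <+: g n := by
      intro m n hmn
      induction n, hmn using Nat.le_induction with
      | base => exact List.prefix_rfl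
      | succ n _ ih => exact ih.trans (List.prefix_append _ _)
    set z : ℕ → Bool := fun i => (g (i + 1)).getD i false with hz
    have hzg : ∀ n, z ∈ cyl (g n) := by
      intro n
      rw [mem_cyl_iff]
      intro i hi
      have h1 : i < (g (i + 1)).length := by
        have := hglen (i + 1)
        omega
      rw [hz]
      simp only
      rw [List.getD_eq_getElem _ _ h1]
      rcases le_total n (i + 1) with h2 | h2
      · exact ((hgp _ _ h2).getElem hi).symm
      · exact (hgp _ _ h2).getElem h1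
    refine ⟨z, ?_, hzg 0⟩
    intro n
    have h1 : bini z n <+: g n := by
      apply prefix_of_mem_cyl (mem_cyl_bini z n) (hzg n)
      rw [bini_length, hglen]; omega
    obtain ⟨u, hu⟩ := h1
    exact hpre u _ (hu ▸ hg n)

/-- The clopen neighbourhood of `C` of level `n`. -/
def nb (C : Set (ℕ → Bool)) (n : ℕ) : Set (ℕ → Bool) := {z | hits C (bini z n)}

theorem subset_nb (C : Set (ℕ → Bool)) (n : ℕ) : C ⊆ nb C n :=
  fun z hz => ⟨z, hz, mem_cyl_bini z n⟩

theorem nb_anti (C : Set (ℕ → Bool)) : Antitone (nb C) :=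
  fun _ _ h _ hz => hits_anti (bini_prefix _ h) hz

theorem iInter_nb {C : Set (ℕ → Bool)} (hC : IsClosed C) : ⋂ n, nb C n = C := by
  ext z
  rw [mem_iInter, mem_closed_iff hC]
  rfl

theorem isOpen_level (n : ℕ) (P : List Bool → Prop) : IsOpen {z : ℕ → Bool | P (bini z n)} := by
  rw [isOpen_iff_mem_nhds]
  intro z hz
  refine mem_of_superset ((isOpen_cyl _).mem_nhds (mem_cyl_bini z n)) ?_
  intro w hw
  rw [mem_cyl, bini_length] at hw
  simp only [mem_ofPred_eq] at hz ⊢
  rw [hw]
  exact hz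

theorem isClopen_level (n : ℕ) (P : List Bool → Prop) :
    IsClopen {z : ℕ → Bool | P (bini z n)} := by
  refine ⟨?_, isOpen_level n P⟩
  rw [← isOpen_compl_iff]
  exact isOpen_level n fun s => ¬ P s

theorem isClopen_nb (C : Set (ℕ → Bool)) (n : ℕ) : IsClopen (nb C n) :=
  isClopen_level n (hits C)

theorem tendsto_coin_nb {C : Set (ℕ → Bool)} (hC : IsClosed C) :
    Tendsto (fun n => coin (nb C n)) atTop (𝓝 (coin C)) := by
  have := tendsto_measure_iInter_atTop (μ := coin) (s := nb C)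
    (fun n => (isClopen_nb C n).isOpen.measurableSet.nullMeasurableSet) (nb_anti C)
    ⟨0, measure_ne_top _ _⟩
  rwa [iInter_nb hC] at this

/-- The first level at which the clopen neighbourhood of `C` has measure at most `ε`. -/
noncomputable def lvl (C : Set (ℕ → Bool)) (ε : ENNReal) : ℕ := sInf {n | coin (nb C n) ≤ ε}

theorem coin_nb_lvl {C : Set (ℕ → Bool)} (hC : IsClosed C) (h0 : coin C = 0) {ε : ENNReal}
    (hε : 0 < ε) : coin (nb C (lvl C ε)) ≤ ε := by
  have h := tendsto_coin_nb hC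
  rw [h0] at h
  have h1 : ∀ᶠ n in atTop, coin (nb C n) < ε := h.eventually (gt_mem_nhds hε)
  obtain ⟨n, hn⟩ := h1.exists
  exact Nat.sInf_mem (s := {n | coin (nb C n) ≤ ε}) ⟨n, hn.le⟩

/-- Convergence of closed sets, in terms of cylinders, implies convergence in terms of open
neighbourhoods. -/
theorem eventually_subset {K : Set (ℕ → Bool)} {K' : ℕ → Set (ℕ → Bool)} (hK : IsClosed K)
    (h : ∀ s, ¬ hits K s → ∀ᶠ l in atTop, ¬ hits (K' l) s) {W : Set (ℕ → Bool)} (hW : IsOpen W)
    (hKW : K ⊆ W) : ∀ᶠ l in atTop, K' l ⊆ W := by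
  have hc : IsCompact Wᶜ := hW.isClosed_compl.isCompact
  have key : ∀ᶠ l in atTop, Disjoint (K' l) Wᶜ := by
    refine hc.induction_on (p := fun S => ∀ᶠ l in atTop, Disjoint (K' l) S) ?_ ?_ ?_ ?_
    · simp
    · intro S T hST h
      filter_upwards [h] with l hl
      exact hl.mono_right hST
    · intro S T hS hT
      filter_upwards [hS, hT] with l h1 h2
      exact Disjoint.union_right h1 h2
    · intro z hz
      have hzK : z ∉ K := fun h => hz (hKW h)
      rw [mem_closed_iff hK] at hzK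
      push Not at hzK
      obtain ⟨n, hn⟩ := hzK
      refine ⟨cyl (bini z n), mem_nhdsWithin_of_mem_nhds ((isOpen_cyl _).mem_nhds
        (mem_cyl_bini z n)), ?_⟩
      filter_upwards [h _ hn] with l hl
      rw [Set.disjoint_iff_inter_eq_empty]
      exact Set.not_nonempty_iff_eq_empty.1 hl
  filter_upwards [key] with l hl
  exact Set.disjoint_compl_right_iff_subset.1 hl

/-! ### The tree of closed null sets -/

/-- The node of `ω^{<ω}` reached from `s` along the first coordinates of `σ` (the list `σ` is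
read from right to left). -/
def path (s : List ℕ) : List (ℕ × ℕ) → List ℕ
  | [] => s
  | (l, _) :: σ => path s σ ++ [l]

theorem exists_weight : ∃ v : List (ℕ × ℕ) → ENNReal, (∀ σ, 0 < v σ) ∧ ∑' σ, v σ ≤ 1 := by
  obtain ⟨w, hw, hsum⟩ := ENNReal.exists_pos_sum_of_countable (ε := 1) one_ne_zero (List (ℕ × ℕ))
  exact ⟨fun σ => w σ, fun σ => ENNReal.coe_pos.2 (hw σ), hsum.le⟩

/-- Positive weights. -/
noncomputable def wt (σ : List (ℕ × ℕ)) : ENNReal :=
  Classical.choose exists_weight σ * (2⁻¹) ^ σ.length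

theorem wt_pos (σ : List (ℕ × ℕ)) : 0 < wt σ := by
  unfold wt
  have h1 := (Classical.choose_spec exists_weight).1 σ
  refine ENNReal.mul_pos h1.ne' (pow_ne_zero _ ?_)
  simp

theorem wt_sum (n : ℕ) : ∑' σ : {σ : List (ℕ × ℕ) // σ.length = n}, wt σ ≤ (2⁻¹) ^ n := by
  have h1 := (Classical.choose_spec exists_weight).2
  calc ∑' σ : {σ : List (ℕ × ℕ) // σ.length = n}, wt σ
      = ∑' σ : {σ : List (ℕ × ℕ) // σ.length = n},
          Classical.choose exists_weight σ * (2⁻¹) ^ n := by
        refine tsum_congr fun σ => ?_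
        rw [wt, σ.2]
    _ = (∑' σ : {σ : List (ℕ × ℕ) // σ.length = n}, Classical.choose exists_weight σ) *
          (2⁻¹) ^ n := ENNReal.tsum_mul_right
    _ ≤ 1 * (2⁻¹) ^ n := by
        gcongr
        exact (ENNReal.tsum_comp_le_tsum_of_injective Subtype.val_injective _).trans h1
    _ = _ := one_mul _

/-- The sets `A σ` and their neighbourhoods `O σ`. -/
noncomputable def nullTree (B : List ℕ → ℕ → Set (ℕ → Bool)) (B0 : Set (ℕ → Bool)) (s : List ℕ) :
    List (ℕ × ℕ) → Set (ℕ → Bool) × Set (ℕ → Bool)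
  | [] => (B0, univ)
  | (l, k) :: σ =>
    (B (path s σ ++ [l]) k ∩ ((nullTree B B0 s σ).2 ∩ nb (nullTree B B0 s σ).1 (l + k)),
      ((nullTree B B0 s σ).2 ∩ nb (nullTree B B0 s σ).1 (l + k)) ∩
        nb (B (path s σ ++ [l]) k ∩ ((nullTree B B0 s σ).2 ∩ nb (nullTree B B0 s σ).1 (l + k)))
          (lvl (B (path s σ ++ [l]) k ∩
            ((nullTree B B0 s σ).2 ∩ nb (nullTree B B0 s σ).1 (l + k))) (wt ((l, k) :: σ))))

section NullTree

variable {B : List ℕ → ℕ → Set (ℕ → Bool)} {B0 : Set (ℕ → Bool)} {s : List ℕ}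

/-- The clopen set in which the children of `σ` with index `j` live. -/
noncomputable def nullV (B : List ℕ → ℕ → Set (ℕ → Bool)) (B0 : Set (ℕ → Bool)) (s : List ℕ)
    (σ : List (ℕ × ℕ)) (j : ℕ) : Set (ℕ → Bool) :=
  (nullTree B B0 s σ).2 ∩ nb (nullTree B B0 s σ).1 j

theorem nullTree_fst_cons (l k : ℕ) (σ : List (ℕ × ℕ)) :
    (nullTree B B0 s ((l, k) :: σ)).1 = B (path s σ ++ [l]) k ∩ nullV B B0 s σ (l + k) := rfl

theorem nullTree_snd_cons (l k : ℕ) (σ : List (ℕ × ℕ)) :
    (nullTree B B0 s ((l, k) :: σ)).2 = nullV B B0 s σ (l + k) ∩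
      nb (nullTree B B0 s ((l, k) :: σ)).1
        (lvl (nullTree B B0 s ((l, k) :: σ)).1 (wt ((l, k) :: σ))) := rfl

theorem nullTree_clopen (σ : List (ℕ × ℕ)) : IsClopen (nullTree B B0 s σ).2 := by
  induction σ with
  | nil => exact isClopen_univ
  | cons a σ ih =>
    obtain ⟨l, k⟩ := a
    rw [nullTree_snd_cons]
    exact (ih.inter (isClopen_nb _ _)).inter (isClopen_nb _ _)

theorem nullV_clopen (σ : List (ℕ × ℕ)) (j : ℕ) : IsClopen (nullV B B0 s σ j) :=
  (nullTree_clopen σ).inter (isClopen_nb _ _)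

theorem nullTree_sub (σ : List (ℕ × ℕ)) : (nullTree B B0 s σ).1 ⊆ (nullTree B B0 s σ).2 := by
  cases σ with
  | nil => exact subset_univ _
  | cons a σ =>
    obtain ⟨l, k⟩ := a
    rw [nullTree_snd_cons]
    refine subset_inter ?_ (subset_nb _ _)
    rw [nullTree_fst_cons]
    exact inter_subset_right

theorem nullTree_sub_nullV (σ : List (ℕ × ℕ)) (j : ℕ) :
    (nullTree B B0 s σ).1 ⊆ nullV B B0 s σ j :=
  subset_inter (nullTree_sub σ) (subset_nb _ _)

theorem nullTree_closed (hB : ∀ t k, IsClosed (B t k)) (hB0 : IsClosed B0) (σ : List (ℕ × ℕ)) :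
    IsClosed (nullTree B B0 s σ).1 := by
  cases σ with
  | nil => exact hB0
  | cons a σ =>
    obtain ⟨l, k⟩ := a
    rw [nullTree_fst_cons]
    exact (hB _ _).inter (nullV_clopen σ _).isClosed

theorem nullTree_null (hB : ∀ t k, coin (B t k) = 0) (hB0 : coin B0 = 0) (σ : List (ℕ × ℕ)) :
    coin (nullTree B B0 s σ).1 = 0 := by
  cases σ with
  | nil => exact hB0
  | cons a σ =>
    obtain ⟨l, k⟩ := a
    rw [nullTree_fst_cons]
    exact measure_mono_null inter_subset_left (hB _ _)

theorem nullTree_small (hB : ∀ t k, IsClosed (B t k)) (hB0 : IsClosed B0)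
    (hB' : ∀ t k, coin (B t k) = 0) (hB0' : coin B0 = 0) (a : ℕ × ℕ) (σ : List (ℕ × ℕ)) :
    coin (nullTree B B0 s (a :: σ)).2 ≤ wt (a :: σ) := by
  obtain ⟨l, k⟩ := a
  rw [nullTree_snd_cons]
  exact (measure_mono inter_subset_right).trans
    (coin_nb_lvl (nullTree_closed hB hB0 _) (nullTree_null hB' hB0' _) (wt_pos _))

theorem nullTree_snd_anti (ρ σ : List (ℕ × ℕ)) :
    (nullTree B B0 s (ρ ++ σ)).2 ⊆ (nullTree B B0 s σ).2 := by
  induction ρ with
  | nil => exact Subset.rfl
  | cons a ρ ih =>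
    obtain ⟨l, k⟩ := a
    rw [List.cons_append, nullTree_snd_cons]
    exact (inter_subset_left.trans inter_subset_left).trans ih

/-- The closed set `B* = closure of the union of the A σ`. -/
noncomputable def nullStar (B : List ℕ → ℕ → Set (ℕ → Bool)) (B0 : Set (ℕ → Bool)) (s : List ℕ) :
    Set (ℕ → Bool) := closure (⋃ σ, (nullTree B B0 s σ).1)

theorem nullTree_sub_star (σ : List (ℕ × ℕ)) : (nullTree B B0 s σ).1 ⊆ nullStar B B0 s :=
  (subset_iUnion (fun σ => (nullTree B B0 s σ).1) σ).trans subset_closure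

/-- The closure of the part of the tree above `σ`. -/
noncomputable def nullAbove (B : List ℕ → ℕ → Set (ℕ → Bool)) (B0 : Set (ℕ → Bool)) (s : List ℕ)
    (σ : List (ℕ × ℕ)) : Set (ℕ → Bool) := closure (⋃ ρ, (nullTree B B0 s (ρ ++ σ)).1)

theorem nullAbove_sub (σ : List (ℕ × ℕ)) : nullAbove B B0 s σ ⊆ (nullTree B B0 s σ).2 := by
  apply closure_minimal _ (nullTree_clopen σ).isClosed
  exact iUnion_subset fun ρ => (nullTree_sub _).trans (nullTree_snd_anti ρ σ)

theorem nullAbove_split (hB : ∀ t k, IsClosed (B t k)) (hB0 : IsClosed B0) (σ : List (ℕ × ℕ)) :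
    nullAbove B B0 s σ ⊆ (nullTree B B0 s σ).1 ∪ ⋃ a : ℕ × ℕ, nullAbove B B0 s (a :: σ) := by
  intro z hz
  by_cases hzA : z ∈ (nullTree B B0 s σ).1
  · exact Or.inl hzA
  right
  rw [mem_closed_iff (nullTree_closed hB hB0 σ)] at hzA
  push Not at hzA
  obtain ⟨j, hj⟩ := hzA
  set N := cyl (bini z j) with hN
  -- the neighbourhood `N` of `z` meets only finitely many branches
  set I : Finset (ℕ × ℕ) := Finset.range j ×ˢ Finset.range j with hI
  have hsub : (⋃ ρ, (nullTree B B0 s (ρ ++ σ)).1) ∩ N ⊆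
      ⋃ a ∈ I, ⋃ ρ, (nullTree B B0 s (ρ ++ (a :: σ))).1 := by
    rintro w ⟨hw, hwN⟩
    obtain ⟨ρ, hρ⟩ := mem_iUnion.1 hw
    rcases List.eq_nil_or_concat' ρ with rfl | ⟨ρ', a, rfl⟩
    · exact absurd ⟨w, hρ, hwN⟩ hj
    · have hρ' : w ∈ (nullTree B B0 s (ρ' ++ (a :: σ))).1 := by simpa using hρ
      have hwO : w ∈ (nullTree B B0 s (a :: σ)).2 :=
        nullTree_snd_anti ρ' (a :: σ) (nullTree_sub _ hρ')
      obtain ⟨l, k⟩ := a
      have hwnb : w ∈ nb (nullTree B B0 s σ).1 (l + k) := hwO.1.2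
      have hlk : l + k < j := by
        by_contra hcon
        push Not at hcon
        apply hj
        have h1 : hits (nullTree B B0 s σ).1 (bini w (l + k)) := hwnb
        have h2 := hits_anti (bini_prefix w hcon) h1
        rw [mem_cyl, bini_length] at hwN
        rwa [hwN] at h2
      simp only [mem_iUnion]
      refine ⟨(l, k), ?_, ρ', hρ'⟩
      rw [hI, Finset.mem_product, Finset.mem_range, Finset.mem_range]
      simp only
      omega
  have hz2 : z ∈ closure ((⋃ ρ, (nullTree B B0 s (ρ ++ σ)).1) ∩ N) := by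
    rw [mem_closure_iff]
    intro U hU hzU
    obtain ⟨w, hw1, hw2⟩ := mem_closure_iff.1 hz (U ∩ N) (hU.inter (isOpen_cyl _))
      ⟨hzU, mem_cyl_bini z j⟩
    exact ⟨w, hw1.1, hw2, hw1.2⟩
  have hz3 := closure_mono hsub hz2
  rw [Finset.closure_biUnion] at hz3
  simp only [mem_iUnion] at hz3 ⊢
  obtain ⟨a, -, ha⟩ := hz3
  exact ⟨a, ha⟩

theorem nullAbove_level (hB : ∀ t k, IsClosed (B t k)) (hB0 : IsClosed B0) (n : ℕ) :
    nullAbove B B0 s [] ⊆ (⋃ σ, (nullTree B B0 s σ).1) ∪
      ⋃ σ : {σ : List (ℕ × ℕ) // σ.length = n}, nullAbove B B0 s σ := by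
  induction n with
  | zero =>
    intro z hz
    right
    exact mem_iUnion.2 ⟨⟨[], rfl⟩, hz⟩
  | succ n ih =>
    intro z hz
    rcases ih hz with h | h
    · exact Or.inl h
    · obtain ⟨⟨σ, hσ⟩, h⟩ := mem_iUnion.1 h
      rcases nullAbove_split hB hB0 σ h with h | h
      · exact Or.inl (mem_iUnion.2 ⟨σ, h⟩)
      · obtain ⟨a, h⟩ := mem_iUnion.1 h
        exact Or.inr (mem_iUnion.2 ⟨⟨a :: σ, by simp [hσ]⟩, h⟩)

theorem nullStar_closed : IsClosed (nullStar B B0 s) := isClosed_closure

theorem nullStar_null (hB : ∀ t k, IsClosed (B t k)) (hB0 : IsClosed B0)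
    (hB' : ∀ t k, coin (B t k) = 0) (hB0' : coin B0 = 0) : coin (nullStar B B0 s) = 0 := by
  have h1 : nullStar B B0 s = nullAbove B B0 s [] := by simp [nullStar, nullAbove]
  have key : ∀ n : ℕ, coin (nullStar B B0 s) ≤ (2⁻¹) ^ (n + 1) := by
    intro n
    rw [h1]
    calc coin (nullAbove B B0 s [])
        ≤ coin ((⋃ σ, (nullTree B B0 s σ).1) ∪
            ⋃ σ : {σ : List (ℕ × ℕ) // σ.length = n + 1}, nullAbove B B0 s σ) :=
          measure_mono (nullAbove_level hB hB0 (n + 1))
      _ ≤ coin (⋃ σ, (nullTree B B0 s σ).1) +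
            coin (⋃ σ : {σ : List (ℕ × ℕ) // σ.length = n + 1}, nullAbove B B0 s σ) :=
          measure_union_le _ _
      _ = coin (⋃ σ : {σ : List (ℕ × ℕ) // σ.length = n + 1}, nullAbove B B0 s σ) := by
          rw [measure_iUnion_null fun σ => nullTree_null hB' hB0' σ, zero_add]
      _ ≤ ∑' σ : {σ : List (ℕ × ℕ) // σ.length = n + 1}, coin (nullAbove B B0 s σ) :=
          measure_iUnion_le _
      _ ≤ ∑' σ : {σ : List (ℕ × ℕ) // σ.length = n + 1}, wt σ := by
          refine ENNReal.tsum_le_tsum fun σ => ?_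
          obtain ⟨σ, hσ⟩ := σ
          refine (measure_mono (nullAbove_sub σ)).trans ?_
          cases σ with
          | nil => simp at hσ
          | cons a σ => exact nullTree_small hB hB0 hB' hB0' a σ
      _ ≤ (2⁻¹) ^ (n + 1) := wt_sum (n + 1)
  have hlim : Tendsto (fun n : ℕ => (2⁻¹ : ENNReal) ^ (n + 1)) atTop (𝓝 0) :=
    (ENNReal.tendsto_pow_atTop_nhds_zero_of_lt_one (by norm_num)).comp (tendsto_add_atTop_nat 1)
  exact le_antisymm (ge_of_tendsto' hlim key) bot_le

end NullTree

end Pool.Agent.Lib.MP_40b13d_lc
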