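import Mathlib

/-!
# A topological form of a finite support iteration

`ι` is a well-ordered index set and `Pt ι = ι → ℕ → ℕ`.  At every coordinate `β` we iterate the
forcing whose conditions are pairs (stem, promise) - Laver forcing for the Fréchet filter.
Conditions are finitely supported; a condition `p` is identified with the set `p.set` of points
obeying it, and the conditions with support below `θ` form a base of a topology on `Pt ι`.
-/

open Set

namespace Pool.Agent.Lib.MP_40b13d_lc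

/-- The list of the first `n` values of `y`. -/
def ini (y : ℕ → ℕ) (n : ℕ) : List ℕ := (List.range n).map y

@[simp] theorem ini_length (y : ℕ → ℕ) (n : ℕ) : (ini y n).length = n := by simp [ini]

theorem ini_succ (y : ℕ → ℕ) (n : ℕ) : ini y (n + 1) = ini y n ++ [y n] := by
  simp [ini, List.range_succ]

@[simp] theorem ini_zero (y : ℕ → ℕ) : ini y 0 = [] := rfl

theorem ini_prefix (y : ℕ → ℕ) {m n : ℕ} (h : m ≤ n) : ini y m <+: ini y n := by
  induction n, h using Nat.le_induction with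
  | base => exact List.prefix_rfl
  | succ n _ ih => rw [ini_succ]; exact ih.trans (List.prefix_append _ _)

/-- `s` is an initial segment of `y`. -/
def IsIni (s : List ℕ) (y : ℕ → ℕ) : Prop := ini y s.length = s

theorem isIni_ini (y : ℕ → ℕ) (n : ℕ) : IsIni (ini y n) y := by simp [IsIni]

@[simp] theorem isIni_nil (y : ℕ → ℕ) : IsIni [] y := rfl

theorem IsIni.pfx {s t : List ℕ} {y : ℕ → ℕ} (hs : IsIni s y) (ht : IsIni t y)
    (h : s.length ≤ t.length) : s <+: t := by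
  rw [← hs, ← ht]; exact ini_prefix y h

theorem IsIni.mono {s t : List ℕ} {y : ℕ → ℕ} (ht : IsIni t y) (h : s <+: t) : IsIni s y := by
  have h1 : ini y s.length <+: t := by
    rw [← ht]; exact ini_prefix y h.length_le
  exact (List.prefix_of_prefix_length_le h1 h (by simp)).eq_of_length (by simp)

theorem isIni_snoc {s : List ℕ} {k : ℕ} {y : ℕ → ℕ} :
    IsIni (s ++ [k]) y ↔ IsIni s y ∧ y s.length = k := by
  constructor
  · intro h
    have h1 : IsIni s y := h.mono (List.prefix_append _ _)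
    refine ⟨h1, ?_⟩
    have h2 := h
    rw [IsIni, List.length_append, List.length_singleton, ini_succ, h1] at h2
    simpa using h2
  · rintro ⟨h1, h2⟩
    rw [IsIni, List.length_append, List.length_singleton, ini_succ, h1, h2]

theorem prefix_snoc_iff {s t : List ℕ} {k : ℕ} : s <+: t ++ [k] ↔ s <+: t ∨ s = t ++ [k] := by
  rw [List.prefix_concat_iff]; tauto

variable {ι : Type*}

/-- The points. -/
abbrev Pt (ι : Type*) := ι → ℕ → ℕ

/-- A (candidate for a name of a) promise: `x ∈ G t k` means that at the point `x` the promise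
allows the value `k` after the sequence `t`. -/
abbrev Prom (ι : Type*) := List ℕ → ℕ → Set (Pt ι)

/-- The points whose coordinate `β` extends `s` and obeys the promise `G`. -/
def Box (β : ι) (s : List ℕ) (G : Prom ι) : Set (Pt ι) :=
  {x | IsIni s (x β) ∧ ∀ t k, s <+: t → IsIni (t ++ [k]) (x β) → x ∈ G t k}

/-- A condition: finite support, stems and promises. -/
structure Cond (ι : Type*) where
  supp : Finset ι
  stem : ι → List ℕ
  prom : ι → Prom ι

/-- The set of points obeying a condition. -/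
def Cond.set (p : Cond ι) : Set (Pt ι) := {x | ∀ β ∈ p.supp, x ∈ Box β (p.stem β) (p.prom β)}

/-- The trivial condition. -/
def Cond.triv : Cond ι := ⟨∅, fun _ => [], fun _ _ _ => univ⟩

@[simp] theorem Cond.triv_set : (Cond.triv : Cond ι).set = univ := by
  ext x; simp [Cond.triv, Cond.set]

variable [LinearOrder ι]

/-- Restriction of a condition to coordinates below `β`. -/
def Cond.res (p : Cond ι) (β : ι) : Cond ι := ⟨p.supp.filter (· < β), p.stem, p.prom⟩

@[simp] theorem Cond.mem_res_supp {p : Cond ι} {β γ : ι} :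
    γ ∈ (p.res β).supp ↔ γ ∈ p.supp ∧ γ < β := by simp [Cond.res]

@[simp] theorem Cond.res_stem {p : Cond ι} {β : ι} : (p.res β).stem = p.stem := rfl
@[simp] theorem Cond.res_prom {p : Cond ι} {β : ι} : (p.res β).prom = p.prom := rfl

theorem Cond.mem_res_set {p : Cond ι} {β : ι} {x : Pt ι} :
    x ∈ (p.res β).set ↔ ∀ γ ∈ p.supp, γ < β → x ∈ Box γ (p.stem γ) (p.prom γ) := by
  simp [Cond.set]

theorem Cond.set_subset_res (p : Cond ι) (β : ι) : p.set ⊆ (p.res β).set := by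
  intro x hx
  rw [Cond.mem_res_set]
  exact fun γ hγ _ => hx γ hγ

theorem Cond.res_res_set (p : Cond ι) {β γ : ι} (h : γ ≤ β) :
    ((p.res β).res γ).set = (p.res γ).set := by
  ext x
  simp only [Cond.mem_res_set, Cond.mem_res_supp, Cond.res_stem, Cond.res_prom]
  constructor
  · intro H δ hδ hδγ
    exact H δ ⟨hδ, hδγ.trans_le h⟩ hδγ
  · intro H δ hδ hδγ
    exact H δ hδ.1 hδγ

theorem Cond.res_set_anti (p : Cond ι) {β γ : ι} (h : γ ≤ β) : (p.res β).set ⊆ (p.res γ).set := by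
  rw [← p.res_res_set h]
  exact (p.res β).set_subset_res γ

/-- `r` is a stronger condition than `p` (syntactically). -/
def Cond.Le (r p : Cond ι) : Prop :=
  p.supp ⊆ r.supp ∧ ∀ β ∈ p.supp, p.stem β <+: r.stem β ∧
    (∀ t k, p.stem β <+: t → t ++ [k] <+: r.stem β → (r.res β).set ⊆ p.prom β t k) ∧
    ∀ t k, r.prom β t k ⊆ p.prom β t k

theorem Cond.le_refl (p : Cond ι) : p.Le p := by
  refine ⟨Finset.Subset.refl _, fun β _ => ⟨List.prefix_rfl, ?_, fun t k => Subset.rfl⟩⟩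
  intro t k h1 h2
  have := h1.length_le
  have := h2.length_le
  simp at this
  omega

theorem Cond.Le.subset {r p : Cond ι} (h : r.Le p) : r.set ⊆ p.set := by
  intro x hx β hβ
  obtain ⟨h1, h2, h3⟩ := h.2 β hβ
  have hxr := hx β (h.1 hβ)
  refine ⟨hxr.1.mono h1, ?_⟩
  intro t k ht hk
  rcases le_or_gt (r.stem β).length t.length with hl | hl
  · exact h3 t k (hxr.2 t k (hxr.1.pfx (hk.mono (List.prefix_append _ _)) hl) hk)
  · have : t ++ [k] <+: r.stem β := hk.pfx hxr.1 (by simpa using hl)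
    exact h2 t k ht this (r.set_subset_res β hx)

theorem Cond.Le.res {r p : Cond ι} (h : r.Le p) (β : ι) : (r.res β).Le (p.res β) := by
  refine ⟨?_, ?_⟩
  · intro γ hγ
    rw [Cond.mem_res_supp] at hγ ⊢
    exact ⟨h.1 hγ.1, hγ.2⟩
  · intro γ hγ
    rw [Cond.mem_res_supp] at hγ
    obtain ⟨h1, h2, h3⟩ := h.2 γ hγ.1
    refine ⟨h1, ?_, h3⟩
    rw [r.res_res_set hγ.2.le]
    exact h2

theorem Cond.Le.trans {r q p : Cond ι} (hrq : r.Le q) (hqp : q.Le p) : r.Le p := by
  refine ⟨hqp.1.trans hrq.1, ?_⟩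
  intro β hβ
  obtain ⟨a1, a2, a3⟩ := hqp.2 β hβ
  obtain ⟨b1, b2, b3⟩ := hrq.2 β (hqp.1 hβ)
  refine ⟨a1.trans b1, ?_, fun t k => (b3 t k).trans (a3 t k)⟩
  intro t k ht hk
  rcases le_or_gt (q.stem β).length t.length with hl | hl
  · have : q.stem β <+: t :=
      List.prefix_of_prefix_length_le b1 ((List.prefix_append _ _).trans hk) hl
    exact (b2 t k this hk).trans (a3 t k)
  · have : t ++ [k] <+: q.stem β :=
      List.prefix_of_prefix_length_le hk b1 (by simpa using hl)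
    exact ((hrq.res β).subset).trans (a2 t k ht this)

theorem Cond.le_res (p : Cond ι) (β : ι) : p.Le (p.res β) := by
  refine ⟨?_, ?_⟩
  · intro γ hγ
    rw [Cond.mem_res_supp] at hγ
    exact hγ.1
  · intro γ hγ
    exact (p.le_refl).2 γ (Cond.mem_res_supp.1 hγ).1

/-- Adding a top coordinate to a condition. -/
def Cond.ext (p : Cond ι) (β : ι) (s : List ℕ) (G : Prom ι) : Cond ι :=
  ⟨insert β p.supp, Function.update p.stem β s, Function.update p.prom β G⟩

theorem Cond.ext_res_set {p : Cond ι} {β : ι} {s : List ℕ} {G : Prom ι}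
    (hp : ∀ γ ∈ p.supp, γ < β) {γ : ι} (hγ : γ ≤ β) :
    ((p.ext β s G).res γ).set = (p.res γ).set := by
  ext x
  simp only [Cond.mem_res_set, Cond.ext, Finset.mem_insert]
  constructor
  · intro H δ hδ hδγ
    have h1 : δ ≠ β := (hp δ hδ).ne
    have := H δ (Or.inr hδ) hδγ
    simpa [Function.update_of_ne h1] using this
  · intro H δ hδ hδγ
    have h1 : δ ≠ β := (hδγ.trans_le hγ).ne
    have := H δ (hδ.resolve_left h1) hδγ
    simpa [Function.update_of_ne h1] using this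

theorem Cond.res_set_self {p : Cond ι} {β : ι} (hp : ∀ γ ∈ p.supp, γ < β) :
    (p.res β).set = p.set := by
  ext x
  rw [Cond.mem_res_set]
  exact ⟨fun H γ hγ => H γ hγ (hp γ hγ), fun H γ hγ _ => H γ hγ⟩

theorem Cond.ext_set {p : Cond ι} {β : ι} {s : List ℕ} {G : Prom ι}
    (hp : ∀ γ ∈ p.supp, γ < β) : (p.ext β s G).set = p.set ∩ Box β s G := by
  ext x
  simp only [Cond.set, Cond.ext, Finset.mem_insert, mem_inter_iff, mem_ofPred_eq, forall_eq_or_imp,
    Function.update_self]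
  rw [and_comm]
  refine and_congr_left fun _ => forall_congr' fun γ => forall_congr' fun hγ => ?_
  have h1 : γ ≠ β := (hp γ hγ).ne
  simp [Function.update_of_ne h1]

/-- How to show that `p'.ext β s G` is stronger than `p`. -/
theorem Cond.ext_le {p' p : Cond ι} {β : ι} {s : List ℕ} {G : Prom ι}
    (hp' : ∀ γ ∈ p'.supp, γ < β) (hp : ∀ γ ∈ p.supp, γ ≤ β) (h : p'.Le (p.res β))
    (hβ : β ∈ p.supp → p.stem β <+: s ∧
      (∀ t k, p.stem β <+: t → t ++ [k] <+: s → p'.set ⊆ p.prom β t k) ∧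
      ∀ t k, G t k ⊆ p.prom β t k) : (p'.ext β s G).Le p := by
  refine ⟨?_, ?_⟩
  · intro γ hγ
    rcases (hp γ hγ).lt_or_eq with h1 | rfl
    · exact Finset.mem_insert_of_mem (h.1 (Cond.mem_res_supp.2 ⟨hγ, h1⟩))
    · exact Finset.mem_insert_self _ _
  · intro γ hγ
    rcases (hp γ hγ).lt_or_eq with h1 | rfl
    · obtain ⟨a1, a2, a3⟩ := h.2 γ (Cond.mem_res_supp.2 ⟨hγ, h1⟩)
      rw [Cond.ext_res_set hp' h1.le]
      simp only [Cond.ext, Function.update_of_ne h1.ne]
      exact ⟨a1, a2, a3⟩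
    · obtain ⟨a1, a2, a3⟩ := hβ hγ
      rw [Cond.ext_res_set hp' le_rfl, Cond.res_set_self hp']
      simp only [Cond.ext, Function.update_self]
      exact ⟨a1, a2, a3⟩

variable [WellFoundedLT ι]

/-- One step of the recursive definition of the valid promises. -/
def goodStep (β : ι) (IH : ∀ γ, γ < β → Prom ι → Prop) (G : Prom ι) : Prop :=
  ∀ t, Monotone (G t) ∧
    (∀ k, ∃ C : Set (Cond ι), C.Countable ∧
      (∀ p ∈ C, ∀ γ ∈ p.supp, ∃ h : γ < β, IH γ h (p.prom γ)) ∧ G t k = ⋃ p ∈ C, p.set) ∧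
    ∀ q : Cond ι, (∀ γ ∈ q.supp, ∃ h : γ < β, IH γ h (q.prom γ)) → ∃ k, (q.set ∩ G t k).Nonempty

/-- The valid promises at coordinate `β`. -/
def Good : ι → Prom ι → Prop := wellFounded_lt.fix goodStep

/-- The valid conditions with support below `θ`. -/
def Valid (θ : ι) (p : Cond ι) : Prop := ∀ γ ∈ p.supp, γ < θ ∧ Good γ (p.prom γ)

/-- Countable unions of basic sets. -/
def COpen (θ : ι) (U : Set (Pt ι)) : Prop :=
  ∃ C : Set (Cond ι), C.Countable ∧ (∀ p ∈ C, Valid θ p) ∧ U = ⋃ p ∈ C, p.set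

theorem good_iff {β : ι} {G : Prom ι} :
    Good β G ↔ ∀ t, Monotone (G t) ∧ (∀ k, COpen β (G t k)) ∧
      ∀ q, Valid β q → ∃ k, (q.set ∩ G t k).Nonempty := by
  rw [Good, WellFounded.fix_eq]
  simp only [goodStep, COpen, Valid, exists_prop]
  rfl

theorem Valid.mono {θ θ' : ι} (h : θ ≤ θ') {p : Cond ι} (hp : Valid θ p) : Valid θ' p :=
  fun γ hγ => ⟨(hp γ hγ).1.trans_le h, (hp γ hγ).2⟩

theorem Valid.res {θ : ι} {p : Cond ι} (hp : Valid θ p) (β : ι) : Valid β (p.res β) := by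
  intro γ hγ
  rw [Cond.mem_res_supp] at hγ
  exact ⟨hγ.2, (hp γ hγ.1).2⟩

theorem valid_triv (θ : ι) : Valid θ (Cond.triv : Cond ι) := by
  intro γ hγ; simp [Cond.triv] at hγ

theorem Valid.ext {θ β : ι} (hβ : β < θ) {p : Cond ι} (hp : Valid β p) {s : List ℕ} {G : Prom ι}
    (hG : Good β G) : Valid θ (p.ext β s G) := by
  intro γ hγ
  rcases eq_or_ne γ β with rfl | h
  · simp only [Cond.ext, Function.update_self]; exact ⟨hβ, hG⟩
  · simp only [Cond.ext, Finset.mem_insert, Function.update_of_ne h] at hγ ⊢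
    have := hp γ (hγ.resolve_left h)
    exact ⟨this.1.trans hβ, this.2⟩


/-- Refinement inside a countable union of basic sets, at a level where binary refinement is
available. -/
theorem refine_open {θ : ι}
    (H : ∀ p q : Cond ι, Valid θ p → Valid θ q → ∃ R : Set (Cond ι), R.Countable ∧
      (∀ r ∈ R, Valid θ r ∧ r.Le p ∧ r.Le q) ∧ p.set ∩ q.set ⊆ ⋃ r ∈ R, r.set)
    {p : Cond ι} (hp : Valid θ p) {U : Set (Pt ι)} (hU : COpen θ U) :
    ∃ R : Set (Cond ι), R.Countable ∧ (∀ r ∈ R, Valid θ r ∧ r.Le p ∧ r.set ⊆ U) ∧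
      p.set ∩ U ⊆ ⋃ r ∈ R, r.set := by
  obtain ⟨C, hC, hCv, rfl⟩ := hU
  choose! R hR using fun c (hc : c ∈ C) => H p c hp (hCv c hc)
  refine ⟨⋃ c ∈ C, R c, hC.biUnion fun c hc => (hR c hc).1, ?_, ?_⟩
  · intro r hr
    simp only [mem_iUnion] at hr
    obtain ⟨c, hc, hr⟩ := hr
    obtain ⟨h1, h2, h3⟩ := (hR c hc).2.1 r hr
    exact ⟨h1, h2, h3.subset.trans (subset_biUnion_of_mem (u := fun c : Cond ι => c.set) hc)⟩
  · rintro x ⟨hxp, hx⟩
    simp only [mem_iUnion] at hx ⊢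
    obtain ⟨c, hc, hx⟩ := hx
    have := (hR c hc).2.2 ⟨hxp, hx⟩
    simp only [mem_iUnion] at this
    obtain ⟨r, hr, hxr⟩ := this
    exact ⟨r, ⟨c, hc, hr⟩, hxr⟩

theorem refine_list {θ : ι}
    (H : ∀ p q : Cond ι, Valid θ p → Valid θ q → ∃ R : Set (Cond ι), R.Countable ∧
      (∀ r ∈ R, Valid θ r ∧ r.Le p ∧ r.Le q) ∧ p.set ∩ q.set ⊆ ⋃ r ∈ R, r.set)
    {α : Type*} (L : List α) (W : α → Set (Pt ι)) :
    (∀ a ∈ L, COpen θ (W a)) → ∀ {p : Cond ι}, Valid θ p →
    ∃ R : Set (Cond ι), R.Countable ∧ (∀ r ∈ R, Valid θ r ∧ r.Le p ∧ ∀ a ∈ L, r.set ⊆ W a) ∧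
      ∀ x ∈ p.set, (∀ a ∈ L, x ∈ W a) → ∃ r ∈ R, x ∈ r.set := by
  induction L with
  | nil =>
    intro _ p hp
    exact ⟨{p}, countable_singleton p, by
      rintro r rfl; exact ⟨hp, r.le_refl, by simp⟩, fun x hx _ => ⟨p, rfl, hx⟩⟩
  | cons a L ih =>
    intro hW p hp
    obtain ⟨R, hR, hRv, hRc⟩ := ih (fun b hb => hW b (List.mem_cons_of_mem _ hb)) hp
    choose! S hS using fun r (hr : r ∈ R) =>
      refine_open H (hRv r hr).1 (hW a List.mem_cons_self)
    refine ⟨⋃ r ∈ R, S r, hR.biUnion fun r hr => (hS r hr).1, ?_, ?_⟩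
    · intro s hs
      simp only [mem_iUnion] at hs
      obtain ⟨r, hr, hs⟩ := hs
      obtain ⟨h1, h2, h3⟩ := (hS r hr).2.1 s hs
      refine ⟨h1, h2.trans (hRv r hr).2.1, ?_⟩
      intro b hb
      rcases List.mem_cons.1 hb with rfl | hb
      · exact h3
      · exact h2.subset.trans ((hRv r hr).2.2 b hb)
    · intro x hx hxW
      obtain ⟨r, hr, hxr⟩ := hRc x hx fun b hb => hxW b (List.mem_cons_of_mem _ hb)
      have := (hS r hr).2.2 ⟨hxr, hxW a List.mem_cons_self⟩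
      simp only [mem_iUnion] at this
      obtain ⟨s, hs, hxs⟩ := this
      exact ⟨s, by simp only [mem_iUnion]; exact ⟨r, hr, hs⟩, hxs⟩

theorem COpen.inter_of {θ : ι}
    (H : ∀ p q : Cond ι, Valid θ p → Valid θ q → ∃ R : Set (Cond ι), R.Countable ∧
      (∀ r ∈ R, Valid θ r ∧ r.Le p ∧ r.Le q) ∧ p.set ∩ q.set ⊆ ⋃ r ∈ R, r.set)
    {U V : Set (Pt ι)} (hU : COpen θ U) (hV : COpen θ V) : COpen θ (U ∩ V) := by
  obtain ⟨C, hC, hCv, rfl⟩ := hU
  choose! R hR using fun c (hc : c ∈ C) => refine_open H (hCv c hc) hV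
  refine ⟨⋃ c ∈ C, R c, hC.biUnion fun c hc => (hR c hc).1, ?_, ?_⟩
  · intro r hr
    simp only [mem_iUnion] at hr
    obtain ⟨c, hc, hr⟩ := hr
    exact ((hR c hc).2.1 r hr).1
  · apply Subset.antisymm
    · rintro x ⟨hx, hxV⟩
      simp only [mem_iUnion] at hx ⊢
      obtain ⟨c, hc, hx⟩ := hx
      have := (hR c hc).2.2 ⟨hx, hxV⟩
      simp only [mem_iUnion] at this
      obtain ⟨r, hr, hxr⟩ := this
      exact ⟨r, ⟨c, hc, hr⟩, hxr⟩
    · intro x hx
      simp only [mem_iUnion] at hx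
      obtain ⟨r, ⟨c, hc, hr⟩, hx⟩ := hx
      obtain ⟨h1, h2, h3⟩ := (hR c hc).2.1 r hr
      refine ⟨?_, h3 hx⟩
      simp only [mem_iUnion]
      exact ⟨c, hc, h2.subset hx⟩

/-- The intersection of two promises. -/
def Prom.inf (G H : Prom ι) : Prom ι := fun t k => G t k ∩ H t k

theorem Good.inf_of {θ : ι}
    (H : ∀ p q : Cond ι, Valid θ p → Valid θ q → ∃ R : Set (Cond ι), R.Countable ∧
      (∀ r ∈ R, Valid θ r ∧ r.Le p ∧ r.Le q) ∧ p.set ∩ q.set ⊆ ⋃ r ∈ R, r.set)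
    {G G' : Prom ι} (hG : Good θ G) (hG' : Good θ G') : Good θ (G.inf G') := by
  rw [good_iff] at hG hG' ⊢
  intro t
  obtain ⟨m1, o1, d1⟩ := hG t
  obtain ⟨m2, o2, d2⟩ := hG' t
  refine ⟨fun a b hab => inter_subset_inter (m1 hab) (m2 hab), fun k => (o1 k).inter_of H (o2 k),
    ?_⟩
  intro q hq
  obtain ⟨k1, x, hxq, hx⟩ := d1 q hq
  obtain ⟨R, -, hRv, hRc⟩ := refine_open H hq (o1 k1)
  have := hRc ⟨hxq, hx⟩
  simp only [mem_iUnion] at this
  obtain ⟨r, hr, -⟩ := this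
  obtain ⟨h1, h2, h3⟩ := hRv r hr
  obtain ⟨k2, y, hy, hy2⟩ := d2 r h1
  exact ⟨max k1 k2, y, h2.subset hy, m1 (le_max_left _ _) (h3 hy), m2 (le_max_right _ _) hy2⟩

/-- Auxiliary case of the refinement theorem: both conditions have `β` in their support and the
stem of `p` at `β` is an initial segment of the one of `q`. -/
theorem refine_aux {θ β : ι} (hβθ : β < θ)
    (H : ∀ p q : Cond ι, Valid β p → Valid β q → ∃ R : Set (Cond ι), R.Countable ∧
      (∀ r ∈ R, Valid β r ∧ r.Le p ∧ r.Le q) ∧ p.set ∩ q.set ⊆ ⋃ r ∈ R, r.set)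
    {p q : Cond ι} (hp : Valid θ p) (hq : Valid θ q) (hpm : ∀ γ ∈ p.supp, γ ≤ β)
    (hqm : ∀ γ ∈ q.supp, γ ≤ β) (hpβ : β ∈ p.supp) (hqβ : β ∈ q.supp)
    (hst : p.stem β <+: q.stem β) :
    ∃ R : Set (Cond ι), R.Countable ∧
      (∀ r ∈ R, Valid θ r ∧ r.Le p ∧ r.Le q) ∧ p.set ∩ q.set ⊆ ⋃ r ∈ R, r.set := by
  obtain ⟨R1, hR1, hR1v, hR1c⟩ := H _ _ (hp.res β) (hq.res β)
  have hGp := good_iff.1 (hp β hpβ).2
  set s := q.stem β with hs
  set L := (List.range s.length).filter (fun n => (p.stem β).length ≤ n) with hL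
  set W : ℕ → Set (Pt ι) := fun n => p.prom β (s.take n) (s.getD n 0) with hW
  choose! R2 hR2 using fun r (hr : r ∈ R1) =>
    refine_list H L W (fun a _ => (hGp _).2.1 _) (hR1v r hr).1
  set G := (p.prom β).inf (q.prom β) with hG
  have hGood : Good β G := Good.inf_of H (hp β hpβ).2 (hq β hqβ).2
  have hstW : ∀ t k, p.stem β <+: t → t ++ [k] <+: s →
      t.length ∈ L ∧ W t.length = p.prom β t k := by
    intro t k ht hk
    have h1 : t = s.take t.length := by
      have := List.prefix_iff_eq_take.1 ((List.prefix_append t [k]).trans hk)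
      exact this
    have h2 : t.length < s.length := by
      have := hk.length_le
      simp at this
      omega
    have h3 : s.getD t.length 0 = k := by
      obtain ⟨u, hu⟩ := hk
      rw [← hu]
      simp
    refine ⟨?_, ?_⟩
    · rw [hL, List.mem_filter]
      exact ⟨List.mem_range.2 h2, by simpa using ht.length_le⟩
    · simp only [hW]
      rw [h3, ← h1]
  refine ⟨⋃ r ∈ R1, (fun r' : Cond ι => r'.ext β s G) '' R2 r,
    hR1.biUnion fun r hr => (hR2 r hr).1.image _, ?_, ?_⟩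
  · intro r' hr'
    simp only [mem_iUnion, mem_image] at hr'
    obtain ⟨r, hr, r2, hr2, rfl⟩ := hr'
    obtain ⟨v2, l2, w2⟩ := (hR2 r hr).2.1 r2 hr2
    obtain ⟨v1, lp, lq⟩ := hR1v r hr
    have hsup : ∀ γ ∈ r2.supp, γ < β := fun γ hγ => (v2 γ hγ).1
    refine ⟨v2.ext hβθ hGood, ?_, ?_⟩
    · apply Cond.ext_le hsup hpm (l2.trans lp)
      intro _
      refine ⟨hst, ?_, fun t k => inter_subset_left⟩
      intro t k ht hk
      obtain ⟨h1, h2⟩ := hstW t k ht hk
      rw [← h2]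
      exact w2 _ h1
    · apply Cond.ext_le hsup hqm (l2.trans lq)
      intro _
      refine ⟨List.prefix_rfl, ?_, fun t k => inter_subset_right⟩
      intro t k ht hk
      have h1 : s.length ≤ t.length := ht.length_le
      have h2 : t.length + 1 ≤ s.length := by simpa using hk.length_le
      omega
  · rintro x ⟨hxp, hxq⟩
    have hxpβ := hxp β hpβ
    have hxqβ := hxq β hqβ
    have h1 := hR1c ⟨p.set_subset_res β hxp, q.set_subset_res β hxq⟩
    simp only [mem_iUnion] at h1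
    obtain ⟨r, hr, hxr⟩ := h1
    obtain ⟨r2, hr2, hxr2⟩ := (hR2 r hr).2.2 x hxr (by
      intro n hn
      rw [hL, List.mem_filter, List.mem_range] at hn
      have hn1 := hn.1
      have hn2 : (p.stem β).length ≤ n := by simpa using hn.2
      apply hxpβ.2
      · exact List.prefix_of_prefix_length_le hst (List.take_prefix _ _) (by simp; omega)
      · have : s.take n ++ [s.getD n 0] = s.take (n + 1) := by
          rw [List.take_succ_eq_append_getElem hn1]
          simp [hn1]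
        rw [this]
        exact hxqβ.1.mono (List.take_prefix _ _))
    simp only [mem_iUnion, mem_image]
    refine ⟨r2.ext β s G, ⟨r, hr, r2, hr2, rfl⟩, ?_⟩
    rw [Cond.ext_set fun γ hγ => (((hR2 r hr).2.1 r2 hr2).1 γ hγ).1]
    refine ⟨hxr2, hxqβ.1, ?_⟩
    intro t k ht hk
    exact ⟨hxpβ.2 t k (hst.trans ht) hk, hxqβ.2 t k ht hk⟩

/-- Auxiliary case of the refinement theorem: only `p` has `β` in its support. -/
theorem refine_aux' {θ β : ι} (hβθ : β < θ)
    (H : ∀ p q : Cond ι, Valid β p → Valid β q → ∃ R : Set (Cond ι), R.Countable ∧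
      (∀ r ∈ R, Valid β r ∧ r.Le p ∧ r.Le q) ∧ p.set ∩ q.set ⊆ ⋃ r ∈ R, r.set)
    {p q : Cond ι} (hp : Valid θ p) (hq : Valid θ q) (hpm : ∀ γ ∈ p.supp, γ ≤ β)
    (hqm : ∀ γ ∈ q.supp, γ ≤ β) (hpβ : β ∈ p.supp) (hqβ : β ∉ q.supp) :
    ∃ R : Set (Cond ι), R.Countable ∧
      (∀ r ∈ R, Valid θ r ∧ r.Le p ∧ r.Le q) ∧ p.set ∩ q.set ⊆ ⋃ r ∈ R, r.set := by
  obtain ⟨R1, hR1, hR1v, hR1c⟩ := H _ _ (hp.res β) (hq.res β)
  refine ⟨(fun r' : Cond ι => r'.ext β (p.stem β) (p.prom β)) '' R1, hR1.image _, ?_, ?_⟩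
  · rintro _ ⟨r, hr, rfl⟩
    obtain ⟨v1, lp, lq⟩ := hR1v r hr
    have hsup : ∀ γ ∈ r.supp, γ < β := fun γ hγ => (v1 γ hγ).1
    refine ⟨v1.ext hβθ (hp β hpβ).2, ?_, ?_⟩
    · apply Cond.ext_le hsup hpm lp
      intro _
      exact (p.le_refl.2 β hpβ).imp id fun h => ⟨fun t k ht hk => by
        have := ht.length_le
        have := hk.length_le
        simp at this
        omega, h.2⟩
    · exact Cond.ext_le hsup hqm lq fun h => absurd h hqβ
  · rintro x ⟨hxp, hxq⟩
    have h1 := hR1c ⟨p.set_subset_res β hxp, q.set_subset_res β hxq⟩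
    simp only [mem_iUnion] at h1
    obtain ⟨r, hr, hxr⟩ := h1
    simp only [mem_iUnion, mem_image]
    refine ⟨r.ext β (p.stem β) (p.prom β), ⟨r, hr, rfl⟩, ?_⟩
    rw [Cond.ext_set fun γ hγ => ((hR1v r hr).1 γ hγ).1]
    exact ⟨hxr, hxp β hpβ⟩

/-- **Refinement.** -/
theorem refine_cond : ∀ (θ : ι) (p q : Cond ι), Valid θ p → Valid θ q →
    ∃ R : Set (Cond ι), R.Countable ∧
      (∀ r ∈ R, Valid θ r ∧ r.Le p ∧ r.Le q) ∧ p.set ∩ q.set ⊆ ⋃ r ∈ R, r.set := by
  intro θ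
  induction θ using WellFoundedLT.induction with
  | ind θ IH =>
  intro p q hp hq
  rcases (p.supp ∪ q.supp).eq_empty_or_nonempty with h0 | hne
  · have hq0 : q.supp = ∅ := (Finset.union_eq_empty.1 h0).2
    refine ⟨{p}, countable_singleton p, ?_, ?_⟩
    · rintro r rfl
      exact ⟨hp, r.le_refl, ⟨by simp [hq0], by simp [hq0]⟩⟩
    · intro x hx
      simpa using hx.1
  · set β := (p.supp ∪ q.supp).max' hne with hβ
    have hβm : β ∈ p.supp ∪ q.supp := Finset.max'_mem _ _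
    have hpm : ∀ γ ∈ p.supp, γ ≤ β := fun γ hγ =>
      Finset.le_max' _ _ (Finset.mem_union_left _ hγ)
    have hqm : ∀ γ ∈ q.supp, γ ≤ β := fun γ hγ =>
      Finset.le_max' _ _ (Finset.mem_union_right _ hγ)
    have hβθ : β < θ := by
      rcases Finset.mem_union.1 hβm with h | h
      · exact (hp β h).1
      · exact (hq β h).1
    have Hβ := IH β hβθ
    by_cases hpβ : β ∈ p.supp
    · by_cases hqβ : β ∈ q.supp
      · by_cases h1 : p.stem β <+: q.stem β
        · exact refine_aux hβθ Hβ hp hq hpm hqm hpβ hqβ h1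
        · by_cases h2 : q.stem β <+: p.stem β
          · obtain ⟨R, a1, a2, a3⟩ := refine_aux hβθ Hβ hq hp hqm hpm hqβ hpβ h2
            exact ⟨R, a1, fun r hr => ⟨(a2 r hr).1, (a2 r hr).2.2, (a2 r hr).2.1⟩,
              (inter_comm p.set q.set) ▸ a3⟩
          · refine ⟨∅, countable_empty, by simp, ?_⟩
            rintro x ⟨hx1, hx2⟩
            exfalso
            rcases le_total (p.stem β).length (q.stem β).length with hl | hl
            · exact h1 ((hx1 β hpβ).1.pfx (hx2 β hqβ).1 hl)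
            · exact h2 ((hx2 β hqβ).1.pfx (hx1 β hpβ).1 hl)
      · exact refine_aux' hβθ Hβ hp hq hpm hqm hpβ hqβ
    · have hqβ : β ∈ q.supp := (Finset.mem_union.1 hβm).resolve_left hpβ
      obtain ⟨R, a1, a2, a3⟩ := refine_aux' hβθ Hβ hq hp hqm hpm hqβ hpβ
      exact ⟨R, a1, fun r hr => ⟨(a2 r hr).1, (a2 r hr).2.2, (a2 r hr).2.1⟩,
        (inter_comm p.set q.set) ▸ a3⟩

theorem COpen.inter {θ : ι} {U V : Set (Pt ι)} (hU : COpen θ U) (hV : COpen θ V) :
    COpen θ (U ∩ V) := hU.inter_of (refine_cond θ) hV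

theorem Good.inf {θ : ι} {G G' : Prom ι} (hG : Good θ G) (hG' : Good θ G') :
    Good θ (G.inf G') := hG.inf_of (refine_cond θ) hG'

theorem exists_le_of_mem {θ : ι} {p q : Cond ι} (hp : Valid θ p) (hq : Valid θ q) {x : Pt ι}
    (h1 : x ∈ p.set) (h2 : x ∈ q.set) : ∃ r, Valid θ r ∧ r.Le p ∧ r.Le q ∧ x ∈ r.set := by
  obtain ⟨R, -, h, hc⟩ := refine_cond θ p q hp hq
  have := hc ⟨h1, h2⟩
  simp only [mem_iUnion] at this
  obtain ⟨r, hr, hx⟩ := this
  exact ⟨r, (h r hr).1, (h r hr).2.1, (h r hr).2.2, hx⟩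

theorem exists_le_subset {θ : ι} {p : Cond ι} (hp : Valid θ p) {U : Set (Pt ι)}
    (hU : COpen θ U) (h : (p.set ∩ U).Nonempty) : ∃ r, Valid θ r ∧ r.Le p ∧ r.set ⊆ U := by
  obtain ⟨x, hx1, hx2⟩ := h
  obtain ⟨C, -, hC, rfl⟩ := hU
  simp only [mem_iUnion] at hx2
  obtain ⟨c, hc, hxc⟩ := hx2
  obtain ⟨r, h1, h2, h3, -⟩ := exists_le_of_mem hp (hC c hc) hx1 hxc
  exact ⟨r, h1, h2, h3.subset.trans (subset_biUnion_of_mem (u := fun c : Cond ι => c.set) hc)⟩

/-- **Extension of stems.** -/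
theorem exists_longer : ∀ (θ : ι) (p : Cond ι), Valid θ p →
    ∃ q, Valid θ q ∧ q.Le p ∧ ∀ β ∈ p.supp, (p.stem β).length < (q.stem β).length := by
  intro θ
  induction θ using WellFoundedLT.induction with
  | ind θ IH =>
  intro p hp
  rcases p.supp.eq_empty_or_nonempty with h0 | hne
  · exact ⟨p, hp, p.le_refl, by simp [h0]⟩
  · set β := p.supp.max' hne with hβ
    have hβm : β ∈ p.supp := Finset.max'_mem _ _
    have hpm : ∀ γ ∈ p.supp, γ ≤ β := fun γ hγ => Finset.le_max' _ _ hγ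
    have hβθ : β < θ := (hp β hβm).1
    have hG := (hp β hβm).2
    obtain ⟨hmono, hopen, hdense⟩ := good_iff.1 hG (p.stem β)
    obtain ⟨k, hk⟩ := hdense _ (hp.res β)
    obtain ⟨r, hr1, hr2, hr3⟩ := exists_le_subset (hp.res β) (hopen k) hk
    obtain ⟨r', h1, h2, h3⟩ := IH β hβθ r hr1
    have hsup : ∀ γ ∈ r'.supp, γ < β := fun γ hγ => (h1 γ hγ).1
    refine ⟨r'.ext β (p.stem β ++ [k]) (p.prom β), h1.ext hβθ hG, ?_, ?_⟩
    · apply Cond.ext_le hsup hpm (h2.trans hr2)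
      intro _
      refine ⟨List.prefix_append _ _, ?_, fun _ _ => Subset.rfl⟩
      intro t k' ht hk'
      have h4 : t = p.stem β := by
        have := hk'.length_le
        simp at this
        exact (ht.eq_of_length_le this).symm
      subst h4
      have h5 : k' = k := by
        have := hk'.eq_of_length (by simp)
        simpa using this
      subst h5
      exact h2.subset.trans hr3
    · intro γ hγ
      rcases (hpm γ hγ).lt_or_eq with h4 | h4
      · have h5 := hr2.1 (Cond.mem_res_supp.2 ⟨hγ, h4⟩)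
        have h6 := (hr2.2 γ (Cond.mem_res_supp.2 ⟨hγ, h4⟩)).1.length_le
        simp only [Cond.ext, Function.update_of_ne h4.ne]
        exact h6.trans_lt (h3 γ h5)
      · rw [h4]
        simp [Cond.ext]

end Pool.Agent.Lib.MP_40b13d_lc
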