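import Mathlib
import Pool.Agent.Lib.MP_40b13d_lc.Iter

/-!
# The topologies of the iteration: Baire property, projections, countable chain condition
-/

open Set Topology

namespace Pool.Agent.Lib.MP_40b13d_lc

theorem isIni_iff {s : List ℕ} {y : ℕ → ℕ} : IsIni s y ↔ ∀ i < s.length, s.getD i 0 = y i := by
  constructor
  · intro h i hi
    rw [← h]
    simp [ini, hi]
  · intro h
    rw [IsIni, ini]
    apply List.ext_getElem (by simp)
    intro i h1 h2
    have := h i h2
    rw [List.getD_eq_getElem _ _ h2] at this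
    simp [this]

theorem prefix_getD {s t : List ℕ} (h : s <+: t) {i : ℕ} (hi : i < s.length) :
    s.getD i 0 = t.getD i 0 := by
  obtain ⟨u, rfl⟩ := h
  rw [List.getD_append _ _ _ _ hi]

variable {ι : Type*} [LinearOrder ι]

theorem Cond.le_of_le {p : ℕ → Cond ι} (hle : ∀ n, (p (n + 1)).Le (p n)) {m n : ℕ} (h : m ≤ n) :
    (p n).Le (p m) := by
  induction n, h using Nat.le_induction with
  | base => exact Cond.le_refl _
  | succ n _ ih => exact (hle n).trans ih

variable [WellFoundedLT ι]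

/-- A decreasing sequence of conditions with growing stems has a common point. -/
theorem exists_limit {p : ℕ → Cond ι} (hle : ∀ n, (p (n + 1)).Le (p n))
    (hlong : ∀ n, ∀ β ∈ (p n).supp, ((p n).stem β).length < ((p (n + 1)).stem β).length) :
    ∃ x, ∀ n, x ∈ (p n).set := by
  classical
  have hmono : ∀ {m n}, m ≤ n → (p n).Le (p m) := fun h => Cond.le_of_le hle h
  have hlen : ∀ n β, β ∈ (p n).supp → ∀ m, m ≤ ((p (n + m)).stem β).length := by
    intro n β hβ m
    induction m with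
    | zero => exact Nat.zero_le _
    | succ m ih =>
      have h1 := hlong (n + m) β ((hmono (Nat.le_add_right n m)).1 hβ)
      have : n + (m + 1) = n + m + 1 := by ring
      rw [this]
      omega
  set y : Pt ι := fun β i => if h : ∃ n, β ∈ (p n).supp then
    ((p (Nat.find h + (i + 1))).stem β).getD i 0 else 0 with hy
  have hini : ∀ n β, β ∈ (p n).supp → IsIni ((p n).stem β) (y β) := by
    intro n β hβ
    rw [isIni_iff]
    intro i hi
    have h : ∃ n, β ∈ (p n).supp := ⟨n, hβ⟩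
    have h1 : y β i = ((p (Nat.find h + (i + 1))).stem β).getD i 0 := by
      simp only [hy]; rw [dif_pos h]
    rw [h1]
    set N := max n (Nat.find h + (i + 1)) with hN
    have h2 : (p n).stem β <+: (p N).stem β := ((hmono (le_max_left _ _)).2 β hβ).1
    have hβ' : β ∈ (p (Nat.find h + (i + 1))).supp :=
      (hmono (Nat.le_add_right _ _)).1 (Nat.find_spec h)
    have h3 : (p (Nat.find h + (i + 1))).stem β <+: (p N).stem β :=
      ((hmono (le_max_right _ _)).2 β hβ').1
    rw [prefix_getD h2 hi, prefix_getD h3]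
    have := hlen _ β (Nat.find_spec h) (i + 1)
    omega
  have hbox : ∀ γ : ι, ∀ n, γ ∈ (p n).supp → y ∈ Box γ ((p n).stem γ) ((p n).prom γ) := by
    intro γ
    induction γ using WellFoundedLT.induction with
    | ind γ IH =>
    intro n hγ
    refine ⟨hini n γ hγ, ?_⟩
    intro t k ht hk
    have h1 : (p (n + (t.length + 1))).Le (p n) := hmono (Nat.le_add_right _ _)
    have h2 := hini _ γ (h1.1 hγ)
    have h3 : t ++ [k] <+: (p (n + (t.length + 1))).stem γ := by
      apply hk.pfx h2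
      have := hlen n γ hγ (t.length + 1)
      simpa using this
    apply (h1.2 γ hγ).2.1 t k ht h3
    rw [Cond.mem_res_set]
    intro δ hδ hδγ
    exact IH δ hδγ _ hδ
  exact ⟨y, fun n γ hγ => hbox γ n hγ⟩

/-- Generic sequences: a condition can be strengthened infinitely often to get a point. -/
theorem exists_generic {θ : ι} {p : Cond ι} (hp : Valid θ p) (Q : ℕ → Cond ι → Cond ι → Prop)
    (hQ : ∀ n q, Valid θ q → ∃ r, Valid θ r ∧ r.Le q ∧ Q n q r) :
    ∃ (s : ℕ → Cond ι) (x : Pt ι), s 0 = p ∧ (∀ n, Valid θ (s n)) ∧ (∀ n, x ∈ (s n).set) ∧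
      ∀ n, ∃ r, Valid θ r ∧ r.Le (s n) ∧ Q n (s n) r ∧ (s (n + 1)).Le r := by
  choose! f hf using hQ
  choose! g hg using exists_longer θ
  let s : ℕ → Cond ι := fun n => Nat.rec p (fun n q => g (f n q)) n
  have hs : ∀ n, Valid θ (s n) := by
    intro n
    induction n with
    | zero => exact hp
    | succ n ih => exact (hg _ (hf n _ ih).1).1
  have hs1 : ∀ n, (s (n + 1)).Le (f n (s n)) := fun n => (hg _ (hf n _ (hs n)).1).2.1
  have hs2 : ∀ n, (f n (s n)).Le (s n) := fun n => (hf n _ (hs n)).2.1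
  obtain ⟨x, hx⟩ := exists_limit (p := s) (fun n => (hs1 n).trans (hs2 n)) (by
    intro n β hβ
    have h1 := ((hs2 n).2 β hβ).1.length_le
    have h2 := (hg _ (hf n _ (hs n)).1).2.2 β ((hs2 n).1 hβ)
    exact h1.trans_lt h2)
  exact ⟨s, x, rfl, hs, hx, fun n => ⟨f n (s n), (hf n _ (hs n)).1, hs2 n, (hf n _ (hs n)).2.2,
    hs1 n⟩⟩

theorem Valid.nonempty {θ : ι} {p : Cond ι} (hp : Valid θ p) : p.set.Nonempty := by
  obtain ⟨s, x, h0, -, hx, -⟩ := exists_generic hp (fun _ _ _ => True)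
    (fun n q hq => ⟨q, hq, q.le_refl, trivial⟩)
  exact ⟨x, h0 ▸ hx 0⟩

/-- The topology at level `θ`. -/
@[reducible] def tau (θ : ι) : TopologicalSpace (Pt ι) :=
  TopologicalSpace.generateFrom {U | ∃ p, Valid θ p ∧ p.set = U}

/-- Open sets at level `θ`. -/
def OpenAt (θ : ι) (U : Set (Pt ι)) : Prop := @IsOpen _ (tau θ) U

/-- Dense sets at level `θ`. -/
def DenseAt (θ : ι) (D : Set (Pt ι)) : Prop := @Dense _ (tau θ) D

theorem tau_basis (θ : ι) :
    @TopologicalSpace.IsTopologicalBasis _ (tau θ) {U : Set (Pt ι) | ∃ p, Valid θ p ∧ p.set = U} := by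
  let := tau θ
  constructor
  · rintro _ ⟨p, hp, rfl⟩ _ ⟨q, hq, rfl⟩ x ⟨hx1, hx2⟩
    obtain ⟨r, h1, h2, h3, h4⟩ := exists_le_of_mem hp hq hx1 hx2
    exact ⟨r.set, ⟨r, h1, rfl⟩, h4, subset_inter h2.subset h3.subset⟩
  · apply eq_univ_of_forall
    intro x
    exact ⟨univ, ⟨Cond.triv, valid_triv θ, Cond.triv_set⟩, mem_univ _⟩
  · rfl

theorem openAt_iff {θ : ι} {U : Set (Pt ι)} :
    OpenAt θ U ↔ ∀ x ∈ U, ∃ p, Valid θ p ∧ x ∈ p.set ∧ p.set ⊆ U := by
  let := tau θ
  rw [OpenAt, (tau_basis θ).isOpen_iff]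
  constructor
  · intro h x hx
    obtain ⟨_, ⟨p, hp, rfl⟩, h1, h2⟩ := h x hx
    exact ⟨p, hp, h1, h2⟩
  · intro h x hx
    obtain ⟨p, hp, h1, h2⟩ := h x hx
    exact ⟨_, ⟨p, hp, rfl⟩, h1, h2⟩

theorem Valid.openAt {θ : ι} {p : Cond ι} (hp : Valid θ p) : OpenAt θ p.set :=
  openAt_iff.2 fun _ hx => ⟨p, hp, hx, Subset.rfl⟩

theorem OpenAt.inter {θ : ι} {U V : Set (Pt ι)} (hU : OpenAt θ U) (hV : OpenAt θ V) :
    OpenAt θ (U ∩ V) := by
  let := tau θ
  exact IsOpen.inter hU hV

theorem OpenAt.union' {θ : ι} {U V : Set (Pt ι)} (hU : OpenAt θ U) (hV : OpenAt θ V) :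
    OpenAt θ (U ∪ V) := by
  let := tau θ
  exact IsOpen.union hU hV

theorem openAt_univ (θ : ι) : OpenAt θ (univ : Set (Pt ι)) := by
  let := tau θ
  exact isOpen_univ

theorem openAt_empty (θ : ι) : OpenAt θ (∅ : Set (Pt ι)) := by
  let := tau θ
  exact isOpen_empty

theorem openAt_sUnion {θ : ι} {S : Set (Set (Pt ι))} (h : ∀ U ∈ S, OpenAt θ U) :
    OpenAt θ (⋃₀ S) := by
  let := tau θ
  exact isOpen_sUnion h

theorem openAt_iUnion {θ : ι} {κ : Sort*} {U : κ → Set (Pt ι)} (h : ∀ i, OpenAt θ (U i)) :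
    OpenAt θ (⋃ i, U i) := by
  let := tau θ
  exact isOpen_iUnion h

theorem openAt_biInter_finset {θ : ι} {κ : Type*} {s : Finset κ} {U : κ → Set (Pt ι)}
    (h : ∀ i ∈ s, OpenAt θ (U i)) : OpenAt θ (⋂ i ∈ s, U i) := by
  let := tau θ
  exact isOpen_biInter_finset h

theorem COpen.openAt {θ : ι} {U : Set (Pt ι)} (hU : COpen θ U) : OpenAt θ U := by
  obtain ⟨C, -, hC, rfl⟩ := hU
  exact openAt_iUnion fun p => openAt_iUnion fun hp => (hC p hp).openAt

theorem OpenAt.mono {i θ : ι} (h : i ≤ θ) {U : Set (Pt ι)} (hU : OpenAt i U) : OpenAt θ U := by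
  rw [openAt_iff] at hU ⊢
  intro x hx
  obtain ⟨p, hp, h1, h2⟩ := hU x hx
  exact ⟨p, hp.mono h, h1, h2⟩

/-- Every nonempty open set contains a nonempty basic set; moreover below a given condition. -/
theorem OpenAt.exists_le {θ : ι} {U : Set (Pt ι)} (hU : OpenAt θ U) {p : Cond ι} (hp : Valid θ p)
    (h : (p.set ∩ U).Nonempty) : ∃ r, Valid θ r ∧ r.Le p ∧ r.set ⊆ U := by
  obtain ⟨x, hx1, hx2⟩ := h
  obtain ⟨c, hc, hxc, hcU⟩ := openAt_iff.1 hU x hx2
  obtain ⟨r, h1, h2, h3, -⟩ := exists_le_of_mem hp hc hx1 hxc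
  exact ⟨r, h1, h2, h3.subset.trans hcU⟩

theorem dense_iff {θ : ι} {D : Set (Pt ι)} :
    DenseAt θ D ↔ ∀ p, Valid θ p → (p.set ∩ D).Nonempty := by
  let := tau θ
  rw [DenseAt, (tau_basis θ).dense_iff]
  constructor
  · intro h p hp
    exact h _ ⟨p, hp, rfl⟩ hp.nonempty
  · rintro h _ ⟨p, hp, rfl⟩ _
    exact h p hp

theorem baireSpace_tau (θ : ι) : @BaireSpace (Pt ι) (tau θ) := by
  let := tau θ
  refine ⟨fun D hD hd => ?_⟩
  refine (dense_iff (θ := θ)).2 ?_
  intro p hp
  obtain ⟨s, x, h0, -, hx, hr⟩ := exists_generic hp (fun n _ r => r.set ⊆ D n) (by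
    intro n q hq
    exact OpenAt.exists_le (θ := θ) (hD n) hq ((dense_iff (θ := θ)).1 (hd n) q hq))
  refine ⟨x, h0 ▸ hx 0, mem_iInter.2 fun n => ?_⟩
  obtain ⟨r, -, -, h1, h2⟩ := hr n
  exact h1 (h2.subset (hx (n + 1)))

/-- Amalgamation of a condition at level `i` with a condition at a higher level. -/
def Cond.glue (q p : Cond ι) (i : ι) : Cond ι :=
  ⟨q.supp ∪ p.supp.filter (i ≤ ·), fun β => if β < i then q.stem β else p.stem β,
    fun β => if β < i then q.prom β else p.prom β⟩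

theorem Valid.glue {i θ : ι} (hi : i ≤ θ) {q p : Cond ι} (hq : Valid i q) (hp : Valid θ p) :
    Valid θ (q.glue p i) := by
  intro γ hγ
  simp only [Cond.glue, Finset.mem_union, Finset.mem_filter] at hγ ⊢
  rcases hγ with h | h
  · rw [if_pos (hq γ h).1]
    exact ⟨(hq γ h).1.trans_le hi, (hq γ h).2⟩
  · rw [if_neg (not_lt.2 h.2)]
    exact hp γ h.1

omit [WellFoundedLT ι] in
theorem Cond.glue_res_set {i β : ι} (hβ : β ≤ i) {q p : Cond ι} :
    ((q.glue p i).res β).set ⊆ (q.res β).set := by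
  intro x hx
  rw [Cond.mem_res_set] at hx ⊢
  intro γ hγ hγβ
  have := hx γ (Finset.mem_union_left _ hγ) hγβ
  simpa [Cond.glue, if_pos (hγβ.trans_le hβ)] using this

theorem Cond.glue_le_left {i : ι} {q p : Cond ι} (hq : Valid i q) : (q.glue p i).Le q := by
  refine ⟨Finset.subset_union_left, ?_⟩
  intro β hβ
  have h1 : β < i := (hq β hβ).1
  have h2 : (q.glue p i).stem β = q.stem β := by simp [Cond.glue, h1]
  have h3 : (q.glue p i).prom β = q.prom β := by simp [Cond.glue, h1]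
  rw [h2, h3]
  refine ⟨List.prefix_rfl, ?_, fun _ _ => Subset.rfl⟩
  intro t k ht hk
  have := ht.length_le
  have := hk.length_le
  simp at this
  omega

omit [WellFoundedLT ι] in
theorem Cond.glue_le_right {i : ι} {q p : Cond ι} (h : q.Le (p.res i)) : (q.glue p i).Le p := by
  refine ⟨?_, ?_⟩
  · intro β hβ
    rcases lt_or_ge β i with h1 | h1
    · exact Finset.mem_union_left _ (h.1 (Cond.mem_res_supp.2 ⟨hβ, h1⟩))
    · exact Finset.mem_union_right _ (Finset.mem_filter.2 ⟨hβ, h1⟩)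
  · intro β hβ
    rcases lt_or_ge β i with h1 | h1
    · have h2 : (q.glue p i).stem β = q.stem β := by simp [Cond.glue, h1]
      have h3 : (q.glue p i).prom β = q.prom β := by simp [Cond.glue, h1]
      obtain ⟨a1, a2, a3⟩ := h.2 β (Cond.mem_res_supp.2 ⟨hβ, h1⟩)
      rw [h2, h3]
      exact ⟨a1, fun t k ht hk => (Cond.glue_res_set h1.le).trans (a2 t k ht hk), a3⟩
    · have h2 : (q.glue p i).stem β = p.stem β := by simp [Cond.glue, not_lt.2 h1]
      have h3 : (q.glue p i).prom β = p.prom β := by simp [Cond.glue, not_lt.2 h1]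
      rw [h2, h3]
      refine ⟨List.prefix_rfl, ?_, fun _ _ => Subset.rfl⟩
      intro t k ht hk
      have := ht.length_le
      have := hk.length_le
      simp at this
      omega

/-- Open sets of a lower level meeting the restriction of `p` meet `p`. -/
theorem inter_nonempty_up {i θ : ι} (hi : i ≤ θ) {U : Set (Pt ι)} (hU : OpenAt i U) {p : Cond ι}
    (hp : Valid θ p) (h : ((p.res i).set ∩ U).Nonempty) : (p.set ∩ U).Nonempty := by
  obtain ⟨r, h1, h2, h3⟩ := hU.exists_le (hp.res i) h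
  obtain ⟨x, hx⟩ := (h1.glue hi hp).nonempty
  exact ⟨x, (Cond.glue_le_right h2).subset hx, h3 ((Cond.glue_le_left h1).subset hx)⟩

theorem dense_up {i θ : ι} (hi : i ≤ θ) {D : Set (Pt ι)} (hD : OpenAt i D)
    (hd : DenseAt i D) : DenseAt θ D := by
  rw [dense_iff] at hd ⊢
  intro p hp
  exact inter_nonempty_up hi hD hp (hd _ (hp.res i))


omit [LinearOrder ι] [WellFoundedLT ι] in
theorem Box.mono {β : ι} {s : List ℕ} {G H : Prom ι} (h : ∀ t k, G t k ⊆ H t k) :
    Box β s G ⊆ Box β s H :=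
  fun _ hx => ⟨hx.1, fun t k ht hk => h t k (hx.2 t k ht hk)⟩

/-- Conditions with equal stems on the common support are compatible. -/
theorem compatible {θ : ι} {p q : Cond ι} (hp : Valid θ p) (hq : Valid θ q)
    (h : ∀ β ∈ p.supp, β ∈ q.supp → p.stem β = q.stem β) : (p.set ∩ q.set).Nonempty := by
  classical
  set r : Cond ι := ⟨p.supp ∪ q.supp, fun β => if β ∈ p.supp then p.stem β else q.stem β,
    fun β => if β ∈ p.supp then (if β ∈ q.supp then (p.prom β).inf (q.prom β) else p.prom β)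
      else q.prom β⟩ with hr
  have hv : Valid θ r := by
    intro β hβ
    by_cases h1 : β ∈ p.supp
    · by_cases h2 : β ∈ q.supp
      · simp only [hr, h1, h2, if_true]
        exact ⟨(hp β h1).1, (hp β h1).2.inf (hq β h2).2⟩
      · simp only [hr, h1, h2, if_true, if_false]
        exact hp β h1
    · have h2 : β ∈ q.supp := (Finset.mem_union.1 hβ).resolve_left h1
      simp only [hr, h1, if_false]
      exact hq β h2
  obtain ⟨x, hx⟩ := hv.nonempty
  refine ⟨x, ?_, ?_⟩
  · intro β h1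
    have h3 := hx β (Finset.mem_union_left _ h1)
    by_cases h2 : β ∈ q.supp
    · simp only [hr, h1, h2, if_true] at h3
      exact Box.mono (fun _ _ => inter_subset_left) h3
    · simpa only [hr, h1, h2, if_true, if_false] using h3
  · intro β h1
    have h3 := hx β (Finset.mem_union_right _ h1)
    by_cases h2 : β ∈ p.supp
    · simp only [hr, h1, h2, if_true, h β h2 h1] at h3
      exact Box.mono (fun _ _ => inter_subset_right) h3
    · simpa only [hr, h2, if_false] using h3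

open MeasureTheory in
/-- The countable chain condition, for conditions. -/
theorem ccc_cond {θ : ι} {κ : Type*} {p : κ → Cond ι} (hp : ∀ a, Valid θ (p a))
    (hd : Pairwise fun a b => Disjoint (p a).set (p b).set) : Countable κ := by
  classical
  letI : MeasurableSpace (List ℕ) := ⊤
  obtain ⟨w, hw, hsum⟩ := ENNReal.exists_pos_sum_of_countable (ε := 1) one_ne_zero (List ℕ)
  have h0 : ∑' s, (w s : ENNReal) ≠ 0 := by
    intro h
    have := (ENNReal.tsum_eq_zero.1 h) []
    exact (hw []).ne' (by exact_mod_cast this)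
  set P : PMF (List ℕ) := PMF.normalize (fun s => (w s : ENNReal)) h0 (hsum.trans_le le_top).ne
    with hP
  set μ : Measure (ι → List ℕ) := Measure.infinitePi (fun _ : ι => P.toMeasure) with hμ
  set A : κ → Set (ι → List ℕ) := fun a => Set.pi ((p a).supp : Set ι) (fun β => {(p a).stem β})
    with hA
  have hmeas : ∀ a, MeasurableSet (A a) := by
    intro a
    exact MeasurableSet.pi (Finset.countable_toSet _) fun β _ => MeasurableSpace.measurableSet_top
  have hpos : ∀ a, 0 < μ (A a) := by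
    intro a
    rw [hμ, hA, Measure.infinitePi_pi _ (fun β _ => MeasurableSpace.measurableSet_top)]
    rw [CanonicallyOrderedAdd.prod_pos]
    intro β _
    rw [PMF.toMeasure_apply_singleton _ _ MeasurableSpace.measurableSet_top, pos_iff_ne_zero,
      ← PMF.mem_support_iff, hP, PMF.mem_support_normalize_iff]
    exact_mod_cast (hw _).ne'
  have hdisj : Pairwise (Function.onFun Disjoint A) := by
    intro a b hab
    rw [Function.onFun, Set.disjoint_left]
    intro φ h1 h2
    obtain ⟨x, hx1, hx2⟩ := compatible (hp a) (hp b) (by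
      intro β ha hb
      have e1 : φ β = (p a).stem β := h1 β ha
      have e2 : φ β = (p b).stem β := h2 β hb
      rw [← e1, e2])
    exact Set.disjoint_left.1 (hd hab) hx1 hx2
  have := Measure.countable_meas_pos_of_disjoint_iUnion (μ := μ) hmeas hdisj
  have h2 : {a | 0 < μ (A a)} = univ := eq_univ_of_forall hpos
  rw [h2] at this
  exact Set.countable_univ_iff.1 this

/-- The countable chain condition. -/
theorem ccc {θ : ι} {S : Set (Set (Pt ι))} (hS : ∀ U ∈ S, OpenAt θ U) (hne : ∀ U ∈ S, U.Nonempty)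
    (hd : S.PairwiseDisjoint id) : S.Countable := by
  have h : ∀ U : S, ∃ p, Valid θ p ∧ p.set ⊆ U.1 := by
    rintro ⟨U, hU⟩
    obtain ⟨x, hx⟩ := hne U hU
    obtain ⟨p, hp, -, h2⟩ := openAt_iff.1 (hS U hU) x hx
    exact ⟨p, hp, h2⟩
  choose p hp hpU using h
  have : Countable S := ccc_cond hp (by
    intro a b hab
    have := hd a.2 b.2 (fun h => hab (Subtype.ext h))
    exact Disjoint.mono (hpU a) (hpU b) this)
  exact Set.countable_coe_iff.1 this

/-- Any family of open sets has a countable subfamily with (relatively) dense union. -/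
theorem exists_countable_subfamily {θ : ι} {S : Set (Set (Pt ι))} (hS : ∀ U ∈ S, OpenAt θ U) :
    ∃ T ⊆ S, T.Countable ∧ ∀ V, OpenAt θ V → (V ∩ ⋃₀ S).Nonempty → (V ∩ ⋃₀ T).Nonempty := by
  classical
  obtain ⟨M, hM⟩ := zorn_subset
    {A : Set (Set (Pt ι)) | (∀ U ∈ A, OpenAt θ U ∧ U.Nonempty ∧ ∃ V ∈ S, U ⊆ V) ∧
      A.PairwiseDisjoint id} (by
    intro c hc hchain
    refine ⟨⋃₀ c, ⟨?_, ?_⟩, fun s hs => subset_sUnion_of_mem hs⟩
    · rintro U ⟨A, hA, hU⟩
      exact (hc hA).1 U hU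
    · rintro U ⟨A, hA, hU⟩ V ⟨B, hB, hV⟩ hUV
      rcases hchain.total hA hB with h | h
      · exact (hc hB).2 (h hU) hV hUV
      · exact (hc hA).2 hU (h hV) hUV)
  have hMc : M.Countable := ccc (fun U hU => (hM.prop.1 U hU).1) (fun U hU => (hM.prop.1 U hU).2.1)
    hM.prop.2
  choose! f hf using fun U (hU : U ∈ M) => (hM.prop.1 U hU).2.2
  refine ⟨f '' M, ?_, hMc.image _, ?_⟩
  · rintro _ ⟨U, hU, rfl⟩
    exact (hf U hU).1
  · rintro V hV ⟨x, hxV, W, hW, hxW⟩
    by_contra hcon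
    rw [Set.not_nonempty_iff_eq_empty] at hcon
    have hnew : insert (V ∩ W) M ∈ {A : Set (Set (Pt ι)) |
        (∀ U ∈ A, OpenAt θ U ∧ U.Nonempty ∧ ∃ V ∈ S, U ⊆ V) ∧ A.PairwiseDisjoint id} := by
      refine ⟨?_, ?_⟩
      · rintro U (rfl | hU)
        · exact ⟨hV.inter (hS W hW), ⟨x, hxV, hxW⟩, W, hW, inter_subset_right⟩
        · exact hM.prop.1 U hU
      · rw [Set.pairwiseDisjoint_insert]
        refine ⟨hM.prop.2, ?_⟩
        intro U hU _
        rw [id, id, Set.disjoint_left]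
        intro y hy1 hy2
        have : y ∈ V ∩ ⋃₀ (f '' M) := ⟨hy1.1, f U, ⟨U, hU, rfl⟩, (hf U hU).2 hy2⟩
        rw [hcon] at this
        exact this
    have h1 : V ∩ W ∈ M := by
      have := hM.eq_of_subset hnew (subset_insert _ _)
      rw [this]
      exact mem_insert _ _
    have : x ∈ V ∩ ⋃₀ (f '' M) := ⟨hxV, f (V ∩ W), ⟨V ∩ W, h1, rfl⟩, (hf _ h1).2 ⟨hxV, hxW⟩⟩
    rw [hcon] at this
    exact this

end Pool.Agent.Lib.MP_40b13d_lc
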