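import Mathlib
import Pool.Agent.Lib.MP_40b13d_lc.Topo

/-!
# Comeager sets, sets with the Baire property, and measurable names
-/

open Set Topology Filter

namespace Pool.Agent.Lib.MP_40b13d_lc

variable {ι : Type*} [LinearOrder ι] [WellFoundedLT ι]

omit [LinearOrder ι] [WellFoundedLT ι] in
instance : Nonempty (Cond ι) := ⟨Cond.triv⟩

/-- The filter of comeager sets at level `θ`. -/
def Ae (θ : ι) : Filter (Pt ι) := @residual _ (tau θ)

instance (θ : ι) : CountableInterFilter (Ae θ) := @countableInterFilter_residual _ (tau θ)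

/-- Sets with the Baire property at level `θ`. -/
def Meas (θ : ι) (M : Set (Pt ι)) : Prop := @BaireMeasurableSet _ (tau θ) M

theorem OpenAt.meas {θ : ι} {U : Set (Pt ι)} (h : OpenAt θ U) : Meas θ U := by
  let := tau θ
  exact IsOpen.baireMeasurableSet h

theorem Meas.compl {θ : ι} {M : Set (Pt ι)} (h : Meas θ M) : Meas θ Mᶜ := by
  let := tau θ
  exact BaireMeasurableSet.compl h

theorem Meas.iUnion {θ : ι} {κ : Sort*} [Countable κ] {M : κ → Set (Pt ι)}
    (h : ∀ i, Meas θ (M i)) : Meas θ (⋃ i, M i) := by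
  let := tau θ
  exact BaireMeasurableSet.iUnion h

theorem Meas.iInter {θ : ι} {κ : Sort*} [Countable κ] {M : κ → Set (Pt ι)}
    (h : ∀ i, Meas θ (M i)) : Meas θ (⋂ i, M i) := by
  let := tau θ
  exact BaireMeasurableSet.iInter h

theorem Meas.inter {θ : ι} {M N : Set (Pt ι)} (h : Meas θ M) (h' : Meas θ N) :
    Meas θ (M ∩ N) := by
  let := tau θ
  exact BaireMeasurableSet.inter h h'

theorem Meas.union {θ : ι} {M N : Set (Pt ι)} (h : Meas θ M) (h' : Meas θ N) :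
    Meas θ (M ∪ N) := by
  let := tau θ
  exact BaireMeasurableSet.union h h'

theorem Meas.diff {θ : ι} {M N : Set (Pt ι)} (h : Meas θ M) (h' : Meas θ N) :
    Meas θ (M \ N) := by
  let := tau θ
  exact BaireMeasurableSet.diff h h'

theorem meas_univ (θ : ι) : Meas θ (univ : Set (Pt ι)) := (openAt_univ θ).meas

theorem meas_empty (θ : ι) : Meas θ (∅ : Set (Pt ι)) := (openAt_empty θ).meas

theorem Meas.congr {θ : ι} {M N : Set (Pt ι)} (h : Meas θ M) (h' : M =ᶠ[Ae θ] N) :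
    Meas θ N := by
  let := tau θ
  exact BaireMeasurableSet.congr h h'

theorem meas_const (θ : ι) (P : Prop) : Meas θ {_x : Pt ι | P} := by
  by_cases h : P
  · simpa [h] using meas_univ θ
  · simpa [h] using meas_empty θ

theorem meas_of_ae {θ : ι} {M : Set (Pt ι)} (h : ∀ᶠ x in Ae θ, x ∈ M) : Meas θ M := by
  let := tau θ
  exact BaireMeasurableSet.of_mem_residual h

theorem Meas.exists_open {θ : ι} {M : Set (Pt ι)} (h : Meas θ M) :
    ∃ U, OpenAt θ U ∧ M =ᶠ[Ae θ] U := by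
  let := tau θ
  exact BaireMeasurableSet.residualEq_isOpen h

theorem ae_of_dense {θ : ι} {D : Set (Pt ι)} (hD : OpenAt θ D) (hd : DenseAt θ D) :
    ∀ᶠ x in Ae θ, x ∈ D := by
  let := tau θ
  exact residual_of_dense_open hD hd

theorem ae_up {i θ : ι} (hi : i ≤ θ) : Ae θ ≤ Ae i := by
  rw [Ae, Ae, residual, residual]
  rw [le_countableGenerate_iff_of_countableInterFilter]
  rintro D ⟨hD, hd⟩
  exact ae_of_dense (OpenAt.mono hi hD) (dense_up hi hD hd)

theorem Meas.up {i θ : ι} (hi : i ≤ θ) {M : Set (Pt ι)} (h : Meas i M) : Meas θ M := by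
  obtain ⟨U, hU, hMU⟩ := h.exists_open
  exact (hU.mono hi).meas.congr (ae_up hi hMU.symm)

theorem OpenAt.exists_mem {θ : ι} {U : Set (Pt ι)} (hU : OpenAt θ U) (hne : U.Nonempty)
    {P : Pt ι → Prop} (hP : ∀ᶠ x in Ae θ, P x) : ∃ x ∈ U, P x := by
  let := tau θ
  have := baireSpace_tau θ
  have hd : Dense {x | P x} := dense_of_mem_residual hP
  obtain ⟨x, hx1, hx2⟩ := hd.inter_open_nonempty U hU hne
  exact ⟨x, hx1, hx2⟩

theorem OpenAt.not_ae {θ : ι} {U : Set (Pt ι)} (hU : OpenAt θ U) (hne : U.Nonempty) :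
    ¬ ∀ᶠ x in Ae θ, x ∉ U := by
  intro h
  obtain ⟨x, h1, h2⟩ := hU.exists_mem hne h
  exact h2 h1

/-- A non-meager part of an open set contains (almost) an open set. -/
theorem Meas.exists_open_subset {θ : ι} {M : Set (Pt ι)} (hM : Meas θ M) {p : Set (Pt ι)}
    (hp : OpenAt θ p) (h : ¬ ∀ᶠ x in Ae θ, x ∈ p → x ∉ M) :
    ∃ V, OpenAt θ V ∧ V.Nonempty ∧ V ⊆ p ∧ ∀ᶠ x in Ae θ, x ∈ V → x ∈ M := by
  obtain ⟨U, hU, hMU⟩ := hM.exists_open
  refine ⟨p ∩ U, hp.inter hU, ?_, inter_subset_left, ?_⟩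
  · by_contra hcon
    rw [Set.not_nonempty_iff_eq_empty] at hcon
    apply h
    filter_upwards [hMU.mem_iff] with x hx hxp hxM
    have : x ∈ p ∩ U := ⟨hxp, hx.1 hxM⟩
    rw [hcon] at this
    exact this
  · filter_upwards [hMU.mem_iff] with x hx hxV
    exact hx.2 hxV.2

/-- If an open set is almost covered by countably many sets with the Baire property, then one of
them almost contains a nonempty open subset. -/
theorem exists_open_of_cover {θ : ι} {κ : Type*} [Countable κ] {M : κ → Set (Pt ι)}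
    (hM : ∀ j, Meas θ (M j)) {p : Set (Pt ι)} (hp : OpenAt θ p) (hne : p.Nonempty)
    (h : ∀ᶠ x in Ae θ, x ∈ p → ∃ j, x ∈ M j) :
    ∃ j V, OpenAt θ V ∧ V.Nonempty ∧ V ⊆ p ∧ ∀ᶠ x in Ae θ, x ∈ V → x ∈ M j := by
  by_contra hcon
  have h1 : ∀ j, ∀ᶠ x in Ae θ, x ∈ p → x ∉ M j := by
    intro j
    by_contra hj
    obtain ⟨V, h1, h2, h3, h4⟩ := (hM j).exists_open_subset hp hj
    exact hcon ⟨j, V, h1, h2, h3, h4⟩
  rw [← eventually_countable_forall] at h1
  obtain ⟨x, hx, h2, h3⟩ := hp.exists_mem hne (h.and h1)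
  obtain ⟨j, hj⟩ := h2 hx
  exact h3 j hx hj

/-- Statements about sets of a lower level can be projected down. -/
theorem ae_down {i θ : ι} (hi : i ≤ θ) {p : Cond ι} (hp : Valid θ p) {M : Set (Pt ι)}
    (hM : Meas i M) (h : ∀ᶠ x in Ae θ, x ∈ p.set → x ∈ M) :
    ∀ᶠ x in Ae i, x ∈ (p.res i).set → x ∈ M := by
  by_contra hcon
  obtain ⟨V, hV, hVne, hVp, hVM⟩ := hM.compl.exists_open_subset (hp.res i).openAt
    (by simpa only [mem_compl_iff, not_not] using hcon)
  have h1 : (p.set ∩ V).Nonempty := inter_nonempty_up hi hV hp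
    (by rwa [inter_eq_right.2 hVp])
  obtain ⟨x, hx, h2, h3⟩ := (hp.openAt.inter (hV.mono hi)).exists_mem h1 (h.and (ae_up hi hVM))
  exact h3 hx.2 (h2 hx.1)

theorem ae_down_univ {i θ : ι} (hi : i ≤ θ) {M : Set (Pt ι)} (hM : Meas i M)
    (h : ∀ᶠ x in Ae θ, x ∈ M) : ∀ᶠ x in Ae i, x ∈ M := by
  have := ae_down hi (valid_triv θ) hM (h.mono fun _ hx _ => hx)
  filter_upwards [this] with x hx
  apply hx
  rw [Cond.mem_res_set]
  intro γ hγ
  simp [Cond.triv] at hγ

/-- Open sets are almost equal to countable unions of basic sets. -/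
theorem OpenAt.exists_cOpen {θ : ι} {U : Set (Pt ι)} (hU : OpenAt θ U) :
    ∃ V ⊆ U, COpen θ V ∧ U =ᶠ[Ae θ] V := by
  obtain ⟨T, hT, hTc, hTd⟩ := exists_countable_subfamily (θ := θ)
    (S := {W | (∃ p, Valid θ p ∧ p.set = W) ∧ W ⊆ U}) (by
      rintro W ⟨⟨p, hp, rfl⟩, -⟩
      exact hp.openAt)
  have hU' : U = ⋃₀ {W | (∃ p, Valid θ p ∧ p.set = W) ∧ W ⊆ U} := by
    apply Subset.antisymm
    · intro x hx
      obtain ⟨p, hp, h1, h2⟩ := openAt_iff.1 hU x hx
      exact ⟨p.set, ⟨⟨p, hp, rfl⟩, h2⟩, h1⟩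
    · exact sUnion_subset fun W hW => hW.2
  choose! f hf using fun W (hW : W ∈ T) => (hT hW).1
  have hTopen : OpenAt θ (⋃₀ T) := openAt_sUnion fun W hW => by
    obtain ⟨h1, h2⟩ := hf W hW
    exact h2 ▸ h1.openAt
  have hsub : ⋃₀ T ⊆ U := sUnion_subset fun W hW => (hT hW).2
  refine ⟨⋃₀ T, hsub, ?_, ?_⟩
  · refine ⟨f '' T, hTc.image _, ?_, ?_⟩
    · rintro _ ⟨W, hW, rfl⟩
      exact (hf W hW).1
    · ext x
      simp only [mem_sUnion, mem_iUnion, mem_image, exists_prop, exists_exists_and_eq_and]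
      constructor
      · rintro ⟨W, hW, hx⟩
        refine ⟨W, hW, ?_⟩
        rw [(hf W hW).2]
        exact hx
      · rintro ⟨W, hW, hx⟩
        refine ⟨W, hW, ?_⟩
        rw [(hf W hW).2] at hx
        exact hx
  · -- `U \ ⋃₀ T` is nowhere dense
    set E : Set (Pt ι) := {x | ∃ V, OpenAt θ V ∧ x ∈ V ∧ V ∩ U = ∅} with hE
    have hEo : OpenAt θ E := by
      have : E = ⋃₀ {V | OpenAt θ V ∧ V ∩ U = ∅} := by
        ext x
        simp only [hE, mem_ofPred_eq, mem_sUnion]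
        constructor
        · rintro ⟨V, h1, h2, h3⟩
          exact ⟨V, ⟨h1, h3⟩, h2⟩
        · rintro ⟨V, ⟨h1, h3⟩, h2⟩
          exact ⟨V, h1, h2, h3⟩
      rw [this]
      exact openAt_sUnion fun V hV => hV.1
    have hd : DenseAt θ (⋃₀ T ∪ E) := by
      rw [dense_iff]
      intro p hp
      by_cases h : (p.set ∩ U).Nonempty
      · rw [hU'] at h
        obtain ⟨x, h1, h2⟩ := hTd p.set hp.openAt h
        exact ⟨x, h1, Or.inl h2⟩
      · rw [Set.not_nonempty_iff_eq_empty] at h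
        obtain ⟨x, hx⟩ := hp.nonempty
        exact ⟨x, hx, Or.inr ⟨p.set, hp.openAt, hx, h⟩⟩
    have := ae_of_dense (hTopen.union' hEo) hd
    rw [eventuallyEq_set]
    filter_upwards [this] with x hx
    refine ⟨fun hxU => ?_, fun h => hsub h⟩
    rcases hx with h | ⟨V, -, h1, h2⟩
    · exact h
    · have : x ∈ V ∩ U := ⟨h1, hxU⟩
      rw [h2] at this
      exact absurd this (Set.notMem_empty x)


theorem Meas.exists_cOpen {θ : ι} {M : Set (Pt ι)} (hM : Meas θ M) :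
    ∃ V, COpen θ V ∧ M =ᶠ[Ae θ] V := by
  obtain ⟨U, hU, h1⟩ := hM.exists_open
  obtain ⟨V, -, hV, h2⟩ := hU.exists_cOpen
  exact ⟨V, hV, h1.trans h2⟩

theorem cOpen_empty (θ : ι) : COpen θ (∅ : Set (Pt ι)) :=
  ⟨∅, countable_empty, by simp, by simp⟩

theorem cOpen_univ (θ : ι) : COpen θ (univ : Set (Pt ι)) :=
  ⟨{Cond.triv}, countable_singleton _, by rintro p rfl; exact valid_triv θ, by simp⟩

theorem COpen.iUnion {θ : ι} {κ : Type*} [Countable κ] {U : κ → Set (Pt ι)}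
    (h : ∀ j, COpen θ (U j)) : COpen θ (⋃ j, U j) := by
  choose C hC hCv hU using h
  refine ⟨⋃ j, C j, countable_iUnion hC, ?_, ?_⟩
  · intro p hp
    obtain ⟨j, hj⟩ := mem_iUnion.1 hp
    exact hCv j p hj
  · ext x
    simp only [hU, mem_iUnion, exists_prop]
    constructor
    · rintro ⟨j, p, hp, hx⟩
      exact ⟨p, ⟨j, hp⟩, hx⟩
    · rintro ⟨p, ⟨j, hp⟩, hx⟩
      exact ⟨j, p, hp, hx⟩

/-- The trivial promise is valid. -/
theorem good_univ (θ : ι) : Good θ (fun _ _ => univ : Prom ι) := by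
  rw [good_iff]
  intro t
  refine ⟨fun _ _ _ => Subset.rfl, fun k => cOpen_univ θ, ?_⟩
  intro q hq
  obtain ⟨x, hx⟩ := hq.nonempty
  exact ⟨0, x, hx, mem_univ _⟩

/-- Every measurable function is given, almost everywhere, by a valid promise. -/
theorem exists_good {θ : ι} (m : Pt ι → List ℕ → ℕ) (hm : ∀ t k, Meas θ {x | m x t = k}) :
    ∃ G, Good θ G ∧ ∀ᶠ x in Ae θ, ∀ t k, x ∈ G t k ↔ m x t ≤ k := by
  choose V hV hmV using fun t k => (hm t k).exists_cOpen
  set G : Prom ι := fun t k => ⋃ j : {j : ℕ // j ≤ k}, V t j with hG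
  have hae : ∀ᶠ x in Ae θ, ∀ t k, x ∈ G t k ↔ m x t ≤ k := by
    have : ∀ᶠ x in Ae θ, ∀ t k, (m x t = k ↔ x ∈ V t k) := by
      rw [eventually_countable_forall]
      intro t
      rw [eventually_countable_forall]
      intro k
      exact (hmV t k).mem_iff
    filter_upwards [this] with x hx t k
    simp only [hG, mem_iUnion, Subtype.exists, exists_prop]
    constructor
    · rintro ⟨j, hj, hxj⟩
      rw [(hx t j).2 hxj]
      exact hj
    · intro h
      exact ⟨m x t, h, (hx t _).1 rfl⟩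
  refine ⟨G, ?_, hae⟩
  rw [good_iff]
  intro t
  refine ⟨?_, fun k => COpen.iUnion fun j => hV t j, ?_⟩
  · intro a b hab x hx
    simp only [hG, mem_iUnion, Subtype.exists, exists_prop] at hx ⊢
    obtain ⟨j, hj, hx⟩ := hx
    exact ⟨j, hj.trans hab, hx⟩
  · intro q hq
    obtain ⟨x, hx, h1⟩ := hq.openAt.exists_mem hq.nonempty hae
    exact ⟨m x t, x, hx, (h1 t _).2 le_rfl⟩

/-- For a valid promise, almost every point allows almost all values. -/
theorem Good.ae {θ : ι} {G : Prom ι} (hG : Good θ G) : ∀ᶠ x in Ae θ, ∀ t, ∃ k, x ∈ G t k := by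
  rw [eventually_countable_forall]
  intro t
  obtain ⟨-, h2, h3⟩ := good_iff.1 hG t
  have := ae_of_dense (θ := θ) (D := ⋃ k, G t k) (openAt_iUnion fun k => (h2 k).openAt) (by
    rw [dense_iff]
    intro p hp
    obtain ⟨k, x, h4, h5⟩ := h3 p hp
    exact ⟨x, h4, mem_iUnion.2 ⟨k, h5⟩⟩)
  filter_upwards [this] with x hx
  exact mem_iUnion.1 hx

theorem Good.mono {θ : ι} {G : Prom ι} (hG : Good θ G) {t : List ℕ} {k l : ℕ} (h : k ≤ l) :
    G t k ⊆ G t l := (good_iff.1 hG t).1 h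

theorem Good.openAt {θ : ι} {G : Prom ι} (hG : Good θ G) (t : List ℕ) (k : ℕ) :
    OpenAt θ (G t k) := ((good_iff.1 hG t).2.1 k).openAt

/-- At a level of uncountable cofinality every set with the Baire property is almost equal to an
open set of a lower level. -/
theorem Meas.exists_level {θ : ι} (h0 : ∃ i, i < θ)
    (hθ : ∀ f : ℕ → ι, (∀ n, f n < θ) → ∃ i < θ, ∀ n, f n < i)
    {M : Set (Pt ι)} (hM : Meas θ M) : ∃ i < θ, ∃ U, COpen i U ∧ M =ᶠ[Ae θ] U := by
  obtain ⟨V, ⟨C, hC, hCv, rfl⟩, hMV⟩ := hM.exists_cOpen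
  have hcount : (⋃ p ∈ C, ((p : Cond ι).supp : Set ι)).Countable :=
    hC.biUnion fun p _ => p.supp.countable_toSet
  have key : ∃ i < θ, ∀ p ∈ C, ∀ γ ∈ (p : Cond ι).supp, γ < i := by
    rcases (⋃ p ∈ C, ((p : Cond ι).supp : Set ι)).eq_empty_or_nonempty with h | hne
    · obtain ⟨i, hi⟩ := h0
      refine ⟨i, hi, fun p hp γ hγ => ?_⟩
      have : γ ∈ ⋃ p ∈ C, ((p : Cond ι).supp : Set ι) := by
        simp only [mem_iUnion]
        exact ⟨p, hp, hγ⟩
      rw [h] at this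
      exact absurd this (Set.notMem_empty _)
    · obtain ⟨f, hf⟩ := hcount.exists_eq_range hne
      have hfθ : ∀ n, f n < θ := by
        intro n
        have : f n ∈ ⋃ p ∈ C, ((p : Cond ι).supp : Set ι) := hf ▸ mem_range_self n
        simp only [mem_iUnion] at this
        obtain ⟨p, hp, h⟩ := this
        exact (hCv p hp _ h).1
      obtain ⟨i, hi, h⟩ := hθ f hfθ
      refine ⟨i, hi, fun p hp γ hγ => ?_⟩
      have : γ ∈ range f := by
        rw [← hf]
        simp only [mem_iUnion]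
        exact ⟨p, hp, hγ⟩
      obtain ⟨n, rfl⟩ := this
      exact h n
  obtain ⟨i, hi, h⟩ := key
  exact ⟨i, hi, _, ⟨C, hC, fun p hp γ hγ => ⟨h p hp γ hγ, (hCv p hp γ hγ).2⟩, rfl⟩, hMV⟩

end Pool.Agent.Lib.MP_40b13d_lc
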