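import Mathlib
import Pool.Agent.Lib.MP_40b13d_lc.Names
import Pool.Agent.Lib.MP_40b13d_lc.Cantor

/-!
# Measurable names for closed subsets of the Cantor space
-/

open MeasureTheory Set Topology Filter

namespace Pool.Agent.Lib.MP_40b13d_lc

theorem bini_eq_ofFn (z : ℕ → Bool) (n : ℕ) : bini z n = List.ofFn (fun i : Fin n => z i) := by
  apply List.ext_getElem (by simp)
  intro i h1 h2
  simp [bini]

theorem exists_mem_cyl (s : List Bool) : ∃ z, z ∈ cyl s :=
  ⟨fun i => s.getD i false, mem_cyl_iff.2 fun i hi => List.getD_eq_getElem _ _ hi⟩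

theorem cyl_subset_nb_iff {C : Set (ℕ → Bool)} {v : List Bool} {j : ℕ} :
    cyl v ⊆ nb C j ↔ ∀ w, v <+: w → j ≤ w.length → hits C (w.take j) := by
  constructor
  · intro h w hvw hj
    obtain ⟨z, hz⟩ := exists_mem_cyl w
    have h1 : hits C (bini z j) := h (cyl_anti hvw hz)
    rw [mem_cyl] at hz
    rw [← hz, bini_take z hj]
    exact h1
  · intro h z hz
    have h1 : v <+: bini z (max j v.length) :=
      prefix_of_mem_cyl hz (mem_cyl_bini z _) (by simp)
    have h2 := h _ h1 (by simp)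
    rw [bini_take z (le_max_left _ _)] at h2
    exact h2

theorem hits_inter_open {C V : Set (ℕ → Bool)} (hV : IsOpen V) {u : List Bool} :
    hits (C ∩ V) u ↔ ∃ v, u <+: v ∧ cyl v ⊆ V ∧ hits C v := by
  constructor
  · rintro ⟨z, ⟨hzC, hzV⟩, hzu⟩
    obtain ⟨n, hn⟩ := exists_cyl_subset hV hzV
    refine ⟨bini z (max n u.length), ?_, ?_, z, hzC, mem_cyl_bini _ _⟩
    · exact prefix_of_mem_cyl hzu (mem_cyl_bini z _) (by simp)
    · exact (cyl_anti (bini_prefix z (le_max_left _ _))).trans hn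
  · rintro ⟨v, huv, hvV, z, hzC, hzv⟩
    exact ⟨z, ⟨hzC, hvV hzv⟩, cyl_anti huv hzv⟩

variable {ι : Type*} [LinearOrder ι] [WellFoundedLT ι]

theorem Meas.forall {θ : ι} {κ : Sort*} [Countable κ] {P : κ → Pt ι → Prop}
    (h : ∀ i, Meas θ {x | P i x}) : Meas θ {x | ∀ i, P i x} := by
  rw [Set.ofPred_forall]
  exact Meas.iInter h

theorem Meas.exists {θ : ι} {κ : Sort*} [Countable κ] {P : κ → Pt ι → Prop}
    (h : ∀ i, Meas θ {x | P i x}) : Meas θ {x | ∃ i, P i x} := by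
  rw [Set.ofPred_exists]
  exact Meas.iUnion h

theorem Meas.and {θ : ι} {P Q : Pt ι → Prop} (h : Meas θ {x | P x}) (h' : Meas θ {x | Q x}) :
    Meas θ {x | P x ∧ Q x} := h.inter h'

theorem Meas.or {θ : ι} {P Q : Pt ι → Prop} (h : Meas θ {x | P x}) (h' : Meas θ {x | Q x}) :
    Meas θ {x | P x ∨ Q x} := h.union h'

theorem Meas.not {θ : ι} {P : Pt ι → Prop} (h : Meas θ {x | P x}) :
    Meas θ {x | ¬ P x} := h.compl

theorem Meas.imp {θ : ι} {P Q : Pt ι → Prop} (h : Meas θ {x | P x}) (h' : Meas θ {x | Q x}) :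
    Meas θ {x | P x → Q x} := by
  have : {x | P x → Q x} = {x | ¬ P x ∨ Q x} := by
    ext x; simp only [mem_ofPred_eq]; tauto
  rw [this]
  exact h.not.or h'

theorem Meas.iff {θ : ι} {P Q : Pt ι → Prop} (h : Meas θ {x | P x}) (h' : Meas θ {x | Q x}) :
    Meas θ {x | P x ↔ Q x} := by
  have : {x | P x ↔ Q x} = {x | (P x → Q x) ∧ (Q x → P x)} := by
    ext x; simp only [mem_ofPred_eq]; tauto
  rw [this]
  exact (h.imp h').and (h'.imp h)

/-- Statements about a measurable function with values in a countable type. -/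
theorem meas_of_countable {θ : ι} {α : Type*} [Countable α] {f : Pt ι → α}
    (hf : ∀ a, Meas θ {x | f x = a}) (P : α → Prop) : Meas θ {x | P (f x)} := by
  have : {x | P (f x)} = ⋃ a : {a // P a}, {x | f x = a} := by
    ext x
    simp only [mem_ofPred_eq, mem_iUnion, Subtype.exists, exists_prop]
    exact ⟨fun h => ⟨f x, h, rfl⟩, fun ⟨a, ha, h⟩ => h ▸ ha⟩
  rw [this]
  exact Meas.iUnion fun a => hf a

/-- Least numbers. -/
theorem meas_sInf {θ : ι} {P : ℕ → Pt ι → Prop} (h : ∀ n, Meas θ {x | P n x}) (k : ℕ) :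
    Meas θ {x | sInf {n | P n x} = k} := by
  have : {x | sInf {n | P n x} = k} =
      {x | (P k x ∧ ∀ j : Fin k, ¬ P j x) ∨ (k = 0 ∧ ∀ n, ¬ P n x)} := by
    ext x
    simp only [mem_ofPred_eq]
    constructor
    · intro hk
      rcases {n | P n x}.eq_empty_or_nonempty with h0 | hne
      · right
        rw [h0, Nat.sInf_empty] at hk
        exact ⟨hk.symm, fun n hn => by
          have : n ∈ {n | P n x} := hn
          rw [h0] at this
          exact this⟩
      · left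
        rw [← hk]
        exact ⟨Nat.sInf_mem hne, fun j hj => Nat.notMem_of_lt_sInf j.2 hj⟩
    · rintro (⟨h1, h2⟩ | ⟨h1, h2⟩)
      · apply le_antisymm (Nat.sInf_le h1)
        by_contra hcon
        push Not at hcon
        exact h2 ⟨_, hcon⟩ (Nat.sInf_mem (s := {n | P n x}) ⟨k, h1⟩)
      · rw [h1]
        have : {n | P n x} = ∅ := by
          ext n; simpa using h2 n
        rw [this, Nat.sInf_empty]
  rw [this]
  exact ((h k).and (Meas.forall fun j : Fin k => (h j).not)).or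
    ((meas_const θ (k = 0)).and (Meas.forall fun n => (h n).not))

/-- Measurable names for closed sets. -/
def MeasC (θ : ι) (R : Pt ι → Set (ℕ → Bool)) : Prop :=
  (∀ x, IsClosed (R x)) ∧ ∀ s, Meas θ {x | hits (R x) s}

theorem MeasC.up {i θ : ι} (hi : i ≤ θ) {R : Pt ι → Set (ℕ → Bool)} (h : MeasC i R) :
    MeasC θ R := ⟨h.1, fun s => (h.2 s).up hi⟩

theorem MeasC.const (θ : ι) {C : Set (ℕ → Bool)} (hC : IsClosed C) :
    MeasC θ (fun _ : Pt ι => C) := ⟨fun _ => hC, fun s => meas_const θ _⟩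

theorem MeasC.subset {θ : ι} {R F : Pt ι → Set (ℕ → Bool)} (hR : MeasC θ R) (hF : MeasC θ F) :
    Meas θ {x | R x ⊆ F x} := by
  have : {x | R x ⊆ F x} = {x | ∀ s, hits (R x) s → hits (F x) s} := by
    ext x
    exact subset_iff_hits (hF.1 x)
  rw [this]
  exact Meas.forall fun s => (hR.2 s).imp (hF.2 s)

theorem MeasC.closure_iUnion {θ : ι} {κ : Sort*} [Countable κ] {R : κ → Pt ι → Set (ℕ → Bool)}
    (hR : ∀ j, MeasC θ (R j)) : MeasC θ (fun x => closure (⋃ j, R j x)) := by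
  refine ⟨fun x => isClosed_closure, fun s => ?_⟩
  simp only [hits_closure, hits_iUnion]
  exact Meas.exists fun j => (hR j).2 s

theorem meas_coin_nb {θ : ι} {R : Pt ι → Set (ℕ → Bool)} (hR : ∀ s, Meas θ {x | hits (R x) s})
    (n : ℕ) (P : ENNReal → Prop) : Meas θ {x | P (coin (nb (R x) n))} := by
  set f : Pt ι → Set (Fin n → Bool) := fun x => {v | hits (R x) (List.ofFn v)} with hf
  have h1 : ∀ x, nb (R x) n = {z | (fun i : Fin n => z i) ∈ f x} := by
    intro x
    ext z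
    simp only [nb, hf, mem_ofPred_eq]
    rw [bini_eq_ofFn]
  have h2 : {x | P (coin (nb (R x) n))} =
      {x | (fun A : Set (Fin n → Bool) =>
        P (coin {z : ℕ → Bool | (fun i : Fin n => z i) ∈ A})) (f x)} := by
    ext x
    simp only [mem_ofPred_eq, h1]
  rw [h2]
  refine meas_of_countable (θ := θ) (f := f) (fun A => ?_) (fun A : Set (Fin n → Bool) =>
        P (coin {z : ℕ → Bool | (fun i : Fin n => z i) ∈ A}))
  have h3 : {x | f x = A} = {x | ∀ v : Fin n → Bool, hits (R x) (List.ofFn v) ↔ v ∈ A} := by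
    ext x
    simp only [mem_ofPred_eq, Set.ext_iff, hf]
  rw [h3]
  exact Meas.forall fun v => (hR _).iff (meas_const θ _)

theorem coin_eq_zero_iff {C : Set (ℕ → Bool)} (hC : IsClosed C) :
    coin C = 0 ↔ ∀ m : ℕ, ∃ n, coin (nb C n) ≤ (2⁻¹) ^ m := by
  constructor
  · intro h m
    exact ⟨_, coin_nb_lvl hC h (ENNReal.pow_pos (by simp) m)⟩
  · intro h
    have hlim : Tendsto (fun n : ℕ => (2⁻¹ : ENNReal) ^ n) atTop (𝓝 0) :=
      ENNReal.tendsto_pow_atTop_nhds_zero_of_lt_one (by norm_num)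
    refine le_antisymm (ge_of_tendsto' hlim fun m => ?_) bot_le
    obtain ⟨n, hn⟩ := h m
    exact (measure_mono (subset_nb C n)).trans hn

theorem MeasC.null {θ : ι} {R : Pt ι → Set (ℕ → Bool)} (hR : MeasC θ R) :
    Meas θ {x | coin (R x) = 0} := by
  have : {x | coin (R x) = 0} = {x | ∀ m : ℕ, ∃ n, coin (nb (R x) n) ≤ (2⁻¹) ^ m} := by
    ext x
    exact coin_eq_zero_iff (hR.1 x)
  rw [this]
  exact Meas.forall fun m => Meas.exists fun n => meas_coin_nb hR.2 n fun r => r ≤ (2⁻¹) ^ m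

/-- Measurable names for open sets. -/
def MeasO (θ : ι) (W : Pt ι → Set (ℕ → Bool)) : Prop :=
  (∀ x, IsOpen (W x)) ∧ ∀ v, Meas θ {x | cyl v ⊆ W x}

theorem MeasO.inter {θ : ι} {V W : Pt ι → Set (ℕ → Bool)} (hV : MeasO θ V) (hW : MeasO θ W) :
    MeasO θ (fun x => V x ∩ W x) := by
  refine ⟨fun x => (hV.1 x).inter (hW.1 x), fun v => ?_⟩
  simp only [subset_inter_iff]
  exact (hV.2 v).and (hW.2 v)

theorem MeasC.nb {θ : ι} {R : Pt ι → Set (ℕ → Bool)} (hR : ∀ s, Meas θ {x | hits (R x) s})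
    (n : ℕ) : MeasO θ (fun x => nb (R x) n) := by
  refine ⟨fun x => (isClopen_nb _ _).isOpen, fun v => ?_⟩
  simp only [cyl_subset_nb_iff]
  exact Meas.forall fun w => (meas_const θ _).imp ((meas_const θ _).imp (hR _))

theorem MeasC.nb_lvl {θ : ι} {R : Pt ι → Set (ℕ → Bool)} (hR : ∀ s, Meas θ {x | hits (R x) s})
    (ε : ENNReal) :
    MeasO θ (fun x => MP_40b13d_lc.nb (R x) (lvl (R x) ε)) := by
  refine ⟨fun x => (isClopen_nb _ _).isOpen, fun v => ?_⟩
  have : {x | cyl v ⊆ MP_40b13d_lc.nb (R x) (lvl (R x) ε)} =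
      {x | ∃ n, lvl (R x) ε = n ∧ cyl v ⊆ MP_40b13d_lc.nb (R x) n} := by
    ext x
    simp only [mem_ofPred_eq, exists_eq_left']
  rw [this]
  refine Meas.exists fun n => Meas.and ?_ ((MeasC.nb hR n).2 v)
  exact meas_sInf (P := fun n x => coin (MP_40b13d_lc.nb (R x) n) ≤ ε)
    (fun n => meas_coin_nb hR n fun r => r ≤ ε) n

theorem MeasC.inter_clopen {θ : ι} {R V : Pt ι → Set (ℕ → Bool)} (hR : MeasC θ R)
    (hV : MeasO θ V) (hV' : ∀ x, IsClosed (V x)) : MeasC θ (fun x => R x ∩ V x) := by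
  refine ⟨fun x => (hR.1 x).inter (hV' x), fun s => ?_⟩
  have : {x | hits (R x ∩ V x) s} = {x | ∃ v, s <+: v ∧ cyl v ⊆ V x ∧ hits (R x) v} := by
    ext x
    exact hits_inter_open (hV.1 x)
  rw [this]
  exact Meas.exists fun v => (meas_const θ _).and ((hV.2 v).and (hR.2 v))

theorem measO_univ (θ : ι) : MeasO θ (fun _ : Pt ι => (univ : Set (ℕ → Bool))) :=
  ⟨fun _ => isOpen_univ, fun _ => meas_const θ _⟩

/-- The tree of closed null sets depends measurably on the data. -/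
theorem nullTree_meas {θ : ι} {B : List ℕ → ℕ → Pt ι → Set (ℕ → Bool)}
    {B0 : Pt ι → Set (ℕ → Bool)} {s : List ℕ} (hB : ∀ t k, MeasC θ (B t k))
    (hB0 : MeasC θ B0) (σ : List (ℕ × ℕ)) :
    MeasC θ (fun x => (nullTree (fun t k => B t k x) (B0 x) s σ).1) ∧
    MeasO θ (fun x => (nullTree (fun t k => B t k x) (B0 x) s σ).2) := by
  induction σ with
  | nil => exact ⟨hB0, measO_univ θ⟩
  | cons a σ ih =>
    obtain ⟨l, k⟩ := a
    have hV : MeasO θ (fun x => nullV (fun t k => B t k x) (B0 x) s σ (l + k)) :=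
      ih.2.inter (MeasC.nb ih.1.2 _)
    have hA : MeasC θ (fun x => (nullTree (fun t k => B t k x) (B0 x) s ((l, k) :: σ)).1) :=
      (hB _ _).inter_clopen hV fun x => (nullV_clopen σ _).isClosed
    exact ⟨hA, hV.inter (MeasC.nb_lvl hA.2 _)⟩

theorem nullStar_meas {θ : ι} {B : List ℕ → ℕ → Pt ι → Set (ℕ → Bool)}
    {B0 : Pt ι → Set (ℕ → Bool)} {s : List ℕ} (hB : ∀ t k, MeasC θ (B t k))
    (hB0 : MeasC θ B0) : MeasC θ (fun x => nullStar (fun t k => B t k x) (B0 x) s) :=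
  MeasC.closure_iUnion fun σ => (nullTree_meas hB hB0 σ).1

end Pool.Agent.Lib.MP_40b13d_lc
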