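import Mathlib
import Pool.Agent.Lib.MP_40b13d_lc.SetName

/-!
# Hulls of names for closed sets at lower levels
-/

open MeasureTheory Set Topology Filter

namespace Pool.Agent.Lib.MP_40b13d_lc

variable {ι : Type*} [LinearOrder ι] [WellFoundedLT ι]

/-- A relatively dense open set contains almost all points. -/
theorem ae_of_rel_dense {θ : ι} {U V : Set (Pt ι)} (hV : OpenAt θ V)
    (h : ∀ W, OpenAt θ W → (W ∩ U).Nonempty → (W ∩ V).Nonempty) :
    ∀ᶠ x in Ae θ, x ∈ U → x ∈ V := by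
  set E : Set (Pt ι) := ⋃₀ {W | OpenAt θ W ∧ W ∩ U = ∅} with hE
  have hEo : OpenAt θ E := openAt_sUnion fun V hV => hV.1
  have hd : DenseAt θ (V ∪ E) := by
    rw [dense_iff]
    intro p hp
    by_cases h1 : (p.set ∩ U).Nonempty
    · obtain ⟨x, h1, h2⟩ := h p.set hp.openAt h1
      exact ⟨x, h1, Or.inl h2⟩
    · rw [Set.not_nonempty_iff_eq_empty] at h1
      obtain ⟨x, hx⟩ := hp.nonempty
      exact ⟨x, hx, Or.inr ⟨p.set, ⟨hp.openAt, h1⟩, hx⟩⟩
  filter_upwards [ae_of_dense (hV.union' hEo) hd] with x hx hxU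
  rcases hx with h | ⟨W, ⟨-, h2⟩, h1⟩
  · exact h
  · have : x ∈ W ∩ U := ⟨h1, hxU⟩
    rw [h2] at this
    exact absurd this (Set.notMem_empty x)

/-- **Union principle**: a property holding almost everywhere on every member of a family of open
sets holds almost everywhere on the union. -/
theorem ae_sUnion {i θ : ι} (hi : i ≤ θ) {S : Set (Set (Pt ι))} (hS : ∀ U ∈ S, OpenAt i U)
    {P : Pt ι → Prop} (h : ∀ U ∈ S, ∀ᶠ x in Ae θ, x ∈ U → P x) :
    ∀ᶠ x in Ae θ, x ∈ ⋃₀ S → P x := by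
  obtain ⟨T, hT, hTc, hTd⟩ := exists_countable_subfamily hS
  have h1 : ∀ᶠ x in Ae i, x ∈ ⋃₀ S → x ∈ ⋃₀ T :=
    ae_of_rel_dense (openAt_sUnion fun U hU => hS U (hT hU)) hTd
  have h2 : ∀ᶠ x in Ae θ, ∀ U ∈ T, x ∈ U → P x :=
    (eventually_countable_ball hTc).2 fun U hU => h U (hT hU)
  filter_upwards [ae_up hi h1, h2] with x hx1 hx2 hx
  obtain ⟨U, hU, hxU⟩ := hx1 hx
  exact hx2 U hU hxU

/-- The closed-set-valued function with `{x | hits (treeName N x) s} = (N s)ᶜ`. -/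
def treeName (N : List Bool → Set (Pt ι)) : Pt ι → Set (ℕ → Bool) :=
  fun x => treeSet (fun s => x ∉ N s)

omit [LinearOrder ι] [WellFoundedLT ι] in
theorem treeName_hits {N : List Bool → Set (Pt ι)}
    (hN : ∀ s x, x ∈ N s ↔ ∀ b, x ∈ N (s ++ [b])) {x : Pt ι} {s : List Bool} :
    hits (treeName N x) s ↔ x ∉ N s := by
  apply hits_treeSet
  intro s
  rw [hN s x]
  push Not
  rfl

theorem treeName_meas {θ : ι} {N : List Bool → Set (Pt ι)}
    (hN : ∀ s x, x ∈ N s ↔ ∀ b, x ∈ N (s ++ [b])) (h : ∀ s, Meas θ (N s)) :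
    MeasC θ (treeName N) := by
  refine ⟨fun x => isClosed_treeSet _, fun s => ?_⟩
  have : {x | hits (treeName N x) s} = (N s)ᶜ := by
    ext x
    exact treeName_hits hN
  rw [this]
  exact (h s).compl

/-! ### The hull -/

/-- The open sets of level `i` on which `R` almost surely misses the cylinder of `s`. -/
def hullN (i θ : ι) (R : Pt ι → Set (ℕ → Bool)) (s : List Bool) : Set (Pt ι) :=
  ⋃₀ {U | OpenAt i U ∧ ∀ᶠ y in Ae θ, y ∈ U → ¬ hits (R y) s}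

/-- The smallest name of level `i` for a closed set containing `R`. -/
def hull (i θ : ι) (R : Pt ι → Set (ℕ → Bool)) : Pt ι → Set (ℕ → Bool) :=
  treeName (hullN i θ R)

theorem hullN_snoc {i θ : ι} {R : Pt ι → Set (ℕ → Bool)} (s : List Bool) (x : Pt ι) :
    x ∈ hullN i θ R s ↔ ∀ b, x ∈ hullN i θ R (s ++ [b]) := by
  constructor
  · rintro ⟨U, ⟨hU, h⟩, hx⟩ b
    exact ⟨U, ⟨hU, h.mono fun y hy hyU hh => hy hyU (hits_snoc.2 ⟨b, hh⟩)⟩, hx⟩
  · intro h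
    obtain ⟨U, ⟨hU, h1⟩, hx1⟩ := h true
    obtain ⟨V, ⟨hV, h2⟩, hx2⟩ := h false
    refine ⟨U ∩ V, ⟨hU.inter hV, ?_⟩, hx1, hx2⟩
    filter_upwards [h1, h2] with y a1 a2 hy hh
    obtain ⟨b, hb⟩ := hits_snoc.1 hh
    cases b
    · exact a2 hy.2 hb
    · exact a1 hy.1 hb

theorem hull_meas (i θ : ι) (R : Pt ι → Set (ℕ → Bool)) : MeasC i (hull i θ R) :=
  treeName_meas hullN_snoc fun s => (openAt_sUnion fun U hU => hU.1).meas

theorem hull_superset {i θ : ι} (hi : i ≤ θ) {R : Pt ι → Set (ℕ → Bool)} :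
    ∀ᶠ x in Ae θ, R x ⊆ hull i θ R x := by
  have : ∀ᶠ x in Ae θ, ∀ s, x ∈ hullN i θ R s → ¬ hits (R x) s := by
    rw [eventually_countable_forall]
    intro s
    exact ae_sUnion hi (fun U hU => hU.1) fun U hU => hU.2
  filter_upwards [this] with x hx
  rw [subset_iff_hits ((hull_meas i θ R).1 x)]
  intro s hs
  rw [hull, treeName_hits hullN_snoc]
  exact fun h => hx s h hs

theorem hull_minimal {i θ : ι} (hi : i ≤ θ) {R F : Pt ι → Set (ℕ → Bool)} (hF : MeasC i F)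
    {p : Set (Pt ι)} (hp : OpenAt i p) (h : ∀ᶠ x in Ae θ, x ∈ p → R x ⊆ F x) :
    ∀ᶠ x in Ae i, x ∈ p → hull i θ R x ⊆ F x := by
  choose U hU hFU using fun s => (hF.2 s).compl.exists_open
  have h1 : ∀ s, p ∩ U s ⊆ hullN i θ R s := by
    intro s x hx
    refine ⟨p ∩ U s, ⟨hp.inter (hU s), ?_⟩, hx⟩
    filter_upwards [h, ae_up hi (hFU s).mem_iff] with y hy1 hy2 hy hh
    exact (hy2.2 hy.2) (hits_mono (hy1 hy.1) hh)
  have h2 : ∀ᶠ x in Ae i, ∀ s, x ∈ {x | hits (F x) s}ᶜ ↔ x ∈ U s := by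
    rw [eventually_countable_forall]
    exact fun s => (hFU s).mem_iff
  filter_upwards [h2] with x hx hxp
  rw [subset_iff_hits (hF.1 x)]
  intro s hs
  rw [hull, treeName_hits hullN_snoc] at hs
  by_contra hcon
  exact hs (h1 s ⟨hxp, (hx s).1 hcon⟩)

/-! ### The sets `K t` -/

/-- The points at which some promise with stem `t` forces `R` to miss the cylinder of `s`. -/
def ksetN (i θ : ι) (R : Pt ι → Set (ℕ → Bool)) (t : List ℕ) (s : List Bool) : Set (Pt ι) :=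
  ⋃₀ {U | OpenAt i U ∧ ∃ H, Good i H ∧ ∀ᶠ y in Ae θ, y ∈ U → y ∈ Box i t H → ¬ hits (R y) s}

/-- The intersection, over all promises with stem `t`, of the sets of possible elements of `R`. -/
def kset (i θ : ι) (R : Pt ι → Set (ℕ → Bool)) (t : List ℕ) : Pt ι → Set (ℕ → Bool) :=
  treeName (ksetN i θ R t)

theorem ksetN_snoc {i θ : ι} {R : Pt ι → Set (ℕ → Bool)} {t : List ℕ} (s : List Bool)
    (x : Pt ι) : x ∈ ksetN i θ R t s ↔ ∀ b, x ∈ ksetN i θ R t (s ++ [b]) := by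
  constructor
  · rintro ⟨U, ⟨hU, H, hH, h⟩, hx⟩ b
    exact ⟨U, ⟨hU, H, hH, h.mono fun y hy hyU hyB hh => hy hyU hyB (hits_snoc.2 ⟨b, hh⟩)⟩, hx⟩
  · intro h
    obtain ⟨U, ⟨hU, H, hH, h1⟩, hx1⟩ := h true
    obtain ⟨V, ⟨hV, H', hH', h2⟩, hx2⟩ := h false
    refine ⟨U ∩ V, ⟨hU.inter hV, H.inf H', hH.inf hH', ?_⟩, hx1, hx2⟩
    filter_upwards [h1, h2] with y a1 a2 hy hyB hh
    obtain ⟨b, hb⟩ := hits_snoc.1 hh
    cases b
    · exact a2 hy.2 (Box.mono (fun _ _ => inter_subset_right) hyB) hb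
    · exact a1 hy.1 (Box.mono (fun _ _ => inter_subset_left) hyB) hb

theorem ksetN_open (i θ : ι) (R : Pt ι → Set (ℕ → Bool)) (t : List ℕ) (s : List Bool) :
    OpenAt i (ksetN i θ R t s) := openAt_sUnion fun U hU => hU.1

theorem kset_meas (i θ : ι) (R : Pt ι → Set (ℕ → Bool)) (t : List ℕ) :
    MeasC i (kset i θ R t) :=
  treeName_meas ksetN_snoc fun s => (ksetN_open i θ R t s).meas

theorem kset_hits {i θ : ι} {R : Pt ι → Set (ℕ → Bool)} {t : List ℕ} {x : Pt ι}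
    {s : List Bool} : hits (kset i θ R t x) s ↔ x ∉ ksetN i θ R t s :=
  treeName_hits ksetN_snoc

theorem kset_minimal {i θ : ι} (hi : i ≤ θ) {R F : Pt ι → Set (ℕ → Bool)} (hF : MeasC i F)
    {p : Set (Pt ι)} (hp : OpenAt i p) {t : List ℕ} {H : Prom ι} (hH : Good i H)
    (h : ∀ᶠ x in Ae θ, x ∈ p → x ∈ Box i t H → R x ⊆ F x) :
    ∀ᶠ x in Ae i, x ∈ p → kset i θ R t x ⊆ F x := by
  choose U hU hFU using fun s => (hF.2 s).compl.exists_open
  have h1 : ∀ s, p ∩ U s ⊆ ksetN i θ R t s := by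
    intro s x hx
    refine ⟨p ∩ U s, ⟨hp.inter (hU s), H, hH, ?_⟩, hx⟩
    filter_upwards [h, ae_up hi (hFU s).mem_iff] with y hy1 hy2 hy hyB hh
    exact (hy2.2 hy.2) (hits_mono (hy1 hy.1 hyB) hh)
  have h2 : ∀ᶠ x in Ae i, ∀ s, x ∈ {x | hits (F x) s}ᶜ ↔ x ∈ U s := by
    rw [eventually_countable_forall]
    exact fun s => (hFU s).mem_iff
  filter_upwards [h2] with x hx hxp
  rw [subset_iff_hits (hF.1 x)]
  intro s hs
  rw [kset_hits] at hs
  by_contra hcon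
  exact hs (h1 s ⟨hxp, (hx s).1 hcon⟩)

omit [LinearOrder ι] [WellFoundedLT ι] in
theorem Box.of_snoc {i : ι} {t : List ℕ} {l : ℕ} {H : Prom ι} {x : Pt ι}
    (hx : x ∈ Box i (t ++ [l]) H) (h : x ∈ H t l) : x ∈ Box i t H := by
  have h0 := isIni_snoc.1 hx.1
  refine ⟨h0.1, fun t' k' ht' hk' => ?_⟩
  have h1 := isIni_snoc.1 hk'
  rcases ht'.length_le.eq_or_lt with h2 | h2
  · have h3 : t = t' := ht'.eq_of_length h2
    subst h3
    rw [← h1.2, h0.2]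
    exact h
  · exact hx.2 t' k' (hx.1.pfx h1.1 (by simpa using h2)) hk'

omit [LinearOrder ι] [WellFoundedLT ι] in
theorem Box.snoc {i : ι} {t : List ℕ} {l : ℕ} {H : Prom ι} {x : Pt ι}
    (hx : x ∈ Box i t H) (h : IsIni (t ++ [l]) (x i)) : x ∈ Box i (t ++ [l]) H :=
  ⟨h, fun t' k' ht' hk' => hx.2 t' k' ((List.prefix_append _ _).trans ht') hk'⟩

/-- The sets `K (t ++ [l])` converge to (a subset of) `K t`. -/
theorem kset_conv {i θ : ι} {R : Pt ι → Set (ℕ → Bool)} :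
    ∀ᶠ x in Ae i, ∀ t s, ¬ hits (kset i θ R t x) s →
      ∃ m, ∀ l ≥ m, ¬ hits (kset i θ R (t ++ [l]) x) s := by
  rw [eventually_countable_forall]
  intro t
  rw [eventually_countable_forall]
  intro s
  simp only [kset_hits, not_not]
  set E : Set (Pt ι) := ⋃₀ {V | OpenAt i V ∧ ∃ m, ∀ l ≥ m, V ⊆ ksetN i θ R (t ++ [l]) s} with hE
  have key : ∀ᶠ x in Ae i, x ∈ ksetN i θ R t s → x ∈ E := by
    apply ae_of_rel_dense (openAt_sUnion fun V hV => hV.1)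
    rintro W hW ⟨x, hxW, U, ⟨hU, H, hH, h⟩, hxU⟩
    obtain ⟨y, hy, h1⟩ := (hW.inter hU).exists_mem ⟨x, hxW, hxU⟩ hH.ae
    obtain ⟨k, hk⟩ := h1 t
    refine ⟨y, hy.1, U ∩ H t k, ⟨hU.inter (hH.openAt t k), k, ?_⟩, hy.2, hk⟩
    intro l hl
    apply subset_sUnion_of_mem
    refine ⟨hU.inter (hH.openAt t k), H, hH, ?_⟩
    filter_upwards [h] with z hz hz1 hz2
    exact hz hz1.1 (Box.of_snoc hz2 (hH.mono hl hz1.2))
  filter_upwards [key] with x hx hxt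
  obtain ⟨V, ⟨-, m, hm⟩, hxV⟩ := hx hxt
  exact ⟨m, fun l hl => hm l hl hxV⟩

end Pool.Agent.Lib.MP_40b13d_lc
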