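import Mathlib
import Pool.Agent.Lib.MP_40b13d_lc.Hull

/-!
# The preservation theorem
-/

open MeasureTheory Set Topology Filter

namespace Pool.Agent.Lib.MP_40b13d_lc

variable {ι : Type*} [LinearOrder ι] [WellFoundedLT ι]

/-- A countable family of names of level `α` for closed sets of positive measure. -/
def PosFam (α : ι) (Z : Set (Pt ι → Set (ℕ → Bool))) : Prop :=
  Z.Countable ∧ ∀ z ∈ Z, MeasC α z ∧ ∀ x, coin (z x) ≠ 0

/-- The dichotomy: densely often, either `R` is contained in a closed null set of level `α`, or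
one member of `Z` is contained in every closed set of level `α` containing `R`. -/
def Dich (α θ : ι) (R : Pt ι → Set (ℕ → Bool)) (Z : Set (Pt ι → Set (ℕ → Bool))) : Prop :=
  ∀ p, OpenAt θ p → p.Nonempty → ∃ p', OpenAt θ p' ∧ p'.Nonempty ∧ p' ⊆ p ∧
    ((∃ B, MeasC α B ∧ (∀ x, coin (B x) = 0) ∧ ∀ᶠ x in Ae θ, x ∈ p' → R x ⊆ B x) ∨
    (∃ z ∈ Z, ∀ F, MeasC α F → (∀ᶠ x in Ae θ, x ∈ p → R x ⊆ F x) →
      ∀ᶠ x in Ae θ, x ∈ p' → z x ⊆ F x))

theorem MeasC.ite {θ : ι} {P : Pt ι → Prop} [DecidablePred P] (hP : Meas θ {x | P x})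
    {R F : Pt ι → Set (ℕ → Bool)} (hR : MeasC θ R) (hF : MeasC θ F) :
    MeasC θ (fun x => if P x then R x else F x) := by
  refine ⟨fun x => ?_, fun s => ?_⟩
  · by_cases h : P x
    · simp only [h, if_true]; exact hR.1 x
    · simp only [h, if_false]; exact hF.1 x
  · have : {x | hits (if P x then R x else F x) s} =
        {x | (P x ∧ hits (R x) s) ∨ (¬ P x ∧ hits (F x) s)} := by
      ext x
      by_cases h : P x <;> simp [h]
    rw [this]
    exact (hP.and (hR.2 s)).or (hP.not.and (hF.2 s))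

/-- Base case. -/
theorem preserve_base (α : ι) {R : Pt ι → Set (ℕ → Bool)} (hR : MeasC α R) :
    ∃ Z, PosFam α Z ∧ Dich α α R Z := by
  classical
  set z0 : Pt ι → Set (ℕ → Bool) := fun x => if coin (R x) = 0 then univ else R x with hz0
  refine ⟨{z0}, ⟨countable_singleton _, ?_⟩, ?_⟩
  · rintro z rfl
    refine ⟨MeasC.ite hR.null (MeasC.const α isClosed_univ) hR, fun x => ?_⟩
    by_cases h : coin (R x) = 0
    · simp [hz0, h]
    · simp only [hz0, h, if_false]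
      exact h
  · intro p hp hne
    by_cases h : ∀ᶠ x in Ae α, x ∈ p → x ∉ {x | coin (R x) = 0}
    · refine ⟨p, hp, hne, Subset.rfl, Or.inr ⟨z0, rfl, ?_⟩⟩
      intro F _ hRF
      filter_upwards [h, hRF] with x h1 h2 hx
      have h3 : ¬ coin (R x) = 0 := h1 hx
      simp only [hz0, h3, if_false]
      exact h2 hx
    · obtain ⟨V, hV, hVne, hVp, hVM⟩ := hR.null.exists_open_subset hp h
      refine ⟨V, hV, hVne, hVp, Or.inl ⟨fun x => if coin (R x) = 0 then R x else ∅,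
        MeasC.ite hR.null hR (MeasC.const α isClosed_empty), ?_, ?_⟩⟩
      · intro x
        by_cases h : coin (R x) = 0 <;> simp [h]
      · filter_upwards [hVM] with x h1 hx
        have h3 : coin (R x) = 0 := h1 hx
        simp [h3]

/-- Limit case, countable cofinality. -/
theorem preserve_limit_countable {α θ : ι} (f : ℕ → ι) (hf : ∀ n, f n < θ) (hfα : ∀ n, α ≤ f n)
    (hcof : ∀ i < θ, ∃ n, i < f n)
    (IH : ∀ i < θ, α ≤ i → ∀ R, MeasC i R → ∃ Z, PosFam α Z ∧ Dich α i R Z)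
    (R : Pt ι → Set (ℕ → Bool)) : ∃ Z, PosFam α Z ∧ Dich α θ R Z := by
  have hα : α ≤ θ := (hfα 0).trans (hf 0).le
  choose Z hZ hD using fun n => IH (f n) (hf n) (hfα n) (hull (f n) θ R) (hull_meas _ _ _)
  refine ⟨⋃ n, Z n, ⟨countable_iUnion fun n => (hZ n).1, ?_⟩, ?_⟩
  · intro z hz
    obtain ⟨n, hz⟩ := mem_iUnion.1 hz
    exact (hZ n).2 z hz
  · rintro p hp ⟨x, hx⟩
    obtain ⟨c, hc, hxc, hcp⟩ := openAt_iff.1 hp x hx
    -- the support of `c` is bounded by some `f n`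
    have hbd : ∃ n, ∀ γ ∈ c.supp, γ < f n := by
      rcases c.supp.eq_empty_or_nonempty with h0 | hne
      · exact ⟨0, by simp [h0]⟩
      · obtain ⟨n, hn⟩ := hcof _ (hc _ (c.supp.max'_mem hne)).1
        exact ⟨n, fun γ hγ => (c.supp.le_max' γ hγ).trans_lt hn⟩
    obtain ⟨n, hn⟩ := hbd
    have hcv : Valid (f n) c := fun γ hγ => ⟨hn γ hγ, (hc γ hγ).2⟩
    obtain ⟨p', hp', hne', hsub, h⟩ := hD n c.set hcv.openAt ⟨x, hxc⟩
    refine ⟨p', hp'.mono (hf n).le, hne', hsub.trans hcp, ?_⟩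
    rcases h with ⟨B, hB, hB0, hRB⟩ | ⟨z, hz, hzF⟩
    · left
      refine ⟨B, hB, hB0, ?_⟩
      filter_upwards [hull_superset (hf n).le (R := R), ae_up (hf n).le hRB] with y h1 h2 hy
      exact h1.trans (h2 hy)
    · right
      refine ⟨z, mem_iUnion.2 ⟨n, hz⟩, fun F hF hRF => ?_⟩
      apply ae_up (hf n).le
      apply hzF F hF
      apply hull_minimal (hf n).le (hF.up (hfα n)) hcv.openAt
      filter_upwards [hRF] with y h1 hy
      exact h1 (hcp hy)

/-- Limit case, uncountable cofinality. -/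
theorem preserve_limit_uncountable {α θ : ι} (hα : α < θ)
    (hθ : ∀ f : ℕ → ι, (∀ n, f n < θ) → ∃ i < θ, ∀ n, f n < i)
    (IH : ∀ i < θ, α ≤ i → ∀ R, MeasC i R → ∃ Z, PosFam α Z ∧ Dich α i R Z)
    {R : Pt ι → Set (ℕ → Bool)} (hR : MeasC θ R) : ∃ Z, PosFam α Z ∧ Dich α θ R Z := by
  choose j hj U hU hRU using fun s => (hR.2 s).compl.exists_level ⟨α, hα⟩ hθ
  obtain ⟨i, hi, hij⟩ : ∃ i < θ, α ≤ i ∧ ∀ s, j s ≤ i := by
    obtain ⟨e, he⟩ := exists_surjective_nat (List Bool)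
    obtain ⟨i, hi, h⟩ := hθ (fun n => j (e n)) (fun n => hj _)
    refine ⟨max α i, max_lt hα hi, le_max_left _ _, fun s => ?_⟩
    obtain ⟨n, rfl⟩ := he s
    exact (h n).le.trans (le_max_right _ _)
  obtain ⟨hαi, hji⟩ := hij
  have hhull : ∀ᶠ x in Ae θ, hull i θ R x ⊆ R x := by
    have h1 : ∀ s, U s ⊆ hullN i θ R s := by
      intro s x hx
      refine ⟨U s, ⟨(hU s).openAt.mono (hji s), ?_⟩, hx⟩
      filter_upwards [(hRU s).mem_iff] with y hy hyU
      exact hy.2 hyU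
    have h2 : ∀ᶠ x in Ae θ, ∀ s, x ∈ {x | hits (R x) s}ᶜ ↔ x ∈ U s := by
      rw [eventually_countable_forall]
      exact fun s => (hRU s).mem_iff
    filter_upwards [h2] with x hx
    rw [subset_iff_hits (hR.1 x)]
    intro s hs
    rw [hull, treeName_hits hullN_snoc] at hs
    by_contra hcon
    exact hs (h1 s ((hx s).1 hcon))
  obtain ⟨Z, hZ, hD⟩ := IH i hi hαi (hull i θ R) (hull_meas _ _ _)
  refine ⟨Z, hZ, ?_⟩
  rintro p hp ⟨x, hx⟩
  obtain ⟨c, hc, hxc, hcp⟩ := openAt_iff.1 hp x hx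
  obtain ⟨p0, hp0, hne0, hsub0, h⟩ := hD (c.res i).set (hc.res i).openAt (hc.res i).nonempty
  have hne : (c.set ∩ p0).Nonempty := inter_nonempty_up hi.le hp0 hc
    (by rwa [inter_eq_right.2 hsub0])
  refine ⟨c.set ∩ p0, hc.openAt.inter (hp0.mono hi.le), hne, inter_subset_left.trans hcp, ?_⟩
  rcases h with ⟨B, hB, hB0, hRB⟩ | ⟨z, hz, hzF⟩
  · left
    refine ⟨B, hB, hB0, ?_⟩
    filter_upwards [hull_superset hi.le (R := R), ae_up hi.le hRB] with y h1 h2 hy
    exact h1.trans (h2 hy.2)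
  · right
    refine ⟨z, hz, fun F hF hRF => ?_⟩
    have h1 : ∀ᶠ x in Ae i, x ∈ (c.res i).set → x ∈ {x | hull i θ R x ⊆ F x} := by
      apply ae_down hi.le hc ((hull_meas i θ R).subset (hF.up hαi))
      filter_upwards [hRF, hhull] with y h1 h2 hy
      exact h2.trans (h1 (hcp hy))
    filter_upwards [ae_up hi.le (hzF F hF h1)] with y h2 hy
    exact h2 hy.2


/-! ### Successor case -/

/-- Points of `U` whose promise `G` allows the sequence `t` above `s`. -/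
def Along (U : Set (Pt ι)) (s : List ℕ) (G : Prom ι) (t : List ℕ) : Set (Pt ι) :=
  {x | x ∈ U ∧ ∀ t' k', s <+: t' → t' ++ [k'] <+: t → x ∈ G t' k'}

omit [LinearOrder ι] [WellFoundedLT ι] in
theorem along_snoc {U : Set (Pt ι)} {s : List ℕ} {G : Prom ι} {t : List ℕ} {k : ℕ}
    (hst : s <+: t) : Along U s G (t ++ [k]) = Along U s G t ∩ G t k := by
  ext x
  simp only [Along, mem_ofPred_eq, mem_inter_iff]
  constructor
  · rintro ⟨h1, h2⟩
    exact ⟨⟨h1, fun t' k' a b => h2 t' k' a (b.trans (List.prefix_append _ _))⟩,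
      h2 t k hst List.prefix_rfl⟩
  · rintro ⟨⟨h1, h2⟩, h3⟩
    refine ⟨h1, fun t' k' a b => ?_⟩
    rcases prefix_snoc_iff.1 b with h | h
    · exact h2 t' k' a h
    · obtain ⟨rfl, h5⟩ := List.append_inj' h rfl
      rw [List.singleton_inj] at h5
      rw [h5]
      exact h3

omit [LinearOrder ι] [WellFoundedLT ι] in
theorem along_self {U : Set (Pt ι)} {s : List ℕ} {G : Prom ι} : Along U s G s = U := by
  ext x
  simp only [Along, mem_ofPred_eq, and_iff_left_iff_imp]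
  intro _ t' k' a b
  have := a.length_le
  have := b.length_le
  simp at this
  omega

theorem along_open {i : ι} {U : Set (Pt ι)} (hU : OpenAt i U) {s : List ℕ} {G : Prom ι}
    (hG : Good i G) {t : List ℕ} (hst : s <+: t) : OpenAt i (Along U s G t) := by
  obtain ⟨u, rfl⟩ := hst
  induction u using List.reverseRecOn with
  | nil => rw [List.append_nil, along_self]; exact hU
  | append_singleton u k ih =>
    rw [← List.append_assoc, along_snoc (List.prefix_append _ _)]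
    exact ih.inter (hG.openAt _ _)

omit [LinearOrder ι] [WellFoundedLT ι] in
theorem Box.of_along {i : ι} {U : Set (Pt ι)} {s t : List ℕ} {G : Prom ι} (hst : s <+: t)
    {x : Pt ι} (hx : x ∈ Box i t G) (h : x ∈ Along U s G t) : x ∈ Box i s G := by
  refine ⟨hx.1.mono hst, fun t' k' a b => ?_⟩
  rcases le_or_gt t.length t'.length with hl | hl
  · exact hx.2 t' k' (hx.1.pfx (isIni_snoc.1 b).1 hl) b
  · exact h.2 t' k' a (b.pfx hx.1 (by simpa using hl))

theorem box_open {i θ : ι} (hi : i < θ) {U : Set (Pt ι)} (hU : OpenAt i U) {t : List ℕ}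
    {G : Prom ι} (hG : Good i G) : OpenAt θ (U ∩ Box i t G) := by
  rw [openAt_iff]
  rintro x ⟨hxU, hxB⟩
  obtain ⟨c, hc, hxc, hcU⟩ := openAt_iff.1 hU x hxU
  refine ⟨c.ext i t G, hc.ext hi hG, ?_, ?_⟩
  · rw [Cond.ext_set fun γ hγ => (hc γ hγ).1]
    exact ⟨hxc, hxB⟩
  · rw [Cond.ext_set fun γ hγ => (hc γ hγ).1]
    exact inter_subset_inter_left _ hcU

theorem box_nonempty {i θ : ι} (hi : i < θ) {U : Set (Pt ι)} (hU : OpenAt i U)
    (hne : U.Nonempty) {t : List ℕ} {G : Prom ι} (hG : Good i G) : (U ∩ Box i t G).Nonempty := by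
  obtain ⟨x, hx⟩ := hne
  obtain ⟨c, hc, hxc, hcU⟩ := openAt_iff.1 hU x hx
  obtain ⟨y, hy⟩ := (hc.ext hi hG (s := t)).nonempty
  rw [Cond.ext_set fun γ hγ => (hc γ hγ).1] at hy
  exact ⟨y, hcU hy.1, hy.2⟩

/-- At a successor level, every open set contains a box. -/
theorem exists_box {i θ : ι} (hi : i < θ) (hmax : ∀ j < θ, j ≤ i) {p : Set (Pt ι)}
    (hp : OpenAt θ p) (hne : p.Nonempty) :
    ∃ c s G, Valid i c ∧ Good i G ∧ c.set ∩ Box i s G ⊆ p := by
  obtain ⟨x, hx⟩ := hne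
  obtain ⟨c, hc, hxc, hcp⟩ := openAt_iff.1 hp x hx
  by_cases h : i ∈ c.supp
  · refine ⟨c.res i, c.stem i, c.prom i, hc.res i, (hc i h).2, Subset.trans ?_ hcp⟩
    rintro y ⟨hy1, hy2⟩ γ hγ
    rcases (hmax γ (hc γ hγ).1).lt_or_eq with h1 | rfl
    · exact (Cond.mem_res_set.1 hy1) γ hγ h1
    · exact hy2
  · refine ⟨c.res i, [], fun _ _ => univ, hc.res i, good_univ i, Subset.trans ?_ hcp⟩
    rintro y ⟨hy1, hy2⟩ γ hγ
    rcases (hmax γ (hc γ hγ).1).lt_or_eq with h1 | rfl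
    · exact (Cond.mem_res_set.1 hy1) γ hγ h1
    · exact absurd hγ h

/-- The union `K_{t,m}`. -/
def kunion (i θ : ι) (R : Pt ι → Set (ℕ → Bool)) (t : List ℕ) (m : ℕ) : Pt ι → Set (ℕ → Bool) :=
  fun x => closure (⋃ l : {l // m ≤ l}, kset i θ R (t ++ [(l : ℕ)]) x)

theorem kunion_meas (i θ : ι) (R : Pt ι → Set (ℕ → Bool)) (t : List ℕ) (m : ℕ) :
    MeasC i (kunion i θ R t m) := MeasC.closure_iUnion fun l => kset_meas i θ R _

theorem kset_sub_kunion {i θ : ι} {R : Pt ι → Set (ℕ → Bool)} {t : List ℕ} {m l : ℕ}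
    (h : m ≤ l) (x : Pt ι) : kset i θ R (t ++ [l]) x ⊆ kunion i θ R t m x :=
  (subset_iUnion (fun l : {l // m ≤ l} => kset i θ R (t ++ [(l : ℕ)]) x) ⟨l, h⟩).trans
    subset_closure

end Pool.Agent.Lib.MP_40b13d_lc
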