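import Mathlib
import Pool.Agent.Lib.MP_40b13d_lc.Preserve

/-!
# The preservation theorem: successor step and conclusion
-/

open MeasureTheory Set Topology Filter

namespace Pool.Agent.Lib.MP_40b13d_lc

/-- The sequence of pairs (value, index) along a list (read from right to left) above `s`. -/
def codeOf (f : List ℕ → ℕ) (s : List ℕ) : List ℕ → List (ℕ × ℕ)
  | [] => []
  | l :: v => (l, f (s ++ (l :: v).reverse)) :: codeOf f s v

theorem path_codeOf (f : List ℕ → ℕ) (s v : List ℕ) :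
    path s (codeOf f s v) = s ++ v.reverse := by
  induction v with
  | nil => simp [codeOf, path]
  | cons l v ih => simp [codeOf, path, ih]

/-- The same, for a list extending `s`. -/
def sg (f : List ℕ → ℕ) (s t : List ℕ) : List (ℕ × ℕ) := codeOf f s (t.drop s.length).reverse

theorem sg_self (f : List ℕ → ℕ) (s : List ℕ) : sg f s s = [] := by simp [sg, codeOf]

theorem append_drop {s t : List ℕ} (h : s <+: t) : s ++ t.drop s.length = t := by
  obtain ⟨u, rfl⟩ := h
  simp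

theorem sg_snoc (f : List ℕ → ℕ) {s t : List ℕ} (h : s <+: t) (l : ℕ) :
    sg f s (t ++ [l]) = (l, f (t ++ [l])) :: sg f s t := by
  unfold sg
  rw [List.drop_append_of_le_length h.length_le, List.reverse_append, List.reverse_singleton,
    List.singleton_append, codeOf, List.reverse_cons, List.reverse_reverse, ← List.append_assoc,
    append_drop h]

theorem path_sg (f : List ℕ → ℕ) {s t : List ℕ} (h : s <+: t) : path s (sg f s t) = t := by
  rw [sg, path_codeOf, List.reverse_reverse, append_drop h]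

variable {ι : Type*} [LinearOrder ι] [WellFoundedLT ι]

theorem meas_codeOf {i : ι} {f : Pt ι → List ℕ → ℕ} (hf : ∀ t k, Meas i {x | f x t = k})
    (s v : List ℕ) : ∀ σ, Meas i {x | codeOf (f x) s v = σ} := by
  induction v with
  | nil => intro σ; simp only [codeOf]; exact meas_const i _
  | cons l v ih =>
    intro σ
    cases σ with
    | nil => simp only [codeOf, reduceCtorEq]; exact meas_const i _
    | cons a σ =>
      obtain ⟨l', k⟩ := a
      simp only [codeOf, List.cons.injEq, Prod.mk.injEq]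
      exact ((meas_const i _).and (hf _ _)).and (ih σ)

theorem meas_sg {i : ι} {f : Pt ι → List ℕ → ℕ} (hf : ∀ t k, Meas i {x | f x t = k})
    (s t : List ℕ) (σ : List (ℕ × ℕ)) : Meas i {x | sg (f x) s t = σ} :=
  meas_codeOf hf s _ σ

theorem select_family {α i θ : ι} {R : Pt ι → Set (ℕ → Bool)} {U : Set (Pt ι)}
    (hU : OpenAt i U) {s : List ℕ} {G : Prom ι} (hG : Good i G)
    (hN : ∀ t m q, s <+: t → OpenAt i q → q.Nonempty → q ⊆ Along U s G t ∩ G t m →
      ∃ q' ⊆ q, OpenAt i q' ∧ q'.Nonempty ∧ ∃ B, MeasC α B ∧ (∀ x, coin (B x) = 0) ∧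
        ∀ᶠ x in Ae i, x ∈ q' → kunion i θ R t m x ⊆ B x) (t : List ℕ) :
    ∃ (q : ℕ → Set (Pt ι)) (m : ℕ → ℕ) (B : ℕ → Pt ι → Set (ℕ → Bool)),
      (∀ k, OpenAt i (q k)) ∧ (∀ k, q k ⊆ Along U s G t ∩ G t (m k)) ∧
      (∀ k, MeasC α (B k)) ∧ (∀ k x, coin (B k x) = 0) ∧
      (∀ k, ∀ᶠ x in Ae i, x ∈ q k → kunion i θ R t (m k) x ⊆ B k x) ∧
      (s <+: t → ∀ᶠ x in Ae i, x ∈ Along U s G t → ∃ k, x ∈ q k) := by
  by_cases hst : s <+: t
  swap
  · exact ⟨fun _ => ∅, fun _ => 0, fun _ _ => ∅, fun _ => openAt_empty i, fun _ => empty_subset _,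
      fun _ => MeasC.const α isClosed_empty, by simp, by simp, fun h => absurd h hst⟩
  set Q : Set (Set (Pt ι)) := {q | OpenAt i q ∧ ∃ m, q ⊆ Along U s G t ∩ G t m ∧
    ∃ B, MeasC α B ∧ (∀ x, coin (B x) = 0) ∧ ∀ᶠ x in Ae i, x ∈ q → kunion i θ R t m x ⊆ B x}
    with hQ
  have hQ0 : ∅ ∈ Q := ⟨openAt_empty i, 0, empty_subset _, fun _ => ∅,
    MeasC.const α isClosed_empty, by simp, by simp⟩
  obtain ⟨T, hT, hTc, hTd⟩ := exists_countable_subfamily (S := Q) fun q hq => hq.1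
  obtain ⟨e, he⟩ := (hTc.insert ∅).exists_eq_range ⟨∅, mem_insert _ _⟩
  have heQ : ∀ k, e k ∈ Q := by
    intro k
    have : e k ∈ insert ∅ T := he ▸ mem_range_self k
    rcases this with h | h
    · rw [h]; exact hQ0
    · exact hT h
  choose h1 m h2 B h3 h4 h5 using heQ
  refine ⟨e, m, B, h1, h2, h3, h4, h5, fun _ => ?_⟩
  have key : ∀ᶠ x in Ae i, x ∈ Along U s G t → x ∈ ⋃₀ T := by
    apply ae_of_rel_dense (openAt_sUnion fun q hq => (hT hq).1)
    intro V hV hne
    apply hTd V hV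
    have hVA : OpenAt i (V ∩ Along U s G t) := hV.inter (along_open hU hG hst)
    obtain ⟨y, hy, hyG⟩ := hVA.exists_mem hne hG.ae
    obtain ⟨k, hk⟩ := hyG t
    obtain ⟨q', hq', a1, ⟨z, hz⟩, a3⟩ := hN t k (V ∩ Along U s G t ∩ G t k) hst
      (hVA.inter (hG.openAt t k)) ⟨y, hy, hk⟩ (fun z hz => ⟨hz.1.2, hz.2⟩)
    exact ⟨z, (hq' hz).1.1, q', ⟨a1, k, fun w hw => ⟨(hq' hw).1.2, (hq' hw).2⟩, a3⟩, hz⟩
  filter_upwards [key] with x hx hxA
  obtain ⟨q, hq, hxq⟩ := hx hxA
  have : q ∈ range e := he ▸ mem_insert_of_mem _ hq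
  obtain ⟨k, rfl⟩ := this
  exact ⟨k, hxq⟩

omit [LinearOrder ι] [WellFoundedLT ι] in
/-- Membership in `Along` is monotone in the promise. -/
theorem along_mono {U V : Set (Pt ι)} (hUV : U ⊆ V) {s : List ℕ} {G H : Prom ι}
    (h : ∀ t k, G t k ⊆ H t k) (t : List ℕ) : Along U s G t ⊆ Along V s H t :=
  fun _ hx => ⟨hUV hx.1, fun t' k' a b => h t' k' (hx.2 t' k' a b)⟩

/-- Successor case. -/
theorem preserve_succ {α i θ : ι} (hαi : α ≤ i) (hi : i < θ) (hmax : ∀ j < θ, j ≤ i)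
    (IH : ∀ R, MeasC i R → ∃ Z, PosFam α Z ∧ Dich α i R Z)
    {R : Pt ι → Set (ℕ → Bool)} (hR : MeasC θ R) : ∃ Z, PosFam α Z ∧ Dich α θ R Z := by
  classical
  choose Z hZ hD using fun tm : List ℕ × ℕ =>
    IH (kunion i θ R tm.1 tm.2) (kunion_meas i θ R tm.1 tm.2)
  refine ⟨⋃ tm, Z tm, ⟨countable_iUnion fun tm => (hZ tm).1, ?_⟩, ?_⟩
  · intro z hz
    obtain ⟨tm, hz⟩ := mem_iUnion.1 hz
    exact (hZ tm).2 z hz
  intro p hp hne
  obtain ⟨c, s, G, hc, hG, hcp⟩ := exists_box hi hmax hp hne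
  set U := c.set with hUdef
  have hU : OpenAt i U := hc.openAt
  have hUne : U.Nonempty := hc.nonempty
  by_cases hP : ∃ t m q q' z, s <+: t ∧ OpenAt i q ∧ q.Nonempty ∧
      q ⊆ Along U s G t ∩ G t m ∧ OpenAt i q' ∧ q'.Nonempty ∧ q' ⊆ q ∧ z ∈ Z (t, m) ∧
      ∀ F, MeasC α F → (∀ᶠ x in Ae i, x ∈ q → kunion i θ R t m x ⊆ F x) →
        ∀ᶠ x in Ae i, x ∈ q' → z x ⊆ F x
  · obtain ⟨t, m, q, q', z, hst, hq, -, hqs, hq', hne', hq'q, hz, hzF⟩ := hP
    have hsub : ∀ l ≥ m, q ∩ Box i (t ++ [l]) G ⊆ p := by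
      rintro l hl x ⟨hxq, hxB⟩
      apply hcp
      have h1 := hqs hxq
      exact ⟨h1.1.1, Box.of_along hst (Box.of_snoc hxB (hG.mono hl h1.2)) h1.1⟩
    refine ⟨q' ∩ Box i (t ++ [m]) G, box_open hi hq' hG, box_nonempty hi hq' hne' hG,
      (inter_subset_inter_left _ hq'q).trans (hsub m le_rfl), Or.inr ⟨z, mem_iUnion.2 ⟨(t, m), hz⟩,
      fun F hF hRF => ?_⟩⟩
    have h1 : ∀ᶠ x in Ae i, x ∈ q → kunion i θ R t m x ⊆ F x := by
      have h2 : ∀ l : {l // m ≤ l}, ∀ᶠ x in Ae i, x ∈ q → kset i θ R (t ++ [(l : ℕ)]) x ⊆ F x := by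
        intro l
        apply kset_minimal hi.le (hF.up hαi) hq hG
        filter_upwards [hRF] with x hx hxq hxB
        exact hx (hsub l l.2 ⟨hxq, hxB⟩)
      rw [← eventually_countable_forall] at h2
      filter_upwards [h2] with x hx hxq
      exact closure_minimal (iUnion_subset fun l => hx l hxq) (hF.1 x)
    filter_upwards [ae_up hi.le (hzF F hF h1)] with x hx hxq
    exact hx hxq.1
  -- null case
  have hN : ∀ t m q, s <+: t → OpenAt i q → q.Nonempty → q ⊆ Along U s G t ∩ G t m →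
      ∃ q' ⊆ q, OpenAt i q' ∧ q'.Nonempty ∧ ∃ B, MeasC α B ∧ (∀ x, coin (B x) = 0) ∧
        ∀ᶠ x in Ae i, x ∈ q' → kunion i θ R t m x ⊆ B x := by
    intro t m q hst hq hqne hqs
    obtain ⟨q', hq', hne', hsub, h⟩ := hD (t, m) q hq hqne
    rcases h with h | ⟨z, hz, hzF⟩
    · exact ⟨q', hsub, hq', hne', h⟩
    · exact absurd ⟨t, m, q, q', z, hst, hq, hqne, hqs, hq', hne', hsub, hz, hzF⟩ hP
  choose q m B hqo hqs hB hB0 hKB hcov using select_family hU hG hN
  -- the index function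
  set f : Pt ι → List ℕ → ℕ := fun x t => sInf {k | x ∈ q t k} with hf
  have hfm : ∀ t k, Meas i {x | f x t = k} := fun t k =>
    meas_sInf (P := fun k x => x ∈ q t k) (fun k => (hqo t k).meas) k
  -- the root
  obtain ⟨k0, hk0⟩ : ∃ k0, (q s k0).Nonempty := by
    obtain ⟨x, hx, h1⟩ := hU.exists_mem hUne (hcov s List.prefix_rfl)
    rw [along_self] at h1
    obtain ⟨k, hk⟩ := h1 hx
    exact ⟨k, x, hk⟩
  set A : List (ℕ × ℕ) → Pt ι → Set (ℕ → Bool) :=
    fun σ x => (nullTree (fun t k => B t k x) (B s k0 x) s σ).1 with hA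
  have hAm : ∀ σ, MeasC α (A σ) := fun σ => (nullTree_meas hB (hB s k0) σ).1
  set m' : Pt ι → List ℕ → ℕ := fun x t =>
    sInf {m | ∀ l ≥ m, kset i θ R (t ++ [l]) x ⊆ A (sg (f x) s t) x} with hm'
  have hm'm : ∀ t k, Meas i {x | m' x t = k} := by
    intro t k
    apply meas_sInf (P := fun m x => ∀ l ≥ m, kset i θ R (t ++ [l]) x ⊆ A (sg (f x) s t) x)
    intro m
    refine Meas.forall fun l => Meas.forall fun _ => ?_
    have : {x | kset i θ R (t ++ [l]) x ⊆ A (sg (f x) s t) x} =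
        {x | ∃ σ, sg (f x) s t = σ ∧ kset i θ R (t ++ [l]) x ⊆ A σ x} := by
      ext x
      simp only [mem_ofPred_eq, exists_eq_left']
    rw [this]
    exact Meas.exists fun σ => (meas_sg hfm s t σ).and
      ((kset_meas i θ R _).subset ((hAm σ).up hαi))
  obtain ⟨G', hG', hG'ae⟩ := exists_good m' hm'm
  set G2 := G.inf G' with hG2def
  have hG2 : Good i G2 := hG.inf hG'
  -- the main pointwise claim
  have claimA : ∀ x, x ∈ q s k0 → (∀ t, s <+: t → x ∈ Along U s G t → ∃ k, x ∈ q t k) →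
      (∀ t k, x ∈ q t k → kunion i θ R t (m t k) x ⊆ B t k x) →
      (∀ t u, ¬ hits (kset i θ R t x) u → ∃ m, ∀ l ≥ m, ¬ hits (kset i θ R (t ++ [l]) x) u) →
      (∀ t k, x ∈ G' t k ↔ m' x t ≤ k) →
      ∀ t, s <+: t → x ∈ Along U s G2 t →
        ∀ l ≥ m' x t, kset i θ R (t ++ [l]) x ⊆ A (sg (f x) s t) x := by
    intro x hx0 g1 g2 g3 g4 t hst
    obtain ⟨u, rfl⟩ := hst
    induction u using List.reverseRecOn with
    | nil =>
      intro _
      rw [List.append_nil]
      refine Nat.sInf_mem (s := {m | ∀ l ≥ m, kset i θ R (s ++ [l]) x ⊆ A (sg (f x) s s) x})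
        ⟨m s k0, fun l hl => ?_⟩
      rw [sg_self]
      exact (kset_sub_kunion hl x).trans (g2 s k0 hx0)
    | append_singleton u l ih =>
      rw [← List.append_assoc, along_snoc (List.prefix_append _ _)]
      rintro ⟨hxt, hxG⟩
      set t := s ++ u with ht
      have hst : s <+: t := List.prefix_append _ _
      have hsub : kset i θ R (t ++ [l]) x ⊆ A (sg (f x) s t) x :=
        ih hxt l ((g4 t l).1 hxG.2)
      have hst1 : s <+: t ++ [l] := hst.trans (List.prefix_append _ _)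
      have hxAl : x ∈ Along U s G (t ++ [l]) := by
        rw [along_snoc hst]
        exact ⟨along_mono Subset.rfl (fun _ _ => inter_subset_left) t hxt, hxG.1⟩
      obtain hk := Nat.sInf_mem (s := {k | x ∈ q (t ++ [l]) k}) (g1 _ hst1 hxAl)
      set k := f x (t ++ [l]) with hkdef
      have hk' : x ∈ q (t ++ [l]) k := hk
      refine Nat.sInf_mem
        (s := {m | ∀ l' ≥ m, kset i θ R (t ++ [l] ++ [l']) x ⊆ A (sg (f x) s (t ++ [l])) x}) ?_
      have hopen : IsOpen (nullV (fun t k => B t k x) (B s k0 x) s (sg (f x) s t) (l + k)) :=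
        (nullV_clopen _ _).isOpen
      have hev := eventually_subset (K := kset i θ R (t ++ [l]) x)
        (K' := fun l' => kset i θ R (t ++ [l] ++ [l']) x) ((kset_meas i θ R _).1 x)
        (fun u hu => by
          obtain ⟨m1, hm1⟩ := g3 _ u hu
          exact eventually_atTop.2 ⟨m1, hm1⟩) hopen
        (hsub.trans (nullTree_sub_nullV _ _))
      obtain ⟨m2, hm2⟩ := eventually_atTop.1 hev
      refine ⟨max m2 (m (t ++ [l]) k), fun l' hl' => ?_⟩
      rw [sg_snoc _ hst, ← hkdef]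
      have hA2 : A ((l, k) :: sg (f x) s t) x = B (t ++ [l]) k x ∩
          nullV (fun t k => B t k x) (B s k0 x) s (sg (f x) s t) (l + k) := by
        rw [hA]
        simp only
        rw [nullTree_fst_cons, path_sg _ hst]
      rw [hA2]
      exact subset_inter ((kset_sub_kunion ((le_max_right _ _).trans hl') x).trans (g2 _ k hk'))
        (hm2 l' ((le_max_left _ _).trans hl'))
  -- the genericity requirements hold almost everywhere
  have hgen : ∀ᶠ x in Ae i, (∀ t, s <+: t → x ∈ Along U s G t → ∃ k, x ∈ q t k) ∧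
      (∀ t k, x ∈ q t k → kunion i θ R t (m t k) x ⊆ B t k x) ∧
      (∀ t u, ¬ hits (kset i θ R t x) u → ∃ m, ∀ l ≥ m, ¬ hits (kset i θ R (t ++ [l]) x) u) ∧
      (∀ t k, x ∈ G' t k ↔ m' x t ≤ k) := by
    have h1 : ∀ᶠ x in Ae i, ∀ t, s <+: t → x ∈ Along U s G t → ∃ k, x ∈ q t k := by
      rw [eventually_countable_forall]
      intro t
      by_cases hst : s <+: t
      · filter_upwards [hcov t hst] with x hx _
        exact hx
      · exact Eventually.of_forall fun x h => absurd h hst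
    have h2 : ∀ᶠ x in Ae i, ∀ t k, x ∈ q t k → kunion i θ R t (m t k) x ⊆ B t k x := by
      rw [eventually_countable_forall]
      intro t
      rw [eventually_countable_forall]
      exact fun k => hKB t k
    filter_upwards [h1, h2, kset_conv (i := i) (θ := θ) (R := R), hG'ae] with x a b c d
    exact ⟨a, b, c, d⟩
  set Bs : Pt ι → Set (ℕ → Bool) := fun x => nullStar (fun t k => B t k x) (B s k0 x) s with hBs
  have hBsm : MeasC α Bs := nullStar_meas hB (hB s k0)
  have hBs0 : ∀ x, coin (Bs x) = 0 := fun x =>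
    nullStar_null (fun t k => (hB t k).1 x) ((hB s k0).1 x) (fun t k => hB0 t k x) (hB0 s k0 x)
  have hASub : ∀ σ x, A σ x ⊆ Bs x := fun σ x => nullTree_sub_star σ
  have hq0U : q s k0 ⊆ U := fun x hx => (hqs s k0 hx).1.1
  refine ⟨q s k0 ∩ Box i s G2, box_open hi (hqo s k0) hG2, box_nonempty hi (hqo s k0) hk0 hG2,
    ?_, Or.inl ⟨Bs, hBsm, hBs0, ?_⟩⟩
  · rintro x ⟨hx1, hx2⟩
    exact hcp ⟨hq0U hx1, Box.mono (fun _ _ => inter_subset_left) hx2⟩
  -- `R ⊆ Bs` almost everywhere on the new open set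
  have claimB : ∀ u, ∀ᶠ x in Ae θ, x ∈ q s k0 ∩ Box i s G2 → ¬ (hits (R x) u ∧ ¬ hits (Bs x) u) := by
    intro u
    by_contra hcon
    have hMm : Meas θ {x | hits (R x) u ∧ ¬ hits (Bs x) u} :=
      (hR.2 u).and ((hBsm.2 u).up (hαi.trans hi.le)).not
    obtain ⟨V, hV, ⟨x0, hx0⟩, hVp, hVM⟩ := hMm.exists_open_subset
      (box_open hi (hqo s k0) hG2) hcon
    obtain ⟨c0, hc0, hxc0, hc0q⟩ := openAt_iff.1 (hqo s k0) x0 (hVp hx0).1
    have hc0supp : ∀ γ ∈ c0.supp, γ < i := fun γ hγ => (hc0 γ hγ).1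
    have hP0 : Valid θ (c0.ext i s G2) := hc0.ext hi hG2
    have hx0P : x0 ∈ (c0.ext i s G2).set := by
      rw [Cond.ext_set hc0supp]
      exact ⟨hxc0, (hVp hx0).2⟩
    obtain ⟨r0, hr0, hr0le, hr0V⟩ := hV.exists_le hP0 ⟨x0, hx0P, hx0⟩
    obtain ⟨r, hr, hrr0, hrlong⟩ := exists_longer θ r0 hr0
    have hrP : r.Le (c0.ext i s G2) := hrr0.trans hr0le
    have hiP : i ∈ (c0.ext i s G2).supp := Finset.mem_insert_self _ _
    have hir0 : i ∈ r0.supp := hr0le.1 hiP
    have hir : i ∈ r.supp := hrr0.1 hir0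
    obtain ⟨e1, e2, e3⟩ := hrP.2 i hiP
    have hstem : (c0.ext i s G2).stem i = s := by simp [Cond.ext]
    have hprom : (c0.ext i s G2).prom i = G2 := by simp [Cond.ext]
    rw [hstem] at e1 e2
    rw [hprom] at e2 e3
    have hlen : s.length < (r.stem i).length := by
      have h1 := hrlong i hir0
      have h2 := (hr0le.2 i hiP).1.length_le
      rw [hstem] at h2
      omega
    -- the stem of `r` at `i` is `t ++ [l]` with `t` extending `s`
    obtain ⟨t, l, htl⟩ : ∃ t l, r.stem i = t ++ [l] := by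
      rcases List.eq_nil_or_concat' (r.stem i) with h | ⟨t, l, h⟩
      · rw [h] at hlen; simp at hlen
      · exact ⟨t, l, h⟩
    have hst : s <+: t := by
      rw [htl] at e1 hlen
      rcases prefix_snoc_iff.1 e1 with h | h
      · exact h
      · rw [h] at hlen; simp at hlen
    -- points of the restriction of `r`
    have hresq : (r.res i).set ⊆ q s k0 := by
      have h1 : (r.res i).set ⊆ ((c0.ext i s G2).res i).set := (hrP.res i).subset
      rw [Cond.ext_res_set hc0supp le_rfl, Cond.res_set_self hc0supp] at h1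
      exact h1.trans hc0q
    have hAlong : ∀ x ∈ (r.res i).set, x ∈ Along U s G2 (t ++ [l]) := by
      intro x hx
      exact ⟨hq0U (hresq hx), fun t' k' a b => e2 t' k' a (htl ▸ b) hx⟩
    have hrV : r.set ⊆ V := hrr0.subset.trans hr0V
    have hrae : ∀ᶠ x in Ae θ, x ∈ r.set → hits (R x) u ∧ ¬ hits (Bs x) u := by
      filter_upwards [hVM] with x hx hxr
      exact hx (hrV hxr)
    have hrae' : ∀ᶠ x in Ae i, x ∈ (r.res i).set → x ∈ {x | ¬ hits (Bs x) u} := by
      apply ae_down hi.le hr ((hBsm.2 u).up hαi).not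
      filter_upwards [hrae] with x hx hxr
      exact (hx hxr).2
    obtain ⟨x, hxr, ⟨g1, g2, g3, g4⟩, hxB⟩ := (hr.res i).openAt.exists_mem (hr.res i).nonempty
      (hgen.and hrae')
    have h1 := hAlong x hxr
    rw [along_snoc hst] at h1
    have h2 : kset i θ R (t ++ [l]) x ⊆ Bs x :=
      (claimA x (hresq hxr) g1 g2 g3 g4 t hst h1.1 l ((g4 t l).1 h1.2.2)).trans (hASub _ x)
    have h3 : ¬ hits (kset i θ R (t ++ [l]) x) u := fun h => hxB hxr (hits_mono h2 h)
    rw [kset_hits, not_not] at h3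
    obtain ⟨U1, ⟨hU1, H1, hH1, hUH⟩, hxU1⟩ := h3
    have hgr : Good i (r.prom i) := (hr i hir).2
    have hO : OpenAt i (U1 ∩ (r.res i).set) := hU1.inter (hr.res i).openAt
    obtain ⟨y, hy, hy1, hy2⟩ := (box_open hi hO (hgr.inf hH1) (t := t ++ [l])).exists_mem
      (box_nonempty hi hO ⟨x, hxU1, hxr⟩ (hgr.inf hH1)) (hUH.and hrae)
    have hyr : y ∈ r.set := by
      intro γ hγ
      rcases (hmax γ (hr γ hγ).1).lt_or_eq with h4 | rfl
      · exact (Cond.mem_res_set.1 hy.1.2) γ hγ h4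
      · rw [htl]
        exact Box.mono (fun _ _ => inter_subset_left) hy.2
    exact hy1 hy.1.1 (Box.mono (fun _ _ => inter_subset_right) hy.2) (hy2 hyr).1
  have claimB' : ∀ᶠ x in Ae θ, ∀ u, x ∈ q s k0 ∩ Box i s G2 → ¬ (hits (R x) u ∧ ¬ hits (Bs x) u) := by
    rw [eventually_countable_forall]
    exact claimB
  filter_upwards [claimB'] with x hx hxp
  rw [subset_iff_hits (hBsm.1 x)]
  intro u hu
  by_contra hcon
  exact hx u hxp ⟨hu, hcon⟩

/-- **The preservation theorem.** -/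
theorem preserve (α θ : ι) (h : α ≤ θ) (R : Pt ι → Set (ℕ → Bool)) (hR : MeasC θ R) :
    ∃ Z, PosFam α Z ∧ Dich α θ R Z := by
  induction θ using WellFoundedLT.induction generalizing R with
  | ind θ IH =>
  rcases h.eq_or_lt with rfl | hαθ
  · exact preserve_base α hR
  by_cases hsucc : ∃ i < θ, ∀ j < θ, j ≤ i
  · obtain ⟨i, hi, hmax⟩ := hsucc
    exact preserve_succ (hmax α hαθ) hi hmax (fun R hR => IH i hi (hmax α hαθ) R hR) hR
  push Not at hsucc
  by_cases hcof : ∃ f : ℕ → ι, (∀ n, f n < θ) ∧ ∀ i < θ, ∃ n, i < f n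
  · obtain ⟨f, hf, hfc⟩ := hcof
    refine preserve_limit_countable (fun n => max α (f n)) (fun n => max_lt hαθ (hf n))
      (fun n => le_max_left _ _) (fun i hi => ?_) (fun i hi hαi R hR => IH i hi hαi R hR) R
    obtain ⟨n, hn⟩ := hfc i hi
    exact ⟨n, hn.trans_le (le_max_right _ _)⟩
  · push Not at hcof
    refine preserve_limit_uncountable hαθ (fun f hf => ?_)
      (fun i hi hαi R hR => IH i hi hαi R hR) hR
    obtain ⟨i, hi, h1⟩ := hcof f hf
    obtain ⟨j, hj, h2⟩ := hsucc i hi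
    exact ⟨j, hj, fun n => (h1 n).trans_lt h2⟩

end Pool.Agent.Lib.MP_40b13d_lc
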