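import Mathlib
import Pool.Agent.Lib.MP_40b13d_lc.PreserveSucc

/-!
# The generic reals: all closed null sets of a level are covered by one `F_σ` null set of a
higher level
-/

open MeasureTheory Set Topology Filter

namespace Pool.Agent.Lib.MP_40b13d_lc

/-! ### Codes for clopen sets -/

/-- The clopen set with a given code. -/
def clop (c : ℕ × Finset (List Bool)) : Set (ℕ → Bool) := {z | bini z c.1 ∈ c.2}

theorem isClopen_clop (c : ℕ × Finset (List Bool)) : IsClopen (clop c) :=
  isClopen_level c.1 fun s => s ∈ c.2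

theorem exists_enum : ∃ e : ℕ → ℕ × Finset (List Bool), ∀ c N, ∃ l ≥ N, e l = c := by
  obtain ⟨g, hg⟩ := exists_surjective_nat (ℕ × Finset (List Bool))
  refine ⟨fun l => g l.unpair.1, fun c N => ?_⟩
  obtain ⟨a, ha⟩ := hg c
  exact ⟨Nat.pair a N, Nat.right_le_pair a N, by simp [ha]⟩

/-- A fixed enumeration of the codes, each appearing infinitely often. -/
noncomputable def enum : ℕ → ℕ × Finset (List Bool) := Classical.choose exists_enum

theorem enum_spec (c : ℕ × Finset (List Bool)) (N : ℕ) : ∃ l ≥ N, enum l = c :=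
  Classical.choose_spec exists_enum c N

open Classical in
/-- The clopen set of measure at most `2 ^ (-n)` coded by `l`. -/
noncomputable def small (n l : ℕ) : Set (ℕ → Bool) :=
  if coin (clop (enum l)) ≤ (2⁻¹) ^ n then clop (enum l) else ∅

theorem isClopen_small (n l : ℕ) : IsClopen (small n l) := by
  unfold small
  split_ifs
  · exact isClopen_clop _
  · exact isClopen_empty

theorem coin_small (n l : ℕ) : coin (small n l) ≤ (2⁻¹) ^ n := by
  unfold small
  split_ifs with h
  · exact h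
  · simp

theorem exists_small {C : Set (ℕ → Bool)} (hC : IsClosed C) (h0 : coin C = 0) (n : ℕ) :
    ∃ c, C ⊆ clop c ∧ coin (clop c) ≤ (2⁻¹) ^ n := by
  set k := lvl C ((2⁻¹) ^ n) with hk
  have hfin : {s : List Bool | s.length = k ∧ hits C s}.Finite := by
    have h1 : {s : List Bool | s.length = k}.Finite := List.finite_length_eq Bool k
    exact h1.subset fun s hs => hs.1
  have h2 : clop (k, hfin.toFinset) = nb C k := by
    ext z
    simp [clop, nb]
  refine ⟨(k, hfin.toFinset), ?_, ?_⟩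
  · rw [h2]; exact subset_nb C k
  · rw [h2]; exact coin_nb_lvl hC h0 (ENNReal.pow_pos (by simp) n)

variable {ι : Type*} [LinearOrder ι] [WellFoundedLT ι]

theorem openAt_isIni {α θ : ι} (h : α < θ) (t : List ℕ) :
    OpenAt θ {x : Pt ι | IsIni t (x α)} := by
  have := box_open h (openAt_univ α) (good_univ α) (t := t)
  convert this using 1
  ext x
  simp [Box]

theorem meas_coord {α θ : ι} (h : α < θ) (n l : ℕ) : Meas θ {x : Pt ι | x α n = l} := by
  have : {x : Pt ι | x α n = l} = ⋃ t : {t : List ℕ // t.length = n}, {x | IsIni (t ++ [l]) (x α)} := by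
    ext x
    simp only [mem_ofPred_eq, mem_iUnion, Subtype.exists, exists_prop]
    constructor
    · intro hx
      exact ⟨ini (x α) n, by simp, isIni_snoc.2 ⟨isIni_ini _ _, by simpa using hx⟩⟩
    · rintro ⟨t, ht, hx⟩
      rw [← ht]
      exact (isIni_snoc.1 hx).2
  rw [this]
  exact Meas.iUnion fun t => (openAt_isIni h _).meas

theorem meas_ini {α θ : ι} (h : α < θ) (n : ℕ) (u : List ℕ) :
    Meas θ {x : Pt ι | ini (x α) n = u} := by
  by_cases hu : u.length = n
  · have : {x : Pt ι | ini (x α) n = u} = {x | IsIni u (x α)} := by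
      ext x
      simp [IsIni, hu]
    rw [this]
    exact (openAt_isIni h u).meas
  · have : {x : Pt ι | ini (x α) n = u} = ∅ := by
      ext x
      simp only [mem_ofPred_eq, mem_empty_iff_false, iff_false]
      intro h
      exact hu (by rw [← h]; simp)
    rw [this]
    exact meas_empty θ

/-- Boxes with long stems. -/
theorem exists_long_box {i θ : ι} (hi : i < θ) (hmax : ∀ j < θ, j ≤ i) {p : Set (Pt ι)}
    (hp : OpenAt θ p) (hne : p.Nonempty) (N : ℕ) :
    ∃ U t G, OpenAt i U ∧ U.Nonempty ∧ N ≤ t.length ∧ Good i G ∧ U ∩ Box i t G ⊆ p := by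
  obtain ⟨c, s, G, hc, hG, hcp⟩ := exists_box hi hmax hp hne
  have key : ∀ n, ∃ U t, OpenAt i U ∧ U.Nonempty ∧ n ≤ t.length ∧ s <+: t ∧
      U ⊆ Along c.set s G t := by
    intro n
    induction n with
    | zero => exact ⟨c.set, s, hc.openAt, hc.nonempty, Nat.zero_le _, List.prefix_rfl,
        by rw [along_self]⟩
    | succ n ih =>
      obtain ⟨U, t, hU, hne, hn, hst, hUA⟩ := ih
      obtain ⟨y, hy, h1⟩ := hU.exists_mem hne hG.ae
      obtain ⟨k, hk⟩ := h1 t
      refine ⟨U ∩ G t k, t ++ [k], hU.inter (hG.openAt t k), ⟨y, hy, hk⟩, by simpa using hn,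
        hst.trans (List.prefix_append _ _), ?_⟩
      rw [along_snoc hst]
      exact inter_subset_inter_left _ hUA
  obtain ⟨U, t, hU, hne, hn, hst, hUA⟩ := key N
  refine ⟨U, t, G, hU, hne, hn, hG, ?_⟩
  rintro x ⟨hx1, hx2⟩
  exact hcp ⟨(hUA hx1).1, Box.of_along hst hx2 (hUA hx1)⟩

/-- The coordinate `α` is Cohen generic over level `α`: its clopen sets capture the closed null
sets infinitely often. -/
theorem capture {α θ : ι} (hα : α < θ) (hmax : ∀ j < θ, j ≤ α) {F : Pt ι → Set (ℕ → Bool)}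
    (hF : MeasC α F) (hF0 : ∀ x, coin (F x) = 0) :
    ∀ᶠ x in Ae θ, ∀ N, ∃ n ≥ N, F x ⊆ small n (x α n) := by
  rw [eventually_countable_forall]
  intro N
  by_contra hcon
  have hM : Meas θ {x | ∃ n, n ≥ N ∧ F x ⊆ small n (x α n)} := by
    refine Meas.exists fun n => (meas_const θ _).and ?_
    have : {x | F x ⊆ small n (x α n)} = {x | ∃ l, x α n = l ∧ F x ⊆ small n l} := by
      ext x; simp
    rw [this]
    exact Meas.exists fun l => (meas_coord hα n l).and
      ((hF.up hα.le).subset (MeasC.const θ (isClopen_small n l).isClosed))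
  obtain ⟨V, hV, hVne, -, hVM⟩ := hM.compl.exists_open_subset (openAt_univ θ) (by
    intro h
    apply hcon
    filter_upwards [h] with x hx
    simpa using hx (mem_univ x))
  obtain ⟨U, t, G, hU, hUne, hNt, hG, hUV⟩ := exists_long_box hα hmax hV hVne N
  obtain ⟨c, q, hq, hqne, hqU, hqF⟩ := exists_open_of_cover
    (M := fun c : ℕ × Finset (List Bool) => {x | F x ⊆ clop c ∧ coin (clop c) ≤ (2⁻¹) ^ t.length})
    (fun c => (hF.subset (MeasC.const α (isClopen_clop c).isClosed)).and (meas_const α _))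
    hU hUne (Eventually.of_forall fun x _ => exists_small (hF.1 x) (hF0 x) t.length)
  obtain ⟨y, hy, h1⟩ := hq.exists_mem hqne hG.ae
  obtain ⟨k, hk⟩ := h1 t
  obtain ⟨l, hl, hlc⟩ := enum_spec c k
  have hq2 : OpenAt α (q ∩ G t k) := hq.inter (hG.openAt t k)
  obtain ⟨x, hx, hx1, hx2⟩ := (box_open hα hq2 hG (t := t ++ [l])).exists_mem
    (box_nonempty hα hq2 ⟨y, hy, hk⟩ hG) (hVM.and (ae_up hα.le hqF))
  have hxV : x ∈ V := hUV ⟨hqU hx.1.1, Box.of_snoc hx.2 (hG.mono hl hx.1.2)⟩
  have h3 := hx2 hx.1.1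
  have h4 : x α t.length = l := (isIni_snoc.1 hx.2.1).2
  apply hx1 hxV
  refine ⟨t.length, hNt, ?_⟩
  rw [h4, small, hlc, if_pos h3.2]
  exact h3.1

/-- The coordinate `β` dominates the functions of level `β`. -/
theorem dominate {β θ : ι} (hβ : β < θ) (hmax : ∀ j < θ, j ≤ β) (h : Pt ι → ℕ → ℕ)
    (hm : ∀ n k, Meas β {x | h x n = k}) : ∀ᶠ x in Ae θ, ∃ N, ∀ n ≥ N, h x n ≤ x β n := by
  by_contra hcon
  have hM : Meas θ {x | ∃ N, ∀ n, n ≥ N → h x n ≤ x β n} := by
    refine Meas.exists fun N => Meas.forall fun n => (meas_const θ _).imp ?_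
    have : {x | h x n ≤ x β n} = {x | ∃ k l, h x n = k ∧ x β n = l ∧ k ≤ l} := by
      ext x; simp
    rw [this]
    exact Meas.exists fun k => Meas.exists fun l => ((hm n k).up hβ.le).and
      ((meas_coord hβ n l).and (meas_const θ _))
  obtain ⟨V, hV, hVne, -, hVM⟩ := hM.compl.exists_open_subset (openAt_univ θ) (by
    intro h
    apply hcon
    filter_upwards [h] with x hx
    simpa using hx (mem_univ x))
  obtain ⟨c, s, G, hc, hG, hcV⟩ := exists_box hβ hmax hV hVne
  obtain ⟨G', hG', hG'ae⟩ := exists_good (fun x t => h x t.length) (fun t k => hm t.length k)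
  obtain ⟨x, hx, hx1, hx2⟩ := (box_open hβ hc.openAt (hG.inf hG') (t := s)).exists_mem
    (box_nonempty hβ hc.openAt hc.nonempty (hG.inf hG')) (hVM.and (ae_up hβ.le hG'ae))
  have hxV : x ∈ V := hcV ⟨hx.1, Box.mono (fun _ _ => inter_subset_left) hx.2⟩
  apply hx1 hxV
  refine ⟨s.length, fun n hn => ?_⟩
  have h3 := hx.2.2 (ini (x β) n) (x β n) (hx.2.1.pfx (isIni_ini _ _) (by simpa using hn))
    (isIni_snoc.2 ⟨isIni_ini _ _, by simp⟩)
  have h4 := (hx2 _ _).1 h3.2
  simpa using h4

/-- The fast growing sequence defined from `y`. -/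
def dseq (y : ℕ → ℕ) : ℕ → ℕ
  | 0 => 0
  | k + 1 => dseq y k + y (dseq y k) + 1

theorem le_dseq (y : ℕ → ℕ) (k : ℕ) : k ≤ dseq y k := by
  induction k with
  | zero => exact Nat.zero_le _
  | succ k ih => rw [dseq]; omega

/-- The union of the clopen sets number `dseq y k, …, dseq y (k+1) - 1`. -/
def block (z y : ℕ → ℕ) (k : ℕ) : Set (ℕ → Bool) :=
  ⋃ n ∈ Finset.Ico (dseq y k) (dseq y (k + 1)), small n (z n)

theorem isClopen_block (z y : ℕ → ℕ) (k : ℕ) : IsClopen (block z y k) :=
  isClopen_biUnion_finset fun n _ => isClopen_small n (z n)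

theorem coin_block (z y : ℕ → ℕ) (k : ℕ) : coin (block z y k) ≤ 2 * (2⁻¹) ^ k := by
  calc coin (block z y k)
      ≤ ∑ n ∈ Finset.Ico (dseq y k) (dseq y (k + 1)), coin (small n (z n)) :=
        measure_biUnion_finset_le _ _
    _ ≤ ∑ n ∈ Finset.Ico (dseq y k) (dseq y (k + 1)), (2⁻¹ : ENNReal) ^ n :=
        Finset.sum_le_sum fun n _ => coin_small n (z n)
    _ = ∑ j ∈ Finset.range (dseq y (k + 1) - dseq y k), (2⁻¹ : ENNReal) ^ (dseq y k + j) := by
        rw [Finset.sum_Ico_eq_sum_range]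
    _ ≤ ∑ j ∈ Finset.range (dseq y (k + 1) - dseq y k), (2⁻¹ : ENNReal) ^ (j + k) := by
        refine Finset.sum_le_sum fun j _ => ?_
        apply pow_le_pow_of_le_one bot_le (by norm_num)
        have := le_dseq y k
        omega
    _ ≤ ∑' n, (2⁻¹ : ENNReal) ^ (n + k) := ENNReal.sum_le_tsum _
    _ = 2 * (2⁻¹) ^ k := by
        simp_rw [pow_add]
        rw [ENNReal.tsum_mul_right, ENNReal.tsum_geometric]
        simp

/-- The closed null sets `E m`. -/
def eset (z y : ℕ → ℕ) (m : ℕ) : Set (ℕ → Bool) := ⋂ k : {k // m ≤ k}, block z y k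

theorem isClosed_eset (z y : ℕ → ℕ) (m : ℕ) : IsClosed (eset z y m) :=
  isClosed_iInter fun k => (isClopen_block z y k).isClosed

theorem coin_eset (z y : ℕ → ℕ) (m : ℕ) : coin (eset z y m) = 0 := by
  have hlim : Tendsto (fun n : ℕ => 2 * (2⁻¹ : ENNReal) ^ (n + m)) atTop (𝓝 0) := by
    have h1 : Tendsto (fun n : ℕ => (2⁻¹ : ENNReal) ^ (n + m)) atTop (𝓝 0) :=
      (ENNReal.tendsto_pow_atTop_nhds_zero_of_lt_one (by norm_num)).comp (tendsto_add_atTop_nat m)
    have := ENNReal.Tendsto.const_mul h1 (Or.inr (by norm_num : (2 : ENNReal) ≠ ⊤))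
    simpa using this
  refine le_antisymm (ge_of_tendsto' hlim fun n => ?_) bot_le
  exact (measure_mono (iInter_subset (fun k : {k // m ≤ k} => block z y k)
    ⟨n + m, Nat.le_add_left _ _⟩)).trans (coin_block z y (n + m))


/-- **Gluing**: every closed null set of level `α` is almost surely contained in one of the sets
`eset (x α) (x a) m`. -/
theorem glue {α a θ : ι} (hα : α < a) (hmax : ∀ j < a, j ≤ α) (ha : a < θ)
    (hmax' : ∀ j < θ, j ≤ a) {F : Pt ι → Set (ℕ → Bool)} (hF : MeasC α F)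
    (hF0 : ∀ x, coin (F x) = 0) : ∀ᶠ x in Ae θ, ∃ m, F x ⊆ eset (x α) (x a) m := by
  set h : Pt ι → ℕ → ℕ := fun x n => sInf {k | n ≤ k ∧ F x ⊆ small k (x α k)} with hh
  have hm : ∀ n k, Meas a {x | h x n = k} := by
    intro n k
    apply meas_sInf (P := fun k x => n ≤ k ∧ F x ⊆ small k (x α k))
    intro k
    refine (meas_const a _).and ?_
    have : {x | F x ⊆ small k (x α k)} = {x | ∃ l, x α k = l ∧ F x ⊆ small k l} := by
      ext x; simp
    rw [this]
    exact Meas.exists fun l => (meas_coord hα k l).and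
      ((hF.up hα.le).subset (MeasC.const a (isClopen_small k l).isClosed))
  filter_upwards [ae_up ha.le (capture hα hmax hF hF0), dominate ha hmax' h hm] with x h1 h2
  obtain ⟨N, hN⟩ := h2
  refine ⟨N, subset_iInter fun k => ?_⟩
  obtain ⟨k, hk⟩ := k
  have h3 : k ≤ dseq (x a) k := le_dseq _ _
  have h4 := hN (dseq (x a) k) (hk.trans h3)
  have hne : {l | dseq (x a) k ≤ l ∧ F x ⊆ small l (x α l)}.Nonempty := by
    obtain ⟨l, hl, hl2⟩ := h1 (dseq (x a) k)
    exact ⟨l, hl, hl2⟩
  obtain ⟨h5, h6⟩ := Nat.sInf_mem hne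
  refine h6.trans ?_
  have h7 : sInf {l | dseq (x a) k ≤ l ∧ F x ⊆ small l (x α l)} ∈
      Finset.Ico (dseq (x a) k) (dseq (x a) (k + 1)) := by
    rw [Finset.mem_Ico]
    refine ⟨h5, ?_⟩
    have h8 : sInf {l | dseq (x a) k ≤ l ∧ F x ⊆ small l (x α l)} ≤ x a (dseq (x a) k) := h4
    rw [dseq]
    omega
  exact subset_biUnion_of_mem (u := fun n => small n (x α n)) h7

theorem hits_eset {z y : ℕ → ℕ} {m : ℕ} {s : List Bool} :
    hits (eset z y m) s ↔ ∀ K, ∃ v, s <+: v ∧ ∀ k, m ≤ k → k ≤ K → cyl v ⊆ block z y k := by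
  constructor
  · rintro ⟨w, hw, hws⟩ K
    have hopen : IsOpen (⋂ k ∈ Finset.Icc m K, block z y k) :=
      isOpen_biInter_finset fun k _ => (isClopen_block z y k).isOpen
    have hwm : w ∈ ⋂ k ∈ Finset.Icc m K, block z y k := by
      simp only [mem_iInter, Finset.mem_Icc]
      intro k hk
      exact mem_iInter.1 hw ⟨k, hk.1⟩
    obtain ⟨n, hn⟩ := exists_cyl_subset hopen hwm
    refine ⟨bini w (max n s.length), prefix_of_mem_cyl hws (mem_cyl_bini w _) (by simp), ?_⟩
    intro k hk hkK v hv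
    have := hn (cyl_anti (bini_prefix w (le_max_left _ _)) hv)
    simp only [mem_iInter, Finset.mem_Icc] at this
    exact this k ⟨hk, hkK⟩
  · intro h
    set C : ℕ → Set (ℕ → Bool) := fun K => cyl s ∩ ⋂ k ∈ Finset.Icc m K, block z y k with hC
    have hclosed : ∀ K, IsClosed (C K) := fun K =>
      (isClosed_cyl s).inter (isClosed_biInter fun k _ => (isClopen_block z y k).isClosed)
    have hne : ∀ K, (C K).Nonempty := by
      intro K
      obtain ⟨v, hsv, hv⟩ := h K
      obtain ⟨w, hw⟩ := exists_mem_cyl v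
      refine ⟨w, cyl_anti hsv hw, ?_⟩
      simp only [mem_iInter, Finset.mem_Icc]
      exact fun k hk => hv k hk.1 hk.2 hw
    have hanti : ∀ K, C (K + 1) ⊆ C K := by
      intro K w hw
      refine ⟨hw.1, ?_⟩
      have := hw.2
      simp only [mem_iInter, Finset.mem_Icc] at this ⊢
      exact fun k hk => this k ⟨hk.1, by omega⟩
    obtain ⟨w, hw⟩ := IsCompact.nonempty_iInter_of_sequence_nonempty_isCompact_isClosed C hanti hne
      (hclosed 0).isCompact hclosed
    refine ⟨w, ?_, (mem_iInter.1 hw 0).1⟩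
    refine mem_iInter.2 fun k => ?_
    have := (mem_iInter.1 hw k).2
    simp only [mem_iInter, Finset.mem_Icc] at this
    exact this k ⟨k.2, le_rfl⟩

theorem meas_dseq {a θ : ι} (ha : a < θ) (k : ℕ) : ∀ N, Meas θ {x : Pt ι | dseq (x a) k = N} := by
  induction k with
  | zero => intro N; simp only [dseq]; exact meas_const θ _
  | succ k ih =>
    intro N
    have : {x : Pt ι | dseq (x a) (k + 1) = N} =
        {x | ∃ M l, dseq (x a) k = M ∧ x a M = l ∧ M + l + 1 = N} := by
      ext x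
      simp only [mem_ofPred_eq, dseq]
      constructor
      · intro h; exact ⟨_, _, rfl, rfl, h⟩
      · rintro ⟨M, l, h1, h2, h3⟩
        rw [h1, h2, h3]
    rw [this]
    exact Meas.exists fun M => Meas.exists fun l => (ih M).and
      ((meas_coord ha M l).and (meas_const θ _))

theorem block_congr {z z' y : ℕ → ℕ} {k : ℕ} (h : ∀ n < dseq y (k + 1), z n = z' n) :
    block z y k = block z' y k := by
  unfold block
  refine iUnion₂_congr fun n hn => ?_
  rw [h n (Finset.mem_Ico.1 hn).2]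

theorem meas_block {α a θ : ι} (hα : α < θ) (ha : a < θ) (k : ℕ) (v : List Bool) :
    Meas θ {x : Pt ι | cyl v ⊆ block (x α) (x a) k} := by
  have : {x : Pt ι | cyl v ⊆ block (x α) (x a) k} =
      {x | ∃ N0 N1 u, dseq (x a) k = N0 ∧ dseq (x a) (k + 1) = N1 ∧ ini (x α) N1 = u ∧
        cyl v ⊆ ⋃ n ∈ Finset.Ico N0 N1, small n (u.getD n 0)} := by
    ext x
    simp only [mem_ofPred_eq]
    have : block (x α) (x a) k = ⋃ n ∈ Finset.Ico (dseq (x a) k) (dseq (x a) (k + 1)),
        small n ((ini (x α) (dseq (x a) (k + 1))).getD n 0) := by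
      unfold block
      refine iUnion₂_congr fun n hn => ?_
      have h1 := (Finset.mem_Ico.1 hn).2
      rw [List.getD_eq_getElem _ _ (by simpa using h1)]
      simp [ini]
    rw [this]
    constructor
    · intro h; exact ⟨_, _, _, rfl, rfl, rfl, h⟩
    · rintro ⟨N0, N1, u, rfl, rfl, rfl, h⟩; exact h
  rw [this]
  exact Meas.exists fun N0 => Meas.exists fun N1 => Meas.exists fun u =>
    (meas_dseq ha k N0).and ((meas_dseq ha (k + 1) N1).and
      ((meas_ini hα N1 u).and (meas_const θ _)))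

theorem eset_meas {α a θ : ι} (hα : α < θ) (ha : a < θ) (m : ℕ) :
    MeasC θ (fun x : Pt ι => eset (x α) (x a) m) := by
  refine ⟨fun x => isClosed_eset _ _ _, fun s => ?_⟩
  simp only [hits_eset]
  exact Meas.forall fun K => Meas.exists fun v => (meas_const θ _).and
    (Meas.forall fun k => (meas_const θ _).imp ((meas_const θ _).imp (meas_block hα ha k v)))

end Pool.Agent.Lib.MP_40b13d_lc
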