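import Mathlib

/-!
# Countably perfectly meager and countably perfectly null sets; a sentence of third order
arithmetic and its Boolean value

* `CountablyPerfectlyMeager`, `CountablyPerfectlyNull`: the two classes of the problem.
* `club B`: the value, in the complete Boolean algebra `B`, of the sentence `(♣)` of third order
  arithmetic.  The Boolean-valued interpretation is the usual one: a name for a point of the
  Cantor space is a function `ℕ → B`, a name for a set of finite binary sequences is a function
  `List Bool → B`, a name for a set of points is an extensional function `(ℕ → B) → B`, and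
  quantifiers are suprema and infima over all names.  For `B = Prop` this is the sentence itself.
-/

open MeasureTheory Set

namespace Pool.Agent.Lib.MP_40b13d_lc

/-- `P` is a perfect subset: nonempty, closed, without isolated points. -/
def IsPerfectSubset {X : Type*} [TopologicalSpace X] (P : Set X) : Prop :=
  P.Nonempty ∧ Perfect P

/-- `A` is countably perfectly meager in `X`. -/
def CountablyPerfectlyMeager {X : Type*} [TopologicalSpace X] (A : Set X) : Prop :=
  ∀ P : ℕ → Set X, (∀ n, IsPerfectSubset (P n)) →
    ∃ F : ℕ → Set X, (∀ k, IsClosed (F k)) ∧ A ⊆ (⋃ k, F k) ∧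
      ∀ n, IsMeagre (((↑) : P n → X) ⁻¹' (⋃ k, F k))

/-- `A` is countably perfectly null in `X`. -/
def CountablyPerfectlyNull {X : Type*} [TopologicalSpace X] [MeasurableSpace X] (A : Set X) :
    Prop :=
  ∀ μ : Measure X, IsFiniteMeasure μ → (∀ x, μ {x} = 0) →
    ∃ F : ℕ → Set X, (∀ k, IsClosed (F k)) ∧ A ⊆ (⋃ k, F k) ∧ μ (⋃ k, F k) = 0

section BooleanValued

variable {B : Type*} [CompleteBooleanAlgebra B]

/-- Value of: the finite sequence `s` is an initial segment of `x`. -/
def initSeg (x : ℕ → B) (s : List Bool) : B :=
  ⨅ i : Fin s.length, if s[i] = true then x i else (x i)ᶜ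

/-- Value of: `x ∈ [T]`, where `[T]` is the closed set of all points all of whose initial
segments are in `T`. -/
def memClosed (x : ℕ → B) (T : List Bool → B) : B :=
  ⨅ s : List Bool, initSeg x s ⇨ T s

/-- Value of: `x = y`. -/
def eqPoint (x y : ℕ → B) : B :=
  ⨅ n, (x n ⇨ y n) ⊓ (y n ⇨ x n)

/-- Value of: `[T]` has measure zero, for the standard product probability measure of the Cantor
space: for every `m` there are `n` and a set `S` of sequences of length `n` with
`|S| * m ≤ 2 ^ n` such that every sequence of length `n` not in `S` has an initial segment which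
is not in `T`. -/
def isNull (T : List Bool → B) : B :=
  ⨅ m : ℕ, ⨆ (n : ℕ) (S : Finset (List Bool)) (_ : (∀ s ∈ S, s.length = n) ∧ S.card * m ≤ 2 ^ n),
    ⨅ (s : List Bool) (_ : s.length = n ∧ s ∉ S), ⨆ (t : List Bool) (_ : t <+: s), (T t)ᶜ

/-- Value of: the set `A` of points is covered by the sets `[F 0], [F 1], …`. -/
def covers (A : (ℕ → B) → B) (F : ℕ → List Bool → B) : B :=
  ⨅ x : ℕ → B, A x ⇨ ⨆ k, memClosed x (F k)

/-- Value of: `[S] ⊆ [T]`. -/
def subClosed (S T : List Bool → B) : B :=
  ⨅ x : ℕ → B, memClosed x S ⇨ memClosed x T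

variable (B)

/-- The value in `B` of the following sentence `(♣)`: for every set `A` of points of the Cantor
space, either `A` is covered by countably many closed null sets, or there is a sequence of closed
sets `Z n` of positive measure such that for every cover of `A` by a sequence of closed sets `F k`
there are `n, k` with `Z n ⊆ F k`. -/
def club : B :=
  ⨅ (A : (ℕ → B) → B) (_ : ∀ x y, eqPoint x y ⊓ A x ≤ A y),
    (⨆ F : ℕ → List Bool → B, (⨅ k, isNull (F k)) ⊓ covers A F) ⊔
    (⨆ Z : ℕ → List Bool → B, (⨅ n, (isNull (Z n))ᶜ) ⊓
      ⨅ F : ℕ → List Bool → B, covers A F ⇨ ⨆ n, ⨆ k, subClosed (Z n) (F k))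

end BooleanValued

end Pool.Agent.Lib.MP_40b13d_lc
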