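import Mathlib
import Pool.Agent.Lib.MP_40b13d_lc.Defs

/-!
# The complete Boolean algebra of regular open sets
-/

open Set Topology Filter TopologicalSpace

namespace Pool.Agent.Lib.MP_40b13d_lc

section Frame

variable {α : Type*} [Order.Frame α]

open Heyting Heyting.Regular in
/-- The regular elements of a frame form a complete Boolean algebra. -/
instance regularCBA : CompleteBooleanAlgebra (Regular α) :=
  { (inferInstance : BooleanAlgebra (Regular α)) with
    sSup := fun s => toRegular (sSup ((↑) '' s))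
    isLUB_sSup := fun s => gi.isLUB_of_u_image (isLUB_sSup _)
    sInf := fun s => toRegular (sInf ((↑) '' s))
    isGLB_sInf := fun s => by
      constructor
      · intro b hb
        rw [← coe_le_coe, coe_toRegular]
        calc (sInf (((↑) : Regular α → α) '' s))ᶜᶜ ≤ (b : α)ᶜᶜ :=
              compl_le_compl (compl_le_compl (sInf_le (mem_image_of_mem _ hb)))
          _ = b := b.2
      · intro b hb
        rw [← coe_le_coe, coe_toRegular]
        refine le_trans (le_sInf ?_) le_compl_compl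
        rintro _ ⟨c, hc, rfl⟩
        exact coe_le_coe.2 (hb hc) }

end Frame

variable {X : Type*} [TopologicalSpace X]

/-- The complete Boolean algebra of regular open subsets of `X`. -/
abbrev RO (X : Type*) [TopologicalSpace X] := Heyting.Regular (Opens X)

/-- The underlying set. -/
def rset (b : RO X) : Set X := ((b : Opens X) : Set X)

theorem isOpen_rset (b : RO X) : IsOpen (rset b) := (b : Opens X).isOpen

theorem rset_le {a b : RO X} : a ≤ b ↔ rset a ⊆ rset b := Iff.rfl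

theorem rset_injective : Function.Injective (rset : RO X → Set X) := by
  intro a b h
  exact le_antisymm (rset_le.2 h.le) (rset_le.2 h.ge)

@[simp] theorem rset_top : rset (⊤ : RO X) = univ := rfl
@[simp] theorem rset_bot : rset (⊥ : RO X) = ∅ := rfl
@[simp] theorem rset_inf (a b : RO X) : rset (a ⊓ b) = rset a ∩ rset b := rfl

/-- Almost every point (in the sense of category). -/
abbrev ae (X : Type*) [TopologicalSpace X] : Filter X := residual X

theorem opens_compl_ae (U : Opens X) : ∀ᶠ x in ae X, x ∈ (Uᶜ : Opens X) ↔ x ∉ U := by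
  have h1 := coborder_mem_residual U.isOpen.isLocallyClosed
  filter_upwards [h1] with x hx
  have h2 : x ∈ (Uᶜ : Opens X) ↔ x ∉ closure (U : Set X) := by
    change x ∈ ((Uᶜ : Opens X) : Set X) ↔ _
    rw [Opens.coe_compl_eq_interior_compl, _root_.interior_compl]
    rfl
  rw [h2, not_iff_not]
  constructor
  · intro h
    have : x ∈ closure (U : Set X) ∩ coborder (U : Set X) := ⟨h, hx⟩
    rw [closure_inter_coborder] at this
    exact this
  · intro h
    exact subset_closure h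

theorem rset_compl (a : RO X) : ∀ᶠ x in ae X, x ∈ rset aᶜ ↔ x ∉ rset a := opens_compl_ae _

theorem toRegular_ae (U : Opens X) :
    ∀ᶠ x in ae X, x ∈ rset (Heyting.Regular.toRegular U) ↔ x ∈ U := by
  filter_upwards [opens_compl_ae U, opens_compl_ae Uᶜ] with x h1 h2
  change x ∈ (Uᶜᶜ : Opens X) ↔ _
  rw [h2, h1, not_not]

theorem rset_iSup {κ : Sort*} (b : κ → RO X) :
    ∀ᶠ x in ae X, x ∈ rset (⨆ i, b i) ↔ ∃ i, x ∈ rset (b i) := by
  filter_upwards [toRegular_ae (sSup (((↑) : RO X → Opens X) '' range b))] with x hx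
  refine Iff.trans (Iff.trans (by rfl) hx) ?_
  simp [rset]

theorem rset_sup (a b : RO X) : ∀ᶠ x in ae X, x ∈ rset (a ⊔ b) ↔ x ∈ rset a ∨ x ∈ rset b := by
  have h1 : aᶜ ⊓ bᶜ = (a ⊔ b)ᶜ := compl_sup.symm
  filter_upwards [rset_compl a, rset_compl b, rset_compl (a ⊔ b)] with x ha hb hab
  rw [← h1, rset_inf, mem_inter_iff, ha, hb] at hab
  tauto

theorem rset_himp (a b : RO X) :
    ∀ᶠ x in ae X, x ∈ rset (a ⇨ b) ↔ (x ∈ rset a → x ∈ rset b) := by
  filter_upwards [rset_sup b aᶜ, rset_compl a] with x h1 h2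
  rw [himp_eq, h1, h2]
  tauto

theorem rset_iInf {κ : Sort*} [Countable κ] (b : κ → RO X) :
    ∀ᶠ x in ae X, x ∈ rset (⨅ i, b i) ↔ ∀ i, x ∈ rset (b i) := by
  have h0 : (⨆ i, (b i)ᶜ)ᶜ = ⨅ i, b i := by rw [compl_iSup]; simp
  have h3 : ∀ᶠ x in ae X, ∀ i, x ∈ rset (b i)ᶜ ↔ x ∉ rset (b i) := by
    rw [eventually_countable_forall]
    exact fun i => rset_compl (b i)
  filter_upwards [rset_compl (⨆ i, (b i)ᶜ), rset_iSup fun i => (b i)ᶜ, h3] with x h1 h2 h3
  rw [← h0, h1, h2]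
  push Not
  exact forall_congr' fun i => by rw [h3 i, not_not]

variable [BaireSpace X]

theorem rset_le_iff {a b : RO X} : a ≤ b ↔ ∀ᶠ x in ae X, x ∈ rset a → x ∈ rset b := by
  constructor
  · intro h
    exact Eventually.of_forall fun x hx => rset_le.1 h hx
  · intro h
    rw [← disjoint_compl_right_iff, disjoint_iff]
    by_contra hne
    have hne' : (rset (a ⊓ bᶜ)).Nonempty := by
      rw [nonempty_iff_ne_empty]
      intro h0
      exact hne (rset_injective (h0.trans rset_bot.symm))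
    have hd : Dense {x | (x ∈ rset a → x ∈ rset b) ∧ (x ∈ rset bᶜ ↔ x ∉ rset b)} :=
      dense_of_mem_residual (h.and (rset_compl b))
    obtain ⟨x, hx1, hx2, hx3⟩ := hd.inter_open_nonempty _ (isOpen_rset _) hne'
    rw [rset_inf] at hx1
    exact hx3.1 hx1.2 (hx2 hx1.1)

theorem rset_eq_top_iff {a : RO X} : a = ⊤ ↔ ∀ᶠ x in ae X, x ∈ rset a := by
  rw [eq_top_iff, rset_le_iff]
  simp

theorem rset_exists_mem {a : RO X} (ha : a ≠ ⊥) {P : X → Prop} (h : ∀ᶠ x in ae X, P x) :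
    ∃ x ∈ rset a, P x := by
  have hne' : (rset a).Nonempty := by
    rw [nonempty_iff_ne_empty]
    intro h0
    exact ha (rset_injective (h0.trans rset_bot.symm))
  have hd : Dense {x | P x} := dense_of_mem_residual h
  obtain ⟨x, hx1, hx2⟩ := hd.inter_open_nonempty _ (isOpen_rset _) hne'
  exact ⟨x, hx1, hx2⟩

omit [BaireSpace X] in
theorem exists_rset {M : Set X} (hM : BaireMeasurableSet M) :
    ∃ b : RO X, ∀ᶠ x in ae X, x ∈ rset b ↔ x ∈ M := by
  obtain ⟨U, hU, h⟩ := hM.residualEq_isOpen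
  refine ⟨Heyting.Regular.toRegular ⟨U, hU⟩, ?_⟩
  filter_upwards [toRegular_ae ⟨U, hU⟩, h.mem_iff] with x h1 h2
  rw [h1, h2]
  rfl

instance [Nonempty X] : Nontrivial (RO X) := by
  refine ⟨⊥, ⊤, fun h => ?_⟩
  have : rset (⊥ : RO X) = rset (⊤ : RO X) := by rw [h]
  rw [rset_bot, rset_top] at this
  exact empty_ne_univ this

/-! ### Evaluation of countable formulas at generic points -/

section Eval

omit [BaireSpace X]

theorem eval_initSeg (x : ℕ → RO X) (s : List Bool) :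
    ∀ᶠ ξ in ae X, ξ ∈ rset (initSeg x s) ↔ initSeg (fun n => ξ ∈ rset (x n)) s := by
  have h1 : ∀ᶠ ξ in ae X, ∀ n, ξ ∈ rset (x n)ᶜ ↔ ξ ∉ rset (x n) := by
    rw [eventually_countable_forall]
    exact fun n => rset_compl (x n)
  filter_upwards [rset_iInf fun i : Fin s.length => if s[i] = true then x i else (x i)ᶜ, h1]
    with ξ h2 h3
  rw [initSeg, h2, initSeg, iInf_Prop_eq]
  refine forall_congr' fun i => ?_
  split_ifs
  · rfl
  · exact h3 i

theorem eval_memClosed (x : ℕ → RO X) (T : List Bool → RO X) :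
    ∀ᶠ ξ in ae X, ξ ∈ rset (memClosed x T) ↔
      memClosed (fun n => ξ ∈ rset (x n)) (fun s => ξ ∈ rset (T s)) := by
  have h1 : ∀ᶠ ξ in ae X, ∀ s, ξ ∈ rset (initSeg x s ⇨ T s) ↔
      (initSeg (fun n => ξ ∈ rset (x n)) s → ξ ∈ rset (T s)) := by
    rw [eventually_countable_forall]
    intro s
    filter_upwards [rset_himp (initSeg x s) (T s), eval_initSeg x s] with ξ a b
    rw [a, b]
  filter_upwards [rset_iInf fun s => initSeg x s ⇨ T s, h1] with ξ h2 h3
  rw [memClosed, h2, memClosed, iInf_Prop_eq]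
  exact forall_congr' fun s => h3 s

theorem eval_eqPoint (x y : ℕ → RO X) :
    ∀ᶠ ξ in ae X, ξ ∈ rset (eqPoint x y) ↔ ∀ n, ξ ∈ rset (x n) ↔ ξ ∈ rset (y n) := by
  have h1 : ∀ᶠ ξ in ae X, ∀ n, (ξ ∈ rset (x n ⇨ y n) ↔ (ξ ∈ rset (x n) → ξ ∈ rset (y n))) ∧
      (ξ ∈ rset (y n ⇨ x n) ↔ (ξ ∈ rset (y n) → ξ ∈ rset (x n))) := by
    rw [eventually_countable_forall]
    exact fun n => (rset_himp _ _).and (rset_himp _ _)
  filter_upwards [rset_iInf fun n => (x n ⇨ y n) ⊓ (y n ⇨ x n), h1] with ξ h2 h3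
  refine Iff.trans h2 ?_
  refine forall_congr' fun n => ?_
  rw [rset_inf, mem_inter_iff, (h3 n).1, (h3 n).2]
  exact ⟨fun h => ⟨h.1, h.2⟩, fun h => ⟨h.1, h.2⟩⟩

theorem eval_isNull (T : List Bool → RO X) :
    ∀ᶠ ξ in ae X, ξ ∈ rset (isNull T) ↔ isNull (fun s => ξ ∈ rset (T s)) := by
  have h1 : ∀ᶠ ξ in ae X, ∀ t, ξ ∈ rset (T t)ᶜ ↔ ξ ∉ rset (T t) := by
    rw [eventually_countable_forall]
    exact fun t => rset_compl (T t)
  have h2 : ∀ᶠ ξ in ae X, ∀ s, ξ ∈ rset (⨆ (t : List Bool) (_ : t <+: s), (T t)ᶜ) ↔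
      ∃ t, ∃ (_ : t <+: s), ξ ∈ rset (T t)ᶜ := by
    rw [eventually_countable_forall]
    intro s
    have h3 : ∀ᶠ ξ in ae X, ∀ t, ξ ∈ rset (⨆ (_ : t <+: s), (T t)ᶜ) ↔
        ∃ (_ : t <+: s), ξ ∈ rset (T t)ᶜ := by
      rw [eventually_countable_forall]
      exact fun t => rset_iSup _
    filter_upwards [rset_iSup fun t => ⨆ (_ : t <+: s), (T t)ᶜ, h3] with ξ a b
    rw [a]
    exact exists_congr fun t => b t
  have h3 : ∀ᶠ ξ in ae X, ∀ (n : ℕ) (S : Finset (List Bool)),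
      ξ ∈ rset (⨅ (s : List Bool) (_ : s.length = n ∧ s ∉ S),
        ⨆ (t : List Bool) (_ : t <+: s), (T t)ᶜ) ↔
      ∀ s, ∀ (_ : s.length = n ∧ s ∉ S), ξ ∈ rset (⨆ (t : List Bool) (_ : t <+: s), (T t)ᶜ) := by
    rw [eventually_countable_forall]
    intro n
    rw [eventually_countable_forall]
    intro S
    have h4 : ∀ᶠ ξ in ae X, ∀ s : List Bool,
        ξ ∈ rset (⨅ (_ : s.length = n ∧ s ∉ S), ⨆ (t : List Bool) (_ : t <+: s), (T t)ᶜ) ↔
        ∀ (_ : s.length = n ∧ s ∉ S), ξ ∈ rset (⨆ (t : List Bool) (_ : t <+: s), (T t)ᶜ) := by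
      rw [eventually_countable_forall]
      exact fun s => rset_iInf _
    filter_upwards [rset_iInf fun s : List Bool => ⨅ (_ : s.length = n ∧ s ∉ S),
      ⨆ (t : List Bool) (_ : t <+: s), (T t)ᶜ, h4] with ξ a b
    rw [a]
    exact forall_congr' fun s => b s
  have h4 : ∀ᶠ ξ in ae X, ∀ m : ℕ, ξ ∈ rset (⨆ (n : ℕ) (S : Finset (List Bool))
      (_ : (∀ s ∈ S, s.length = n) ∧ S.card * m ≤ 2 ^ n),
      ⨅ (s : List Bool) (_ : s.length = n ∧ s ∉ S), ⨆ (t : List Bool) (_ : t <+: s), (T t)ᶜ) ↔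
      ∃ (n : ℕ) (S : Finset (List Bool)) (_ : (∀ s ∈ S, s.length = n) ∧ S.card * m ≤ 2 ^ n),
        ξ ∈ rset (⨅ (s : List Bool) (_ : s.length = n ∧ s ∉ S),
          ⨆ (t : List Bool) (_ : t <+: s), (T t)ᶜ) := by
    rw [eventually_countable_forall]
    intro m
    have h5 : ∀ᶠ ξ in ae X, ∀ (n : ℕ) (S : Finset (List Bool)),
        ξ ∈ rset (⨆ (_ : (∀ s ∈ S, s.length = n) ∧ S.card * m ≤ 2 ^ n),
          ⨅ (s : List Bool) (_ : s.length = n ∧ s ∉ S), ⨆ (t : List Bool) (_ : t <+: s), (T t)ᶜ) ↔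
        ∃ (_ : (∀ s ∈ S, s.length = n) ∧ S.card * m ≤ 2 ^ n),
          ξ ∈ rset (⨅ (s : List Bool) (_ : s.length = n ∧ s ∉ S),
            ⨆ (t : List Bool) (_ : t <+: s), (T t)ᶜ) := by
      rw [eventually_countable_forall]
      intro n
      rw [eventually_countable_forall]
      exact fun S => rset_iSup _
    have h6 : ∀ᶠ ξ in ae X, ∀ n : ℕ, ξ ∈ rset (⨆ (S : Finset (List Bool))
        (_ : (∀ s ∈ S, s.length = n) ∧ S.card * m ≤ 2 ^ n),
          ⨅ (s : List Bool) (_ : s.length = n ∧ s ∉ S), ⨆ (t : List Bool) (_ : t <+: s), (T t)ᶜ) ↔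
        ∃ S : Finset (List Bool), ξ ∈ rset (⨆ (_ : (∀ s ∈ S, s.length = n) ∧ S.card * m ≤ 2 ^ n),
          ⨅ (s : List Bool) (_ : s.length = n ∧ s ∉ S), ⨆ (t : List Bool) (_ : t <+: s), (T t)ᶜ) := by
      rw [eventually_countable_forall]
      exact fun n => rset_iSup _
    filter_upwards [rset_iSup fun n : ℕ => ⨆ (S : Finset (List Bool))
        (_ : (∀ s ∈ S, s.length = n) ∧ S.card * m ≤ 2 ^ n),
          ⨅ (s : List Bool) (_ : s.length = n ∧ s ∉ S), ⨆ (t : List Bool) (_ : t <+: s), (T t)ᶜ,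
      h5, h6] with ξ a b c
    rw [a]
    refine exists_congr fun n => ?_
    rw [c n]
    exact exists_congr fun S => b n S
  filter_upwards [rset_iInf fun m : ℕ => ⨆ (n : ℕ) (S : Finset (List Bool))
      (_ : (∀ s ∈ S, s.length = n) ∧ S.card * m ≤ 2 ^ n),
      ⨅ (s : List Bool) (_ : s.length = n ∧ s ∉ S), ⨆ (t : List Bool) (_ : t <+: s), (T t)ᶜ,
    h1, h2, h3, h4] with ξ h0 h1 h2 h3 h4
  rw [isNull, h0, isNull]
  simp only [iInf_Prop_eq, iSup_Prop_eq]
  refine forall_congr' fun m => ?_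
  rw [h4 m]
  refine exists_congr fun n => exists_congr fun S => exists_congr fun _ => ?_
  rw [h3 n S]
  refine forall_congr' fun s => forall_congr' fun _ => ?_
  rw [h2 s]
  exact exists_congr fun t => exists_congr fun _ => h1 t

end Eval

end Pool.Agent.Lib.MP_40b13d_lc
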