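import Mathlib
import Pool.Agent.Lib.MP_40b13d_lc.Glue
import Pool.Agent.Lib.MP_40b13d_lc.RegOpen

/-!
# The sentence `(♣)` has value `⊤` in the regular open algebra of the iteration
-/

open MeasureTheory Set Topology Filter TopologicalSpace

namespace Pool.Agent.Lib.MP_40b13d_lc

/-! ### Propositional version of the coded notions -/

open Classical in
/-- The point of the Cantor space given by a sequence of propositions. -/
noncomputable def boolify (x : ℕ → Prop) : ℕ → Bool := fun n => decide (x n)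

theorem initSeg_prop {x : ℕ → Prop} {s : List Bool} : initSeg x s ↔ boolify x ∈ cyl s := by
  classical
  rw [mem_cyl_iff, initSeg, iInf_Prop_eq]
  constructor
  · intro h i hi
    have := h ⟨i, hi⟩
    simp only [Fin.getElem_fin] at this
    simp only [boolify]
    split_ifs at this with h1
    · rw [h1]; exact decide_eq_true this
    · rw [Bool.not_eq_true] at h1
      rw [h1]
      exact decide_eq_false this
  · intro h i
    have := h i i.2
    simp only [boolify] at this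
    simp only [Fin.getElem_fin]
    split_ifs with h1
    · rw [h1] at this; exact of_decide_eq_true this
    · rw [Bool.not_eq_true] at h1
      rw [h1] at this
      exact of_decide_eq_false this

theorem memClosed_prop {x : ℕ → Prop} {T : List Bool → Prop} :
    memClosed x T ↔ boolify x ∈ treeSet T := by
  rw [memClosed, iInf_Prop_eq]
  constructor
  · intro h n
    exact h (bini (boolify x) n) (initSeg_prop.2 (mem_cyl_bini _ _))
  · intro h s hs
    rw [initSeg_prop, mem_cyl] at hs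
    rw [← hs]
    exact h _

theorem treeSet_hits {C : Set (ℕ → Bool)} (hC : IsClosed C) : treeSet (hits C) = C := by
  ext z
  exact (mem_closed_iff hC).symm

/-- Cylinders met by the closed set of a (not necessarily pruned) tree. -/
theorem hits_treeSet_iff {D : List Bool → Prop} {s : List Bool} :
    hits (treeSet D) s ↔ ∀ N, ∃ v : List Bool, s <+: v ∧ N ≤ v.length ∧
      ∀ u, u <+: v → u.length ≤ N → D u := by
  constructor
  · rintro ⟨z, hz, hzs⟩ N
    refine ⟨bini z (max N s.length), prefix_of_mem_cyl hzs (mem_cyl_bini z _) (by simp), by simp,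
      fun u hu _ => ?_⟩
    have : z ∈ cyl u := cyl_anti hu (mem_cyl_bini z _)
    rw [mem_cyl] at this
    rw [← this]
    exact hz _
  · intro h
    set C : ℕ → Set (ℕ → Bool) := fun N => cyl s ∩ {z | ∀ n ≤ N, D (bini z n)} with hC
    have hclosed : ∀ N, IsClosed (C N) := by
      intro N
      refine (isClosed_cyl s).inter ?_
      have : {z : ℕ → Bool | ∀ n ≤ N, D (bini z n)} = ⋂ n : {n // n ≤ N}, {z | D (bini z n)} := by
        ext z; simp
      rw [this]
      exact isClosed_iInter fun n => (isClopen_level n D).isClosed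
    have hne : ∀ N, (C N).Nonempty := by
      intro N
      obtain ⟨v, hsv, hv, hD⟩ := h N
      obtain ⟨w, hw⟩ := exists_mem_cyl v
      refine ⟨w, cyl_anti hsv hw, fun n hn => hD _ ?_ (by simpa using hn)⟩
      exact prefix_of_mem_cyl (mem_cyl_bini w n) hw (by simpa using hn.trans hv)
    have hanti : ∀ N, C (N + 1) ⊆ C N := fun N w hw => ⟨hw.1, fun n hn => hw.2 n (by omega)⟩
    obtain ⟨w, hw⟩ := IsCompact.nonempty_iInter_of_sequence_nonempty_isCompact_isClosed C hanti hne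
      (hclosed 0).isCompact hclosed
    exact ⟨w, fun n => (mem_iInter.1 hw n).2 n le_rfl, (mem_iInter.1 hw 0).1⟩

variable {ι : Type*} [LinearOrder ι] [WellFoundedLT ι]

theorem treeSet_meas {θ : ι} {D : Pt ι → List Bool → Prop} (hD : ∀ s, Meas θ {x | D x s}) :
    MeasC θ (fun x => treeSet (D x)) := by
  refine ⟨fun x => isClosed_treeSet _, fun s => ?_⟩
  simp only [hits_treeSet_iff]
  exact Meas.forall fun N => Meas.exists fun v => (meas_const θ _).and ((meas_const θ _).and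
    (Meas.forall fun u => (meas_const θ _).imp ((meas_const θ _).imp (hD u))))

/-! ### The space -/

/-- The space of points with the topology of level `K`. -/
def Sp (_K : ι) : Type _ := Pt ι

instance (K : ι) : TopologicalSpace (Sp K) := tau K

instance (K : ι) : BaireSpace (Sp K) := baireSpace_tau K

instance (K : ι) : Nonempty (Sp K) := ⟨fun _ _ => 0⟩

/-- The algebra. -/
def BA (K : ι) : Type _ := RO (Sp K)

noncomputable instance (K : ι) : CompleteBooleanAlgebra (BA K) :=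
  inferInstanceAs (CompleteBooleanAlgebra (RO (Sp K)))

instance (K : ι) : Nontrivial (BA K) := inferInstanceAs (Nontrivial (RO (Sp K)))

/-- The underlying set of points. -/
def gs {K : ι} (b : BA K) : Set (Pt ι) := @rset (Sp K) _ b

theorem gs_open {K : ι} (b : BA K) : OpenAt K (gs b) := isOpen_rset b

theorem gs_le {K : ι} {a b : BA K} : a ≤ b ↔ gs a ⊆ gs b := Iff.rfl

theorem gs_bot {K : ι} : gs (⊥ : BA K) = ∅ := rfl

theorem gs_top {K : ι} : gs (⊤ : BA K) = univ := rfl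

theorem gs_inf {K : ι} (a b : BA K) : gs (a ⊓ b) = gs a ∩ gs b := rfl

theorem gs_compl {K : ι} (a : BA K) : ∀ᶠ x in Ae K, x ∈ gs aᶜ ↔ x ∉ gs a :=
  rset_compl (X := Sp K) a

theorem gs_iSup {K : ι} {κ : Sort*} (b : κ → BA K) :
    ∀ᶠ x in Ae K, x ∈ gs (⨆ i, b i) ↔ ∃ i, x ∈ gs (b i) := rset_iSup (X := Sp K) b

theorem gs_iInf {K : ι} {κ : Sort*} [Countable κ] (b : κ → BA K) :
    ∀ᶠ x in Ae K, x ∈ gs (⨅ i, b i) ↔ ∀ i, x ∈ gs (b i) := rset_iInf (X := Sp K) b

theorem gs_himp {K : ι} (a b : BA K) :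
    ∀ᶠ x in Ae K, x ∈ gs (a ⇨ b) ↔ (x ∈ gs a → x ∈ gs b) := rset_himp (X := Sp K) a b

theorem gs_le_iff {K : ι} {a b : BA K} : a ≤ b ↔ ∀ᶠ x in Ae K, x ∈ gs a → x ∈ gs b :=
  rset_le_iff (X := Sp K)

theorem gs_eq_top_iff {K : ι} {a : BA K} : a = ⊤ ↔ ∀ᶠ x in Ae K, x ∈ gs a :=
  rset_eq_top_iff (X := Sp K)

theorem gs_exists_mem {K : ι} {a : BA K} (ha : a ≠ ⊥) {P : Pt ι → Prop}
    (h : ∀ᶠ x in Ae K, P x) : ∃ x ∈ gs a, P x := rset_exists_mem (X := Sp K) ha h

theorem exists_gs {K : ι} {M : Set (Pt ι)} (hM : Meas K M) :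
    ∃ b : BA K, ∀ᶠ x in Ae K, x ∈ gs b ↔ x ∈ M := exists_rset (X := Sp K) hM

theorem ev_memClosed {K : ι} (x : ℕ → BA K) (T : List Bool → BA K) :
    ∀ᶠ ξ in Ae K, ξ ∈ gs (memClosed x T) ↔
      boolify (fun n => ξ ∈ gs (x n)) ∈ treeSet (fun s => ξ ∈ gs (T s)) := by
  filter_upwards [eval_memClosed (X := Sp K) x T] with ξ h
  exact h.trans memClosed_prop

theorem ev_isNull {K : ι} (T : List Bool → BA K) :
    ∀ᶠ ξ in Ae K, ξ ∈ gs (isNull T) ↔ isNull (fun s => ξ ∈ gs (T s)) :=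
  eval_isNull (X := Sp K) T

/-- `b` is (almost) an open set of level `β`. -/
def Lev {K : ι} (β : ι) (b : BA K) : Prop :=
  ∃ U : Set (Pt ι), OpenAt β U ∧ ∀ᶠ x in Ae K, x ∈ gs b ↔ x ∈ U

theorem Lev.mono {K β γ : ι} (h : β ≤ γ) {b : BA K} (hb : Lev β b) : Lev γ b := by
  obtain ⟨U, hU, h1⟩ := hb
  exact ⟨U, hU.mono h, h1⟩

omit [WellFoundedLT ι] in
theorem bounded_of_countable {K : ι} (h0 : ∃ i, i < K)
    (hcof : ∀ f : ℕ → ι, (∀ n, f n < K) → ∃ i < K, ∀ n, f n < i) {κ : Type*} [Countable κ]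
    (g : κ → ι) (hg : ∀ a, g a < K) : ∃ i < K, ∀ a, g a < i := by
  rcases isEmpty_or_nonempty κ with h | h
  · obtain ⟨i, hi⟩ := h0
    exact ⟨i, hi, fun a => isEmptyElim a⟩
  · obtain ⟨e, he⟩ := exists_surjective_nat κ
    obtain ⟨i, hi, h1⟩ := hcof (fun n => g (e n)) fun n => hg _
    refine ⟨i, hi, fun a => ?_⟩
    obtain ⟨n, rfl⟩ := he a
    exact h1 n

/-- A countable family of covers works almost everywhere below `p`. -/
theorem countable_covers {K : ι} (h0 : ∃ i, i < K)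
    (hcof : ∀ f : ℕ → ι, (∀ n, f n < K) → ∃ i < K, ∀ n, f n < i)
    (C : (ℕ → List Bool → BA K) → BA K) (p : BA K) (hp : p ⊓ ⨅ F, (C F)ᶜ = ⊥) :
    ∃ γ < K, ∃ T : Set (ℕ → List Bool → BA K), T.Countable ∧
      (∀ F ∈ T, ∀ k s, Lev γ (F k s)) ∧ ∀ᶠ ξ in Ae K, ξ ∈ gs p → ∃ F ∈ T, ξ ∈ gs (C F) := by
  classical
  set S : Set (Set (Pt ι)) := range fun F => gs (C F) with hS
  have hSo : ∀ U ∈ S, OpenAt K U := by
    rintro _ ⟨F, rfl⟩
    exact gs_open _
  obtain ⟨T', hT', hT'c, hT'd⟩ := exists_countable_subfamily hSo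
  have h1 : ∀ᶠ ξ in Ae K, ξ ∈ ⋃₀ S → ξ ∈ ⋃₀ T' :=
    ae_of_rel_dense (openAt_sUnion fun U hU => hSo U (hT' hU)) hT'd
  have h2 : ∀ᶠ ξ in Ae K, ξ ∈ gs p → ξ ∈ ⋃₀ S := by
    have h3 : p ≤ ⨆ F, C F := by
      have : (⨅ F, (C F)ᶜ) = (⨆ F, C F)ᶜ := by rw [compl_iSup]
      rw [this] at hp
      rw [← disjoint_compl_right_iff, disjoint_iff]
      exact hp
    have h4 := gs_le_iff.1 h3
    filter_upwards [h4, gs_iSup C] with ξ a b hξ
    obtain ⟨F, hF⟩ := b.1 (a hξ)
    exact ⟨_, ⟨F, rfl⟩, hF⟩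
  choose! f hf using fun U (hU : U ∈ T') => hT' hU
  set T := f '' T' with hT
  have hTc : T.Countable := hT'c.image _
  have hlev : ∀ b : BA K, ∃ γ < K, Lev γ b := by
    intro b
    obtain ⟨i, hi, U, hU, h5⟩ := (gs_open b).meas.exists_level h0 hcof
    exact ⟨i, hi, U, hU.openAt, h5.mem_iff⟩
  choose l hl hl2 using hlev
  have : Countable T := hTc
  obtain ⟨γ, hγ, h6⟩ := bounded_of_countable h0 hcof
    (fun a : T × ℕ × List Bool => l (a.1.1 a.2.1 a.2.2)) fun a => hl _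
  refine ⟨γ, hγ, T, hTc, ?_, ?_⟩
  · intro F hF k s
    exact (hl2 _).mono (h6 (⟨F, hF⟩, k, s)).le
  · filter_upwards [h1, h2] with ξ a b hξ
    obtain ⟨U, hU, hξU⟩ := a (b hξ)
    refine ⟨f U, ⟨U, hU, rfl⟩, ?_⟩
    have := hf U hU
    simp only at this
    rw [← this] at hξU
    exact hξU

end Pool.Agent.Lib.MP_40b13d_lc
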