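import Mathlib
import Pool.Agent.Lib.MP_40b13d_lc.Defs
import Pool.Agent.Lib.MP_40b13d_lc.Coin

/-!
# MP_40b13d_lc, part I-a: the sentence `(♣)` at `B = Prop` in terms of Mathlib measures
-/

open MeasureTheory Set
open scoped ENNReal

namespace Pool.Agent.Lib.MP_40b13d_lc

namespace PartIa

instance : IsProbabilityMeasure coin := by
  unfold coin; infer_instance

/-- the initial segment of `z` of length `n` -/
def ini (z : ℕ → Bool) (n : ℕ) : List Bool := (List.range n).map z

theorem length_ini (z : ℕ → Bool) (n : ℕ) : (ini z n).length = n := by simp [ini]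

theorem ini_eq_iff {z : ℕ → Bool} {s : List Bool} :
    ini z s.length = s ↔ ∀ i : Fin s.length, s[i] = z i := by
  constructor
  · intro h i
    have h1 : (ini z s.length)[i]'(by rw [length_ini]; exact i.2) = z i := by simp [ini]
    rw [← h1]
    congr 1
    exact h.symm
  · intro h
    apply List.ext_getElem (length_ini _ _)
    intro i h1 h2
    rw [show (ini z s.length)[i] = z i by simp [ini]]
    exact (h ⟨i, h2⟩).symm

theorem prefix_ini {z : ℕ → Bool} {n : ℕ} {t : List Bool} :
    t <+: ini z n ↔ ∃ k ≤ n, t = ini z k := by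
  constructor
  · intro h
    have hl : t.length ≤ n := by simpa [length_ini] using h.length_le
    refine ⟨t.length, hl, ?_⟩
    have h1 := List.prefix_iff_eq_take.1 h
    rw [ini, ← List.map_take, List.take_range, min_eq_left hl] at h1
    exact h1
  · rintro ⟨k, hk, rfl⟩
    rw [List.prefix_iff_eq_take, length_ini]
    unfold ini
    rw [← List.map_take, List.take_range, min_eq_left hk]

/-- the cylinder of `s` -/
def cyl (s : List Bool) : Set (ℕ → Bool) := {z | ini z s.length = s}

theorem cyl_eq_pi (s : List Bool) :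
    cyl s = Set.pi (↑(Finset.range s.length)) (fun i => {s.getD i false}) := by
  ext z
  simp only [cyl, mem_ofPred_eq, Set.mem_pi, Finset.coe_range, Set.mem_Iio, mem_singleton_iff]
  rw [ini_eq_iff]
  constructor
  · intro h i hi
    rw [← h ⟨i, hi⟩]
    simp [List.getD_eq_getElem?_getD, hi]
  · intro h i
    have := h i i.2
    rw [this]
    simp [List.getD_eq_getElem?_getD]

theorem measurableSet_cyl (s : List Bool) : MeasurableSet (cyl s) := by
  rw [cyl_eq_pi]
  exact MeasurableSet.pi (Finset.countable_toSet _) fun i _ => measurableSet_singleton _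

theorem coin_cyl (s : List Bool) : coin (cyl s) = (2 : ℝ≥0∞)⁻¹ ^ s.length := by
  rw [cyl_eq_pi, coin, Measure.infinitePi_pi _ (fun i _ => measurableSet_singleton _)]
  rw [Finset.prod_congr rfl (g := fun _ => (2 : ℝ≥0∞)⁻¹)]
  · simp
  · intro i _
    rw [PMF.toMeasure_apply_singleton _ _ (measurableSet_singleton _)]
    simp

/-- the closed set coded by `T` -/
def body (T : List Bool → Prop) : Set (ℕ → Bool) := {z | ∀ n, T (ini z n)}

/-- the clopen approximation -/
def appr (T : List Bool → Prop) (n : ℕ) : Set (ℕ → Bool) := {z | ∀ k ≤ n, T (ini z k)}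

theorem isClopen_ini (T : List Bool → Prop) (n : ℕ) : IsClopen {z : ℕ → Bool | T (ini z n)} := by
  have hc : Continuous fun z : ℕ → Bool => fun i : Fin n => z i := by fun_prop
  have h : {z : ℕ → Bool | T (ini z n)} =
      (fun z : ℕ → Bool => fun i : Fin n => z i) ⁻¹' {v | T (List.ofFn v)} := by
    ext z
    simp only [mem_ofPred_eq, mem_preimage]
    have : List.ofFn (fun i : Fin n => z i) = ini z n := by
      apply List.ext_getElem
      · simp [ini]
      · intro i h1 h2
        simp [ini]
    rw [this]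
  rw [h]
  exact (isClopen_discrete _).preimage hc

theorem isClosed_body (T : List Bool → Prop) : IsClosed (body T) := by
  have : body T = ⋂ n, {z : ℕ → Bool | T (ini z n)} := by
    ext z; simp [body]
  rw [this]
  exact isClosed_iInter fun n => (isClopen_ini T n).1

theorem isClosed_appr (T : List Bool → Prop) (n : ℕ) : IsClosed (appr T n) := by
  have : appr T n = ⋂ k ≤ n, {z : ℕ → Bool | T (ini z k)} := by
    ext z; simp [appr]
  rw [this]
  exact isClosed_iInter fun k => isClosed_iInter fun _ => (isClopen_ini T k).1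

/-- the finite set of words of length `n` all of whose prefixes are in `T` -/
noncomputable def words (T : List Bool → Prop) (n : ℕ) : Finset (List Bool) := by
  classical
  exact ((Finset.univ : Finset (Fin n → Bool)).image List.ofFn).filter fun s => ∀ t, t <+: s → T t

theorem mem_words {T : List Bool → Prop} {n : ℕ} {s : List Bool} :
    s ∈ words T n ↔ s.length = n ∧ ∀ t, t <+: s → T t := by
  classical
  unfold words
  rw [Finset.mem_filter, Finset.mem_image]
  constructor
  · rintro ⟨⟨v, -, rfl⟩, h⟩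
    exact ⟨by simp, h⟩
  · rintro ⟨rfl, h⟩
    exact ⟨⟨fun i => s.get i, Finset.mem_univ _, List.ofFn_get s⟩, h⟩

theorem appr_eq (T : List Bool → Prop) (n : ℕ) : appr T n = ⋃ s ∈ words T n, cyl s := by
  ext z
  simp only [appr, mem_ofPred_eq, mem_iUnion, exists_prop, mem_words, cyl]
  constructor
  · intro h
    refine ⟨ini z n, ⟨length_ini z n, ?_⟩, by rw [length_ini]⟩
    intro t ht
    obtain ⟨k, hk, rfl⟩ := prefix_ini.1 ht
    exact h k hk
  · rintro ⟨s, ⟨hs, hT⟩, hz⟩ k hk
    apply hT
    rw [← hz, hs]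
    exact prefix_ini.2 ⟨k, hk, rfl⟩

theorem coin_appr (T : List Bool → Prop) (n : ℕ) :
    coin (appr T n) = (words T n).card * (2 : ℝ≥0∞)⁻¹ ^ n := by
  rw [appr_eq, measure_biUnion_finset]
  · rw [Finset.sum_congr rfl (g := fun _ => (2 : ℝ≥0∞)⁻¹ ^ n)]
    · simp
    · intro s hs
      rw [coin_cyl, (mem_words.1 hs).1]
  · intro s hs t ht hst
    rw [Function.onFun, Set.disjoint_left]
    intro z hz hz'
    apply hst
    have h1 : ini z s.length = s := hz
    have h2 : ini z t.length = t := hz'
    rw [(mem_words.1 hs).1] at h1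
    rw [(mem_words.1 ht).1] at h2
    rw [← h1, ← h2]
  · intro s _
    exact measurableSet_cyl s

theorem isNull_iff (T : List Bool → Prop) : isNull T ↔ ∀ m : ℕ, ∃ (n : ℕ) (S : Finset (List Bool)),
    ((∀ s ∈ S, s.length = n) ∧ S.card * m ≤ 2 ^ n) ∧
      ∀ s : List Bool, s.length = n ∧ s ∉ S → ∃ t, t <+: s ∧ ¬ T t := by
  simp only [isNull, iInf_Prop_eq, iSup_Prop_eq, exists_prop, compl_iff_not]

theorem coin_body_of_isNull {T : List Bool → Prop} (h : isNull T) : coin (body T) = 0 := by
  rw [isNull_iff] at h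
  have key : ∀ m : ℕ, coin (body T) * m ≤ 1 := by
    intro m
    obtain ⟨n, S, ⟨hlen, hcard⟩, hS⟩ := h m
    have hsub : body T ⊆ ⋃ s ∈ S, cyl s := by
      intro z hz
      have hmem : ini z n ∈ S := by
        by_contra hns
        obtain ⟨t, ht, hTt⟩ := hS (ini z n) ⟨length_ini z n, hns⟩
        obtain ⟨k, -, rfl⟩ := prefix_ini.1 ht
        exact hTt (hz k)
      simp only [mem_iUnion]
      exact ⟨ini z n, hmem, by simp [cyl, length_ini]⟩
    have h1 : coin (body T) ≤ S.card * (2 : ℝ≥0∞)⁻¹ ^ n := by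
      calc coin (body T) ≤ coin (⋃ s ∈ S, cyl s) := measure_mono hsub
        _ ≤ ∑ s ∈ S, coin (cyl s) := measure_biUnion_finset_le _ _
        _ = ∑ s ∈ S, (2 : ℝ≥0∞)⁻¹ ^ n := Finset.sum_congr rfl fun s hs => by
            rw [coin_cyl, hlen s hs]
        _ = _ := by simp
    calc coin (body T) * m ≤ S.card * (2 : ℝ≥0∞)⁻¹ ^ n * m := by gcongr
      _ = ((S.card * m : ℕ) : ℝ≥0∞) * (2 : ℝ≥0∞)⁻¹ ^ n := by push_cast; ring
      _ ≤ ((2 ^ n : ℕ) : ℝ≥0∞) * (2 : ℝ≥0∞)⁻¹ ^ n := by
          gcongr
      _ = 1 := by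
          push_cast
          rw [← mul_pow, ENNReal.mul_inv_cancel (by norm_num) (by norm_num), one_pow]
  by_contra hne
  have hfin : coin (body T) ≠ ∞ := measure_ne_top _ _
  obtain ⟨m, hm⟩ := ENNReal.exists_nat_mul_gt hne (b := 1) (by norm_num)
  have := key m
  rw [mul_comm] at this
  exact absurd this (not_le.2 hm)

theorem isNull_of_coin_body {T : List Bool → Prop} (h : coin (body T) = 0) : isNull T := by
  rw [isNull_iff]
  intro m
  have hanti : Antitone (appr T) := by
    intro a b hab z hz k hk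
    exact hz k (hk.trans hab)
  have hinter : ⋂ n, appr T n = body T := by
    ext z
    simp only [mem_iInter, appr, body, mem_ofPred_eq]
    exact ⟨fun h n => h n n le_rfl, fun h n k _ => h k⟩
  have hlim := tendsto_measure_iInter_atTop (μ := coin) (s := appr T)
    (fun n => (isClosed_appr T n).measurableSet.nullMeasurableSet) hanti
    ⟨0, measure_ne_top _ _⟩
  rw [hinter, h] at hlim
  have hpos : (0 : ℝ≥0∞) < ((m : ℝ≥0∞) + 1)⁻¹ := by simp
  obtain ⟨n, hn⟩ := (hlim.eventually_lt_const hpos).exists
  refine ⟨n, words T n, ⟨fun s hs => (mem_words.1 hs).1, ?_⟩, ?_⟩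
  · rw [Function.comp_apply, coin_appr] at hn
    have h2 : ((words T n).card : ℝ≥0∞) * (2 : ℝ≥0∞)⁻¹ ^ n * (m + 1) ≤ 1 := by
      calc _ ≤ ((m : ℝ≥0∞) + 1)⁻¹ * (m + 1) := by gcongr
        _ ≤ 1 := ENNReal.inv_mul_le_one _
    have h3 : (((words T n).card * m : ℕ) : ℝ≥0∞) ≤ ((2 ^ n : ℕ) : ℝ≥0∞) := by
      calc (((words T n).card * m : ℕ) : ℝ≥0∞)
          = ((words T n).card : ℝ≥0∞) * (2 : ℝ≥0∞)⁻¹ ^ n * m * 2 ^ n := by
            have : (2 : ℝ≥0∞)⁻¹ ^ n * 2 ^ n = 1 := by
              rw [← mul_pow, ENNReal.inv_mul_cancel (by norm_num) (by norm_num), one_pow]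
            push_cast
            calc ((words T n).card : ℝ≥0∞) * m = (words T n).card * m * 1 := by rw [mul_one]
              _ = (words T n).card * m * ((2 : ℝ≥0∞)⁻¹ ^ n * 2 ^ n) := by rw [this]
              _ = _ := by ring
        _ ≤ ((words T n).card : ℝ≥0∞) * (2 : ℝ≥0∞)⁻¹ ^ n * (m + 1) * 2 ^ n := by
            gcongr
            exact le_self_add
        _ ≤ 1 * 2 ^ n := by gcongr
        _ = ((2 ^ n : ℕ) : ℝ≥0∞) := by push_cast; ring
    exact_mod_cast h3
  · rintro s ⟨hs, hns⟩
    rw [mem_words] at hns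
    push Not at hns
    obtain ⟨t, ht, hTt⟩ := hns hs
    exact ⟨t, ht, hTt⟩

/-- the code of a closed set -/
def code (C : Set (ℕ → Bool)) (s : List Bool) : Prop := ∃ z ∈ C, ini z s.length = s

theorem body_code {C : Set (ℕ → Bool)} (hC : IsClosed C) : body (code C) = C := by
  apply Subset.antisymm
  · intro z hz
    have h1 : ∀ n, ∃ y ∈ C, ini y n = ini z n := by
      intro n
      obtain ⟨y, hy, h⟩ := hz n
      rw [length_ini] at h
      exact ⟨y, hy, h⟩
    choose y hy hyz using h1
    have hlim : Filter.Tendsto y Filter.atTop (nhds z) := by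
      rw [tendsto_pi_nhds]
      intro i
      apply tendsto_const_nhds.congr'
      filter_upwards [Filter.eventually_gt_atTop i] with n hn
      have h2 : (ini (y n) n)[i]'(by rw [length_ini]; exact hn) =
        (ini z n)[i]'(by rw [length_ini]; exact hn) := by
        congr 1
        exact hyz n
      simpa [ini] using h2.symm
    exact hC.mem_of_tendsto hlim (Filter.Eventually.of_forall hy)
  · intro z hz n
    exact ⟨z, hz, by rw [length_ini]⟩

theorem mem_words_code {C : Set (ℕ → Bool)} {n : ℕ} {s : List Bool} :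
    s ∈ words (code C) n ↔ s.length = n ∧ code C s := by
  rw [mem_words]
  constructor
  · rintro ⟨h1, h2⟩
    exact ⟨h1, h2 s (List.prefix_refl s)⟩
  · rintro ⟨h1, z, hz, hzs⟩
    refine ⟨h1, fun t ht => ⟨z, hz, ?_⟩⟩
    rw [← hzs] at ht
    obtain ⟨k, -, rfl⟩ := prefix_ini.1 ht
    rw [length_ini]

/-- A closed set `C` is null if and only if for every `m` there is `n` such that the number of words
of length `n` whose cylinder meets `C`, times `m`, is at most `2 ^ n`. -/
theorem coin_closed_eq_zero_iff {C : Set (ℕ → Bool)} (hC : IsClosed C) :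
    coin C = 0 ↔ ∀ m : ℕ, ∃ n : ℕ, (words (code C) n).card * m ≤ 2 ^ n := by
  constructor
  · intro h m
    have hb : coin (body (code C)) = 0 := by rw [body_code hC, h]
    have hn := isNull_of_coin_body hb
    rw [isNull_iff] at hn
    obtain ⟨n, S, ⟨hlen, hcard⟩, hS⟩ := hn m
    refine ⟨n, (Nat.mul_le_mul_right m (Finset.card_le_card ?_)).trans hcard⟩
    intro s hs
    by_contra hns
    obtain ⟨t, ht, hTt⟩ := hS s ⟨(mem_words.1 hs).1, hns⟩
    exact hTt ((mem_words.1 hs).2 t ht)
  · intro h
    rw [← body_code hC]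
    apply coin_body_of_isNull
    rw [isNull_iff]
    intro m
    obtain ⟨n, hn⟩ := h m
    refine ⟨n, words (code C) n, ⟨fun s hs => (mem_words.1 hs).1, hn⟩, ?_⟩
    rintro s ⟨hs, hns⟩
    rw [mem_words] at hns
    push Not at hns
    obtain ⟨t, ht, hTt⟩ := hns hs
    exact ⟨t, ht, hTt⟩

open scoped Classical in
/-- from `Prop`-valued to `Bool`-valued points -/
noncomputable def tb (x : ℕ → Prop) : ℕ → Bool := fun n => decide (x n)

theorem tb_surj (z : ℕ → Bool) : tb (fun n => z n = true) = z := by
  ext n; simp [tb]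

theorem memClosed_iff (x : ℕ → Prop) (T : List Bool → Prop) :
    memClosed x T ↔ tb x ∈ body T := by
  have h1 : ∀ s : List Bool, initSeg x s ↔ ini (tb x) s.length = s := by
    intro s
    rw [ini_eq_iff]
    simp only [initSeg, iInf_Prop_eq]
    refine forall_congr' fun i => ?_
    by_cases hs : s[i] = true
    · rw [if_pos hs, hs]
      simp [tb]
    · rw [if_neg hs]
      have hs' : s[i] = false := by simpa using hs
      rw [hs']
      simp [tb]
  simp only [memClosed, iInf_Prop_eq, himp_iff_imp, body, mem_ofPred_eq]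
  constructor
  · intro h n
    exact h _ ((h1 _).2 (by rw [length_ini]))
  · intro h s hs
    rw [h1] at hs
    rw [← hs]
    exact h _

theorem covers_iff (A : Set (ℕ → Bool)) (F : ℕ → List Bool → Prop) :
    covers (fun x : ℕ → Prop => tb x ∈ A) F ↔ A ⊆ ⋃ k, body (F k) := by
  simp only [covers, iInf_Prop_eq, himp_iff_imp, iSup_Prop_eq, memClosed_iff]
  constructor
  · intro h z hz
    have := h (fun n => z n = true) (by rw [tb_surj]; exact hz)
    rw [tb_surj] at this
    simpa using this
  · intro h x hx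
    simpa using h hx

theorem subClosed_iff (S T : List Bool → Prop) : subClosed S T ↔ body S ⊆ body T := by
  simp only [subClosed, iInf_Prop_eq, himp_iff_imp, memClosed_iff]
  constructor
  · intro h z hz
    have := h (fun n => z n = true) (by rw [tb_surj]; exact hz)
    rwa [tb_surj] at this
  · intro h x hx
    exact h hx

end PartIa

open PartIa in
theorem clubMeas_of_club (h : club Prop) : ClubMeas := by
  intro A
  have hA := h
  simp only [club, iInf_Prop_eq] at hA
  have h1 := hA (fun x : ℕ → Prop => tb x ∈ A) (by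
    intro x y
    rintro ⟨hxy, hx⟩
    have : x = y := by
      simp only [eqPoint, iInf_Prop_eq] at hxy
      ext n
      exact ⟨(hxy n).1, (hxy n).2⟩
    rw [← this]
    exact hx)
  simp only [sup_Prop_eq, iSup_Prop_eq, inf_Prop_eq, himp_iff_imp,
    compl_iff_not, covers_iff, subClosed_iff] at h1
  rcases h1 with ⟨F, hF, hcov⟩ | ⟨Z, hZ, hcov⟩
  · left
    exact ⟨fun k => body (F k), fun k => ⟨isClosed_body _, coin_body_of_isNull (hF k)⟩, hcov⟩
  · right
    refine ⟨fun n => body (Z n), fun n => ⟨isClosed_body _, fun h0 =>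
      hZ n (isNull_of_coin_body h0)⟩, ?_⟩
    intro F hF hAF
    obtain ⟨n, k, hnk⟩ := hcov (fun k => code (F k)) (by
      intro z hz
      obtain ⟨k, hk⟩ := mem_iUnion.1 (hAF hz)
      refine mem_iUnion.2 ⟨k, ?_⟩
      rw [body_code (hF k)]
      exact hk)
    refine ⟨n, k, ?_⟩
    rw [body_code (hF k)] at hnk
    exact hnk

end Pool.Agent.Lib.MP_40b13d_lc
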