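import Mathlib
import Pool.Agent.Lib.MP_40b13d_lc.Final
import Pool.Agent.Lib.MP_40b13d_lc.PartIa

/-!
# The sentence `(♣)` has value `⊤`: abstract form
-/

open MeasureTheory Set Topology Filter TopologicalSpace

namespace Pool.Agent.Lib.MP_40b13d_lc

theorem isNull_prop {T : List Bool → Prop} : isNull T ↔ coin (treeSet T) = 0 :=
  ⟨PartIa.coin_body_of_isNull, PartIa.isNull_of_coin_body⟩

variable {ι : Type*} [LinearOrder ι] [WellFoundedLT ι]

theorem gs_ne_bot {K : ι} {a : BA K} (ha : a ≠ ⊥) : (gs a).Nonempty := by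
  rw [nonempty_iff_ne_empty]
  intro h
  apply ha
  exact le_antisymm (gs_le.2 (h.subset)) bot_le

/-- The singleton of a name for a point is a measurable name for a closed set. -/
theorem point_meas {K : ι} (x : ℕ → BA K) :
    MeasC K (fun ξ => {boolify fun n => ξ ∈ gs (x n)}) := by
  refine ⟨fun ξ => isClosed_singleton, fun s => ?_⟩
  have : {ξ | hits {boolify fun n => ξ ∈ gs (x n)} s} =
      {ξ | ∀ i : Fin s.length, ξ ∈ gs (x i) ↔ s[i] = true} := by
    ext ξ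
    have h1 : hits {boolify fun n => ξ ∈ gs (x n)} s ↔ boolify (fun n => ξ ∈ gs (x n)) ∈ cyl s := by
      rw [hits, singleton_inter_nonempty]
    rw [mem_ofPred_eq, mem_ofPred_eq, h1, mem_cyl_iff]
    classical
    constructor
    · intro h i
      have := h i i.2
      simp only [boolify] at this
      simp only [Fin.getElem_fin]
      rw [← this]
      simp
    · intro h i hi
      have := h ⟨i, hi⟩
      simp only [Fin.getElem_fin] at this
      simp only [boolify]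
      rw [Bool.eq_iff_iff, decide_eq_true_iff]
      exact this
  rw [this]
  exact Meas.forall fun i => (gs_open _).meas.iff (meas_const K _)

/-- Names of sets of finite sequences from measurable names of closed sets. -/
theorem exists_code {K : ι} {C : Pt ι → Set (ℕ → Bool)} (hC : MeasC K C) :
    ∃ T : List Bool → BA K, ∀ᶠ ξ in Ae K, treeSet (fun s => ξ ∈ gs (T s)) = C ξ := by
  choose T hT using fun s => exists_gs (hC.2 s)
  refine ⟨T, ?_⟩
  filter_upwards [eventually_countable_forall.2 hT] with ξ h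
  have : (fun s => ξ ∈ gs (T s)) = hits (C ξ) := by
    funext s
    exact propext (h s)
  rw [this, treeSet_hits (hC.1 ξ)]

/-- Codes of a lower level. -/
theorem exists_code_lev {K α : ι} (hαK : α ≤ K) (h0 : ∃ i, i < α)
    (hcof : ∀ f : ℕ → ι, (∀ n, f n < α) → ∃ i < α, ∀ n, f n < i)
    {C : ℕ → Pt ι → Set (ℕ → Bool)} (hC : ∀ n, MeasC α (C n)) :
    ∃ T : ℕ → List Bool → BA K, (∀ n, ∀ᶠ ξ in Ae K, treeSet (fun s => ξ ∈ gs (T n s)) = C n ξ) ∧
      ∃ β < α, ∀ n s, Lev β (T n s) := by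
  choose l hl U hU hCU using fun (a : ℕ × List Bool) => ((hC a.1).2 a.2).exists_level h0 hcof
  obtain ⟨β, hβ, hlβ⟩ := bounded_of_countable h0 hcof l hl
  have hT : ∀ a : ℕ × List Bool, ∃ b : BA K, ∀ᶠ ξ in Ae K, ξ ∈ gs b ↔ ξ ∈ U a := fun a =>
    exists_gs ((hU a).openAt.mono ((hl a).le.trans hαK)).meas
  choose T hT using hT
  refine ⟨fun n s => T (n, s), fun n => ?_, β, hβ, fun n s =>
    ⟨U (n, s), (hU (n, s)).openAt.mono (hlβ _).le, hT (n, s)⟩⟩
  have h1 : ∀ᶠ ξ in Ae K, ∀ a : ℕ × List Bool, ξ ∈ gs (T a) ↔ ξ ∈ U a :=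
    eventually_countable_forall.2 hT
  have h2 : ∀ᶠ ξ in Ae K, ∀ a : ℕ × List Bool, hits (C a.1 ξ) a.2 ↔ ξ ∈ U a := by
    apply ae_up hαK
    exact eventually_countable_forall.2 fun a => (hCU a).mem_iff
  filter_upwards [h1, h2] with ξ h1 h2
  have : (fun s => ξ ∈ gs (T (n, s))) = hits (C n ξ) := by
    funext s
    exact propext ((h1 (n, s)).trans (h2 (n, s)).symm)
  rw [this, treeSet_hits ((hC n).1 ξ)]

/-- The case analysis at a level `α` closed under the choices of `h`. -/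
theorem contra {K α a b : ι} (hαa : α < a) (hmax : ∀ j < a, j ≤ α) (hab : a < b)
    (hmax' : ∀ j < b, j ≤ a) (hbK : b ≤ K) (h0 : ∃ i, i < α)
    (hcof : ∀ f : ℕ → ι, (∀ n, f n < α) → ∃ i < α, ∀ n, f n < i)
    (A : (ℕ → BA K) → BA K) (p : BA K) (hp : p ≠ ⊥)
    (hL : p ⊓ (⨆ F : ℕ → List Bool → BA K, (⨅ k, isNull (F k)) ⊓ covers A F) = ⊥)
    (hZ : ∀ Z : ℕ → List Bool → BA K, (∀ n, isNull (Z n) = ⊥) → (∃ β < α, ∀ n s, Lev β (Z n s)) →
      ∃ T : Set (ℕ → List Bool → BA K), (∀ F ∈ T, ∀ k s, Lev α (F k s)) ∧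
        ∀ᶠ ξ in Ae K, ξ ∈ gs p → ∃ F ∈ T,
          ξ ∈ gs (covers A F ⊓ (⨆ n, ⨆ k, subClosed (Z n) (F k))ᶜ)) : False := by
  classical
  have haK : a < K := hab.trans_le hbK
  have hαK : α < K := hαa.trans haK
  -- names for the sets `eset`
  have hT : ∀ m : ℕ, ∃ T : List Bool → BA K,
      ∀ᶠ ξ in Ae K, treeSet (fun s => ξ ∈ gs (T s)) = eset (ξ α) (ξ a) m := fun m =>
    exists_code (eset_meas hαK haK m)
  choose T hT using hT
  have hTnull : ∀ m, isNull (T m) = ⊤ := by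
    intro m
    rw [gs_eq_top_iff]
    filter_upwards [ev_isNull (T m), hT m] with ξ h1 h2
    rw [h1, isNull_prop, h2]
    exact coin_eset _ _ _
  have h1 : p ⊓ covers A T = ⊥ := by
    refine le_antisymm ?_ bot_le
    rw [← hL]
    refine inf_le_inf_left _ ?_
    refine le_trans ?_ (le_iSup _ T)
    simp [hTnull]
  obtain ⟨x, hx⟩ : ∃ x : ℕ → BA K, p ⊓ (A x ⊓ (⨆ m, memClosed x (T m))ᶜ) ≠ ⊥ := by
    by_contra hcon
    push Not at hcon
    apply hp
    refine le_antisymm ?_ bot_le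
    rw [← h1]
    refine le_inf le_rfl ?_
    rw [covers]
    refine le_iInf fun x => ?_
    have h2 := hcon x
    rw [← disjoint_iff, ← le_compl_iff_disjoint_right, compl_inf, compl_compl] at h2
    rw [himp_eq, sup_comm]
    exact h2
  set p1 : BA K := p ⊓ (A x ⊓ (⨆ m, memClosed x (T m))ᶜ) with hp1
  obtain ⟨Z, ⟨hZc, hZp⟩, hD⟩ := preserve α K hαK.le _ (point_meas x)
  -- enumerate the family
  obtain ⟨z, hz⟩ : ∃ z : ℕ → Pt ι → Set (ℕ → Bool), range z = insert (fun _ => univ) Z :=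
    ((hZc.insert _).exists_eq_range ⟨_, mem_insert _ _⟩).imp fun _ h => h.symm
  have hz1 : ∀ n, MeasC α (z n) ∧ ∀ x, coin (z n x) ≠ 0 := by
    intro n
    have : z n ∈ insert (fun _ => univ) Z := hz ▸ mem_range_self n
    rcases this with h | h
    · rw [h]
      exact ⟨MeasC.const α isClosed_univ, fun x => by simp⟩
    · exact hZp _ h
  obtain ⟨Zn, hZn, β, hβ, hlev⟩ := exists_code_lev (K := K) hαK.le h0 hcof fun n => (hz1 n).1
  have hZnull : ∀ n, isNull (Zn n) = ⊥ := by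
    intro n
    rw [← compl_eq_top, gs_eq_top_iff]
    filter_upwards [gs_compl (isNull (Zn n)), ev_isNull (Zn n), hZn n] with ξ h2 h3 h4
    rw [h2, h3, isNull_prop, h4]
    exact (hz1 n).2 ξ
  obtain ⟨S, hS, hS1⟩ := hZ Zn hZnull ⟨β, hβ, hlev⟩
  obtain ⟨ξ0, hξ0, h3⟩ := gs_exists_mem hx hS1
  obtain ⟨F, hF, h4⟩ := h3 hξ0.1
  set q0 : BA K := p1 ⊓ (covers A F ⊓ (⨆ n, ⨆ k, subClosed (Zn n) (F k))ᶜ) with hq0
  have hq0' : q0 ≠ ⊥ := by
    intro h
    have : ξ0 ∈ gs q0 := ⟨hξ0, h4⟩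
    rw [h, gs_bot] at this
    exact this
  obtain ⟨k, hk⟩ : ∃ k, q0 ⊓ memClosed x (F k) ≠ ⊥ := by
    by_contra hcon
    push Not at hcon
    apply hq0'
    have h5 : q0 ≤ ⨆ k, memClosed x (F k) := by
      have h6 : q0 ≤ covers A F := inf_le_right.trans inf_le_left
      have h7 : q0 ≤ A x := inf_le_left.trans (inf_le_right.trans inf_le_left)
      have h8 : covers A F ≤ A x ⇨ ⨆ k, memClosed x (F k) := iInf_le _ x
      have h9 : q0 ≤ A x ⊓ (A x ⇨ ⨆ k, memClosed x (F k)) := le_inf h7 (h6.trans h8)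
      exact h9.trans inf_himp_le
    have h6 : q0 = q0 ⊓ ⨆ k, memClosed x (F k) := (inf_eq_left.2 h5).symm
    rw [h6, inf_iSup_eq]
    simp [hcon]
  set q : BA K := q0 ⊓ memClosed x (F k) with hq
  obtain ⟨p', hp', hne', hsub, hcase⟩ := hD (gs q) (gs_open q) (gs_ne_bot hk)
  rcases hcase with ⟨B, hB, hB0, hRB⟩ | ⟨w, hw, hwF⟩
  · -- the point belongs to a closed null set of level `α`
    have h5 : ∀ᶠ ξ in Ae K, ∀ m, ξ ∈ gs (memClosed x (T m)) ↔
        boolify (fun n => ξ ∈ gs (x n)) ∈ treeSet (fun s => ξ ∈ gs (T m s)) :=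
      eventually_countable_forall.2 fun m => ev_memClosed x (T m)
    have h6 : ∀ᶠ ξ in Ae K, ∀ m, treeSet (fun s => ξ ∈ gs (T m s)) = eset (ξ α) (ξ a) m :=
      eventually_countable_forall.2 hT
    have h5' : ∀ᶠ ξ in Ae K, ∃ m, B ξ ⊆ eset (ξ α) (ξ a) m :=
      ae_up hbK (glue hαa hmax hab hmax' hB hB0)
    obtain ⟨ξ, hξ, h7, h8, h9, h10, h11, h12⟩ := hp'.exists_mem hne'
      (h5.and (h6.and (hRB.and (h5'.and
        ((gs_compl (⨆ m, memClosed x (T m))).and (gs_iSup fun m => memClosed x (T m)))))))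
    obtain ⟨m, hm⟩ := h10
    have h13 : ξ ∈ gs (memClosed x (T m)) := by
      rw [h7, h8]
      exact hm (h9 hξ (mem_singleton _))
    have h14 : ξ ∈ gs (⨆ m, memClosed x (T m))ᶜ := (hsub hξ).1.1.2.2
    exact h11.1 h14 (h12.2 ⟨m, h13⟩)
  · -- one member of the family is contained in the closed set
    have h5 := fun s => hS F hF k s
    choose U hU hFU using h5
    set F' : Pt ι → Set (ℕ → Bool) := fun ξ => treeSet fun s => ξ ∈ U s with hF'
    have hF'm : MeasC α F' := treeSet_meas fun s => (hU s).meas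
    have h6 : ∀ᶠ ξ in Ae K, treeSet (fun s => ξ ∈ gs (F k s)) = F' ξ := by
      filter_upwards [eventually_countable_forall.2 hFU] with ξ h
      have : (fun s => ξ ∈ gs (F k s)) = fun s => ξ ∈ U s := by
        funext s
        exact propext (h s)
      rw [this]
    have h7 := hwF F' hF'm (by
      filter_upwards [h6, ev_memClosed x (F k)] with ξ h8 h9 hξ
      have h10 : ξ ∈ gs (memClosed x (F k)) := hξ.2
      rw [h9, h8] at h10
      exact singleton_subset_iff.2 h10)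
    obtain ⟨n, hn⟩ : ∃ n, z n = w := by
      have : w ∈ range z := hz ▸ mem_insert_of_mem _ hw
      exact this
    obtain ⟨r, hr⟩ := exists_gs hp'.meas
    have hrS : r ≤ subClosed (Zn n) (F k) := by
      rw [subClosed]
      refine le_iInf fun y => ?_
      rw [le_himp_iff, gs_le_iff]
      filter_upwards [hr, h7, h6, ev_memClosed y (F k), ev_memClosed y (Zn n), hZn n] with
        ξ g1 g2 g3 g4 g5 g6 hξ
      rw [g4, g3]
      apply g2 (g1.1 hξ.1)
      rw [← hn, ← g6, ← g5]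
      exact hξ.2
    have hrS' : r ≤ ⨆ n, ⨆ k, subClosed (Zn n) (F k) :=
      hrS.trans (le_iSup_of_le n (le_iSup (fun k => subClosed (Zn n) (F k)) k))
    have hrq : r ≤ q := by
      rw [gs_le_iff]
      filter_upwards [hr] with ξ g1 hξ
      exact hsub (g1.1 hξ)
    have hrS'' : r ≤ (⨆ n, ⨆ k, subClosed (Zn n) (F k))ᶜ :=
      hrq.trans (inf_le_left.trans (inf_le_right.trans inf_le_right))
    have hr0 : r = ⊥ := by
      refine le_antisymm ?_ bot_le
      have := le_inf hrS' hrS''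
      rwa [inf_compl_self] at this
    obtain ⟨ξ, hξ, h8⟩ := hp'.exists_mem hne' hr
    rw [hr0, gs_bot] at h8
    exact h8.2 hξ

/-- **The sentence `(♣)` has value `⊤`**, abstract form. -/
theorem club_top {K : ι} (h0 : ∃ i, i < K)
    (hcof : ∀ f : ℕ → ι, (∀ n, f n < K) → ∃ i < K, ∀ n, f n < i)
    (hK : ∀ h : (ℕ → List Bool → BA K) → ι, (∀ Z, h Z < K) → ∃ α a b, α < a ∧ (∀ j < a, j ≤ α) ∧
      a < b ∧ (∀ j < b, j ≤ a) ∧ b ≤ K ∧ (∃ i, i < α) ∧
      (∀ f : ℕ → ι, (∀ n, f n < α) → ∃ i < α, ∀ n, f n < i) ∧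
      ∀ β < α, ∀ Z : ℕ → List Bool → BA K, (∀ n s, Lev β (Z n s)) → h Z ≤ α) :
    club (BA K) = ⊤ := by
  classical
  rw [club, iInf_eq_top]
  intro A
  rw [iInf_eq_top]
  intro _
  by_contra hne
  set L := ⨆ F : ℕ → List Bool → BA K, (⨅ k, isNull (F k)) ⊓ covers A F with hL
  set R := ⨆ Z : ℕ → List Bool → BA K, (⨅ n, (isNull (Z n))ᶜ) ⊓
      ⨅ F : ℕ → List Bool → BA K, covers A F ⇨ ⨆ n, ⨆ k, subClosed (Z n) (F k) with hR
  set p := (L ⊔ R)ᶜ with hp
  have hp0 : p ≠ ⊥ := by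
    intro h
    rw [hp, compl_eq_bot] at h
    exact hne h
  have hpL : p ⊓ L = ⊥ := by
    rw [hp, compl_sup, inf_right_comm, compl_inf_self, bot_inf_eq]
  have hpR : p ⊓ R = ⊥ := by
    rw [hp, compl_sup, inf_assoc, compl_inf_self, inf_bot_eq]
  have key : ∀ Z : ℕ → List Bool → BA K, (∀ n, isNull (Z n) = ⊥) →
      ∃ γ < K, ∃ T : Set (ℕ → List Bool → BA K), T.Countable ∧
      (∀ F ∈ T, ∀ k s, Lev γ (F k s)) ∧ ∀ᶠ ξ in Ae K, ξ ∈ gs p →
        ∃ F ∈ T, ξ ∈ gs (covers A F ⊓ (⨆ n, ⨆ k, subClosed (Z n) (F k))ᶜ) := by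
    intro Z hZ
    apply countable_covers h0 hcof
    refine le_antisymm ?_ bot_le
    rw [← hpR]
    refine inf_le_inf_left _ ?_
    refine le_trans ?_ (le_iSup _ Z)
    simp only [hZ, compl_bot, iInf_top, top_inf_eq]
    refine le_iInf fun F => ?_
    refine (iInf_le _ F).trans ?_
    rw [compl_inf, compl_compl, himp_eq, sup_comm]
  obtain ⟨i0, hi0⟩ := h0
  set h : (ℕ → List Bool → BA K) → ι := fun Z =>
    if hZ : ∀ n, isNull (Z n) = ⊥ then Classical.choose (key Z hZ) else i0 with hh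
  have hhK : ∀ Z, h Z < K := by
    intro Z
    by_cases hZ : ∀ n, isNull (Z n) = ⊥
    · simp only [hh, hZ, implies_true, dif_pos]
      exact (Classical.choose_spec (key Z hZ)).1
    · simp only [hh, hZ, dif_neg, not_false_iff]
      exact hi0
  obtain ⟨α, a, b, hαa, hmax, hab, hmax', hbK, hα0, hαcof, hclose⟩ := hK h hhK
  refine contra hαa hmax hab hmax' hbK hα0 hαcof A p hp0 hpL ?_
  rintro Z hZ ⟨β, hβ, hlev⟩
  obtain ⟨-, T, -, hT1, hT2⟩ := Classical.choose_spec (key Z hZ)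
  have h1 := hclose β hβ Z hlev
  simp only [hh, hZ, implies_true, dif_pos] at h1
  exact ⟨T, fun F hF k s => (hT1 F hF k s).mono h1, hT2⟩

end Pool.Agent.Lib.MP_40b13d_lc
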