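import Mathlib
import Pool.Agent.Lib.MP_40b13d_lc.Top

/-!
# Counting names and the closing-off argument
-/

open Set Cardinal

namespace Pool.Agent.Lib.MP_40b13d_lc

/-! ### Successor cardinals -/

section Succ

variable (μ : Cardinal.{0})

/-- A well-order of type `μ⁺`. -/
abbrev WO : Type := (Order.succ μ).ord.ToType

variable {μ}

theorem WO.mk_Iio_le (x : WO μ) : #(Iio x) ≤ μ := by
  rw [← Order.lt_succ_iff]
  exact (mk_Iio_toType_ord_lt x)

theorem WO.bounded (hμ : ℵ₀ ≤ μ) {κ : Type} (hκ : #κ ≤ μ) (g : κ → WO μ) :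
    ∃ x, ∀ a, g a < x := by
  by_contra hcon
  push Not at hcon
  have h1 : (univ : Set (WO μ)) ⊆ ⋃ a, Iic (g a) := by
    intro x _
    obtain ⟨a, ha⟩ := hcon x
    exact mem_iUnion.2 ⟨a, ha⟩
  have h2 : #(⋃ a, Iic (g a)) ≤ μ := by
    refine (mk_iUnion_le _).trans ?_
    refine (mul_le_mul' hκ (ciSup_le' fun a => ?_)).trans (mul_eq_self hμ).le
    rw [← Iio_insert]
    refine (mk_insert_le).trans ?_
    exact (add_le_add_left (WO.mk_Iio_le _) 1).trans (add_eq_left hμ (one_le_aleph0.trans hμ)).le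
  have h3 : #(WO μ) ≤ μ := by
    rw [← mk_univ]
    exact (mk_le_mk_of_subset h1).trans h2
  rw [mk_ord_toType] at h3
  exact absurd (Order.lt_succ μ) (not_lt.2 h3)

end Succ

/-! ### Counting -/

section Count

variable {ι : Type} [LinearOrder ι] [WellFoundedLT ι]

theorem mk_seq_le {α : Type} (h : #α ≤ 𝔠) {κ : Type} [Countable κ] : #(κ → α) ≤ 𝔠 := by
  rw [← power_def]
  rcases eq_or_ne (#α) 0 with h0 | h0
  · rw [h0]
    exact zero_power_le _ |>.trans (one_le_aleph0.trans aleph0_le_continuum)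
  · calc #α ^ #κ ≤ #α ^ ℵ₀ := power_le_power_left h0 mk_le_aleph0
      _ ≤ 𝔠 ^ ℵ₀ := power_le_power_right h
      _ = 𝔠 := continuum_power_aleph0

/-- Basic sets. -/
def Bas (β : ι) : Set (Set (Pt ι)) := {U | ∃ p, Valid β p ∧ p.set = U}

theorem mk_option_le {α : Type} (h : #α ≤ 𝔠) : #(Option α) ≤ 𝔠 := by
  rw [mk_option]
  exact (add_le_add_left h 1).trans
    (add_eq_left aleph0_le_continuum (one_le_aleph0.trans aleph0_le_continuum)).le

theorem mk_cOpen_le {β : ι} (h : #(Bas β) ≤ 𝔠) : #{U : Set (Pt ι) | COpen β U} ≤ 𝔠 := by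
  have h1 : {U : Set (Pt ι) | COpen β U} ⊆
      range (fun f : ℕ → Option (Bas β) => ⋃ n, (f n).elim ∅ Subtype.val) := by
    rintro _ ⟨C, hC, hCv, rfl⟩
    rcases C.eq_empty_or_nonempty with rfl | hne
    · exact ⟨fun _ => none, by simp⟩
    · obtain ⟨e, rfl⟩ := hC.exists_eq_range hne
      refine ⟨fun n => some ⟨(e n).set, e n, hCv _ (mem_range_self n), rfl⟩, ?_⟩
      simp
  exact (mk_le_mk_of_subset h1).trans (mk_range_le.trans (mk_seq_le (mk_option_le h)))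

theorem mk_good_le {β : ι} (h : #(Bas β) ≤ 𝔠) : #{G : Prom ι | Good β G} ≤ 𝔠 := by
  have h1 : {G : Prom ι | Good β G} ⊆
      range (fun f : List ℕ × ℕ → {U : Set (Pt ι) | COpen β U} => fun t k => (f (t, k)).1) := by
    intro G hG
    exact ⟨fun a => ⟨G a.1 a.2, (good_iff.1 hG a.1).2.1 a.2⟩, rfl⟩
  exact (mk_le_mk_of_subset h1).trans (mk_range_le.trans (mk_seq_le (mk_cOpen_le h)))

theorem mk_bas_le {K : ι} (hK : ∀ β < K, #(Iio β) ≤ 𝔠) : ∀ β < K, #(Bas β) ≤ 𝔠 := by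
  intro β
  induction β using WellFoundedLT.induction with
  | ind β IH =>
  intro hβ
  set S : Set (Set (Pt ι)) := ⋃ γ : Iio β,
    range (fun a : List ℕ × {G : Prom ι | Good (γ : ι) G} => Box (γ : ι) a.1 a.2.1) with hS
  have hScard : #S ≤ 𝔠 := by
    refine (mk_iUnion_le _).trans ?_
    refine (mul_le_mul' (hK β hβ) (ciSup_le' fun γ => ?_)).trans continuum_mul_self.le
    refine mk_range_le.trans ?_
    rw [mk_prod, lift_id, lift_id]
    exact (mul_le_mul' (mk_le_aleph0.trans aleph0_le_continuum)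
      (mk_good_le (IH γ γ.2 ((mem_Iio.1 γ.2).trans hβ)))).trans continuum_mul_self.le
  have h1 : Bas β ⊆ range (fun f : ℕ → Option S => ⋂ n, (f n).elim univ Subtype.val) := by
    rintro _ ⟨p, hp, rfl⟩
    have hc : Countable p.supp := inferInstance
    have hmem : ∀ γ : p.supp, Box (γ : ι) (p.stem γ) (p.prom γ) ∈ S := by
      intro γ
      refine mem_iUnion.2 ⟨⟨γ, (hp γ γ.2).1⟩, ?_⟩
      exact ⟨(p.stem γ, ⟨p.prom γ, (hp γ γ.2).2⟩), rfl⟩
    rcases isEmpty_or_nonempty p.supp with he | hne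
    · refine ⟨fun _ => none, ?_⟩
      ext x
      simp only [Option.elim, iInter_univ, mem_univ, true_iff]
      intro γ hγ
      exact he.elim ⟨γ, hγ⟩
    · obtain ⟨e, he⟩ := exists_surjective_nat p.supp
      refine ⟨fun n => some ⟨_, hmem (e n)⟩, ?_⟩
      ext x
      simp only [Option.elim, mem_iInter]
      constructor
      · intro hx γ hγ
        obtain ⟨n, hn⟩ := he ⟨γ, hγ⟩
        have := hx n
        rw [hn] at this
        exact this
      · intro hx n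
        exact hx _ (e n).2
  exact (mk_le_mk_of_subset h1).trans (mk_range_le.trans (mk_seq_le (mk_option_le hScard)))

theorem mk_lev_le {K β : ι} (hβ : β ≤ K) (h : #(Bas β) ≤ 𝔠) : #{b : BA K | Lev β b} ≤ 𝔠 := by
  have h1 : ∀ b : {b : BA K | Lev β b}, ∃ V : {U : Set (Pt ι) | COpen β U},
      ∀ᶠ x in Ae K, x ∈ gs b.1 ↔ x ∈ V.1 := by
    rintro ⟨b, U, hU, hb⟩
    obtain ⟨V, hV, hUV⟩ := hU.meas.exists_cOpen
    refine ⟨⟨V, hV⟩, ?_⟩
    filter_upwards [hb, ae_up hβ hUV.mem_iff] with x h1 h2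
    exact h1.trans h2
  choose f hf using h1
  have hinj : Function.Injective f := by
    intro a b hab
    have h2 := hf a
    have h3 := hf b
    rw [← hab] at h3
    apply Subtype.ext
    apply le_antisymm
    · rw [gs_le_iff]
      filter_upwards [h2, h3] with x h4 h5 h6
      exact h5.2 (h4.1 h6)
    · rw [gs_le_iff]
      filter_upwards [h2, h3] with x h4 h5 h6
      exact h4.2 (h5.1 h6)
  exact (mk_le_of_injective hinj).trans (mk_cOpen_le h)

theorem mk_names_le {K β : ι} (hβ : β ≤ K) (h : #(Bas β) ≤ 𝔠) :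
    #{Z : ℕ → List Bool → BA K | ∀ n s, Lev β (Z n s)} ≤ 𝔠 := by
  have h1 : {Z : ℕ → List Bool → BA K | ∀ n s, Lev β (Z n s)} ⊆
      range (fun f : ℕ × List Bool → {b : BA K | Lev β b} => fun n s => (f (n, s)).1) := by
    intro Z hZ
    exact ⟨fun a => ⟨Z a.1 a.2, hZ a.1 a.2⟩, rfl⟩
  exact (mk_le_mk_of_subset h1).trans (mk_range_le.trans (mk_seq_le (mk_lev_le hβ h)))

end Count

/-! ### Closing off -/

section Close

variable {ι : Type} [LinearOrder ι] [WellFoundedLT ι]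

theorem exists_chain {K : ι}
    (hb : ∀ κ : Type, #κ ≤ 𝔠 → ∀ g : κ → ι, (∀ a, g a < K) → ∃ x < K, ∀ a, g a < x)
    (H : ι → ι) (hH : ∀ i < K, H i < K) :
    ∃ g : WO ℵ₀ → ι, ∀ w, g w < K ∧ ∀ v < w, g v < g w ∧ H (g v) < g w := by
  have step : ∀ (w : WO ℵ₀) (f : (v : WO ℵ₀) → v < w → {i : ι // i < K}), ∃ x : {i : ι // i < K},
      ∀ v (hv : v < w), (f v hv).1 < x.1 ∧ H (f v hv).1 < x.1 := by
    intro w f
    have hc : #(Iio w) ≤ 𝔠 := (WO.mk_Iio_le w).trans aleph0_le_continuum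
    obtain ⟨x, hx, h1⟩ := hb (Iio w) hc (fun v => max (f v v.2).1 (H (f v v.2).1))
      fun v => max_lt (f v v.2).2 (hH _ (f v v.2).2)
    exact ⟨⟨x, hx⟩, fun v hv => max_lt_iff.1 (h1 ⟨v, hv⟩)⟩
  choose F hF using step
  set g : WO ℵ₀ → {i : ι // i < K} := wellFounded_lt.fix F with hg
  refine ⟨fun w => (g w).1, fun w => ⟨(g w).2, fun v hv => ?_⟩⟩
  have h1 : g w = F w (fun v _ => g v) := by
    rw [hg, WellFounded.fix_eq]
  simp only [h1]
  exact hF w (fun v _ => g v) v hv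

theorem exists_closed {K : ι}
    (hb : ∀ κ : Type, #κ ≤ 𝔠 → ∀ g : κ → ι, (∀ a, g a < K) → ∃ x < K, ∀ a, g a < x)
    (H : ι → ι) (hH : ∀ i < K, H i < K) :
    ∃ α < K, (∃ i, i < α) ∧ (∀ f : ℕ → ι, (∀ n, f n < α) → ∃ i < α, ∀ n, f n < i) ∧
      ∀ i < α, ∃ j < α, i ≤ j ∧ H j < α := by
  obtain ⟨g, hg⟩ := exists_chain hb H hH
  have hcard : #(WO ℵ₀) ≤ 𝔠 := by
    rw [mk_ord_toType, succ_aleph0]
    exact aleph_one_le_continuum
  obtain ⟨x, hx, hgx⟩ := hb (WO ℵ₀) hcard g fun w => (hg w).1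
  set S : Set ι := {x | ∀ w, g w < x} with hS
  have hne : S.Nonempty := ⟨x, hgx⟩
  set α := wellFounded_lt.min S hne with hα
  have hαS : ∀ w, g w < α := wellFounded_lt.min_mem S hne
  have hαmin : ∀ i < α, ∃ w, i ≤ g w := by
    intro i hi
    by_contra hcon
    push Not at hcon
    exact wellFounded_lt.not_lt_min S (x := i) hcon hi
  have hbW : ∀ {κ : Type} (_ : #κ ≤ ℵ₀) (f : κ → WO ℵ₀), ∃ x, ∀ a, f a < x := fun hκ f =>
    WO.bounded le_rfl hκ f
  obtain ⟨w0, -⟩ := hbW (κ := Empty) (by simp) (fun a => a.elim)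
  refine ⟨α, ?_, ⟨g w0, hαS w0⟩, ?_, ?_⟩
  · refine lt_of_le_of_lt ?_ hx
    exact not_lt.1 (wellFounded_lt.not_lt_min S (x := x) hgx)
  · intro f hf
    choose w hw using fun n => hαmin (f n) (hf n)
    obtain ⟨v, hv⟩ := hbW (κ := ℕ) (by simp) w
    exact ⟨g v, hαS v, fun n => (hw n).trans_lt ((hg v).2 (w n) (hv n)).1⟩
  · intro i hi
    obtain ⟨w, hw⟩ := hαmin i hi
    obtain ⟨v, hv⟩ := hbW (κ := Unit) (by simp) (fun _ => w)
    exact ⟨g w, hαS w, hw, (((hg v).2 w (hv ())).2).trans (hαS v)⟩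

theorem exists_next {K α : ι} (hα : α < K) :
    ∃ a, α < a ∧ a ≤ K ∧ ∀ j < a, j ≤ α := by
  set S : Set ι := {x | α < x} with hS
  have hne : S.Nonempty := ⟨K, hα⟩
  refine ⟨wellFounded_lt.min S hne, wellFounded_lt.min_mem S hne,
    not_lt.1 (wellFounded_lt.not_lt_min S (x := K) hα), fun j hj => ?_⟩
  by_contra hcon
  exact wellFounded_lt.not_lt_min S (x := j) (not_le.1 hcon) hj

theorem club_top_of {K : ι} (h0 : ∃ i, i < K) (hIio : ∀ β < K, #(Iio β) ≤ 𝔠)
    (hb : ∀ κ : Type, #κ ≤ 𝔠 → ∀ g : κ → ι, (∀ a, g a < K) → ∃ x < K, ∀ a, g a < x) :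
    club (BA K) = ⊤ := by
  classical
  have hnc : #ℕ ≤ 𝔠 := by simpa using aleph0_le_continuum
  refine club_top h0 (fun f hf => hb ℕ hnc f hf) ?_
  intro h hh
  have key : ∀ β, ∃ x, β < K → x < K ∧
      ∀ Z : ℕ → List Bool → BA K, (∀ n s, Lev β (Z n s)) → h Z < x := by
    intro β
    by_cases hβ : β < K
    · obtain ⟨x, hx, h1⟩ := hb {Z : ℕ → List Bool → BA K | ∀ n s, Lev β (Z n s)}
        (mk_names_le hβ.le (mk_bas_le hIio β hβ)) (fun Z => h Z.1) (fun Z => hh _)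
      exact ⟨x, fun _ => ⟨hx, fun Z hZ => h1 ⟨Z, hZ⟩⟩⟩
    · exact ⟨K, fun h => absurd h hβ⟩
  choose H hH using key
  obtain ⟨α, hαK, hα0, hαcof, hαH⟩ := exists_closed hb H fun i hi => (hH i hi).1
  obtain ⟨a, hαa, haK, hmax⟩ := exists_next hαK
  have haK' : a < K := by
    obtain ⟨x, hx, h1⟩ := hb Unit (by simp [one_le_aleph0.trans aleph0_le_continuum])
      (fun _ => α) (fun _ => hαK)
    by_contra hcon
    have : x < a := hx.trans_le (not_lt.1 hcon)
    exact absurd (hmax x this) (not_le.2 (h1 ()))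
  obtain ⟨b, hab, hbK, hmax'⟩ := exists_next haK'
  refine ⟨α, a, b, hαa, hmax, hab, hmax', hbK, hα0, hαcof, ?_⟩
  intro β hβ Z hZ
  obtain ⟨j, hj, hβj, hHj⟩ := hαH β hβ
  exact (((hH j (hj.trans hαK)).2 Z fun n s => (hZ n s).mono hβj).trans hHj).le

end Close

theorem club_BA : club (BA (⊤ : WithTop (WO 𝔠))) = ⊤ := by
  obtain ⟨x0, -⟩ := WO.bounded (μ := 𝔠) aleph0_le_continuum (κ := Empty) (by simp)
    (fun a => a.elim)
  apply club_top_of
  · exact ⟨x0, WithTop.coe_lt_top x0⟩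
  · intro β hβ
    lift β to WO 𝔠 using hβ.ne
    have : Iio (β : WithTop (WO 𝔠)) ⊆ (fun x : WO 𝔠 => (x : WithTop (WO 𝔠))) '' Iio β := by
      intro x hx
      have hx' : x < β := hx
      lift x to WO 𝔠 using (hx'.trans hβ).ne
      exact ⟨x, WithTop.coe_lt_coe.1 hx', rfl⟩
    exact (mk_le_mk_of_subset this).trans (mk_image_le.trans (WO.mk_Iio_le β))
  · intro κ hκ g hg
    obtain ⟨x, hx⟩ := WO.bounded aleph0_le_continuum hκ fun a => (g a).untop (hg a).ne
    refine ⟨x, WithTop.coe_lt_top x, fun a => ?_⟩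
    have := hx a
    rw [← WithTop.coe_lt_coe, WithTop.coe_untop] at this
    exact this

/-- **There is a nontrivial complete Boolean algebra in which the sentence `(♣)` has
value `⊤`.** -/
theorem exists_algebra :
    ∃ (B : Type) (_ : CompleteBooleanAlgebra B) (_ : Nontrivial B), club B = ⊤ :=
  ⟨BA (⊤ : WithTop (WO 𝔠)), inferInstance, inferInstance, club_BA⟩

end Pool.Agent.Lib.MP_40b13d_lc
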