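import Mathlib
import Pool.Agent.Lib.MP_40b13d_lc.Count

/-!
# A version of `(♣)` in which measure zero is expressed by the clopen sets meeting the closed set
-/

open MeasureTheory Set Topology Filter TopologicalSpace

namespace Pool.Agent.Lib.MP_40b13d_lc

section General

variable {B : Type*} [CompleteBooleanAlgebra B]

/-- Value of: the closed set coded by `T` has a point extending `u`. -/
def hitv (T : List Bool → B) (u : List Bool) : B := ⨆ x : ℕ → B, initSeg x u ⊓ memClosed x T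

/-- Value of: for every `m` there is `n` such that at most `2 ^ n / m` sequences of length `n` are
initial segments of points of the closed set coded by `T`. -/
def nullv (T : List Bool → B) : B :=
  ⨅ m : ℕ, ⨆ (n : ℕ) (S : Finset (List Bool)) (_ : (∀ s ∈ S, s.length = n) ∧ S.card * m ≤ 2 ^ n),
    ⨅ (s : List Bool) (_ : s.length = n ∧ s ∉ S), (hitv T s)ᶜ

variable (B)

/-- The value of `(♣)`, second version. -/
def clubv : B :=
  ⨅ (A : (ℕ → B) → B) (_ : ∀ x y, eqPoint x y ⊓ A x ≤ A y),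
    (⨆ F : ℕ → List Bool → B, (⨅ k, nullv (F k)) ⊓ covers A F) ⊔
    (⨆ Z : ℕ → List Bool → B, (⨅ n, (nullv (Z n))ᶜ) ⊓
      ⨅ F : ℕ → List Bool → B, covers A F ⇨ ⨆ n, ⨆ k, subClosed (Z n) (F k))

end General

/-! ### Leftmost points -/

open Classical in
/-- Initial segments of the leftmost point of `C` extending `u`. -/
noncomputable def lmp (C : Set (ℕ → Bool)) (u : List Bool) : ℕ → List Bool
  | 0 => u
  | n + 1 => if hits C (lmp C u n ++ [false]) then lmp C u n ++ [false] else lmp C u n ++ [true]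

theorem lmp_length (C : Set (ℕ → Bool)) (u : List Bool) (n : ℕ) :
    (lmp C u n).length = u.length + n := by
  induction n with
  | zero => rfl
  | succ n ih => rw [lmp]; split_ifs <;> simp [ih] <;> omega

theorem lmp_hits {C : Set (ℕ → Bool)} {u : List Bool} (h : hits C u) (n : ℕ) :
    hits C (lmp C u n) := by
  induction n with
  | zero => exact h
  | succ n ih =>
    rw [lmp]
    split_ifs with h1
    · exact h1
    · obtain ⟨b, hb⟩ := hits_snoc.1 ih
      cases b
      · exact absurd hb h1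
      · exact hb

theorem lmp_pre (C : Set (ℕ → Bool)) (u : List Bool) {m n : ℕ} (h : m ≤ n) :
    lmp C u m <+: lmp C u n := by
  induction n, h using Nat.le_induction with
  | base => exact List.prefix_rfl
  | succ n _ ih =>
    refine ih.trans ?_
    rw [lmp]
    split_ifs
    · exact List.prefix_append _ _
    · exact List.prefix_append _ _

/-- The leftmost point. -/
noncomputable def lmpt (C : Set (ℕ → Bool)) (u : List Bool) : ℕ → Bool :=
  fun i => (lmp C u (i + 1)).getD i false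

theorem lmpt_mem_cyl (C : Set (ℕ → Bool)) (u : List Bool) (n : ℕ) :
    lmpt C u ∈ cyl (lmp C u n) := by
  rw [mem_cyl_iff]
  intro i hi
  simp only [lmpt]
  have h1 : i < (lmp C u (i + 1)).length := by rw [lmp_length]; omega
  rw [List.getD_eq_getElem _ _ h1]
  rcases le_total (i + 1) n with h | h
  · have := lmp_pre C u h
    exact this.getElem h1
  · have := lmp_pre C u h
    exact (this.getElem hi).symm

theorem lmpt_mem {C : Set (ℕ → Bool)} (hC : IsClosed C) {u : List Bool} (h : hits C u) :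
    lmpt C u ∈ C := by
  rw [mem_closed_iff hC]
  intro n
  have h1 := lmpt_mem_cyl C u n
  have h2 : bini (lmpt C u) n <+: lmp C u n :=
    prefix_of_mem_cyl (mem_cyl_bini _ n) h1 (by rw [bini_length, lmp_length]; omega)
  exact hits_anti h2 (lmp_hits h n)

variable {ι : Type*} [LinearOrder ι] [WellFoundedLT ι]

theorem meas_lmp {K : ι} {C : Pt ι → Set (ℕ → Bool)} (hC : MeasC K C) (u : List Bool) (n : ℕ) :
    ∀ v, Meas K {ξ | lmp (C ξ) u n = v} := by
  induction n with
  | zero => intro v; simp only [lmp]; exact meas_const K _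
  | succ n ih =>
    intro v
    have : {ξ | lmp (C ξ) u (n + 1) = v} = {ξ | ∃ w, lmp (C ξ) u n = w ∧
        ((hits (C ξ) (w ++ [false]) ∧ w ++ [false] = v) ∨
          (¬ hits (C ξ) (w ++ [false]) ∧ w ++ [true] = v))} := by
      ext ξ
      simp only [mem_ofPred_eq, lmp]
      split_ifs with h
      · simp [h]
      · simp [h]
    rw [this]
    exact Meas.exists fun w => (ih w).and (((hC.2 _).and (meas_const K _)).or
      ((hC.2 _).not.and (meas_const K _)))

/-- A name for a point of a closed set. -/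
theorem exists_point {K : ι} (T : List Bool → BA K) (u : List Bool) :
    ∃ x : ℕ → BA K, ∀ᶠ ξ in Ae K, hits (treeSet fun s => ξ ∈ gs (T s)) u →
      ξ ∈ gs (initSeg x u ⊓ memClosed x T) := by
  set C : Pt ι → Set (ℕ → Bool) := fun ξ => treeSet fun s => ξ ∈ gs (T s) with hC
  have hCm : MeasC K C := treeSet_meas fun s => (gs_open _).meas
  have h1 : ∀ i, Meas K {ξ | lmpt (C ξ) u i = true} := by
    intro i
    have : {ξ | lmpt (C ξ) u i = true} =
        {ξ | ∃ v : List Bool, lmp (C ξ) u (i + 1) = v ∧ v.getD i false = true} := by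
      ext ξ
      simp [lmpt]
    rw [this]
    exact Meas.exists fun v => (meas_lmp hCm u _ v).and (meas_const K _)
  choose x hx using fun i => exists_gs (h1 i)
  refine ⟨x, ?_⟩
  have h2 : ∀ᶠ ξ in Ae K, ξ ∈ gs (initSeg x u) ↔ initSeg (fun n => ξ ∈ gs (x n)) u :=
    eval_initSeg (X := Sp K) x u
  filter_upwards [eventually_countable_forall.2 hx, h2, ev_memClosed x T] with ξ h3 h4 h5 h6
  have h7 : boolify (fun n => ξ ∈ gs (x n)) = lmpt (C ξ) u := by
    classical
    funext i
    have h8 : boolify (fun n => ξ ∈ gs (x n)) i = true ↔ ξ ∈ gs (x i) := by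
      simp [boolify]
    rw [Bool.eq_iff_iff, h8]
    exact h3 i
  rw [gs_inf]
  refine ⟨?_, ?_⟩
  · rw [h4, initSeg_prop, h7]
    exact lmpt_mem_cyl (C ξ) u 0
  · rw [h5, h7]
    exact lmpt_mem (isClosed_treeSet _) h6

theorem ev_hitv {K : ι} (T : List Bool → BA K) (u : List Bool) :
    ∀ᶠ ξ in Ae K, ξ ∈ gs (hitv T u) ↔ hits (treeSet fun s => ξ ∈ gs (T s)) u := by
  obtain ⟨h, hh⟩ := exists_gs (K := K)
    ((treeSet_meas (θ := K) fun s => (gs_open (T s)).meas).2 u)
  have h1 : hitv T u = h := by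
    apply le_antisymm
    · refine iSup_le fun x => ?_
      rw [gs_le_iff]
      have h2 : ∀ᶠ ξ in Ae K, ξ ∈ gs (initSeg x u) ↔ initSeg (fun n => ξ ∈ gs (x n)) u :=
        eval_initSeg (X := Sp K) x u
      filter_upwards [hh, h2, ev_memClosed x T] with ξ h3 h4 h5 h6
      rw [h3]
      exact ⟨_, h5.1 h6.2, initSeg_prop.1 (h4.1 h6.1)⟩
    · obtain ⟨x, hx⟩ := exists_point T u
      refine le_trans ?_ (le_iSup _ x)
      rw [gs_le_iff]
      filter_upwards [hh, hx] with ξ h3 h4 h5
      exact h4 (h3.1 h5)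
  rw [h1]
  exact hh

/-- In the algebras of the iteration the two ways to express measure zero agree. -/
theorem nullv_eq {K : ι} (T : List Bool → BA K) : nullv T = isNull T := by
  have h1 : ∀ᶠ ξ in Ae K, ∀ u, ξ ∈ gs (hitv T u)ᶜ ↔ ¬ hits (treeSet fun s => ξ ∈ gs (T s)) u := by
    rw [eventually_countable_forall]
    intro u
    filter_upwards [gs_compl (hitv T u), ev_hitv T u] with ξ a b
    rw [a, b]
  have h2 : ∀ᶠ ξ in Ae K, ∀ (n : ℕ) (S : Finset (List Bool)),
      ξ ∈ gs (⨅ (s : List Bool) (_ : s.length = n ∧ s ∉ S), (hitv T s)ᶜ) ↔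
      ∀ s : List Bool, s.length = n ∧ s ∉ S → ξ ∈ gs (hitv T s)ᶜ := by
    rw [eventually_countable_forall]
    intro n
    rw [eventually_countable_forall]
    intro S
    have h4 : ∀ᶠ ξ in Ae K, ∀ s : List Bool,
        ξ ∈ gs (⨅ (_ : s.length = n ∧ s ∉ S), (hitv T s)ᶜ) ↔
        ∀ (_ : s.length = n ∧ s ∉ S), ξ ∈ gs (hitv T s)ᶜ := by
      rw [eventually_countable_forall]
      exact fun s => gs_iInf _
    filter_upwards [gs_iInf fun s : List Bool => ⨅ (_ : s.length = n ∧ s ∉ S), (hitv T s)ᶜ, h4]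
      with ξ a b
    rw [a]
    exact forall_congr' fun s => b s
  have h3 : ∀ᶠ ξ in Ae K, ∀ m n : ℕ, ∀ (S : Finset (List Bool)),
      ξ ∈ gs (⨆ (_ : (∀ s ∈ S, s.length = n) ∧ S.card * m ≤ 2 ^ n),
        ⨅ (s : List Bool) (_ : s.length = n ∧ s ∉ S), (hitv T s)ᶜ) ↔
      ∃ (_ : (∀ s ∈ S, s.length = n) ∧ S.card * m ≤ 2 ^ n),
        ξ ∈ gs (⨅ (s : List Bool) (_ : s.length = n ∧ s ∉ S), (hitv T s)ᶜ) := by
    rw [eventually_countable_forall]
    intro m
    rw [eventually_countable_forall]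
    intro n
    rw [eventually_countable_forall]
    exact fun S => gs_iSup _
  have h4 : ∀ᶠ ξ in Ae K, ∀ m n : ℕ,
      ξ ∈ gs (⨆ (S : Finset (List Bool)) (_ : (∀ s ∈ S, s.length = n) ∧ S.card * m ≤ 2 ^ n),
        ⨅ (s : List Bool) (_ : s.length = n ∧ s ∉ S), (hitv T s)ᶜ) ↔
      ∃ S : Finset (List Bool), ξ ∈ gs (⨆ (_ : (∀ s ∈ S, s.length = n) ∧ S.card * m ≤ 2 ^ n),
        ⨅ (s : List Bool) (_ : s.length = n ∧ s ∉ S), (hitv T s)ᶜ) := by
    rw [eventually_countable_forall]
    intro m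
    rw [eventually_countable_forall]
    exact fun n => gs_iSup _
  have h5 : ∀ᶠ ξ in Ae K, ∀ m : ℕ,
      ξ ∈ gs (⨆ (n : ℕ) (S : Finset (List Bool))
        (_ : (∀ s ∈ S, s.length = n) ∧ S.card * m ≤ 2 ^ n),
        ⨅ (s : List Bool) (_ : s.length = n ∧ s ∉ S), (hitv T s)ᶜ) ↔
      ∃ n : ℕ, ξ ∈ gs (⨆ (S : Finset (List Bool))
        (_ : (∀ s ∈ S, s.length = n) ∧ S.card * m ≤ 2 ^ n),
        ⨅ (s : List Bool) (_ : s.length = n ∧ s ∉ S), (hitv T s)ᶜ) := by
    rw [eventually_countable_forall]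
    exact fun m => gs_iSup _
  have key : ∀ᶠ ξ in Ae K, ξ ∈ gs (nullv T) ↔ ξ ∈ gs (isNull T) := by
    filter_upwards [gs_iInf fun m : ℕ => ⨆ (n : ℕ) (S : Finset (List Bool))
      (_ : (∀ s ∈ S, s.length = n) ∧ S.card * m ≤ 2 ^ n),
      ⨅ (s : List Bool) (_ : s.length = n ∧ s ∉ S), (hitv T s)ᶜ, h1, h2, h3, h4, h5,
      ev_isNull T] with ξ a0 a1 a2 a3 a4 a5 a6
    rw [nullv, a0, a6, isNull_prop]
    set C : Set (ℕ → Bool) := treeSet fun s => ξ ∈ gs (T s) with hC
    have hCc : IsClosed C := isClosed_treeSet _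
    have h6 : ∀ s, hits C s ↔ PartIa.code C s := by
      intro s
      constructor
      · rintro ⟨z, hz, hzs⟩; exact ⟨z, hz, hzs⟩
      · rintro ⟨z, hz, hzs⟩; exact ⟨z, hz, hzs⟩
    rw [PartIa.coin_closed_eq_zero_iff hCc]
    refine forall_congr' fun m => ?_
    rw [a5 m]
    constructor
    · rintro ⟨n, hn⟩
      rw [a4 m n] at hn
      obtain ⟨S, hn⟩ := hn
      rw [a3 m n S] at hn
      obtain ⟨⟨hS1, hS2⟩, hn⟩ := hn
      rw [a2 n S] at hn
      refine ⟨n, (Nat.mul_le_mul_right m (Finset.card_le_card ?_)).trans hS2⟩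
      intro s hs
      rw [PartIa.mem_words_code] at hs
      by_contra hcon
      have := hn s ⟨hs.1, hcon⟩
      rw [a1 s] at this
      exact this ((h6 s).2 hs.2)
    · rintro ⟨n, hn⟩
      refine ⟨n, ?_⟩
      rw [a4 m n]
      refine ⟨PartIa.words (PartIa.code C) n, ?_⟩
      rw [a3 m n]
      refine ⟨⟨fun s hs => (PartIa.mem_words_code.1 hs).1, hn⟩, ?_⟩
      rw [a2 n]
      rintro s ⟨hs1, hs2⟩
      rw [a1 s]
      intro h7
      exact hs2 (PartIa.mem_words_code.2 ⟨hs1, (h6 s).1 h7⟩)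
  apply le_antisymm
  · rw [gs_le_iff]
    filter_upwards [key] with ξ h h'
    exact h.1 h'
  · rw [gs_le_iff]
    filter_upwards [key] with ξ h h'
    exact h.2 h'

theorem clubv_eq (K : ι) : clubv (BA K) = club (BA K) := by
  rw [clubv, club]
  simp only [nullv_eq]

/-- There is a nontrivial complete Boolean algebra in which `(♣)` (second version) has
value `⊤`. -/
theorem exists_algebra_v :
    ∃ (B : Type) (_ : CompleteBooleanAlgebra B) (_ : Nontrivial B), clubv B = ⊤ := by
  refine ⟨BA (⊤ : WithTop (WO Cardinal.continuum)), inferInstance, inferInstance, ?_⟩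
  rw [clubv_eq]
  exact club_BA

end Pool.Agent.Lib.MP_40b13d_lc
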