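import Pool.Agent.Lib.MP_40b13d_lc.ZFml
import Pool.Agent.Lib.MP_40b13d_lc.Hit

/-!
# Names for points of the Cantor space over a complete Boolean algebra
-/

namespace Pool.Agent.Lib.MP_40b13d_lc

open Pool.Agent.Lib.Forcing

/-! ### Forcing of simple formulas -/

section Simple

universe u

variable {P : Type u} [Preorder P]

/-- `p` forces `σ ⊆ τ`. -/
def SubF (σ τ : Name P) (p : P) : Prop := ∀ ρ, ∀ r, r ≤ p → MemF ρ σ r → MemF ρ τ r

theorem forces_dSub {x y : ℕ} {v : ℕ → Name P} {p : P} :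
    Forces (dSub x y) v p ↔ SubF (v x) (v y) p := by
  constructor
  · intro h ρ r hr h1
    exact forces_imp.1 (h ρ) r hr h1
  · intro h ρ
    rw [forces_imp]
    exact fun q hq h1 => h ρ q hq h1

theorem SubF.mono {σ τ : Name P} {p q : P} (h : SubF σ τ p) (hq : q ≤ p) : SubF σ τ q :=
  fun ρ r hr => h ρ r (hr.trans hq)

theorem SubF.dense {σ τ : Name P} {p : P} (h : ∀ q, q ≤ p → ∃ r, r ≤ q ∧ SubF σ τ r) :
    SubF σ τ p := by
  have := Forces.dense (φ := dSub 0 1) (v := cons σ fun _ => τ) (p := p)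
  simp only [forces_dSub] at this
  exact this h

theorem SubF.congr_left {σ σ' τ : Name P} {p : P} (h : EqF σ σ' p) (h' : SubF σ τ p) :
    SubF σ' τ p := fun ρ r hr h1 => h' ρ r hr (h1.congr_right (h.symm.mono hr))

theorem eqF_of_sub {σ τ : Name P} {p : P} (h1 : SubF σ τ p) (h2 : SubF τ σ p) : EqF σ τ p :=
  eqF_of_mem (fun i r hr hc => h1 _ r hr (memF_of_idx i hc))
    (fun i r hr hc => h2 _ r hr (memF_of_idx i hc))

theorem memF_succN {ρ σ : Name P} {p : P} : MemF ρ (succN σ) p ↔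
    ∀ r, r ≤ p → ∃ s, s ≤ r ∧ (MemF ρ σ s ∨ EqF ρ σ s) := by
  have h : ∀ q : P, Forces (fiff (.fmem 0 1) (ffor (.fmem 0 2) (.feq 0 2)))
      (cons ρ (cons (succN σ) fun _ => σ)) q := by
    intro q
    rw [forces_iff]
    intro U _
    simp only [sat_iff, sat_or, sat_mem, sat_eq, cons_zero, cons_one, cons_two]
    exact mod_succN U σ (U.cl ρ)
  constructor
  · intro h1
    have := forces_imp.1 (h p).1 p le_rfl h1
    rw [forces_or] at this
    exact this
  · intro h1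
    exact forces_imp.1 (h p).2 p le_rfl (forces_or.2 h1)

theorem not_memF_natN_zero {ρ : Name P} {p : P} : ¬ MemF ρ (natN 0) p := by
  intro h
  rw [natN, memF_cn (fun _ _ _ h _ => h)] at h
  obtain ⟨_, _, i, _⟩ := h p le_rfl
  exact i.elim

theorem memF_natN {ρ : Name P} {n : ℕ} {p : P} : MemF ρ (natN n) p ↔
    ∀ r, r ≤ p → ∃ s, s ≤ r ∧ ∃ i, i < n ∧ EqF ρ (natN i) s := by
  induction n generalizing p with
  | zero =>
    constructor
    · intro h; exact (not_memF_natN_zero h).elim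
    · intro h
      obtain ⟨_, _, i, hi, _⟩ := h p le_rfl
      exact (Nat.not_lt_zero _ hi).elim
  | succ n ih =>
    rw [natN, memF_succN]
    constructor
    · intro h r hr
      obtain ⟨s, hs, h1 | h1⟩ := h r hr
      · obtain ⟨t, ht, i, hi, h2⟩ := ih.1 h1 s le_rfl
        exact ⟨t, ht.trans hs, i, by omega, h2⟩
      · exact ⟨s, hs, n, by omega, h1⟩
    · intro h r hr
      obtain ⟨s, hs, i, hi, h1⟩ := h r hr
      refine ⟨s, hs, ?_⟩
      rcases Nat.lt_succ_iff_lt_or_eq.1 hi with h2 | h2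
      · left
        rw [ih]
        exact fun t ht => ⟨t, le_rfl, i, h2, h1.mono ht⟩
      · right
        rw [← h2]; exact h1

theorem memF_natN_of_lt {m n : ℕ} (h : m < n) (p : P) : MemF (natN m) (natN n) p :=
  memF_natN.2 fun r _ => ⟨r, le_rfl, m, h, EqF.refl _ _⟩

theorem not_memF_self' {σ : Name P} {p : P} : ¬ MemF σ σ p := by
  intro h
  obtain ⟨U, hU⟩ := exists_genUlt p
  exact not_mem_self (mod_isZFC U) _ (memF_iff_models.1 h U hU)

theorem natN_inj {m n : ℕ} {p : P} (h : EqF (natN m) (natN n) p) : m = n := by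
  rcases lt_trichotomy m n with h1 | h1 | h1
  · exact (not_memF_self' ((memF_natN_of_lt h1 p).congr_right h.symm)).elim
  · exact h1
  · exact (not_memF_self' ((memF_natN_of_lt h1 p).congr_right h)).elim

theorem memF_natN_natN {m n : ℕ} {p : P} : MemF (natN m) (natN n) p ↔ m < n := by
  constructor
  · intro h
    obtain ⟨_, _, i, hi, h1⟩ := memF_natN.1 h p le_rfl
    rw [natN_inj h1]; exact hi
  · intro h; exact memF_natN_of_lt h p

theorem memF_omegaN {ρ : Name P} {p : P} : MemF ρ omegaN p ↔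
    ∀ r, r ≤ p → ∃ s, s ≤ r ∧ ∃ n, EqF ρ (natN n) s := by
  rw [omegaN, memF_cn (fun _ _ _ h _ => h)]
  constructor
  · intro h r hr
    obtain ⟨s, hs, ⟨n⟩, -, h1⟩ := h r hr
    exact ⟨s, hs, n, h1⟩
  · intro h r hr
    obtain ⟨s, hs, n, h1⟩ := h r hr
    exact ⟨s, hs, ⟨n⟩, trivial, h1⟩

theorem natN_mem_omegaN (n : ℕ) (p : P) : MemF (natN n) omegaN p :=
  memF_omegaN.2 fun r _ => ⟨r, le_rfl, n, EqF.refl _ _⟩

/-! ### The natural numbers of the models -/

theorem mod_zero (U : GenUlt P) : IsZero (ModE U) (U.cl (natN 0)) := mod_natN_zero U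

theorem mod_inductive_omegaN (U : GenUlt P) : IsInductive (ModE U) (U.cl omegaN) := by
  refine ⟨⟨U.cl (natN 0), mod_natN_zero U, ?_⟩, ?_⟩
  · rw [modE_cl]
    exact GenUlt.ev_true fun p => natN_mem_omegaN 0 p
  · intro y hy
    obtain ⟨σ, rfl⟩ := exists_cl y
    refine ⟨U.cl (succN σ), ?_, mod_succN U σ⟩
    rw [modE_cl] at hy ⊢
    refine hy.imp fun p hp => ?_
    rw [memF_omegaN] at hp ⊢
    intro r hr
    obtain ⟨s, hs, n, h⟩ := hp r hr
    refine ⟨s, hs, n + 1, ?_⟩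
    rw [eqF_iff_models] at h ⊢
    intro V hV
    apply mod_ext
    intro z
    rw [natN, mod_succN, mod_succN, h V hV]

theorem mod_natN_mem_inductive (U : GenUlt P) {v : Mod U} (hv : IsInductive (ModE U) v) (n : ℕ) :
    ModE U (U.cl (natN n)) v := by
  induction n with
  | zero =>
    obtain ⟨⟨e, he, hev⟩, -⟩ := hv
    have : e = U.cl (natN 0) := by
      apply mod_ext
      intro z
      exact ⟨fun h => (he z h).elim, fun h => (mod_natN_zero U z h).elim⟩
    rwa [← this]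
  | succ n ih =>
    obtain ⟨z, hz, h⟩ := hv.2 _ ih
    have : z = U.cl (natN (n + 1)) := by
      apply mod_ext
      intro u
      rw [h, natN, mod_succN]
    rwa [← this]

theorem mod_omega (U : GenUlt P) : IsOmega (ModE U) (U.cl omegaN) := by
  refine ⟨mod_inductive_omegaN U, fun v hv => ?_⟩
  obtain ⟨τ, rfl⟩ := exists_cl v
  have h1 : U.Ev (Forces (fInductive 0) (fun _ => τ)) := by
    rw [← los, sat_fInductive]
    exact hv
  intro z hz
  obtain ⟨ρ, rfl⟩ := exists_cl z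
  rw [modE_cl] at hz ⊢
  refine h1.imp2 hz fun p hp h2 => ?_
  apply MemF.dense
  intro q hq
  obtain ⟨s, hs, n, h3⟩ := memF_omegaN.1 h2 q hq
  refine ⟨s, hs, ?_⟩
  refine MemF.congr_left h3.symm ?_
  rw [memF_iff_models]
  intro V hV
  apply mod_natN_mem_inductive
  have := forces_iff.1 (hp.mono (hs.trans hq)) V hV
  rwa [sat_fInductive] at this

theorem IsOmega.unique {M : Type*} {E : M → M → Prop} (H : IsZFC M E) {w w' : M}
    (h : IsOmega E w) (h' : IsOmega E w') : w = w' :=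
  H.extensionality _ _ fun z => ⟨fun hz => h.2 _ h'.1 z hz, fun hz => h'.2 _ h.1 z hz⟩

theorem forces_fOmega {w : ℕ} {v : ℕ → Name P} {p : P} :
    Forces (fOmega w) v p ↔ EqF (v w) omegaN p := by
  rw [forces_iff, eqF_iff_models]
  refine forall₂_congr fun U _ => ?_
  rw [sat_fOmega]
  constructor
  · intro h; exact h.unique (mod_isZFC U) (mod_omega U)
  · intro h
    rw [h]
    exact mod_omega U

end Simple

/-! ### Boolean values -/

section Bool

variable {B : Type} [CompleteBooleanAlgebra B]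

/-- The nonzero elements of the algebra. -/
abbrev Pos (B : Type) [CompleteBooleanAlgebra B] := {b : B // b ≠ ⊥}

theorem le_of_dense {a b : B} (h : ∀ q : Pos B, q.1 ≤ a → ∃ r : Pos B, r ≤ q ∧ r.1 ≤ b) :
    a ≤ b := by
  rw [← disjoint_compl_right_iff, disjoint_iff]
  by_contra hne
  obtain ⟨r, hr, hrb⟩ := h ⟨a ⊓ bᶜ, hne⟩ inf_le_left
  have h1 : r.1 ≤ bᶜ := (show r.1 ≤ a ⊓ bᶜ from hr).trans inf_le_right
  apply r.2
  have h2 : r.1 ≤ b ⊓ bᶜ := le_inf hrb h1
  rw [inf_compl_self] at h2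
  exact le_antisymm h2 bot_le

theorem exists_le_of_le_iSup {κ : Sort*} {f : κ → B} {p : Pos B} (h : p.1 ≤ ⨆ i, f i) :
    ∃ r : Pos B, r ≤ p ∧ ∃ i, r.1 ≤ f i := by
  by_contra hcon
  push Not at hcon
  apply p.2
  rw [← inf_eq_left.2 h, inf_iSup_eq]
  rw [iSup_eq_bot]
  intro i
  by_contra hne
  exact hcon ⟨_, hne⟩ inf_le_left i inf_le_right

theorem exists_le_of_le_sup {a b : B} {p : Pos B} (h : p.1 ≤ a ⊔ b) :
    ∃ r : Pos B, r ≤ p ∧ (r.1 ≤ a ∨ r.1 ≤ b) := by
  by_contra hcon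
  push Not at hcon
  apply p.2
  rw [← inf_eq_left.2 h, inf_sup_left]
  have h1 : p.1 ⊓ a = ⊥ := by
    by_contra hne
    exact (hcon ⟨_, hne⟩ inf_le_left).1 inf_le_right
  have h2 : p.1 ⊓ b = ⊥ := by
    by_contra hne
    exact (hcon ⟨_, hne⟩ inf_le_left).2 inf_le_right
  rw [h1, h2, sup_bot_eq]

/-- Decide an element. -/
theorem exists_decide (p : Pos B) (a : B) : ∃ r : Pos B, r ≤ p ∧ (r.1 ≤ a ∨ r.1 ≤ aᶜ) :=
  exists_le_of_le_sup (by rw [sup_compl_eq_top]; exact le_top)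

/-- The value of a predicate on conditions. -/
def bv (R : Pos B → Prop) : B := ⨆ (p : Pos B) (_ : R p), p.1

theorem le_bv {R : Pos B → Prop} (hm : ∀ p q, R p → q ≤ p → R q)
    (hd : ∀ p, (∀ q, q ≤ p → ∃ r, r ≤ q ∧ R r) → R p) {p : Pos B} : p.1 ≤ bv R ↔ R p := by
  constructor
  · intro h
    apply hd
    intro q hq
    obtain ⟨r, hr, p', h1⟩ := exists_le_of_le_iSup ((show q.1 ≤ p.1 from hq).trans h)
    obtain ⟨r', hr', h2, h3⟩ := exists_le_of_le_iSup h1
    exact ⟨r', hr'.trans hr, hm _ _ h2 h3⟩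
  · intro h
    exact le_iSup_of_le p (le_iSup_of_le h le_rfl)

theorem le_bv_mem {σ τ : Name (Pos B)} {p : Pos B} :
    p.1 ≤ bv (MemF σ τ) ↔ MemF σ τ p :=
  le_bv (fun _ _ h hq => h.mono hq) (fun _ h => MemF.dense h)

theorem le_bv_forces {φ : Fml} {v : ℕ → Name (Pos B)} {p : Pos B} :
    p.1 ≤ bv (Forces φ v) ↔ Forces φ v p :=
  le_bv (fun _ _ h hq => h.mono hq) (fun _ h => Forces.dense h)

/-- Name of the subset of `ω` given by `x`. -/
def ptN (x : ℕ → B) : Name (Pos B) := cn (fun n : ℕ => natN n) (fun n p => p.1 ≤ x n)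

theorem memF_ptN {x : ℕ → B} {ρ : Name (Pos B)} {p : Pos B} : MemF ρ (ptN x) p ↔
    ∀ r, r ≤ p → ∃ s, s ≤ r ∧ ∃ n, s.1 ≤ x n ∧ EqF ρ (natN n) s :=
  memF_cn (A := fun n (p : Pos B) => p.1 ≤ x n) fun _ _ _ h hq => le_trans hq h

theorem natN_mem_ptN {x : ℕ → B} {n : ℕ} {p : Pos B} : MemF (natN n) (ptN x) p ↔ p.1 ≤ x n := by
  constructor
  · intro h
    apply le_of_dense
    intro q hq
    obtain ⟨s, hs, m, h1, h2⟩ := memF_ptN.1 h q hq
    rw [natN_inj h2]
    exact ⟨s, hs, h1⟩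
  · intro h
    exact memF_cn_of (nm := fun n : ℕ => natN n) (A := fun n (p : Pos B) => p.1 ≤ x n) n h

theorem ptN_sub (x : ℕ → B) (p : Pos B) : SubF (ptN x) omegaN p := by
  intro ρ r _ h
  rw [memF_omegaN]
  intro s hs
  obtain ⟨t, ht, n, -, h1⟩ := memF_ptN.1 h s hs
  exact ⟨t, ht, n, h1⟩

/-- The point given by a name for a subset of `ω`. -/
def toPt (σ : Name (Pos B)) : ℕ → B := fun n => bv (MemF (natN n) σ)

theorem le_toPt {σ : Name (Pos B)} {n : ℕ} {p : Pos B} :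
    p.1 ≤ toPt σ n ↔ MemF (natN n) σ p := le_bv_mem

theorem eqF_ptN {σ : Name (Pos B)} {p : Pos B} (h : SubF σ omegaN p) : EqF σ (ptN (toPt σ)) p := by
  apply eqF_of_sub
  · intro ρ r hr h1
    apply MemF.dense
    intro q hq
    obtain ⟨s, hs, n, h2⟩ := memF_omegaN.1 (h ρ r hr h1) q hq
    refine ⟨s, hs, MemF.congr_left h2.symm ?_⟩
    rw [natN_mem_ptN, le_toPt]
    exact MemF.congr_left h2 (h1.mono (hs.trans hq))
  · intro ρ r _ h1
    apply MemF.dense
    intro q hq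
    obtain ⟨s, hs, n, h2, h3⟩ := memF_ptN.1 h1 q hq
    exact ⟨s, hs, MemF.congr_left h3.symm (le_toPt.1 h2)⟩

theorem le_eqPoint {x y : ℕ → B} {p : Pos B} :
    p.1 ≤ eqPoint x y ↔ ∀ n, ∀ q : Pos B, q ≤ p → (q.1 ≤ x n ↔ q.1 ≤ y n) := by
  rw [eqPoint, le_iInf_iff]
  refine forall_congr' fun n => ?_
  rw [le_inf_iff, le_himp_iff, le_himp_iff]
  constructor
  · rintro ⟨h1, h2⟩ q hq
    have hq' : q.1 ≤ p.1 := hq
    exact ⟨fun h => (le_inf hq' h).trans h1, fun h => (le_inf hq' h).trans h2⟩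
  · intro h
    constructor
    · apply le_of_dense
      intro q hq
      exact ⟨q, le_rfl, (h q (hq.trans inf_le_left)).1 (hq.trans inf_le_right)⟩
    · apply le_of_dense
      intro q hq
      exact ⟨q, le_rfl, (h q (hq.trans inf_le_left)).2 (hq.trans inf_le_right)⟩

theorem eqF_ptN_ptN {x y : ℕ → B} {p : Pos B} : EqF (ptN x) (ptN y) p ↔ p.1 ≤ eqPoint x y := by
  rw [le_eqPoint]
  constructor
  · intro h n q hq
    rw [← natN_mem_ptN, ← natN_mem_ptN]
    exact ⟨fun h1 => h1.congr_right (h.mono hq), fun h1 => h1.congr_right (h.symm.mono hq)⟩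
  · intro h
    apply eqF_of_sub
    · intro ρ r hr h1
      rw [memF_ptN] at h1 ⊢
      intro s hs
      obtain ⟨t, ht, n, h2, h3⟩ := h1 s hs
      exact ⟨t, ht, n, (h n t ((ht.trans hs).trans hr)).1 h2, h3⟩
    · intro ρ r hr h1
      rw [memF_ptN] at h1 ⊢
      intro s hs
      obtain ⟨t, ht, n, h2, h3⟩ := h1 s hs
      exact ⟨t, ht, n, (h n t ((ht.trans hs).trans hr)).2 h2, h3⟩

end Bool

end Pool.Agent.Lib.MP_40b13d_lc
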