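import Pool.Agent.Lib.MP_40b13d_lc.ZDefs
import Pool.Agent.Lib.MP_40b13d_lc.PartIa

/-!
# The sentence `(♣)` in the universe of sets of Mathlib implies `(♣)` in Mathlib terms
-/

open MeasureTheory Set

namespace Pool.Agent.Lib.MP_40b13d_lc

open Pool.Agent.Lib.Forcing

/-- The membership relation of Mathlib's universe of sets. -/
def Ein (x y : ZFSet.{0}) : Prop := x ∈ y

namespace ZfSide

/-- The natural numbers as sets. -/
noncomputable def nat : ℕ → ZFSet.{0}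
  | 0 => ∅
  | n + 1 => insert (nat n) (nat n)

theorem mem_nat {n : ℕ} {x : ZFSet.{0}} : x ∈ nat n ↔ ∃ k < n, x = nat k := by
  induction n with
  | zero => simp [nat]
  | succ n ih =>
    rw [nat, ZFSet.mem_insert_iff, ih]
    constructor
    · rintro (rfl | ⟨k, hk, rfl⟩)
      · exact ⟨n, Nat.lt_succ_self n, rfl⟩
      · exact ⟨k, Nat.lt_succ_of_lt hk, rfl⟩
    · rintro ⟨k, hk, rfl⟩
      rcases Nat.lt_succ_iff_lt_or_eq.1 hk with h | rfl
      · exact Or.inr ⟨k, h, rfl⟩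
      · exact Or.inl rfl

theorem nat_mem_nat_of_lt {k n : ℕ} (h : k < n) : nat k ∈ nat n := mem_nat.2 ⟨k, h, rfl⟩

theorem nat_inj {k n : ℕ} (h : nat k = nat n) : k = n := by
  rcases lt_trichotomy k n with h1 | h1 | h1
  · have h2 := nat_mem_nat_of_lt h1
    rw [h] at h2
    exact absurd h2 (ZFSet.mem_irrefl _)
  · exact h1
  · have h2 := nat_mem_nat_of_lt h1
    rw [h] at h2
    exact absurd h2 (ZFSet.mem_irrefl _)

theorem nat_mem_nat {k n : ℕ} : nat k ∈ nat n ↔ k < n := by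
  refine ⟨fun h => ?_, nat_mem_nat_of_lt⟩
  obtain ⟨j, hj, h1⟩ := mem_nat.1 h
  rw [nat_inj h1]
  exact hj

/-- The set of natural numbers. -/
noncomputable def om : ZFSet.{0} := ZFSet.range nat

theorem mem_om {x : ZFSet.{0}} : x ∈ om ↔ ∃ n, nat n = x := ZFSet.mem_range

theorem nat_mem_om (n : ℕ) : nat n ∈ om := mem_om.2 ⟨n, rfl⟩

theorem isOmega_om : IsOmega Ein om := by
  refine ⟨⟨⟨∅, fun z => ZFSet.notMem_empty z, nat_mem_om 0⟩, ?_⟩, ?_⟩
  · intro y hy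
    obtain ⟨n, rfl⟩ := mem_om.1 hy
    refine ⟨nat (n + 1), nat_mem_om _, fun u => ?_⟩
    show u ∈ nat (n + 1) ↔ u ∈ nat n ∨ u = nat n
    rw [nat, ZFSet.mem_insert_iff, or_comm]
  · rintro v ⟨⟨e, he, hev⟩, hv⟩ x hx
    obtain ⟨n, rfl⟩ := mem_om.1 hx
    show nat n ∈ v
    induction n with
    | zero =>
      have : e = ∅ := (ZFSet.eq_empty e).2 he
      rw [nat, ← this]
      exact hev
    | succ n ih =>
      obtain ⟨z, hz, h1⟩ := hv (nat n) (ih (nat_mem_om n))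
      have : z = nat (n + 1) := by
        ext u
        rw [nat, ZFSet.mem_insert_iff, or_comm]
        exact h1 u
      rw [← this]
      exact hz

/-- The subset of `ω` given by a point of the Cantor space. -/
noncomputable def pt (z : ℕ → Bool) : ZFSet.{0} :=
  ZFSet.range (fun n : {n : ℕ // z n = true} => nat n)

theorem mem_pt {z : ℕ → Bool} {x : ZFSet.{0}} : x ∈ pt z ↔ ∃ n, z n = true ∧ nat n = x := by
  rw [pt, ZFSet.mem_range]
  constructor
  · rintro ⟨⟨n, hn⟩, h⟩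
    exact ⟨n, hn, h⟩
  · rintro ⟨n, hn, h⟩
    exact ⟨⟨n, hn⟩, h⟩

theorem nat_mem_pt {z : ℕ → Bool} {n : ℕ} : nat n ∈ pt z ↔ z n = true := by
  rw [mem_pt]
  constructor
  · rintro ⟨k, hk, h⟩
    rw [← nat_inj h]
    exact hk
  · intro h
    exact ⟨n, h, rfl⟩

theorem pt_sub (z : ℕ → Bool) : IsSub Ein (pt z) om := by
  intro x hx
  obtain ⟨n, -, rfl⟩ := mem_pt.1 hx
  exact nat_mem_om n

theorem pt_inj {z y : ℕ → Bool} (h : pt z = pt y) : z = y := by
  funext n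
  rw [Bool.eq_iff_iff, ← nat_mem_pt, ← nat_mem_pt, h]

theorem exists_pt {x : ZFSet.{0}} (hx : IsSub Ein x om) : ∃ z, pt z = x := by
  classical
  refine ⟨fun n => decide (nat n ∈ x), ?_⟩
  ext y
  rw [mem_pt]
  constructor
  · rintro ⟨n, hn, rfl⟩
    simpa using hn
  · intro hy
    obtain ⟨n, rfl⟩ := mem_om.1 (hx y hy)
    exact ⟨n, by simpa using hy, rfl⟩

/-- The set given by a set of points of the Cantor space. -/
noncomputable def cl (C : Set (ℕ → Bool)) : ZFSet.{0} := ZFSet.range (fun z : C => pt z)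

theorem mem_cl {C : Set (ℕ → Bool)} {x : ZFSet.{0}} : x ∈ cl C ↔ ∃ z ∈ C, pt z = x := by
  rw [cl, ZFSet.mem_range]
  constructor
  · rintro ⟨⟨z, hz⟩, h⟩
    exact ⟨z, hz, h⟩
  · rintro ⟨z, hz, h⟩
    exact ⟨⟨z, hz⟩, h⟩

theorem pt_mem_cl {C : Set (ℕ → Bool)} {z : ℕ → Bool} : pt z ∈ cl C ↔ z ∈ C := by
  rw [mem_cl]
  constructor
  · rintro ⟨y, hy, h⟩
    rw [← pt_inj h]
    exact hy
  · intro h
    exact ⟨z, h, rfl⟩

/-- The set of points of the Cantor space given by a set. -/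
def uncl (c : ZFSet.{0}) : Set (ℕ → Bool) := {z | pt z ∈ c}

theorem uncl_cl (C : Set (ℕ → Bool)) : uncl (cl C) = C := by
  ext z
  exact pt_mem_cl

theorem agree_pt {n : ℕ} {y z : ℕ → Bool} :
    Agree Ein (nat n) (pt y) (pt z) ↔ ∀ i < n, y i = z i := by
  constructor
  · intro h i hi
    have h1 := h (nat i) (nat_mem_nat.2 hi)
    change nat i ∈ pt y ↔ nat i ∈ pt z at h1
    rw [nat_mem_pt, nat_mem_pt] at h1
    exact Bool.eq_iff_iff.2 h1
  · intro h x hx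
    obtain ⟨i, hi, rfl⟩ := mem_nat.1 hx
    change nat i ∈ pt y ↔ nat i ∈ pt z
    rw [nat_mem_pt, nat_mem_pt, h i hi]

theorem ini_eq_ini {n : ℕ} {y z : ℕ → Bool} :
    PartIa.ini y n = PartIa.ini z n ↔ ∀ i < n, y i = z i := by
  constructor
  · intro h i hi
    have h1 : (PartIa.ini y n)[i]'(by rw [PartIa.length_ini]; exact hi) =
        (PartIa.ini z n)[i]'(by rw [PartIa.length_ini]; exact hi) := by
      congr 1
    simpa [PartIa.ini] using h1
  · intro h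
    apply List.map_congr_left
    intro i hi
    exact h i (List.mem_range.1 hi)

theorem closedSet_iff {c : ZFSet.{0}} :
    ClosedSet Ein om c ↔ (∀ x, x ∈ c → IsSub Ein x om) ∧ IsClosed (uncl c) := by
  constructor
  · rintro ⟨h1, h2⟩
    refine ⟨h1, ?_⟩
    have h3 : PartIa.body (PartIa.code (uncl c)) = uncl c := by
      apply Subset.antisymm
      · intro z hz
        refine h2 (pt z) (pt_sub z) ?_
        intro n hn
        obtain ⟨n, rfl⟩ := mem_om.1 hn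
        obtain ⟨y, hy, h⟩ := hz n
        rw [PartIa.length_ini] at h
        exact ⟨pt y, hy, agree_pt.2 fun i hi => ini_eq_ini.1 h.symm i hi⟩
      · intro z hz n
        exact ⟨z, hz, by rw [PartIa.length_ini]⟩
    rw [← h3]
    exact PartIa.isClosed_body _
  · rintro ⟨h1, h2⟩
    refine ⟨h1, ?_⟩
    intro x hx hn
    obtain ⟨z, rfl⟩ := exists_pt hx
    show z ∈ uncl c
    rw [← PartIa.body_code h2]
    intro n
    obtain ⟨y, hy, h⟩ := hn (nat n) (nat_mem_om n)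
    obtain ⟨y, rfl⟩ := exists_pt (h1 y hy)
    refine ⟨y, hy, ?_⟩
    rw [PartIa.length_ini]
    exact ini_eq_ini.2 fun i hi => (agree_pt.1 h i hi).symm

theorem isUPair_iff {z x y : ZFSet.{0}} : IsUPair Ein z x y ↔ z = {x, y} := by
  constructor
  · intro h
    ext w
    rw [ZFSet.mem_pair]
    exact h w
  · rintro rfl w
    exact ZFSet.mem_pair

theorem isOPair_iff {z x y : ZFSet.{0}} : IsOPair Ein z x y ↔ z = ZFSet.pair x y := by
  constructor
  · rintro ⟨a, b, ha, hb, h⟩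
    rw [isUPair_iff] at ha hb h
    rw [h, ha, hb, ZFSet.pair, ZFSet.pair_eq_singleton]
  · rintro rfl
    refine ⟨{x}, {x, y}, ?_, isUPair_iff.2 rfl, isUPair_iff.2 rfl⟩
    rw [isUPair_iff, ZFSet.pair_eq_singleton]

theorem isApp_iff {f x y : ZFSet.{0}} : IsApp Ein f x y ↔ ZFSet.pair x y ∈ f := by
  constructor
  · rintro ⟨z, hz, h⟩
    rw [isOPair_iff] at h
    rw [← h]
    exact hz
  · intro h
    exact ⟨_, h, isOPair_iff.2 rfl⟩

/-- The graph of a function. -/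
noncomputable def graph {a b : ZFSet.{0}} (g : {x // x ∈ a} → {x // x ∈ b}) : ZFSet.{0} :=
  ZFSet.range (fun x : Shrink.{0} {x // x ∈ a} =>
    ZFSet.pair ((equivShrink _).symm x).1 (g ((equivShrink _).symm x)).1)

theorem mem_graph {a b : ZFSet.{0}} {g : {x // x ∈ a} → {x // x ∈ b}} {z : ZFSet.{0}} :
    z ∈ graph g ↔ ∃ x : {x // x ∈ a}, z = ZFSet.pair x.1 (g x).1 := by
  rw [graph, ZFSet.mem_range]
  constructor
  · rintro ⟨x, rfl⟩
    exact ⟨_, rfl⟩
  · rintro ⟨x, rfl⟩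
    exact ⟨equivShrink _ x, by rw [Equiv.symm_apply_apply]⟩

theorem app_graph {a b : ZFSet.{0}} {g : {x // x ∈ a} → {x // x ∈ b}} {x y : ZFSet.{0}} :
    IsApp Ein (graph g) x y ↔ ∃ hx : x ∈ a, y = (g ⟨x, hx⟩).1 := by
  rw [isApp_iff, mem_graph]
  constructor
  · rintro ⟨⟨u, hu⟩, h⟩
    obtain ⟨rfl, h2⟩ := ZFSet.pair_inj.1 h
    exact ⟨hu, h2⟩
  · rintro ⟨hx, rfl⟩
    exact ⟨⟨x, hx⟩, rfl⟩

theorem isFun_graph {a b : ZFSet.{0}} (g : {x // x ∈ a} → {x // x ∈ b}) :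
    IsFun Ein (graph g) a b := by
  constructor
  · intro z hz
    obtain ⟨x, rfl⟩ := mem_graph.1 hz
    exact ⟨x.1, (g x).1, x.2, (g x).2, isOPair_iff.2 rfl⟩
  · intro x hx
    refine ⟨(g ⟨x, hx⟩).1, ⟨(g ⟨x, hx⟩).2, app_graph.2 ⟨hx, rfl⟩⟩, ?_⟩
    rintro y ⟨_, hy⟩
    obtain ⟨_, rfl⟩ := app_graph.1 hy
    rfl

/-- The function with a given graph. -/
theorem exists_fun {f a b : ZFSet.{0}} (h : IsFun Ein f a b) :
    ∃ g : {x // x ∈ a} → {x // x ∈ b}, ∀ x : {x // x ∈ a}, ∀ y,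
      IsApp Ein f x.1 y ↔ y = (g x).1 := by
  have h1 : ∀ x : {x // x ∈ a}, ∃ y : {y // y ∈ b}, IsApp Ein f x.1 y.1 := by
    intro x
    obtain ⟨y, ⟨hy, hxy⟩, -⟩ := h.2 x.1 x.2
    exact ⟨⟨y, hy⟩, hxy⟩
  choose g hg using h1
  refine ⟨g, fun x y => ?_⟩
  constructor
  · intro hxy
    obtain ⟨z, hz, h2⟩ := hxy
    obtain ⟨u, v, hu, hv, h3⟩ := h.1 z hz
    rw [isOPair_iff] at h2 h3
    rw [h2] at h3
    obtain ⟨rfl, rfl⟩ := ZFSet.pair_inj.1 h3
    exact (h.2 x.1 x.2).unique ⟨hv, isApp_iff.2 (h2 ▸ hz)⟩ ⟨(g x).2, hg x⟩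
  · rintro rfl
    exact hg x

theorem hasInj_iff {a b : ZFSet.{0}} :
    HasInj Ein a b ↔ ∃ g : {x // x ∈ a} → {x // x ∈ b}, Function.Injective g := by
  constructor
  · rintro ⟨f, hf, hinj⟩
    obtain ⟨g, hg⟩ := exists_fun hf
    refine ⟨g, fun x y hxy => ?_⟩
    apply Subtype.ext
    exact hinj x.1 y.1 (g x).1 ((hg x _).2 rfl) ((hg y _).2 (by rw [hxy]))
  · rintro ⟨g, hg⟩
    refine ⟨graph g, isFun_graph g, ?_⟩
    intro x x' y hx hx'
    obtain ⟨h1, h2⟩ := app_graph.1 hx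
    obtain ⟨h3, h4⟩ := app_graph.1 hx'
    have := hg (Subtype.ext (h2.symm.trans h4))
    exact congrArg Subtype.val this

theorem hasSurj_iff {a b : ZFSet.{0}} :
    HasSurj Ein a b ↔ ∃ g : {x // x ∈ a} → {x // x ∈ b}, Function.Surjective g := by
  constructor
  · rintro ⟨f, hf, hs⟩
    obtain ⟨g, hg⟩ := exists_fun hf
    refine ⟨g, fun y => ?_⟩
    obtain ⟨x, hx⟩ := hs y.1 y.2
    obtain ⟨z, hz, h2⟩ := hx
    obtain ⟨u, v, hu, hv, h3⟩ := hf.1 z hz
    rw [isOPair_iff] at h2 h3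
    rw [h2] at h3
    obtain ⟨rfl, h4⟩ := ZFSet.pair_inj.1 h3
    refine ⟨⟨x, hu⟩, Subtype.ext ?_⟩
    exact ((hg ⟨x, hu⟩ _).1 ⟨z, hz, isOPair_iff.2 h2⟩).symm
  · rintro ⟨g, hg⟩
    refine ⟨graph g, isFun_graph g, ?_⟩
    intro y hy
    obtain ⟨x, hx⟩ := hg ⟨y, hy⟩
    exact ⟨x.1, app_graph.2 ⟨x.2, by rw [hx]⟩⟩

/-- Elements of `ω` are natural numbers. -/
noncomputable def natEquiv : ℕ ≃ {x // x ∈ om} :=
  Equiv.ofBijective (fun n => ⟨nat n, nat_mem_om n⟩) ⟨fun _ _ h => nat_inj (congrArg Subtype.val h),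
    fun ⟨_, hx⟩ => by
      obtain ⟨n, rfl⟩ := mem_om.1 hx
      exact ⟨n, rfl⟩⟩

theorem hasSurj_om {F : ZFSet.{0}} :
    HasSurj Ein om F ↔ ∃ f : ℕ → ZFSet.{0}, ∀ y, y ∈ F ↔ ∃ n, f n = y := by
  rw [hasSurj_iff]
  constructor
  · rintro ⟨g, hg⟩
    refine ⟨fun n => (g (natEquiv n)).1, fun y => ?_⟩
    constructor
    · intro hy
      obtain ⟨x, hx⟩ := hg ⟨y, hy⟩
      exact ⟨natEquiv.symm x, by simp [hx]⟩
    · rintro ⟨n, rfl⟩
      exact (g (natEquiv n)).2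
  · rintro ⟨f, hf⟩
    refine ⟨fun x => ⟨f (natEquiv.symm x), (hf _).2 ⟨_, rfl⟩⟩, fun y => ?_⟩
    obtain ⟨n, hn⟩ := (hf y.1).1 y.2
    exact ⟨natEquiv n, Subtype.ext (by simp [hn])⟩

theorem card_nat (m : ℕ) : Nat.card {x // x ∈ nat m} = m := by
  have e : Fin m ≃ {x // x ∈ nat m} :=
    Equiv.ofBijective (fun i => ⟨nat i.1, nat_mem_nat.2 i.2⟩)
      ⟨fun i j h => Fin.ext (nat_inj (congrArg Subtype.val h)), fun ⟨_, hx⟩ => by
        obtain ⟨k, hk, rfl⟩ := mem_nat.1 hx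
        exact ⟨⟨k, hk⟩, rfl⟩⟩
  rw [← Nat.card_congr e, Nat.card_fin]

theorem finite_nat (m : ℕ) : Finite {x // x ∈ nat m} := by
  have : Function.Surjective (fun i : Fin m =>
      (⟨nat i.1, nat_mem_nat.2 i.2⟩ : {x // x ∈ nat m})) := by
    rintro ⟨_, hx⟩
    obtain ⟨k, hk, rfl⟩ := mem_nat.1 hx
    exact ⟨⟨k, hk⟩, rfl⟩
  exact Finite.of_surjective _ this

/-- The product. -/
noncomputable def prodEquiv {q a b : ZFSet.{0}} (h : IsProd Ein q a b) :
    {x // x ∈ a} × {x // x ∈ b} ≃ {x // x ∈ q} :=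
  Equiv.ofBijective (fun u => ⟨ZFSet.pair u.1.1 u.2.1,
      (h _).2 ⟨u.1.1, u.2.1, u.1.2, u.2.2, isOPair_iff.2 rfl⟩⟩)
    ⟨fun u v huv => by
      obtain ⟨h1, h2⟩ := ZFSet.pair_inj.1 (congrArg Subtype.val huv)
      exact Prod.ext (Subtype.ext h1) (Subtype.ext h2), fun ⟨z, hz⟩ => by
      obtain ⟨x, y, hx, hy, h1⟩ := (h z).1 hz
      exact ⟨(⟨x, hx⟩, ⟨y, hy⟩), Subtype.ext (isOPair_iff.1 h1).symm⟩⟩

/-- The power set. -/
noncomputable def powEquiv {p a : ZFSet.{0}} (h : IsPower Ein p a) :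
    Set {x // x ∈ a} ≃ {x // x ∈ p} := by
  classical
  refine Equiv.ofBijective (fun S => ⟨a.sep (fun x => ∃ hx : x ∈ a, (⟨x, hx⟩ : {x // x ∈ a}) ∈ S),
    (h _).2 fun x hx => (ZFSet.mem_sep.1 hx).1⟩) ⟨fun S T hST => ?_, fun ⟨y, hy⟩ => ?_⟩
  · have h1 := congrArg Subtype.val hST
    ext ⟨x, hx⟩
    have h2 : x ∈ a.sep (fun x => ∃ hx : x ∈ a, (⟨x, hx⟩ : {x // x ∈ a}) ∈ S) ↔
      x ∈ a.sep (fun x => ∃ hx : x ∈ a, (⟨x, hx⟩ : {x // x ∈ a}) ∈ T) := by
      dsimp only at h1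
      rw [h1]
    rw [ZFSet.mem_sep, ZFSet.mem_sep] at h2
    constructor
    · intro h3
      obtain ⟨_, _, h4⟩ := h2.1 ⟨hx, hx, h3⟩
      exact h4
    · intro h3
      obtain ⟨_, _, h4⟩ := h2.2 ⟨hx, hx, h3⟩
      exact h4
  · refine ⟨{x | x.1 ∈ y}, Subtype.ext ?_⟩
    ext x
    rw [ZFSet.mem_sep]
    constructor
    · rintro ⟨_, _, h2⟩
      exact h2
    · intro hx
      exact ⟨(h y).1 hy x hx, (h y).1 hy x hx, hx⟩

/-- The finite sequence of length `n` given by a set. -/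
noncomputable def wd (n : ℕ) (x : ZFSet.{0}) : List Bool := by
  classical
  exact (List.range n).map (fun i => decide (nat i ∈ x))

theorem wd_pt (n : ℕ) (z : ℕ → Bool) : wd n (pt z) = PartIa.ini z n := by
  classical
  rw [wd, PartIa.ini]
  apply List.map_congr_left
  intro i _
  simp [nat_mem_pt]

theorem wd_eq {n : ℕ} {x y : ZFSet.{0}} : wd n x = wd n y ↔ Agree Ein (nat n) x y := by
  classical
  constructor
  · intro h u hu
    obtain ⟨i, hi, rfl⟩ := mem_nat.1 hu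
    have h1 : (wd n x)[i]'(by simp [wd, hi]) = (wd n y)[i]'(by simp [wd, hi]) := by
      congr 1
    change nat i ∈ x ↔ nat i ∈ y
    simpa [wd] using h1
  · intro h
    rw [wd, wd]
    apply List.map_congr_left
    intro i hi
    have := h (nat i) (nat_mem_nat.2 (List.mem_range.1 hi))
    change nat i ∈ x ↔ nat i ∈ y at this
    simp [this]

theorem card_trace {s c : ZFSet.{0}} {n : ℕ} (hc : ∀ x, x ∈ c → IsSub Ein x om)
    (hs : IsTrace Ein s (nat n) c) :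
    Nat.card {x // x ∈ s} = (PartIa.words (PartIa.code (uncl c)) n).card := by
  classical
  have h1 : ∀ x : {x // x ∈ s}, wd n x.1 ∈ PartIa.words (PartIa.code (uncl c)) n := by
    rintro ⟨x, hx⟩
    obtain ⟨h1, y, hy, h2⟩ := (hs x).1 hx
    obtain ⟨y, rfl⟩ := exists_pt (hc y hy)
    rw [PartIa.mem_words_code]
    refine ⟨by simp [wd], y, hy, ?_⟩
    show PartIa.ini y (wd n x).length = wd n x
    rw [wd_eq.2 h2, wd_pt, PartIa.length_ini]
  have e : {x // x ∈ s} ≃ {u // u ∈ PartIa.words (PartIa.code (uncl c)) n} := by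
    refine Equiv.ofBijective (fun x => ⟨wd n x.1, h1 x⟩) ⟨fun x y hxy => ?_, fun ⟨u, hu⟩ => ?_⟩
    · have h2 := wd_eq.1 (congrArg Subtype.val hxy)
      apply Subtype.ext
      ext v
      constructor
      · intro hv
        exact (h2 v (((hs x.1).1 x.2).1 v hv)).1 hv
      · intro hv
        exact (h2 v (((hs y.1).1 y.2).1 v hv)).2 hv
    · rw [PartIa.mem_words_code] at hu
      obtain ⟨hlen, z, hz, hzu⟩ := hu
      have h3 : Agree Ein (nat n) ((nat n).sep (fun v => v ∈ pt z)) (pt z) := by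
        intro v hv
        change v ∈ (nat n).sep (fun v => v ∈ pt z) ↔ v ∈ pt z
        rw [ZFSet.mem_sep]
        exact ⟨fun h => h.2, fun h => ⟨hv, h⟩⟩
      refine ⟨⟨(nat n).sep (fun v => v ∈ pt z), (hs _).2 ⟨fun v hv => (ZFSet.mem_sep.1 hv).1,
        pt z, hz, h3⟩⟩, Subtype.ext ?_⟩
      show wd n ((nat n).sep (fun v => v ∈ pt z)) = u
      rw [wd_eq.2 h3, wd_pt, ← hlen]
      exact hzu
  rw [Nat.card_congr e, Nat.card_eq_fintype_card, Fintype.card_coe]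

theorem nullSet_iff {c : ZFSet.{0}} (hc : ClosedSet Ein om c) :
    NullSet Ein om c ↔ coin (uncl c) = 0 := by
  classical
  obtain ⟨h1, h2⟩ := closedSet_iff.1 hc
  rw [PartIa.coin_closed_eq_zero_iff h2]
  have key : ∀ m n : ℕ, (∃ s p q, IsTrace Ein s (nat n) c ∧ IsPower Ein p (nat n) ∧
      IsProd Ein q (nat m) s ∧ HasInj Ein q p) ↔
      (PartIa.words (PartIa.code (uncl c)) n).card * m ≤ 2 ^ n := by
    intro m n
    have key2 : ∀ s p q, IsTrace Ein s (nat n) c → IsPower Ein p (nat n) →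
        IsProd Ein q (nat m) s → (HasInj Ein q p ↔
          (PartIa.words (PartIa.code (uncl c)) n).card * m ≤ 2 ^ n) := by
      intro s p q hs hp hq
      have hcs := card_trace h1 hs
      have : Finite {x // x ∈ nat n} := finite_nat n
      have : Finite {x // x ∈ nat m} := finite_nat m
      have hfp : Finite {x // x ∈ p} := Finite.of_equiv _ (powEquiv hp)
      have hcp : Nat.card {x // x ∈ p} = 2 ^ n := by
        rw [← Nat.card_congr (powEquiv hp)]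
        have : Fintype {x // x ∈ nat n} := Fintype.ofFinite _
        rw [Nat.card_eq_fintype_card, Fintype.card_set, ← Nat.card_eq_fintype_card, card_nat]
      have hsp : ∀ x, x ∈ s → x ∈ p := fun x hx => (hp x).2 ((hs x).1 hx).1
      have hfs : Finite {x // x ∈ s} :=
        Finite.of_injective (fun x => (⟨x.1, hsp x.1 x.2⟩ : {x // x ∈ p}))
          fun x y hxy => by
            have h3 : x.1 = y.1 := congrArg (fun u : {x // x ∈ p} => u.1) hxy
            exact Subtype.ext h3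
      have hfq : Finite {x // x ∈ q} := Finite.of_equiv _ (prodEquiv hq)
      have hcq : Nat.card {x // x ∈ q} = (PartIa.words (PartIa.code (uncl c)) n).card * m := by
        rw [← Nat.card_congr (prodEquiv hq), Nat.card_prod, card_nat, hcs, mul_comm]
      rw [hasInj_iff, ← hcq, ← hcp]
      constructor
      · rintro ⟨g, hg⟩
        exact Nat.card_le_card_of_injective g hg
      · intro h
        have : Fintype {x // x ∈ q} := Fintype.ofFinite _
        have : Fintype {x // x ∈ p} := Fintype.ofFinite _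
        rw [Nat.card_eq_fintype_card, Nat.card_eq_fintype_card] at h
        obtain ⟨g⟩ := Function.Embedding.nonempty_of_card_le h
        exact ⟨g, g.injective⟩
    constructor
    · rintro ⟨s, p, q, hs, hp, hq, h⟩
      exact (key2 s p q hs hp hq).1 h
    · intro h
      have hs : IsTrace Ein ((nat n).powerset.sep
          (fun a => ∃ x, x ∈ c ∧ Agree Ein (nat n) a x)) (nat n) c := by
        intro a
        change a ∈ (nat n).powerset.sep (fun a => ∃ x, x ∈ c ∧ Agree Ein (nat n) a x) ↔ _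
        rw [ZFSet.mem_sep, ZFSet.mem_powerset]
        rfl
      have hp : IsPower Ein (nat n).powerset (nat n) := by
        intro a
        change a ∈ (nat n).powerset ↔ _
        rw [ZFSet.mem_powerset]
        rfl
      have hq : IsProd Ein (ZFSet.prod (nat m) ((nat n).powerset.sep
          (fun a => ∃ x, x ∈ c ∧ Agree Ein (nat n) a x))) (nat m) ((nat n).powerset.sep
          (fun a => ∃ x, x ∈ c ∧ Agree Ein (nat n) a x)) := by
        intro z
        change z ∈ ZFSet.prod _ _ ↔ _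
        rw [ZFSet.mem_prod]
        constructor
        · rintro ⟨a, ha, b, hb, rfl⟩
          exact ⟨a, b, ha, hb, isOPair_iff.2 rfl⟩
        · rintro ⟨a, b, ha, hb, hz⟩
          exact ⟨a, ha, b, hb, isOPair_iff.1 hz⟩
      exact ⟨_, _, _, hs, hp, hq, (key2 _ _ _ hs hp hq).2 h⟩
  constructor
  · intro h m
    obtain ⟨n, hn, h3⟩ := h (nat m) (nat_mem_om m)
    obtain ⟨n, rfl⟩ := mem_om.1 hn
    exact ⟨n, (key m n).1 h3⟩
  · intro h m hm
    obtain ⟨m, rfl⟩ := mem_om.1 hm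
    obtain ⟨n, hn⟩ := h m
    exact ⟨nat n, nat_mem_om n, (key m n).2 hn⟩

end ZfSide

open ZfSide in
/-- `(♣)` in Mathlib's universe of sets implies `(♣)` in Mathlib terms. -/
theorem clubMeas_of_Ein (h : Club Ein) : ClubMeas := by
  intro A
  have hA : ∀ x, Ein x (cl A) → IsSub Ein x om := by
    intro x hx
    obtain ⟨z, -, rfl⟩ := mem_cl.1 hx
    exact pt_sub z
  rcases h om isOmega_om (cl A) hA with ⟨F, hF, hFn, hcov⟩ | ⟨Z, hZ, hZn, hcap⟩
  · left
    obtain ⟨f, hf⟩ := hasSurj_om.1 hF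
    have hfF : ∀ k, f k ∈ F := fun k => (hf _).2 ⟨k, rfl⟩
    refine ⟨fun k => uncl (f k), fun k => ?_, ?_⟩
    · obtain ⟨h1, h2⟩ := hFn (f k) (hfF k)
      exact ⟨(closedSet_iff.1 h1).2, (nullSet_iff h1).1 h2⟩
    · intro z hz
      obtain ⟨C, hC, hzC⟩ := hcov (pt z) (pt_mem_cl.2 hz)
      obtain ⟨k, rfl⟩ := (hf C).1 hC
      exact mem_iUnion.2 ⟨k, hzC⟩
  · right
    obtain ⟨f, hf⟩ := hasSurj_om.1 hZ
    have hfZ : ∀ k, f k ∈ Z := fun k => (hf _).2 ⟨k, rfl⟩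
    refine ⟨fun k => uncl (f k), fun k => ?_, ?_⟩
    · obtain ⟨h1, h2⟩ := hZn (f k) (hfZ k)
      exact ⟨(closedSet_iff.1 h1).2, fun h3 => h2 ((nullSet_iff h1).2 h3)⟩
    · intro G hG hAG
      have hmem : ∀ C, C ∈ ZFSet.range (fun k => cl (G k)) ↔ ∃ k, cl (G k) = C :=
        fun C => ZFSet.mem_range
      obtain ⟨C, D, hC, hD, hCD⟩ := hcap (ZFSet.range (fun k => cl (G k)))
        (hasSurj_om.2 ⟨fun k => cl (G k), hmem⟩) (by
          intro C hC
          obtain ⟨k, rfl⟩ := (hmem C).1 hC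
          refine closedSet_iff.2 ⟨?_, by rw [uncl_cl]; exact hG k⟩
          intro x hx
          obtain ⟨z, -, rfl⟩ := mem_cl.1 hx
          exact pt_sub z) (by
          intro x hx
          obtain ⟨z, hz, rfl⟩ := mem_cl.1 hx
          obtain ⟨k, hk⟩ := mem_iUnion.1 (hAG hz)
          exact ⟨cl (G k), (hmem _).2 ⟨k, rfl⟩, pt_mem_cl.2 hk⟩)
      obtain ⟨n, rfl⟩ := (hf C).1 hC
      obtain ⟨k, rfl⟩ := (hmem D).1 hD
      exact ⟨n, k, fun z hz => pt_mem_cl.1 (hCD (pt z) hz)⟩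

end Pool.Agent.Lib.MP_40b13d_lc
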