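import Mathlib

/-!
The distribution function of an atomless probability measure on the line: it is continuous and
pushes the measure to Lebesgue measure on `[0,1]`; and a transfer lemma along an injective map.
-/

open MeasureTheory Set Filter Topology ProbabilityTheory

namespace Pool.Agent.Lib.MP_40b13d_lc

section Line

variable (ν : Measure ℝ) [IsProbabilityMeasure ν] (hν : ∀ t, ν {t} = 0)

include hν in
theorem continuous_cdf : Continuous (cdf ν) := by
  rw [continuous_iff_continuousAt]
  intro t
  rw [(cdf ν).mono.continuousAt_iff_leftLim_eq_rightLim, (cdf ν).rightLim_eq]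
  have h1 := (cdf ν).measure_singleton t
  rw [measure_cdf, hν t] at h1
  have h2 : cdf ν t - Function.leftLim (cdf ν) t ≤ 0 := ENNReal.ofReal_eq_zero.mp h1.symm
  have h3 : Function.leftLim (cdf ν) t ≤ cdf ν t := (cdf ν).mono.leftLim_le le_rfl
  linarith

include hν in
theorem map_cdf : ν.map (cdf ν) = volume.restrict (Icc 0 1) := by
  have hc := continuous_cdf ν hν
  have hfin : IsFiniteMeasure (ν.map (cdf ν)) := by infer_instance
  refine Measure.ext_of_Iic _ _ fun v => ?_
  rw [Measure.map_apply hc.measurable measurableSet_Iic, Measure.restrict_apply measurableSet_Iic]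
  rcases lt_or_ge v 0 with hv0 | hv0
  · have h1 : cdf ν ⁻¹' Iic v = ∅ := by
      ext t
      simp only [Set.mem_preimage, Set.mem_Iic, Set.mem_empty_iff_false, iff_false, not_le]
      exact lt_of_lt_of_le hv0 (cdf_nonneg ν t)
    have h2 : Iic v ∩ Icc (0 : ℝ) 1 = ∅ := by
      ext t
      simp only [Set.mem_inter_iff, Set.mem_Iic, Set.mem_Icc, Set.mem_empty_iff_false, iff_false]
      rintro ⟨h3, h4, _⟩
      linarith
    rw [h1, h2]
    simp
  rcases le_or_gt 1 v with hv1 | hv1
  · have h1 : cdf ν ⁻¹' Iic v = univ := by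
      ext t
      simp only [Set.mem_preimage, Set.mem_Iic, Set.mem_univ, iff_true]
      exact (cdf_le_one ν t).trans hv1
    have h2 : Iic v ∩ Icc (0 : ℝ) 1 = Icc 0 1 := by
      rw [Set.inter_eq_right]
      intro t ht
      exact ht.2.trans hv1
    rw [h1, h2, measure_univ]
    simp
  · have h2 : Iic v ∩ Icc (0 : ℝ) 1 = Icc 0 v := by
      ext t
      simp only [Set.mem_inter_iff, Set.mem_Iic, Set.mem_Icc]
      constructor
      · rintro ⟨h3, h4, _⟩
        exact ⟨h4, h3⟩
      · rintro ⟨h3, h4⟩
        exact ⟨h4, h3, h4.trans hv1.le⟩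
    rw [h2, Real.volume_Icc, sub_zero]
    have htop : ∃ t1, v < cdf ν t1 :=
      ((tendsto_cdf_atTop ν).eventually (lt_mem_nhds hv1)).exists
    obtain ⟨t1, ht1⟩ := htop
    rcases (cdf ν ⁻¹' Iic v).eq_empty_or_nonempty with hS | hS
    · have h3 : ∀ t, v < cdf ν t := by
        intro t
        by_contra hcon
        have : t ∈ cdf ν ⁻¹' Iic v := not_lt.mp hcon
        rw [hS] at this
        exact this
      have h4 : v ≤ 0 := ge_of_tendsto' (tendsto_cdf_atBot ν) fun t => (h3 t).le
      have h5 : v = 0 := le_antisymm h4 hv0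
      rw [hS, h5]
      simp
    · have hcl : IsClosed (cdf ν ⁻¹' Iic v) := isClosed_Iic.preimage hc
      have hbdd : BddAbove (cdf ν ⁻¹' Iic v) := by
        refine ⟨t1, fun t ht => ?_⟩
        by_contra hcon
        have := (monotone_cdf ν) (not_le.mp hcon).le
        exact absurd (lt_of_lt_of_le ht1 this) (not_lt.mpr ht)
      have hmem := hcl.csSup_mem hS hbdd
      set t0 := sSup (cdf ν ⁻¹' Iic v) with ht0
      have hSeq : cdf ν ⁻¹' Iic v = Iic t0 := by
        ext t
        constructor
        · intro ht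
          exact le_csSup hbdd ht
        · intro ht
          exact ((monotone_cdf ν) ht).trans hmem
      have hval : cdf ν t0 = v := by
        refine le_antisymm hmem ?_
        have h6 : Tendsto (cdf ν) (𝓝[>] t0) (𝓝 (cdf ν t0)) := hc.continuousAt.tendsto.mono_left
          nhdsWithin_le_nhds
        refine ge_of_tendsto h6 ?_
        filter_upwards [self_mem_nhdsWithin] with t ht
        by_contra hcon
        have : t ∈ cdf ν ⁻¹' Iic v := (not_le.mp hcon).le
        rw [hSeq] at this
        exact absurd (show t ≤ t0 from this) (not_le.mpr ht)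
      rw [hSeq, ← ofReal_cdf, hval]

end Line

section Transfer

set_option linter.unusedSectionVars false

variable {α : Type*} [MeasurableSpace α] (μ : Measure α) [IsProbabilityMeasure μ] (j : α → ℝ)
  (hj : Measurable j) (hμ : ∀ t, μ (j ⁻¹' {t}) = 0)

/-- The distribution function transported by `j`. -/
noncomputable def cdfMap : α → ℝ := fun x => cdf (μ.map j) (j x)

/-- The points where the distribution function is not strictly increasing. -/
def flat : Set α := ⋃ r : ℚ, j ⁻¹' (cdf (μ.map j) ⁻¹' {cdf (μ.map j) r})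

include hj hμ in
theorem map_atom (t : ℝ) : μ.map j {t} = 0 := by
  rw [Measure.map_apply hj (measurableSet_singleton _)]
  exact hμ t

include hj hμ in
theorem continuous_cdf_map : Continuous (cdf (μ.map j)) := by
  have : IsProbabilityMeasure (μ.map j) := Measure.isProbabilityMeasure_map hj.aemeasurable
  exact continuous_cdf _ (map_atom μ j hj hμ)

include hj hμ in
theorem measurable_cdfMap : Measurable (cdfMap μ j) :=
  (continuous_cdf_map μ j hj hμ).measurable.comp hj

include hj hμ in
theorem map_cdfMap : μ.map (cdfMap μ j) = volume.restrict (Icc 0 1) := by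
  have : IsProbabilityMeasure (μ.map j) := Measure.isProbabilityMeasure_map hj.aemeasurable
  rw [← map_cdf (μ.map j) (map_atom μ j hj hμ),
    Measure.map_map (continuous_cdf_map μ j hj hμ).measurable hj]
  rfl

include hj hμ in
theorem measure_flat : μ (flat μ j) = 0 := by
  refine measure_iUnion_null fun r => ?_
  have h1 : j ⁻¹' (cdf (μ.map j) ⁻¹' {cdf (μ.map j) r}) =
      cdfMap μ j ⁻¹' {cdf (μ.map j) r} := rfl
  rw [h1, ← Measure.map_apply (measurable_cdfMap μ j hj hμ) (measurableSet_singleton _),
    map_cdfMap μ j hj hμ]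
  exact le_antisymm ((Measure.restrict_apply_le _ _).trans (by simp)) zero_le

theorem cdfMap_mem (x : α) : cdfMap μ j x ∈ Icc (0 : ℝ) 1 := ⟨cdf_nonneg _ _, cdf_le_one _ _⟩

/-- Off the flat set the distribution function is locally an embedding. -/
theorem exists_nhds_cdfMap {x : α} (hx : x ∉ flat μ j) {U : Set ℝ} (hU : U ∈ 𝓝 (j x)) :
    ∃ O ∈ 𝓝 (cdfMap μ j x), ∀ y, cdfMap μ j y ∈ O → j y ∈ U := by
  obtain ⟨a, b, hab, hU'⟩ := mem_nhds_iff_exists_Ioo_subset.mp hU
  set G := cdf (μ.map j) with hG
  have hflat : ∀ r : ℚ, G (j x) ≠ G r := by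
    intro r hr
    apply hx
    simp only [flat, Set.mem_iUnion]
    exact ⟨r, hr⟩
  have ha : G a < G (j x) := by
    refine lt_of_le_of_ne (G.mono hab.1.le) fun heq => ?_
    obtain ⟨r, hr1, hr2⟩ := exists_rat_btwn hab.1
    exact hflat r (le_antisymm (heq ▸ G.mono hr1.le) (G.mono hr2.le))
  have hb : G (j x) < G b := by
    refine lt_of_le_of_ne (G.mono hab.2.le) fun heq => ?_
    obtain ⟨r, hr1, hr2⟩ := exists_rat_btwn hab.2
    exact hflat r (le_antisymm (G.mono hr1.le) (heq ▸ G.mono hr2.le))
  refine ⟨Ioo (G a) (G b), Ioo_mem_nhds ha hb, fun y hy => hU' ?_⟩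
  constructor
  · by_contra hcon
    exact absurd hy.1 (not_lt.mpr (G.mono (not_lt.mp hcon)))
  · by_contra hcon
    exact absurd hy.2 (not_lt.mpr (G.mono (not_lt.mp hcon)))

end Transfer

end Pool.Agent.Lib.MP_40b13d_lc
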