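import Pool.Agent.Lib.MP_40b13d_lc.CloN

/-!
# Closed sets and null sets: from names to Boolean values
-/

namespace Pool.Agent.Lib.MP_40b13d_lc

open Pool.Agent.Lib.Forcing

section Simple

universe u

variable {P : Type u} [Preorder P]

theorem ev_memF_dense {U : GenUlt P} {R : P → Prop} {ρ τ : Name P}
    (h : U.Ev (MemF ρ τ)) (hm : ∀ p q, R p → q ≤ p → R q)
    (hR : ∀ p, MemF ρ τ p → ∀ r, r ≤ p → ∃ s, s ≤ r ∧ R s) : U.Ev R := by
  refine GenUlt.ev_of_dense_ev hm (h.imp fun p hp => hR p hp)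

/-- The product of two discrete families. -/
theorem mod_prod_discN (U : GenUlt P) {D D' : Type u} (c : D → Name P) (c' : D' → Name P) :
    IsProd (ModE U) (U.cl (discN fun a : D × D' => opN (c a.1) (c' a.2))) (U.cl (discN c))
      (U.cl (discN c')) := by
  intro z
  obtain ⟨ζ, rfl⟩ := exists_cl z
  rw [modE_cl, ev_mem_discN]
  constructor
  · intro h
    have h1 : Sat (ModE U) (fex (fex (.fand (.fmem 1 3) (.fand (.fmem 0 4) (dOPair 2 1 0)))))
        (fun i => U.cl (cons ζ (cons (discN c) (fun _ => discN c')) i)) := by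
      rw [los]
      refine h.imp ?_
      rintro p ⟨d, h2⟩
      rw [forces_iff]
      intro V hV
      simp only [sat_ex, sat_and, sat_mem, sat_dOPair, cons_zero, cons_one, cons_two, cons_three,
        cons_four]
      refine ⟨V.cl (c d.1), V.cl (c' d.2), mod_mem_discN V c d.1, mod_mem_discN V c' d.2, ?_⟩
      rw [isOPair_iff]
      exact eqF_iff_models.1 h2 V hV
    simp only [sat_ex, sat_and, sat_mem, sat_dOPair, cons_zero, cons_one, cons_two, cons_three,
      cons_four] at h1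
    exact h1
  · rintro ⟨x, y, hx, hy, h⟩
    obtain ⟨ξ, rfl⟩ := exists_cl x
    obtain ⟨η, rfl⟩ := exists_cl y
    rw [isOPair_iff, cl_eq] at h
    rw [modE_cl, ev_mem_discN] at hx hy
    refine h.imp3 hx hy ?_
    rintro p h1 ⟨d, h2⟩ ⟨d', h3⟩
    exact ⟨(d, d'), h1.trans (eqF_opN.2 ⟨h2, h3⟩)⟩

theorem natN_eq_discN (m : ℕ) (p : P) :
    EqF (natN m) (discN fun i : ULift.{u} (Fin m) => natN (i.down : ℕ)) p := by
  apply eqF_of_sub
  · intro ρ r _ h
    rw [memF_natN] at h
    rw [memF_discN]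
    intro s hs
    obtain ⟨t, ht, i, hi, h1⟩ := h s hs
    exact ⟨t, ht, ⟨⟨i, hi⟩⟩, h1⟩
  · intro ρ r _ h
    rw [memF_discN] at h
    rw [memF_natN]
    intro s hs
    obtain ⟨t, ht, i, h1⟩ := h s hs
    exact ⟨t, ht, i.down, i.down.2, h1⟩

theorem omegaN_eq_discN (p : P) :
    EqF omegaN (discN fun i : ULift.{u} ℕ => natN i.down) p := EqF.refl _ _

theorem forces_fTrace {s n C : ℕ} {v : ℕ → Name P} {p : P} {k : ℕ} (hv : v n = natN k) :
    Forces (fTrace s n C) v p ↔ ∀ τ, ∀ q, q ≤ p → (MemF τ (v s) q ↔ SubF τ (natN k) q ∧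
      ∀ q', q' ≤ q → ∃ t, t ≤ q' ∧ ∃ x, MemF x (v C) t ∧ AgreeF k τ x t) := by
  rw [fTrace, forces_all]
  refine forall_congr' fun τ => ?_
  rw [forces_iff']
  refine forall₂_congr fun q _ => iff_congr Iff.rfl ?_
  rw [forces_and, forces_dSub, forces_ex, cons_zero, cons_succ, hv]
  refine and_congr Iff.rfl (forall₂_congr fun q' _ => exists_congr fun t => and_congr Iff.rfl
    (exists_congr fun x => ?_))
  rw [forces_and, forces_fAgree (n := n + 2) (k := k) (by rw [cons_succ, cons_succ, hv])]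
  rfl

theorem forces_fPower {a n : ℕ} {v : ℕ → Name P} {p : P} :
    Forces (fPower a n) v p ↔ ∀ τ, ∀ q, q ≤ p → (MemF τ (v a) q ↔ SubF τ (v n) q) := by
  rw [fPower, forces_all]
  refine forall_congr' fun τ => ?_
  rw [forces_iff']
  refine forall₂_congr fun q _ => iff_congr Iff.rfl ?_
  rw [forces_dSub, cons_zero, cons_succ]

/-- The forcing relation for `fNull`. -/
def NullF (C : Name P) (p : P) : Prop :=
  ∀ m : ℕ, ∀ q, q ≤ p → ∃ r, r ≤ q ∧ ∃ (k : ℕ) (s a b : Name P), ∀ U : GenUlt P, U.Has r →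
    IsTrace (ModE U) (U.cl s) (U.cl (natN k)) (U.cl C) ∧
    IsPower (ModE U) (U.cl a) (U.cl (natN k)) ∧
    IsProd (ModE U) (U.cl b) (U.cl (natN m)) (U.cl s) ∧ HasInj (ModE U) (U.cl b) (U.cl a)

theorem forces_fNull {w C : ℕ} {v : ℕ → Name P} {p : P} (hv : v w = omegaN) :
    Forces (fNull w C) v p ↔ NullF (v C) p := by
  rw [fNull, forces_ball_omega hv]
  refine forall_congr' fun m => ?_
  rw [forces_ex]
  have key : ∀ (k : ℕ) (s a b : Name P) (r : P),
      Forces (.fand (fTrace 2 3 (C + 5)) (.fand (fPower 1 3) (.fand (fProd 0 4 2) (fInj 0 1))))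
        (cons b (cons a (cons s (cons (natN k) (cons (natN m) v))))) r ↔
      ∀ U : GenUlt P, U.Has r →
        IsTrace (ModE U) (U.cl s) (U.cl (natN k)) (U.cl (v C)) ∧
        IsPower (ModE U) (U.cl a) (U.cl (natN k)) ∧
        IsProd (ModE U) (U.cl b) (U.cl (natN m)) (U.cl s) ∧
        HasInj (ModE U) (U.cl b) (U.cl a) := by
    intro k s a b r
    rw [forces_iff]
    refine forall₂_congr fun U _ => ?_
    simp only [sat_and, sat_fTrace, sat_fPower, sat_fProd, sat_fInj, cons_zero, cons_succ]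
  constructor
  · intro h q hq
    obtain ⟨r, hr, n, h1⟩ := h q hq
    rw [forces_and] at h1
    have h2 : MemF n omegaN r := by
      have := h1.1
      rw [forces_mem] at this
      simpa [hv] using this
    obtain ⟨r1, hr1, k, h3⟩ := memF_omegaN.1 h2 r le_rfl
    have h4 := (h1.2.mono hr1).congr_cons h3
    obtain ⟨r2, hr2, s, h5⟩ := forces_ex.1 h4 r1 le_rfl
    obtain ⟨r3, hr3, a, h6⟩ := forces_ex.1 h5 r2 le_rfl
    obtain ⟨r4, hr4, b, h7⟩ := forces_ex.1 h6 r3 le_rfl
    exact ⟨r4, (((hr4.trans hr3).trans hr2).trans hr1).trans hr, k, s, a, b, (key _ _ _ _ _).1 h7⟩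
  · intro h q hq
    obtain ⟨r, hr, k, s, a, b, h1⟩ := h q hq
    refine ⟨r, hr, natN k, ?_⟩
    rw [forces_and]
    constructor
    · rw [forces_mem]
      simp only [cons_zero, cons_succ, hv]
      exact natN_mem_omegaN k r
    · exact forces_ex_of s (forces_ex_of a (forces_ex_of b ((key _ _ _ _ _).2 h1)))

/-- Finitely many dense open sets. -/
theorem finite_decide {κ : Type*} (S : Finset κ) (R : κ → P → Prop)
    (hm : ∀ i p q, R i p → q ≤ p → R i q) (p : P)
    (hd : ∀ i ∈ S, ∀ q, q ≤ p → ∃ r, r ≤ q ∧ R i r) : ∃ r, r ≤ p ∧ ∀ i ∈ S, R i r := by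
  classical
  induction S using Finset.induction_on with
  | empty => exact ⟨p, le_rfl, by simp⟩
  | insert a S _ ih =>
    obtain ⟨r, hr, h1⟩ := ih fun i hi => hd i (Finset.mem_insert_of_mem hi)
    obtain ⟨s, hs, h2⟩ := hd a (Finset.mem_insert_self _ _) r hr
    refine ⟨s, hs.trans hr, fun i hi => ?_⟩
    rcases Finset.mem_insert.1 hi with rfl | hi
    · exact h2
    · exact hm _ _ _ (h1 i hi) hs

end Simple

section Bool

variable {B : Type} [CompleteBooleanAlgebra B]

theorem le_initSeg {x : ℕ → B} {s : List Bool} {p : B} :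
    p ≤ initSeg x s ↔ ∀ (i : ℕ) (hi : i < s.length),
      p ≤ (if s[i] = true then x i else (x i)ᶜ) := by
  rw [initSeg, le_iInf_iff]
  constructor
  · intro h i hi
    exact h ⟨i, hi⟩
  · intro h i
    exact h i i.2

theorem le_initSeg_snoc {x : ℕ → B} {s : List Bool} {b : Bool} {p : B} :
    p ≤ initSeg x (s ++ [b]) ↔ p ≤ initSeg x s ∧
      p ≤ (if b = true then x s.length else (x s.length)ᶜ) := by
  rw [le_initSeg, le_initSeg]
  constructor
  · intro h
    constructor
    · intro i hi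
      have := h i (by simp; omega)
      rwa [List.getElem_append_left hi] at this
    · have := h s.length (by simp)
      simpa using this
  · rintro ⟨h1, h2⟩ i hi
    rcases Nat.lt_or_ge i s.length with h3 | h3
    · rw [List.getElem_append_left h3]
      exact h1 i h3
    · have h4 : i = s.length := by
        simp at hi
        omega
      subst h4
      simpa using h2

/-- Decide an initial segment. -/
theorem exists_initSeg (x : ℕ → B) (n : ℕ) (p : Pos B) :
    ∃ r : Pos B, r ≤ p ∧ ∃ s : List Bool, s.length = n ∧ r.1 ≤ initSeg x s := by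
  induction n with
  | zero => exact ⟨p, le_rfl, [], rfl, by rw [le_initSeg]; intro i hi; simp at hi⟩
  | succ n ih =>
    obtain ⟨r, hr, s, hs, h⟩ := ih
    obtain ⟨t, ht, h1 | h1⟩ := exists_decide r (x s.length)
    · refine ⟨t, ht.trans hr, s ++ [true], by simp [hs], ?_⟩
      rw [le_initSeg_snoc]
      exact ⟨le_trans ht h, by simpa using h1⟩
    · refine ⟨t, ht.trans hr, s ++ [false], by simp [hs], ?_⟩
      rw [le_initSeg_snoc]
      exact ⟨le_trans ht h, by simpa using h1⟩

theorem agreeF_ptN {x y : ℕ → B} {k : ℕ} {p : Pos B} : AgreeF k (ptN x) (ptN y) p ↔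
    ∀ i, i < k → ∀ q : Pos B, q ≤ p → (q.1 ≤ x i ↔ q.1 ≤ y i) := by
  unfold AgreeF
  simp only [natN_mem_ptN]

theorem le_compl_iff {a : B} {p : Pos B} : p.1 ≤ aᶜ ↔ ∀ q : Pos B, q ≤ p → ¬ q.1 ≤ a := by
  constructor
  · intro h q hq h1
    apply q.2
    have h2 : q.1 ≤ a ⊓ aᶜ := le_inf h1 (le_trans hq h)
    rw [inf_compl_self] at h2
    exact le_antisymm h2 bot_le
  · intro h
    rw [le_compl_iff_disjoint_right, disjoint_iff]
    by_contra hne
    exact h ⟨_, hne⟩ inf_le_left inf_le_right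

theorem le_initSeg_of_agree {x y : ℕ → B} {s : List Bool} {k : ℕ} (hk : s.length ≤ k)
    {p : Pos B} (h : AgreeF k (ptN x) (ptN y) p) (hx : p.1 ≤ initSeg x s) :
    p.1 ≤ initSeg y s := by
  rw [agreeF_ptN] at h
  rw [le_initSeg] at hx ⊢
  intro i hi
  have h1 := hx i hi
  have h2 := h i (by omega)
  split_ifs at h1 ⊢
  · exact (h2 p le_rfl).1 h1
  · rw [le_compl_iff] at h1 ⊢
    intro q hq h3
    exact h1 q hq ((h2 q hq).2 h3)

theorem le_memClosed {x : ℕ → B} {T : List Bool → B} {p : Pos B} :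
    p.1 ≤ memClosed x T ↔ ∀ s, ∀ q : Pos B, q ≤ p → q.1 ≤ initSeg x s → q.1 ≤ T s := by
  rw [memClosed, le_iInf_iff]
  refine forall_congr' fun s => ?_
  rw [le_himp_iff]
  constructor
  · intro h q hq h1
    exact (le_inf (show q.1 ≤ p.1 from hq) h1).trans h
  · intro h
    apply le_of_dense
    intro q hq
    exact ⟨q, le_rfl, h q (hq.trans inf_le_left) (hq.trans inf_le_right)⟩

/-- The name of the closed set coded by `T`. -/
def clN (T : List Bool → B) : Name (Pos B) :=
  cn (fun x : ℕ → B => ptN x) (fun x p => p.1 ≤ memClosed x T)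

theorem memF_clN {T : List Bool → B} {ρ : Name (Pos B)} {p : Pos B} : MemF ρ (clN T) p ↔
    ∀ r, r ≤ p → ∃ s, s ≤ r ∧ ∃ x : ℕ → B, s.1 ≤ memClosed x T ∧ EqF ρ (ptN x) s :=
  memF_cn (A := fun x (p : Pos B) => p.1 ≤ memClosed x T) fun _ _ _ h hq => le_trans hq h

theorem ptN_mem_clN {T : List Bool → B} {x : ℕ → B} {p : Pos B} :
    MemF (ptN x) (clN T) p ↔ p.1 ≤ memClosed x T := by
  constructor
  · intro h
    apply le_of_dense
    intro q hq
    obtain ⟨s, hs, y, h1, h2⟩ := memF_clN.1 h q hq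
    refine ⟨s, hs, ?_⟩
    rw [le_memClosed] at h1 ⊢
    intro u r hr h3
    exact h1 u r hr (le_initSeg_of_agree le_rfl (AgreeF.of_eqF (h2.mono hr)) h3)
  · intro h
    exact memF_cn_of (nm := fun x : ℕ → B => ptN x)
      (A := fun x (p : Pos B) => p.1 ≤ memClosed x T) x h

theorem closedF_clN (T : List Bool → B) (p : Pos B) : ClosedF (clN T) p := by
  constructor
  · intro ρ r _ h
    apply SubF.dense
    intro q hq
    obtain ⟨s, hs, x, -, h1⟩ := memF_clN.1 h q hq
    exact ⟨s, hs, (ptN_sub x s).congr_left h1.symm⟩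
  · intro ρ r _ h1 h2
    have h3 := eqF_ptN h1
    refine MemF.congr_left h3.symm ?_
    rw [ptN_mem_clN, le_memClosed]
    intro s q hq h4
    apply le_of_dense
    intro q' hq'
    obtain ⟨t, ht, y, hy, h5⟩ := h2 s.length q' (le_trans hq' hq)
    obtain ⟨t', ht', z, hz, h6⟩ := memF_clN.1 hy t le_rfl
    refine ⟨t', le_trans ht' ht, ?_⟩
    have ht'q : t' ≤ q := le_trans ht' (le_trans ht hq')
    have h7 : AgreeF s.length (ptN (toPt ρ)) (ptN z) t' :=
      (AgreeF.of_eqF (h3.symm.mono (le_trans ht'q hq))).trans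
        ((h5.mono ht').trans (AgreeF.of_eqF h6))
    have h8 : t'.1 ≤ initSeg z s :=
      le_initSeg_of_agree le_rfl h7 (le_trans (show t'.1 ≤ q.1 from ht'q) h4)
    exact le_memClosed.1 hz s t' le_rfl h8

/-! ### Finite sets of natural numbers -/

/-- Characteristic function of a finite sequence. -/
def chr (u : List Bool) : ℕ → B := fun i => if u.getD i false = true then ⊤ else ⊥

/-- Name of the finite set coded by `u`. -/
def listN (u : List Bool) : Name (Pos B) := ptN (chr u)

theorem le_chr {u : List Bool} {i : ℕ} {p : Pos B} : p.1 ≤ chr u i ↔ u.getD i false = true := by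
  unfold chr
  by_cases h : u.getD i false = true
  · rw [if_pos h]
    exact ⟨fun _ => h, fun _ => le_top⟩
  · rw [if_neg h]
    exact ⟨fun h1 => (p.2 (le_antisymm h1 bot_le)).elim, fun h1 => absurd h1 h⟩

theorem le_initSeg_chr {u : List Bool} (p : Pos B) : p.1 ≤ initSeg (chr u) u := by
  rw [le_initSeg]
  intro i hi
  split_ifs with h
  · rw [le_chr, List.getD_eq_getElem _ _ hi]
    exact h
  · rw [le_compl_iff]
    intro q _ h1
    rw [le_chr, List.getD_eq_getElem _ _ hi] at h1
    exact h h1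

theorem agreeF_listN {u : List Bool} {x : ℕ → B} {p : Pos B} :
    AgreeF u.length (listN u) (ptN x) p ↔ p.1 ≤ initSeg x u := by
  constructor
  · intro h
    exact le_initSeg_of_agree le_rfl h (le_initSeg_chr p)
  · intro h
    rw [listN, agreeF_ptN]
    intro i hi q hq
    rw [le_initSeg] at h
    have h1 := h i hi
    rw [le_chr, List.getD_eq_getElem _ _ hi]
    split_ifs at h1 with h2
    · exact ⟨fun _ => le_trans hq h1, fun _ => h2⟩
    · exact ⟨fun h3 => absurd h3 h2, fun h3 => ((le_compl_iff.1 h1) q hq h3).elim⟩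

theorem listN_inj {u u' : List Bool} (hl : u.length = u'.length) {p : Pos B}
    (h : EqF (listN u) (listN u') p) : u = u' := by
  rw [listN, listN, eqF_ptN_ptN, le_eqPoint] at h
  apply List.ext_getElem hl
  intro i h1 h2
  have h3 := h i p le_rfl
  rw [le_chr, le_chr, List.getD_eq_getElem _ _ h1, List.getD_eq_getElem _ _ h2] at h3
  rw [Bool.eq_iff_iff]
  exact h3

theorem listN_sub {u : List Bool} {k : ℕ} (hk : u.length ≤ k) (p : Pos B) :
    SubF (listN u) (natN k) p := by
  intro ρ r _ h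
  rw [memF_natN]
  intro s hs
  obtain ⟨t, ht, n, h1, h2⟩ := memF_ptN.1 h s hs
  refine ⟨t, ht, n, ?_, h2⟩
  rw [le_chr] at h1
  by_contra hcon
  rw [List.getD_eq_default _ _ (by omega)] at h1
  exact absurd h1 (by simp)

theorem natN_sub_omegaN (k : ℕ) (p : Pos B) : SubF (natN k : Name (Pos B)) omegaN p := by
  intro ρ r _ h
  rw [memF_natN] at h
  rw [memF_omegaN]
  intro s hs
  obtain ⟨t, ht, i, -, h1⟩ := h s hs
  exact ⟨t, ht, i, h1⟩

theorem exists_listN {ρ : Name (Pos B)} {k : ℕ} {p : Pos B} (h : SubF ρ (natN k) p) :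
    ∃ r, r ≤ p ∧ ∃ u : List Bool, u.length = k ∧ EqF ρ (listN u) r := by
  have h1 : EqF ρ (ptN (toPt ρ)) p := eqF_ptN fun τ r hr h2 => natN_sub_omegaN k p τ r hr
    (h τ r hr h2)
  obtain ⟨r, hr, u, hu, h2⟩ := exists_initSeg (toPt ρ) k p
  refine ⟨r, hr, u, hu, (h1.mono hr).trans ?_⟩
  rw [listN, eqF_ptN_ptN, le_eqPoint]
  intro n q hq
  rcases Nat.lt_or_ge n k with h3 | h3
  · have h4 := agreeF_listN.2 h2
    rw [listN, agreeF_ptN] at h4
    exact (h4 n (by omega) q hq).symm
  · constructor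
    · intro h4
      rw [le_toPt] at h4
      have h5 := h _ q (hq.trans hr) h4
      rw [memF_natN_natN] at h5
      omega
    · intro h4
      rw [le_chr, List.getD_eq_default _ _ (by omega)] at h4
      exact absurd h4 (by simp)

end Bool

end Pool.Agent.Lib.MP_40b13d_lc
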