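import Pool.Agent.Lib.MP_40b13d_lc.Bv

/-!
# Names for closed sets over a complete Boolean algebra
-/

namespace Pool.Agent.Lib.MP_40b13d_lc

open Pool.Agent.Lib.Forcing

section Simple

universe u

variable {P : Type u} [Preorder P]

theorem forces_all_imp {φ ψ : Fml} {v : ℕ → Name P} {p : P} :
    Forces (.fall (fimp φ ψ)) v p ↔
      ∀ τ, ∀ q, q ≤ p → Forces φ (cons τ v) q → Forces ψ (cons τ v) q := by
  rw [forces_all]
  exact forall_congr' fun τ => forces_imp

theorem forces_ball' {φ : Fml} {j : ℕ} {v : ℕ → Name P} {p : P} :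
    Forces (fball j φ) v p ↔ ∀ τ, ∀ q, q ≤ p → MemF τ (v j) q → Forces φ (cons τ v) q :=
  forces_all_imp

theorem forces_ball_nat {φ : Fml} {j : ℕ} {v : ℕ → Name P} {p : P} {k : ℕ}
    (hv : v j = natN k) :
    Forces (fball j φ) v p ↔ ∀ i, i < k → Forces φ (cons (natN i) v) p := by
  rw [forces_ball', hv]
  constructor
  · intro h i hi
    exact h (natN i) p le_rfl (memF_natN_of_lt hi p)
  · intro h τ q hq h1
    apply Forces.dense
    intro r hr
    obtain ⟨s, hs, i, hi, h2⟩ := memF_natN.1 h1 r hr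
    exact ⟨s, hs, ((h i hi).mono ((hs.trans hr).trans hq)).congr_cons h2.symm⟩

theorem forces_ball_omega {φ : Fml} {j : ℕ} {v : ℕ → Name P} {p : P} (hv : v j = omegaN) :
    Forces (fball j φ) v p ↔ ∀ i, Forces φ (cons (natN i) v) p := by
  rw [forces_ball', hv]
  constructor
  · intro h i
    exact h (natN i) p le_rfl (natN_mem_omegaN i p)
  · intro h τ q hq h1
    apply Forces.dense
    intro r hr
    obtain ⟨s, hs, i, h2⟩ := memF_omegaN.1 h1 r hr
    exact ⟨s, hs, ((h i).mono ((hs.trans hr).trans hq)).congr_cons h2.symm⟩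

theorem forces_iff' {φ ψ : Fml} {v : ℕ → Name P} {p : P} :
    Forces (fiff φ ψ) v p ↔ ∀ q, q ≤ p → (Forces φ v q ↔ Forces ψ v q) := by
  rw [fiff, forces_and, forces_imp, forces_imp]
  exact ⟨fun h q hq => ⟨h.1 q hq, h.2 q hq⟩, fun h => ⟨fun q hq => (h q hq).1,
    fun q hq => (h q hq).2⟩⟩

/-- `p` forces `σ ∩ k = τ ∩ k`. -/
def AgreeF (k : ℕ) (σ τ : Name P) (p : P) : Prop :=
  ∀ i, i < k → ∀ q, q ≤ p → (MemF (natN i) σ q ↔ MemF (natN i) τ q)

theorem forces_fAgree {n x y : ℕ} {v : ℕ → Name P} {p : P} {k : ℕ} (hv : v n = natN k) :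
    Forces (fAgree n x y) v p ↔ AgreeF k (v x) (v y) p := by
  rw [fAgree, forces_ball_nat hv]
  refine forall₂_congr fun i _ => ?_
  rw [forces_iff']
  rfl

theorem AgreeF.mono {k : ℕ} {σ τ : Name P} {p q : P} (h : AgreeF k σ τ p) (hq : q ≤ p) :
    AgreeF k σ τ q := fun i hi r hr => h i hi r (hr.trans hq)

theorem AgreeF.of_eqF {k : ℕ} {σ τ : Name P} {p : P} (h : EqF σ τ p) : AgreeF k σ τ p :=
  fun _ _ _ hq => ⟨fun h1 => h1.congr_right (h.mono hq),
    fun h1 => h1.congr_right (h.symm.mono hq)⟩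

theorem AgreeF.trans {k : ℕ} {σ τ υ : Name P} {p : P} (h : AgreeF k σ τ p)
    (h' : AgreeF k τ υ p) : AgreeF k σ υ p :=
  fun i hi q hq => (h i hi q hq).trans (h' i hi q hq)

theorem AgreeF.symm {k : ℕ} {σ τ : Name P} {p : P} (h : AgreeF k σ τ p) : AgreeF k τ σ p :=
  fun i hi q hq => (h i hi q hq).symm

theorem forces_fClosed {w C : ℕ} {v : ℕ → Name P} {p : P} (hv : v w = omegaN) :
    Forces (fClosed w C) v p ↔
      (∀ ρ, ∀ r, r ≤ p → MemF ρ (v C) r → SubF ρ omegaN r) ∧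
      ∀ ρ, ∀ r, r ≤ p → SubF ρ omegaN r →
        (∀ k : ℕ, ∀ q, q ≤ r → ∃ t, t ≤ q ∧ ∃ y, MemF y (v C) t ∧ AgreeF k ρ y t) →
        MemF ρ (v C) r := by
  have h0 : ∀ (τ : Name P) (r : P), Forces (dSub 0 (w + 1)) (cons τ v) r ↔ SubF τ omegaN r := by
    intro τ r
    rw [forces_dSub, cons_zero, cons_succ, hv]
  have h1 : ∀ (τ : Name P) (r : P),
      Forces (fball (w + 1) (fex (.fand (.fmem 0 (C + 3)) (fAgree 1 2 0)))) (cons τ v) r ↔
      ∀ k : ℕ, ∀ q, q ≤ r → ∃ t, t ≤ q ∧ ∃ y, MemF y (v C) t ∧ AgreeF k τ y t := by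
    intro τ r
    rw [forces_ball_omega (by rw [cons_succ, hv])]
    refine forall_congr' fun k => ?_
    rw [forces_ex]
    refine forall₂_congr fun q _ => exists_congr fun t => and_congr Iff.rfl
      (exists_congr fun y => ?_)
    rw [forces_and, forces_fAgree (n := 1) (k := k) rfl]
    rfl
  have h2 : Forces (fClosed w C) v p ↔ (∀ ρ, ∀ r, r ≤ p → MemF ρ (v C) r →
      Forces (dSub 0 (w + 1)) (cons ρ v) r) ∧
      ∀ ρ, ∀ r, r ≤ p → Forces (dSub 0 (w + 1)) (cons ρ v) r → ∀ q, q ≤ r →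
        Forces (fball (w + 1) (fex (.fand (.fmem 0 (C + 3)) (fAgree 1 2 0)))) (cons ρ v) q →
        MemF ρ (v C) q := by
    rw [fClosed, forces_and, forces_ball', forces_all_imp]
    refine and_congr Iff.rfl ?_
    refine forall_congr' fun τ => forall₂_congr fun q _ => imp_congr Iff.rfl ?_
    rw [forces_imp]
    rfl
  rw [h2]
  refine and_congr ?_ ?_
  · exact forall_congr' fun τ => forall₂_congr fun q _ => imp_congr Iff.rfl (h0 τ q)
  · constructor
    · intro h ρ r hr h3 h4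
      exact h ρ r hr ((h0 ρ r).2 h3) r le_rfl ((h1 ρ r).2 h4)
    · intro h ρ r hr h3 q hq h4
      exact h ρ q (hq.trans hr) (((h0 ρ r).1 h3).mono hq) ((h1 ρ q).1 h4)

/-- `p` forces that `C` is a closed set. -/
def ClosedF (C : Name P) (p : P) : Prop :=
  (∀ ρ, ∀ r, r ≤ p → MemF ρ C r → SubF ρ omegaN r) ∧
    ∀ ρ, ∀ r, r ≤ p → SubF ρ omegaN r →
      (∀ k : ℕ, ∀ q, q ≤ r → ∃ t, t ≤ q ∧ ∃ y, MemF y C t ∧ AgreeF k ρ y t) → MemF ρ C r

theorem closedF_iff_models {C : Name P} {p : P} :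
    ClosedF C p ↔ ∀ U : GenUlt P, U.Has p → ClosedSet (ModE U) (U.cl omegaN) (U.cl C) := by
  have h := forces_fClosed (w := 0) (C := 1) (v := cons omegaN fun _ => C) (p := p) rfl
  have h' : Forces (fClosed 0 1) (cons omegaN fun _ => C) p ↔ ClosedF C p := h
  rw [← h', forces_iff]
  refine forall₂_congr fun U _ => ?_
  rw [sat_fClosed]
  rfl

/-! ### Discrete families of names -/

section Disc

variable {D D' : Type u}

/-- The set with the elements `c d`. -/
def discN (c : D → Name P) : Name P := cn c (fun _ _ => True)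

theorem memF_discN {c : D → Name P} {ρ : Name P} {p : P} : MemF ρ (discN c) p ↔
    ∀ r, r ≤ p → ∃ s, s ≤ r ∧ ∃ d, EqF ρ (c d) s := by
  rw [discN, memF_cn (fun _ _ _ h _ => h)]
  simp only [true_and]

theorem mem_discN (c : D → Name P) (d : D) (p : P) : MemF (c d) (discN c) p :=
  memF_discN.2 fun r _ => ⟨r, le_rfl, d, EqF.refl _ _⟩

theorem mod_mem_discN (U : GenUlt P) (c : D → Name P) (d : D) :
    ModE U (U.cl (c d)) (U.cl (discN c)) :=
  modE_cl.2 (GenUlt.ev_true fun p => mem_discN c d p)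

theorem ev_mem_discN {U : GenUlt P} {c : D → Name P} {ρ : Name P} :
    U.Ev (MemF ρ (discN c)) ↔ U.Ev (fun p => ∃ d, EqF ρ (c d) p) := by
  rw [discN, ev_memF_cn (fun _ _ _ h _ => h)]
  simp only [true_and]

/-- The graph of a function. -/
def graphN (c : D → Name P) (c' : D → Name P) : Name P := relN c c' (fun _ _ => True)

theorem isApp_graphN (U : GenUlt P) {c c' : D → Name P} (σ τ : Name P) :
    IsApp (ModE U) (U.cl (graphN c c')) (U.cl σ) (U.cl τ) ↔
      U.Ev (fun p => ∃ d, EqF σ (c d) p ∧ EqF τ (c' d) p) := by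
  unfold graphN
  rw [isApp_relN U _ _ (fun i p q h hq => h)]
  simp only [true_and]

theorem isFun_graphN (U : GenUlt P) {c c' : D → Name P} {b : Name P}
    (hc : ∀ d d' p, EqF (c d) (c d') p → d = d') (hb : ∀ d p, MemF (c' d) b p) :
    IsFun (ModE U) (U.cl (graphN c c')) (U.cl (discN c)) (U.cl b) := by
  constructor
  · intro z hz
    obtain ⟨ζ, rfl⟩ := exists_cl z
    rw [modE_cl, graphN, relN, ev_memF_cn (fun i p q h hq => h)] at hz
    have h1 : Sat (ModE U) (fbex 1 (fbex 3 (dOPair 2 1 0)))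
        (fun i => U.cl (cons ζ (cons (discN c) (fun _ => b)) i)) := by
      rw [los]
      refine hz.imp ?_
      rintro p ⟨i, -, h2⟩
      rw [forces_iff]
      intro V hV
      simp only [sat_bex, sat_dOPair, cons_zero, cons_one, cons_two, cons_three]
      refine ⟨V.cl (c i), mod_mem_discN V c i, V.cl (c' i),
        memF_iff_models.1 (hb i p) V hV, ?_⟩
      rw [isOPair_iff]
      exact eqF_iff_models.1 h2 V hV
    simp only [sat_bex, sat_dOPair, cons_zero, cons_one, cons_two, cons_three] at h1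
    obtain ⟨x, hx, y, hy, h1⟩ := h1
    exact ⟨x, y, hx, hy, h1⟩
  · intro x hx
    obtain ⟨ρ, rfl⟩ := exists_cl x
    rw [modE_cl, ev_mem_discN] at hx
    apply existsUnique_of_exists_of_unique
    · have h1 : Sat (ModE U) (fbex 1 (dApp 3 1 0))
          (fun i => U.cl (cons ρ (cons b (fun _ => graphN c c')) i)) := by
        rw [los]
        refine hx.imp ?_
        rintro p ⟨d, h1⟩
        rw [forces_iff]
        intro V hV
        simp only [sat_bex, sat_dApp, cons_zero, cons_one, cons_two, cons_three]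
        refine ⟨V.cl (c' d), memF_iff_models.1 (hb d p) V hV, ?_⟩
        rw [isApp_graphN]
        exact GenUlt.Ev.imp hV fun s hs => ⟨d, h1.mono hs, EqF.refl _ _⟩
      simp only [sat_bex, sat_dApp, cons_zero, cons_one, cons_two, cons_three] at h1
      exact h1
    · rintro y y' ⟨_, h1⟩ ⟨_, h2⟩
      obtain ⟨υ, rfl⟩ := exists_cl y
      obtain ⟨υ', rfl⟩ := exists_cl y'
      rw [isApp_graphN U] at h1 h2
      rw [cl_eq]
      refine h1.imp2 h2 ?_
      rintro p ⟨d, h4, h5⟩ ⟨d', h7, h8⟩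
      have e : d = d' := hc d d' p (h4.symm.trans h7)
      subst e
      exact h5.trans h8.symm

theorem hasInj_graphN (U : GenUlt P) {c c' : D → Name P} {b : Name P}
    (hc : ∀ d d' p, EqF (c d) (c d') p → d = d') (hb : ∀ d p, MemF (c' d) b p)
    (hc' : ∀ d d' p, EqF (c' d) (c' d') p → d = d') :
    HasInj (ModE U) (U.cl (discN c)) (U.cl b) := by
  refine ⟨_, isFun_graphN U hc hb, ?_⟩
  intro x x' y hx hx'
  obtain ⟨ρ, rfl⟩ := exists_cl x
  obtain ⟨ρ', rfl⟩ := exists_cl x'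
  obtain ⟨υ, rfl⟩ := exists_cl y
  rw [isApp_graphN U] at hx hx'
  rw [cl_eq]
  refine hx.imp2 hx' ?_
  rintro p ⟨d, h4, h5⟩ ⟨d', h7, h8⟩
  have e : d = d' := hc' d d' p (h5.symm.trans h8)
  subst e
  exact h4.trans h7.symm

theorem hasSurj_graphN (U : GenUlt P) {c c' : D → Name P}
    (hc : ∀ d d' p, EqF (c d) (c d') p → d = d') :
    HasSurj (ModE U) (U.cl (discN c)) (U.cl (discN c')) := by
  refine ⟨_, isFun_graphN U hc (fun d p => mem_discN c' d p), ?_⟩
  intro y hy
  obtain ⟨υ, rfl⟩ := exists_cl y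
  rw [modE_cl, ev_mem_discN] at hy
  have h1 : Sat (ModE U) (fex (dApp 2 0 1))
      (fun i => U.cl (cons υ (fun _ => graphN c c') i)) := by
    rw [los]
    refine hy.imp ?_
    rintro p ⟨d, h1⟩
    refine forces_ex_of (c d) ?_
    rw [forces_iff]
    intro V hV
    simp only [sat_dApp, cons_zero, cons_one, cons_two]
    have e : (fun i => V.cl (cons (c d) (cons υ (fun _ => graphN c c')) i)) 2 =
      V.cl (graphN c c') := rfl
    rw [isApp_graphN]
    exact GenUlt.Ev.imp hV fun s hs => ⟨d, EqF.refl _ _, h1.mono hs⟩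
  simp only [sat_ex, sat_dApp, cons_zero, cons_one, cons_two] at h1
  exact h1

end Disc

end Simple

end Pool.Agent.Lib.MP_40b13d_lc
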