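import Mathlib
import Pool.Agent.Lib.MP_40b13d_lc.Coin

/-!
# Countably perfectly null sets are countably perfectly meager
-/

open MeasureTheory Set Topology TopologicalSpace

namespace Pool.Agent.Lib.MP_40b13d_lc

/-- A nonatomic probability measure living on a relatively open part of a perfect set. -/
theorem exists_measure_on {X : Type*} [TopologicalSpace X] [PolishSpace X] [MeasurableSpace X]
    [BorelSpace X] {P V : Set X} (hP : Perfect P) (hV : IsOpen V) (hne : (V ∩ P).Nonempty) :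
    ∃ μ : Measure X, μ univ = 1 ∧ (∀ x, μ {x} = 0) ∧ μ (V ∩ P)ᶜ = 0 := by
  letI := upgradeIsCompletelyMetrizable X
  obtain ⟨x, hxV, hxP⟩ := hne
  obtain ⟨U, hUo, hxU, hUV⟩ : ∃ U : Set X, IsOpen U ∧ x ∈ U ∧ closure U ⊆ V := by
    obtain ⟨W, hW, hWc, hWV⟩ := exists_mem_nhds_isClosed_subset (hV.mem_nhds hxV)
    obtain ⟨U, hUW, hU, hxU⟩ := mem_nhds_iff.1 hW
    exact ⟨U, hU, hxU, (closure_minimal hUW hWc).trans hWV⟩
  obtain ⟨hperf, hne⟩ := hP.closure_nhds_inter x hxP hxU hUo
  obtain ⟨f, hf, hfc, hfi⟩ := hperf.exists_nat_bool_injection hne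
  refine ⟨coin.map f, ?_, fun y => ?_, ?_⟩
  · rw [Measure.map_apply hfc.measurable MeasurableSet.univ, preimage_univ, measure_univ]
  · rw [Measure.map_apply hfc.measurable (measurableSet_singleton y)]
    have h1 : (f ⁻¹' {y}).Subsingleton := by
      intro a ha b hb
      exact hfi (ha.trans hb.symm)
    rcases h1.eq_empty_or_singleton with h | ⟨z, h⟩
    · rw [h, measure_empty]
    · rw [h, coin_singleton]
  · have hm : MeasurableSet (V ∩ P)ᶜ := (hV.measurableSet.inter hP.closed.measurableSet).compl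
    rw [Measure.map_apply hfc.measurable hm]
    have : f ⁻¹' (V ∩ P)ᶜ = ∅ := by
      ext z
      simp only [mem_preimage, mem_compl_iff, mem_empty_iff_false, iff_false, not_not]
      have h1 : f z ∈ closure (U ∩ P) := hf (mem_range_self z)
      exact ⟨hUV (closure_mono inter_subset_left h1),
        closure_minimal inter_subset_right hP.closed h1⟩
    rw [this, measure_empty]

theorem CountablyPerfectlyNull.meager {X : Type*} [TopologicalSpace X] [PolishSpace X]
    [MeasurableSpace X] [BorelSpace X] {A : Set X} (h : CountablyPerfectlyNull A) :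
    CountablyPerfectlyMeager A := by
  classical
  intro P hP
  obtain ⟨b, hbc, -, hb⟩ := exists_countable_basis X
  rcases b.eq_empty_or_nonempty with rfl | hbne
  · -- the space is empty
    have hX : IsEmpty X := by
      constructor
      intro x
      have := hb.exists_subset_of_mem_open (mem_univ x) isOpen_univ
      simp at this
    obtain ⟨x, -⟩ := (hP 0).1
    exact isEmptyElim x
  obtain ⟨V, hV⟩ := hbc.exists_eq_range hbne
  have hVo : ∀ j, IsOpen (V j) := fun j => hb.isOpen (hV ▸ mem_range_self j)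
  have key : ∀ n j, ∃ μ : Measure X, μ univ ≤ 1 ∧ (∀ x, μ {x} = 0) ∧
      ((V j ∩ P n).Nonempty → μ (V j ∩ P n) ≠ 0) := by
    intro n j
    by_cases hne : (V j ∩ P n).Nonempty
    · obtain ⟨μ, h1, h2, h3⟩ := exists_measure_on (hP n).2 (hVo j) hne
      refine ⟨μ, h1.le, h2, fun _ h4 => ?_⟩
      have h5 : μ univ ≤ μ (V j ∩ P n) + μ (V j ∩ P n)ᶜ := by
        rw [← union_compl_self (V j ∩ P n)]
        exact measure_union_le _ _
      rw [h1, h4, h3] at h5
      simp at h5
    · exact ⟨0, by simp, by simp, fun h => absurd h hne⟩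
  choose μ hμ1 hμ2 hμ3 using key
  set ν : Measure X := Measure.sum fun i : ℕ => (2⁻¹ : ENNReal) ^ i • μ i.unpair.1 i.unpair.2
    with hν
  have hfin : IsFiniteMeasure ν := by
    constructor
    rw [hν, Measure.sum_apply _ MeasurableSet.univ]
    calc ∑' i : ℕ, ((2⁻¹ : ENNReal) ^ i • μ i.unpair.1 i.unpair.2) univ
        ≤ ∑' i : ℕ, (2⁻¹ : ENNReal) ^ i := by
          refine ENNReal.tsum_le_tsum fun i => ?_
          rw [Measure.smul_apply, smul_eq_mul]
          exact mul_le_of_le_one_right' (hμ1 _ _)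
      _ = 2 := by rw [ENNReal.tsum_geometric]; simp
      _ < ⊤ := by simp
  have hatom : ∀ x, ν {x} = 0 := by
    intro x
    rw [hν, Measure.sum_apply _ (measurableSet_singleton x)]
    simp [hμ2]
  obtain ⟨F, hF, hAF, hF0⟩ := h ν hfin hatom
  refine ⟨F, hF, hAF, fun n => ?_⟩
  rw [preimage_iUnion]
  refine isMeagre_iUnion fun k => ?_
  apply IsNowhereDense.isMeagre
  rw [IsClosed.isNowhereDense_iff ((hF k).preimage continuous_subtype_val)]
  by_contra hcon
  rw [← ne_eq, ← nonempty_iff_ne_empty] at hcon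
  obtain ⟨⟨x, hxP⟩, hx⟩ := hcon
  obtain ⟨W, hWsub, hWo, hxW⟩ := mem_interior.1 hx
  obtain ⟨W', hW', rfl⟩ := isOpen_induced_iff.1 hWo
  obtain ⟨U, hUb, hxU, hUW⟩ := hb.exists_subset_of_mem_open (show x ∈ W' from hxW) hW'
  rw [hV] at hUb
  obtain ⟨j, rfl⟩ := hUb
  apply hμ3 n j ⟨x, hxU, hxP⟩
  have h1 : V j ∩ P n ⊆ ⋃ k, F k := by
    rintro y ⟨hy, hyP⟩
    exact mem_iUnion.2 ⟨k, hWsub (show (⟨y, hyP⟩ : P n) ∈ _ from hUW hy)⟩
  refine measure_mono_null h1 ?_
  have h2 : ν (⋃ k, F k) = 0 := hF0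
  have hm : MeasurableSet (⋃ k, F k) := MeasurableSet.iUnion fun k => (hF k).measurableSet
  rw [hν, Measure.sum_apply _ hm, ENNReal.tsum_eq_zero] at h2
  have h3 := h2 (Nat.pair n j)
  rw [Measure.smul_apply, smul_eq_mul, Nat.unpair_pair] at h3
  simpa using h3

end Pool.Agent.Lib.MP_40b13d_lc
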