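import Pool.Agent.Lib.MP_40b13d_lc.NullN

/-!
# If `(♣)` has Boolean value `⊤` then it holds in a model of ZFC
-/

namespace Pool.Agent.Lib.MP_40b13d_lc

open Pool.Agent.Lib.Forcing

variable {B : Type} [CompleteBooleanAlgebra B]

theorem le_bv_dense {R : Pos B → Prop} (hm : ∀ p q, R p → q ≤ p → R q) {p : Pos B} :
    p.1 ≤ bv R ↔ ∀ q, q ≤ p → ∃ r, r ≤ q ∧ R r := by
  constructor
  · intro h q hq
    obtain ⟨r, hr, p', h1⟩ := exists_le_of_le_iSup (le_trans (show q.1 ≤ p.1 from hq) h)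
    obtain ⟨r', hr', h2, h3⟩ := exists_le_of_le_iSup h1
    exact ⟨r', hr'.trans hr, hm _ _ h2 h3⟩
  · intro h
    apply le_of_dense
    intro q hq
    obtain ⟨r, hr, h1⟩ := h q hq
    exact ⟨r, hr, le_iSup_of_le r (le_iSup_of_le h1 le_rfl)⟩

theorem le_bv_self {R : Pos B → Prop} {p : Pos B} (h : R p) : p.1 ≤ bv R :=
  le_iSup_of_le p (le_iSup_of_le h le_rfl)

/-- The set of points given by a name. -/
def toSet (A : Name (Pos B)) : (ℕ → B) → B := fun x => bv (MemF (ptN x) A)

theorem toSet_ext (A : Name (Pos B)) (x y : ℕ → B) : eqPoint x y ⊓ toSet A x ≤ toSet A y := by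
  apply le_of_dense
  intro q hq
  refine ⟨q, le_rfl, ?_⟩
  have h1 : EqF (ptN x) (ptN y) q := eqF_ptN_ptN.2 (le_trans hq inf_le_left)
  have h2 : MemF (ptN x) A q := le_bv_mem.1 (le_trans hq inf_le_right)
  exact le_bv_mem.2 (h2.congr_left h1)

/-- The countable set of closed sets given by a sequence of codes. -/
def famC (F : ℕ → List Bool → B) : Name (Pos B) := discN fun k : ULift.{0} ℕ => clN (F k.down)

theorem memF_famC {F : ℕ → List Bool → B} {ρ : Name (Pos B)} {p : Pos B} :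
    MemF ρ (famC F) p ↔ ∀ r, r ≤ p → ∃ s, s ≤ r ∧ ∃ k, EqF ρ (clN (F k)) s := by
  rw [famC, memF_discN]
  constructor
  · intro h r hr
    obtain ⟨s, hs, ⟨k⟩, h1⟩ := h r hr
    exact ⟨s, hs, k, h1⟩
  · intro h r hr
    obtain ⟨s, hs, k, h1⟩ := h r hr
    exact ⟨s, hs, ⟨k⟩, h1⟩

theorem clN_mem_famC (F : ℕ → List Bool → B) (k : ℕ) (p : Pos B) : MemF (clN (F k)) (famC F) p :=
  memF_famC.2 fun r _ => ⟨r, le_rfl, k, EqF.refl _ _⟩

theorem hasSurj_famC (F : ℕ → List Bool → B) (U : GenUlt (Pos B)) :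
    HasSurj (ModE U) (U.cl omegaN) (U.cl (famC F)) :=
  hasSurj_graphN U (c := fun i : ULift.{0} ℕ => natN i.down) fun d d' p h => by
    have := natN_inj h
    cases d; cases d'
    simp only at this
    rw [this]

theorem forces_fSurj_famC {F : ℕ → List Bool → B} {w a : ℕ} {v : ℕ → Name (Pos B)}
    (hw : v w = omegaN) (ha : v a = famC F) (p : Pos B) : Forces (fSurj w a) v p := by
  rw [forces_iff]
  intro U _
  rw [sat_fSurj, hw, ha]
  exact hasSurj_famC F U

variable {A : Name (Pos B)} {v : ℕ → Name (Pos B)} {r : Pos B}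

theorem alt1 {F : ℕ → List Bool → B} (hA : ∀ τ q, q ≤ r → MemF τ A q → SubF τ omegaN q)
    (h1 : ∀ k, r.1 ≤ nullv (F k)) (h2 : r.1 ≤ covers (toSet A) F) :
    Forces (fAlt1 1 0) (cons A (cons omegaN v)) r := by
  rw [fAlt1]
  refine forces_ex_of (famC F) ?_
  rw [forces_and, forces_and]
  refine ⟨forces_fSurj_famC rfl rfl r, ?_, ?_⟩
  · rw [forces_all_imp]
    intro τ q hq h3
    apply Forces.dense
    intro q' hq'
    obtain ⟨t, ht, k, h4⟩ := memF_famC.1 h3 q' hq'
    refine ⟨t, ht, Forces.congr_cons h4.symm ?_⟩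
    have htr : t ≤ r := (ht.trans hq').trans hq
    rw [forces_and]
    constructor
    · rw [forces_fClosed (w := 3) rfl]
      exact closedF_clN (F k) t
    · rw [forces_fNull (w := 3) rfl]
      exact nullF_of_le (le_trans (show t.1 ≤ r.1 from htr) (h1 k))
  · rw [fCovers, forces_ball']
    intro τ q hq h3
    rw [forces_ex]
    intro q' hq'
    have h4 : EqF τ (ptN (toPt τ)) q' := (eqF_ptN (hA τ q hq h3)).mono hq'
    have h5 : q'.1 ≤ toSet A (toPt τ) := le_bv_mem.2 ((h3.mono hq').congr_left h4)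
    have h6 : q'.1 ≤ toSet A (toPt τ) ⇨ ⨆ k, memClosed (toPt τ) (F k) :=
      le_trans (show q'.1 ≤ r.1 from hq'.trans hq) (le_trans h2 (iInf_le _ _))
    have h7 : q'.1 ≤ ⨆ k, memClosed (toPt τ) (F k) :=
      le_trans (le_inf h5 h6) inf_himp_le
    obtain ⟨t, ht, k, h8⟩ := exists_le_of_le_iSup h7
    refine ⟨t, ht, clN (F k), ?_⟩
    rw [forces_and]
    exact ⟨clN_mem_famC F k t, (ptN_mem_clN.2 h8).congr_left (h4.symm.mono ht)⟩

/-- codes of the members of a countable set of closed sets -/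
def RC (f : Name (Pos B)) (k : ℕ) (u : List Bool) (t : Pos B) : Prop :=
  ∃ C x, MemF (opN (natN k) C) f t ∧ MemF x C t ∧ AgreeF u.length (listN u) x t

theorem RC.mono {f : Name (Pos B)} {k : ℕ} {u : List Bool} {t s : Pos B} (h : RC f k u t)
    (hs : s ≤ t) : RC f k u s := by
  obtain ⟨C, x, h1, h2, h3⟩ := h
  exact ⟨C, x, h1.mono hs, h2.mono hs, h3.mono hs⟩

theorem alt2 {Z : ℕ → List Bool → B} (hA : ∀ τ q, q ≤ r → MemF τ A q → SubF τ omegaN q)
    (h1 : ∀ k, r.1 ≤ (nullv (Z k))ᶜ)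
    (h2 : ∀ F, r.1 ≤ covers (toSet A) F ⇨ ⨆ n, ⨆ k, subClosed (Z n) (F k)) :
    Forces (fAlt2 1 0) (cons A (cons omegaN v)) r := by
  rw [fAlt2]
  refine forces_ex_of (famC Z) ?_
  rw [forces_and, forces_and]
  refine ⟨forces_fSurj_famC rfl rfl r, ?_, ?_⟩
  · rw [forces_all_imp]
    intro τ q hq h3
    apply Forces.dense
    intro q' hq'
    obtain ⟨t, ht, k, h4⟩ := memF_famC.1 h3 q' hq'
    refine ⟨t, ht, Forces.congr_cons h4.symm ?_⟩
    have htr : t ≤ r := (ht.trans hq').trans hq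
    rw [forces_and]
    constructor
    · rw [forces_fClosed (w := 3) rfl]
      exact closedF_clN (Z k) t
    · rw [forces_neg]
      intro s hs
      rw [forces_fNull (w := 3) rfl]
      intro h5
      have h6 : s.1 ≤ nullv (Z k) := le_of_nullF h5
      have h7 : s.1 ≤ (nullv (Z k))ᶜ := le_trans (show s.1 ≤ r.1 from hs.trans htr) (h1 k)
      exact le_compl_iff.1 h7 s le_rfl h6
  · rw [forces_all_imp]
    intro D q1 hq1 hsurj
    rw [forces_imp]
    intro q2 hq2 hclosed
    rw [forces_imp]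
    intro q3 hq3 hcov
    apply Forces.dense
    intro q hq
    -- a name for the enumeration
    obtain ⟨q4, hq4, f, hf⟩ := forces_ex.1 (hsurj.mono ((hq.trans hq3).trans hq2)) q le_rfl
    have hfU : ∀ U : GenUlt (Pos B), U.Has q4 → IsFun (ModE U) (U.cl f) (U.cl omegaN) (U.cl D) ∧
        ∀ y, ModE U y (U.cl D) → ∃ x, IsApp (ModE U) (U.cl f) x y := by
      intro U hU
      have := forces_iff.1 hf U hU
      simp only [sat_and, sat_dFun, sat_ball, sat_ex, sat_dApp, cons_zero, cons_succ, cons_one,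
        cons_two] at this
      exact this
    have hclosedC : ∀ C t, t ≤ q2 → MemF C D t → ClosedF C t := by
      intro C t ht h3
      have h4 := forces_all_imp.1 hclosed C t ht h3
      rw [forces_fClosed (w := 4) rfl] at h4
      exact h4
    have hcov' : ∀ τ t, t ≤ q3 → MemF τ A t → ∀ s, s ≤ t → ∃ s', s' ≤ s ∧ ∃ C, MemF C D s' ∧
        MemF τ C s' := by
      intro τ t ht h3
      have h4 := forces_ball'.1 hcov τ t ht h3
      rw [forces_ex] at h4
      intro s hs
      obtain ⟨s', hs', C, h5⟩ := h4 s hs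
      rw [forces_and] at h5
      exact ⟨s', hs', C, h5.1, h5.2⟩
    have hcase : ∀ C t, t ≤ q4 → MemF C D t → ∀ s, s ≤ t → ∃ s', s' ≤ s ∧ ∃ k : ℕ,
        MemF (opN (natN k) C) f s' := by
      intro C t ht h3 s hs
      have h4 : Forces (fex (.fand (.fmem 0 3) (dApp 2 0 1)))
          (cons C (cons f fun _ => omegaN)) s := by
        rw [forces_iff]
        intro U hU
        simp only [sat_ex, sat_and, sat_mem, sat_dApp, cons_zero, cons_one, cons_two, cons_three]
        have hU4 := hU.mono (hs.trans ht)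
        obtain ⟨h5, h6⟩ := hfU U hU4
        obtain ⟨x, hx⟩ := h6 _ (memF_iff_models.1 h3 U (hU.mono hs))
        refine ⟨x, ?_, hx⟩
        obtain ⟨z, hz, h7⟩ := hx
        obtain ⟨x', y', hx', -, h8⟩ := h5.1 z hz
        rw [(h7.inj (mod_isZFC U) h8).1]
        exact hx'
      obtain ⟨s1, hs1, n, h5⟩ := forces_ex.1 h4 s le_rfl
      rw [forces_and, forces_dApp] at h5
      obtain ⟨s2, hs2, k, h6⟩ := memF_omegaN.1 (show MemF n omegaN s1 from h5.1) s1 le_rfl
      refine ⟨s2, hs2.trans hs1, k, ?_⟩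
      have h7 : MemF (opN n C) f s1 := h5.2
      exact (h7.mono hs2).congr_left (eqF_opN.2 ⟨h6, EqF.refl _ _⟩)
    set T : ℕ → List Bool → B := fun k u => bv (RC f k u) with hT
    have h5 : q4.1 ≤ covers (toSet A) T := by
      rw [covers, le_iInf_iff]
      intro x
      rw [le_himp_iff]
      apply le_of_dense
      intro s hs
      have hsq : s ≤ q4 := (show s.1 ≤ q4.1 from le_trans hs inf_le_left)
      have h6 : MemF (ptN x) A s := le_bv_mem.1 (le_trans hs inf_le_right)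
      obtain ⟨s1, hs1, C, h7, h8⟩ := hcov' _ s (hsq.trans (hq4.trans hq)) h6 s le_rfl
      obtain ⟨s2, hs2, k, h9⟩ := hcase C s1 (hs1.trans hsq) h7 s1 le_rfl
      refine ⟨s2, hs2.trans hs1, le_iSup_of_le k ?_⟩
      rw [le_memClosed]
      intro u s' hs' h10
      exact le_bv_self ⟨C, ptN x, h9.mono hs', h8.mono (hs'.trans hs2), agreeF_listN.2 h10⟩
    have h6 : q4.1 ≤ ⨆ n, ⨆ k, subClosed (Z n) (T k) := by
      have h7 : q4.1 ≤ r.1 := hq4.trans (hq.trans (hq3.trans (hq2.trans hq1)))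
      exact le_trans (le_inf h5 (le_trans h7 (h2 T))) inf_himp_le
    obtain ⟨t0, ht0, n, h7⟩ := exists_le_of_le_iSup h6
    obtain ⟨t1, ht1, k, h8⟩ := exists_le_of_le_iSup h7
    have ht1q : t1 ≤ q4 := ht1.trans ht0
    -- a name for the closed set number `k`
    have h9 : Forces (fex (.fand (.fmem 0 1) (dApp 2 3 0)))
        (cons D (cons f fun _ => natN k)) t1 := by
      rw [forces_iff]
      intro U hU
      simp only [sat_ex, sat_and, sat_mem, sat_dApp, cons_zero, cons_one, cons_two, cons_three]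
      obtain ⟨h10, -⟩ := hfU U (hU.mono ht1q)
      exact (h10.2 _ (modE_cl.2 (GenUlt.ev_true fun p => natN_mem_omegaN k p))).exists
    obtain ⟨t2, ht2, C, h10⟩ := forces_ex.1 h9 t1 le_rfl
    rw [forces_and, forces_dApp] at h10
    have hCD : MemF C D t2 := h10.1
    have hCf : MemF (opN (natN k) C) f t2 := h10.2
    have ht2q : t2 ≤ q4 := ht2.trans ht1q
    have hCcl : ClosedF C t2 := hclosedC C t2 (ht2q.trans (hq4.trans (hq.trans hq3))) hCD
    have huniq : ∀ C' s, s ≤ t2 → MemF (opN (natN k) C') f s → EqF C' C s := by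
      intro C' s hs h11
      rw [eqF_iff_models]
      intro U hU
      obtain ⟨h12, -⟩ := hfU U (hU.mono (hs.trans ht2q))
      have h13 : IsApp (ModE U) (U.cl f) (U.cl (natN k)) (U.cl C') := by
        rw [isApp_iff]
        exact GenUlt.Ev.imp hU fun s' hs' => h11.mono hs'
      have h14 : IsApp (ModE U) (U.cl f) (U.cl (natN k)) (U.cl C) := by
        rw [isApp_iff]
        exact GenUlt.Ev.imp (hU.mono hs) fun s' hs' => hCf.mono hs'
      have h15 : ∀ y, IsApp (ModE U) (U.cl f) (U.cl (natN k)) y → ModE U y (U.cl D) := by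
        rintro y ⟨z, hz, h16⟩
        obtain ⟨x', y', -, hy', h17⟩ := h12.1 z hz
        rw [(h16.inj (mod_isZFC U) h17).2]
        exact hy'
      exact (h12.2 _ (modE_cl.2 (GenUlt.ev_true fun p => natN_mem_omegaN k p))).unique
        ⟨h15 _ h13, h13⟩ ⟨h15 _ h14, h14⟩
    have hsub : SubF (clN (Z n)) C t2 := by
      intro ρ s hs h11
      apply MemF.dense
      intro s' hs'
      obtain ⟨s1, hs1, x, h12, h13⟩ := memF_clN.1 h11 s' hs'
      refine ⟨s1, hs1, MemF.congr_left h13.symm ?_⟩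
      have hs1t : s1 ≤ t2 := hs1.trans (hs'.trans hs)
      have h14 : s1.1 ≤ memClosed x (T k) := by
        have h15 : s1.1 ≤ memClosed x (Z n) ⇨ memClosed x (T k) :=
          le_trans (show s1.1 ≤ t1.1 from hs1t.trans ht2) (le_trans h8 (iInf_le _ x))
        exact le_trans (le_inf h12 h15) inf_himp_le
      refine hCcl.2 (ptN x) s1 hs1t (ptN_sub x s1) ?_
      intro j q' hq'
      obtain ⟨q5, hq5, u, hu, h15⟩ := exists_initSeg x j q'
      have h16 : q5.1 ≤ T k u := le_memClosed.1 h14 u q5 (hq5.trans hq') h15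
      obtain ⟨t, ht, C', x', h17, h18, h19⟩ :=
        (le_bv_dense (fun _ _ h hq => RC.mono h hq)).1 h16 q5 le_rfl
      refine ⟨t, ht.trans hq5, x', ?_, ?_⟩
      · exact h18.congr_right (huniq C' t (ht.trans (hq5.trans (hq'.trans hs1t))) h17)
      · have h20 : AgreeF u.length (listN u) (ptN x) t :=
          agreeF_listN.2 (le_trans (show t.1 ≤ q5.1 from ht) h15)
        rw [← hu]
        exact h20.symm.trans h19
    refine ⟨t2, ht2q.trans hq4, ?_⟩
    refine forces_ex_of (clN (Z n)) (forces_ex_of C ?_)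
    rw [forces_and, forces_and, forces_dSub]
    exact ⟨clN_mem_famC Z n t2, hCD, hsub⟩

theorem forces_club (h : clubv B = ⊤) (v : ℕ → Name (Pos B)) (p : Pos B) :
    Forces fClub v p := by
  rw [fClub, forces_all_imp]
  intro w q0 _ hw
  rw [forces_fOmega] at hw
  refine Forces.congr_cons (σ := omegaN) (EqF.symm hw) ?_
  rw [forces_all_imp]
  intro A q1 hq1 hA
  rw [forces_ball'] at hA
  rw [forces_or]
  intro q hq
  have hA' : ∀ τ s, s ≤ q1 → MemF τ A s → SubF τ omegaN s := by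
    intro τ s hs h1
    have h2 := hA τ s hs h1
    rw [forces_dSub] at h2
    exact h2
  have h1 : (⊤ : B) ≤ (⨆ F : ℕ → List Bool → B, (⨅ k, nullv (F k)) ⊓ covers (toSet A) F) ⊔
      (⨆ Z : ℕ → List Bool → B, (⨅ n, (nullv (Z n))ᶜ) ⊓
        ⨅ F : ℕ → List Bool → B, covers (toSet A) F ⇨ ⨆ n, ⨆ k, subClosed (Z n) (F k)) := by
    rw [← h, clubv]
    exact iInf₂_le (toSet A) (toSet_ext A)
  obtain ⟨r, hr, h2 | h2⟩ := exists_le_of_le_sup (le_trans (le_top : q.1 ≤ ⊤) h1)
  · obtain ⟨s, hs, F, h3⟩ := exists_le_of_le_iSup h2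
    refine ⟨s, hs.trans hr, Or.inl (alt1 (F := F)
      (fun τ t ht h4 => hA' τ t (ht.trans ((hs.trans hr).trans hq)) h4) ?_ ?_)⟩
    · intro k
      exact le_trans h3 (le_trans inf_le_left (iInf_le _ k))
    · exact le_trans h3 inf_le_right
  · obtain ⟨s, hs, Z, h3⟩ := exists_le_of_le_iSup h2
    refine ⟨s, hs.trans hr, Or.inr (alt2 (Z := Z)
      (fun τ t ht h4 => hA' τ t (ht.trans ((hs.trans hr).trans hq)) h4) ?_ ?_)⟩
    · intro k
      exact le_trans h3 (le_trans inf_le_left (iInf_le _ k))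
    · intro F
      exact le_trans h3 (le_trans inf_le_right (iInf_le _ F))

/-- **There is a countable model of ZFC in which `(♣)` holds.** -/
theorem exists_model : ∃ (M : Type) (E : M → M → Prop), Countable M ∧ IsZFC M E ∧ Club E := by
  obtain ⟨B, hB1, hB2, hB⟩ := exists_algebra_v
  obtain ⟨U, -⟩ := exists_genUlt (⟨⊤, top_ne_bot⟩ : Pos B)
  refine exists_countable (M := Mod U) (E := ModE U) (U.cl omegaN) (mod_isZFC U) ?_
  have h1 := (los U fClub fun _ => omegaN).2
    (GenUlt.ev_true fun p => forces_club hB (fun _ => omegaN) p)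
  rw [sat_fClub] at h1
  exact h1

end Pool.Agent.Lib.MP_40b13d_lc
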