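import Pool.Agent.Lib.MP_40b13d_lc.CloB

/-!
# Null sets: from names to Boolean values
-/

namespace Pool.Agent.Lib.MP_40b13d_lc

open Pool.Agent.Lib.Forcing

variable {B : Type} [CompleteBooleanAlgebra B]

/-- All sequences of length `n`. -/
noncomputable def allL (n : ℕ) : Finset (List Bool) := (List.finite_length_eq Bool n).toFinset

theorem mem_allL {n : ℕ} {u : List Bool} : u ∈ allL n ↔ u.length = n := by simp [allL]

theorem le_hitv {T : List Bool → B} {u : List Bool} {p : Pos B} (h : p.1 ≤ hitv T u) :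
    ∀ q, q ≤ p → ∃ t, t ≤ q ∧ ∃ x : ℕ → B, t.1 ≤ initSeg x u ∧ t.1 ≤ memClosed x T := by
  intro q hq
  obtain ⟨t, ht, x, hx⟩ := exists_le_of_le_iSup (le_trans (show q.1 ≤ p.1 from hq) h)
  exact ⟨t, ht, x, le_trans hx inf_le_left, le_trans hx inf_le_right⟩

theorem le_hitv_of {T : List Bool → B} {u : List Bool} {p : Pos B} {x : ℕ → B}
    (h1 : p.1 ≤ initSeg x u) (h2 : p.1 ≤ memClosed x T) : p.1 ≤ hitv T u :=
  le_iSup_of_le x (le_inf h1 h2)

/-- Decide which clopen sets of a level are met. -/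
theorem exists_decide_hit (T : List Bool → B) (n : ℕ) (p : Pos B) :
    ∃ r, r ≤ p ∧ ∀ u ∈ allL n, r.1 ≤ hitv T u ∨ r.1 ≤ (hitv T u)ᶜ :=
  finite_decide (allL n) (fun u (r : Pos B) => r.1 ≤ hitv T u ∨ r.1 ≤ (hitv T u)ᶜ)
    (fun _ _ _ h hq => h.imp (fun h => le_trans hq h) (fun h => le_trans hq h)) p
    (fun u _ q _ => exists_decide q (hitv T u))

/-- The elements of a given family of finite sets. -/
def setL (S : Finset (List Bool)) : Name (Pos B) := discN fun u : {u // u ∈ S} => listN u.1

theorem memF_setL {S : Finset (List Bool)} {ρ : Name (Pos B)} {p : Pos B} :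
    MemF ρ (setL S) p ↔ ∀ r, r ≤ p → ∃ s, s ≤ r ∧ ∃ u ∈ S, EqF ρ (listN u) s := by
  rw [setL, memF_discN]
  simp only [Subtype.exists, exists_prop]

/-- The hit condition in terms of names. -/
theorem exists_mem_of_hitv {T : List Bool → B} {u : List Bool} {p : Pos B}
    (h : p.1 ≤ hitv T u) : ∀ q, q ≤ p → ∃ t, t ≤ q ∧ ∃ x, MemF x (clN T) t ∧
      AgreeF u.length (listN u) x t := by
  intro q hq
  obtain ⟨t, ht, x, h1, h2⟩ := le_hitv h q hq
  exact ⟨t, ht, ptN x, ptN_mem_clN.2 h2, agreeF_listN.2 h1⟩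

theorem hitv_of_exists_mem {T : List Bool → B} {u : List Bool} {p : Pos B}
    (h : ∀ q, q ≤ p → ∃ t, t ≤ q ∧ ∃ x, MemF x (clN T) t ∧ AgreeF u.length (listN u) x t) :
    p.1 ≤ hitv T u := by
  apply le_of_dense
  intro q hq
  obtain ⟨t, ht, x, h1, h2⟩ := h q hq
  obtain ⟨s, hs, y, h3, h4⟩ := memF_clN.1 h1 t le_rfl
  refine ⟨s, hs.trans ht, le_hitv_of (x := y) ?_ h3⟩
  exact agreeF_listN.1 ((h2.mono hs).trans (AgreeF.of_eqF h4))

/-- The trace of a closed set. -/
theorem trace_setL {T : List Bool → B} {n : ℕ} {S : Finset (List Bool)} {r : Pos B}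
    (hS : ∀ u ∈ S, u.length = n ∧ r.1 ≤ hitv T u)
    (hS' : ∀ u, u.length = n → u ∉ S → r.1 ≤ (hitv T u)ᶜ) {U : GenUlt (Pos B)} (hU : U.Has r) :
    IsTrace (ModE U) (U.cl (setL S)) (U.cl (natN n)) (U.cl (clN T)) := by
  have h : Forces (fTrace 0 1 2) (cons (setL S) (cons (natN n) fun _ => clN T)) r := by
    rw [forces_fTrace (n := 1) (k := n) rfl]
    intro τ q hq
    simp only [cons_zero, cons_two]
    constructor
    · intro h1
      constructor
      · apply SubF.dense
        intro q' hq'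
        obtain ⟨t, ht, u, hu, h2⟩ := memF_setL.1 h1 q' hq'
        exact ⟨t, ht, (listN_sub (hS u hu).1.le t).congr_left h2.symm⟩
      · intro q' hq'
        obtain ⟨t, ht, u, hu, h2⟩ := memF_setL.1 h1 q' hq'
        obtain ⟨t', ht', x, h3, h4⟩ := exists_mem_of_hitv (hS u hu).2 t
          ((ht.trans hq').trans hq)
        refine ⟨t', ht'.trans ht, x, h3, ?_⟩
        rw [(hS u hu).1] at h4
        exact (AgreeF.of_eqF (h2.mono ht')).trans h4
    · rintro ⟨h1, h2⟩
      apply MemF.dense
      intro q' hq'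
      obtain ⟨t, ht, u, hu, h3⟩ := exists_listN (h1.mono hq')
      refine ⟨t, ht, ?_⟩
      have h4 : t.1 ≤ hitv T u := by
        apply hitv_of_exists_mem
        intro q'' hq''
        obtain ⟨t', ht', x, h5, h6⟩ := h2 q'' ((hq''.trans ht).trans hq')
        refine ⟨t', ht', x, h5, ?_⟩
        rw [hu]
        exact (AgreeF.of_eqF (h3.symm.mono (ht'.trans hq''))).trans h6
      have h7 : u ∈ S := by
        by_contra hcon
        have h8 := le_trans (show t.1 ≤ r.1 from (ht.trans hq').trans hq) (hS' u hu hcon)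
        exact (le_compl_iff.1 h8 t le_rfl) h4
      rw [memF_setL]
      exact fun s hs => ⟨s, le_rfl, u, h7, h3.mono hs⟩
  have h1 := forces_iff.1 h U hU
  rw [sat_fTrace] at h1
  exact h1

theorem power_setL (n : ℕ) (U : GenUlt (Pos B)) :
    IsPower (ModE U) (U.cl (setL (allL n))) (U.cl (natN n)) := by
  have h : ∀ r : Pos B, Forces (fPower 0 1) (cons (setL (allL n)) fun _ => natN n) r := by
    intro r
    rw [forces_fPower]
    intro τ q _
    simp only [cons_zero, cons_one]
    constructor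
    · intro h1
      apply SubF.dense
      intro q' hq'
      obtain ⟨t, ht, u, hu, h2⟩ := memF_setL.1 h1 q' hq'
      exact ⟨t, ht, (listN_sub (mem_allL.1 hu).le t).congr_left h2.symm⟩
    · intro h1
      rw [memF_setL]
      intro q' hq'
      obtain ⟨t, ht, u, hu, h3⟩ := exists_listN (h1.mono hq')
      exact ⟨t, ht, u, mem_allL.2 hu, h3⟩
  have h1 := (los U (fPower 0 1) (cons (setL (allL n)) fun _ => natN n)).2 (GenUlt.ev_true h)
  rw [sat_fPower] at h1
  exact h1

theorem card_allL (n : ℕ) : (allL n).card = 2 ^ n := by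
  have h1 : Fintype.card {u : List Bool // u ∈ allL n} = Fintype.card (List.Vector Bool n) := by
    apply Fintype.card_congr
    exact Equiv.subtypeEquivRight fun u => mem_allL
  rw [Fintype.card_coe, card_vector, Fintype.card_bool] at h1
  exact h1

theorem nullF_of_le {T : List Bool → B} {p : Pos B} (h : p.1 ≤ nullv T) : NullF (clN T) p := by
  classical
  intro m q hq
  have h0 := le_trans (show q.1 ≤ p.1 from hq) (le_trans h (iInf_le _ m))
  obtain ⟨r0, hr0, n, h1⟩ := exists_le_of_le_iSup h0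
  obtain ⟨r1, hr1, S, h2⟩ := exists_le_of_le_iSup h1
  obtain ⟨r2, hr2, hS, h3⟩ := exists_le_of_le_iSup h2
  obtain ⟨r, hr, hdec⟩ := exists_decide_hit T n r2
  set S' : Finset (List Bool) := (allL n).filter fun u => r.1 ≤ hitv T u with hS'
  have hS'S : S' ⊆ S := by
    intro u hu
    rw [hS', Finset.mem_filter, mem_allL] at hu
    by_contra hcon
    have h4 : r.1 ≤ (hitv T u)ᶜ :=
      le_trans (le_trans (show r.1 ≤ r2.1 from hr) h3) (iInf₂_le u ⟨hu.1, hcon⟩)
    exact (le_compl_iff.1 h4 r le_rfl) hu.2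
  have hcard : S'.card * m ≤ 2 ^ n := (Nat.mul_le_mul_right m (Finset.card_le_card hS'S)).trans hS.2
  have hlen : ∀ u ∈ S', u.length = n := fun u hu => by
    rw [hS', Finset.mem_filter, mem_allL] at hu
    exact hu.1
  refine ⟨r, hr.trans (hr2.trans (hr1.trans hr0)), n, setL S', setL (allL n),
    discN fun e : ULift.{0} (Fin m) × {u // u ∈ S'} => opN (natN (e.1.down : ℕ)) (listN e.2.1), ?_⟩
  intro U hU
  refine ⟨trace_setL (fun u hu => ⟨hlen u hu, ?_⟩) (fun u hu hn => ?_) hU, power_setL n U, ?_, ?_⟩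
  · rw [hS', Finset.mem_filter] at hu
    exact hu.2
  · rcases hdec u (mem_allL.2 hu) with h4 | h4
    · exact absurd (by rw [hS', Finset.mem_filter]; exact ⟨mem_allL.2 hu, h4⟩) hn
    · exact h4
  · have h4 : U.cl (natN m) = U.cl (discN fun i : ULift.{0} (Fin m) => natN (i.down : ℕ)) :=
      cl_eq.2 (GenUlt.ev_true fun p => natN_eq_discN m p)
    rw [h4]
    exact mod_prod_discN U (fun i : ULift.{0} (Fin m) => natN (i.down : ℕ))
      (fun u : {u // u ∈ S'} => listN u.1)
  · have hcard' : Fintype.card (ULift.{0} (Fin m) × {u // u ∈ S'}) ≤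
        Fintype.card {u // u ∈ allL n} := by
      rw [Fintype.card_prod, Fintype.card_ulift, Fintype.card_fin, Fintype.card_coe,
        Fintype.card_coe, card_allL, mul_comm]
      exact hcard
    obtain ⟨g⟩ := Function.Embedding.nonempty_of_card_le hcard'
    refine hasInj_graphN U (c' := fun e => listN (g e).1) ?_ ?_ ?_
    · rintro ⟨⟨i⟩, u, hu⟩ ⟨⟨i'⟩, u', hu'⟩ p h5
      obtain ⟨h6, h7⟩ := eqF_opN.1 h5
      have h8 := natN_inj h6
      have h9 := listN_inj ((hlen u hu).trans (hlen u' hu').symm) h7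
      subst h9
      have h10 : i = i' := Fin.ext h8
      subst h10
      rfl
    · intro e p
      rw [memF_setL]
      exact fun s _ => ⟨s, le_rfl, (g e).1, (g e).2, EqF.refl _ _⟩
    · intro e e' p h5
      apply g.injective
      apply Subtype.ext
      exact listN_inj ((mem_allL.1 (g e).2).trans (mem_allL.1 (g e').2).symm) h5

theorem le_of_nullF {T : List Bool → B} {p : Pos B} (h : NullF (clN T) p) : p.1 ≤ nullv T := by
  classical
  rw [nullv, le_iInf_iff]
  intro m
  apply le_of_dense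
  intro q hq
  obtain ⟨r, hr, k, s, a, b, hm⟩ := h m q hq
  obtain ⟨r1, hr1, hdec⟩ := exists_decide_hit T k r
  set S : Finset (List Bool) := (allL k).filter fun u => r1.1 ≤ hitv T u with hS
  have hSmem : ∀ u ∈ S, u.length = k ∧ r1.1 ≤ hitv T u := fun u hu => by
    rw [hS, Finset.mem_filter, mem_allL] at hu
    exact hu
  -- a name for the injective function
  have hinj : Forces (fInj 0 1) (cons b fun _ => a) r1 := by
    rw [forces_iff]
    intro U hU
    rw [sat_fInj]
    exact (hm U (hU.mono hr1)).2.2.2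
  obtain ⟨r2, hr2, f, hf⟩ := forces_ex.1 hinj r1 le_rfl
  have hfU : ∀ U : GenUlt (Pos B), U.Has r2 → IsFun (ModE U) (U.cl f) (U.cl b) (U.cl a) ∧
      ∀ x x' y, IsApp (ModE U) (U.cl f) x y → IsApp (ModE U) (U.cl f) x' y → x = x' := by
    intro U hU
    have := forces_iff.1 hf U hU
    simp only [sat_and, sat_dFun, sat_fInjRel, cons_zero, cons_succ] at this
    exact this
  -- the pairs
  let pr : Fin m × {u // u ∈ S} → Name (Pos B) := fun e => opN (natN (e.1 : ℕ)) (listN e.2.1)
  have hpr : ∀ e, ∀ U : GenUlt (Pos B), U.Has r2 → ModE U (U.cl (pr e)) (U.cl b) := by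
    rintro ⟨i, u, hu⟩ U hU
    have hU1 := hU.mono hr2
    obtain ⟨h1, -, h3, -⟩ := hm U (hU1.mono hr1)
    rw [h3]
    refine ⟨U.cl (natN i), U.cl (listN u), ?_, ?_, mod_opN U _ _⟩
    · exact modE_cl.2 (GenUlt.ev_true fun p => memF_natN_of_lt i.2 p)
    · rw [h1]
      constructor
      · have h4 : Forces (dSub 0 1) (cons (listN u) fun _ => natN k) r1 := by
          rw [forces_dSub]
          exact listN_sub (hSmem u hu).1.le r1
        have h5 := forces_iff.1 h4 U hU1
        rw [sat_dSub] at h5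
        exact h5
      · have h4 : Forces (fex (.fand (.fmem 0 3) (fAgree 2 1 0)))
            (cons (listN u) (cons (natN k) fun _ => clN T)) r1 := by
          rw [forces_ex]
          intro q' hq'
          obtain ⟨t, ht, x, h5, h6⟩ := exists_mem_of_hitv (hSmem u hu).2 q' hq'
          refine ⟨t, ht, x, ?_⟩
          rw [forces_and, forces_fAgree (n := 2) (k := k) rfl]
          refine ⟨h5, ?_⟩
          rw [(hSmem u hu).1] at h6
          exact h6
        have h5 := forces_iff.1 h4 U hU1
        simp only [sat_ex, sat_and, sat_mem, sat_fAgree, cons_zero, cons_one, cons_two,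
          cons_three] at h5
        exact h5
  -- decide the values
  obtain ⟨r3, hr3, hval⟩ := finite_decide (Finset.univ : Finset (Fin m × {u // u ∈ S}))
    (fun e (t : Pos B) => ∃ v : List Bool, v.length = k ∧ MemF (opN (pr e) (listN v)) f t)
    (fun e p q h hq => by
      obtain ⟨v, hv, h⟩ := h
      exact ⟨v, hv, h.mono hq⟩) r2 (by
      intro e _ q' hq'
      have h1 : Forces (fex (.fand (.fmem 0 2) (dApp 3 1 0)))
          (cons (pr e) (cons a fun _ => f)) q' := by
        rw [forces_iff]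
        intro U hU
        simp only [sat_ex, sat_and, sat_mem, sat_dApp, cons_zero, cons_one, cons_two, cons_three]
        have hU2 := hU.mono hq'
        obtain ⟨y, hy, h2⟩ := ((hfU U hU2).1.2 _ (hpr e U hU2)).exists
        exact ⟨y, hy, h2⟩
      obtain ⟨t, ht, y, h2⟩ := forces_ex.1 h1 q' le_rfl
      rw [forces_and, forces_dApp] at h2
      have h3 : MemF y a t := h2.1
      have h4 : MemF (opN (pr e) y) f t := h2.2
      have h5 : SubF y (natN k) t := by
        have h6 : Forces (dSub 0 1) (cons y fun _ => natN k) t := by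
          rw [forces_iff]
          intro U hU
          rw [sat_dSub]
          have hU1 := hU.mono (((ht.trans hq').trans hr2).trans hr1)
          exact ((hm U hU1).2.1 _).1 (memF_iff_models.1 h3 U hU)
        rw [forces_dSub] at h6
        exact h6
      obtain ⟨t', ht', v, hv, h7⟩ := exists_listN h5
      refine ⟨t', ht'.trans ht, v, hv, ?_⟩
      exact (h4.mono ht').congr_left (eqF_opN.2 ⟨EqF.refl _ _, h7⟩))
  choose g hg1 hg2 using fun e => hval e (Finset.mem_univ e)
  have hginj : Function.Injective fun e => (⟨g e, mem_allL.2 (hg1 e)⟩ : {u // u ∈ allL k}) := by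
    intro e e' hee
    have h1 : g e = g e' := congrArg Subtype.val hee
    have h2 : EqF (pr e) (pr e') r3 := by
      rw [eqF_iff_models]
      intro U hU
      apply (hfU U (hU.mono hr3)).2 _ _ (U.cl (listN (g e)))
      · rw [isApp_iff]
        exact GenUlt.Ev.imp hU fun s hs => (hg2 e).mono hs
      · rw [isApp_iff, h1]
        exact GenUlt.Ev.imp hU fun s hs => (hg2 e').mono hs
    obtain ⟨i, u, hu⟩ := e
    obtain ⟨i', u', hu'⟩ := e'
    obtain ⟨h6, h7⟩ := eqF_opN.1 h2
    have h8 := natN_inj h6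
    have h9 := listN_inj ((hSmem u hu).1.trans (hSmem u' hu').1.symm) h7
    subst h9
    have h10 : i = i' := Fin.ext h8
    subst h10
    rfl
  have hcard := Fintype.card_le_of_injective _ hginj
  rw [Fintype.card_prod, Fintype.card_fin, Fintype.card_coe, Fintype.card_coe, card_allL] at hcard
  refine ⟨r3, ((hr3.trans hr2).trans hr1).trans hr, ?_⟩
  refine le_iSup_of_le k (le_iSup_of_le S (le_iSup_of_le
    ⟨fun u hu => (hSmem u hu).1, by rw [mul_comm]; exact hcard⟩ (le_iInf₂ fun u hu => ?_)))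
  rcases hdec u (mem_allL.2 hu.1) with h4 | h4
  · exact absurd (by rw [hS, Finset.mem_filter]; exact ⟨mem_allL.2 hu.1, h4⟩) hu.2
  · exact le_trans (show r3.1 ≤ r1.1 from hr3.trans hr2) h4

end Pool.Agent.Lib.MP_40b13d_lc
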