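import Pool.Agent.Lib.MP_40b13d_lc.Coin
import Pool.Agent.Lib.MP_40b13d_lc.CdfTools

/-!
Part I-b: the sentence `(♣)` implies that countably perfectly meager sets are countably perfectly
null.
-/

open MeasureTheory Set Filter Topology ProbabilityTheory

namespace Pool.Agent.Lib.MP_40b13d_lc

/-- An embedding of the Cantor space in the line. -/
noncomputable def emb (z : ℕ → Bool) : ℝ := (cantorSetHomeomorphNatToBool.symm z : cantorSet)

theorem isEmbedding_emb : IsEmbedding emb :=
  IsEmbedding.subtypeVal.comp cantorSetHomeomorphNatToBool.symm.isEmbedding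

theorem emb_injective : Function.Injective emb := isEmbedding_emb.injective

theorem measurable_emb : Measurable emb := isEmbedding_emb.continuous.measurable

/-! ### The Cantor space -/

theorem coin_emb (t : ℝ) : coin (emb ⁻¹' {t}) = 0 := by
  have h1 : (emb ⁻¹' {t}).Subsingleton := by
    intro x hx y hy
    exact emb_injective (hx.trans hy.symm)
  rcases h1.eq_empty_or_singleton with h | ⟨z, h⟩
  · rw [h, measure_empty]
  · rw [h, coin_singleton]

/-- The continuous measure preserving map of the Cantor space onto the unit interval. -/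
noncomputable def bmap : (ℕ → Bool) → ℝ := cdfMap coin emb

theorem continuous_bmap : Continuous bmap :=
  (continuous_cdf_map coin emb measurable_emb coin_emb).comp isEmbedding_emb.continuous

theorem map_bmap : coin.map bmap = volume.restrict (Icc 0 1) :=
  map_cdfMap coin emb measurable_emb coin_emb

theorem bmap_preimage {Y : Set ℝ} (hY : MeasurableSet Y) :
    coin (bmap ⁻¹' Y) = volume.restrict (Icc (0 : ℝ) 1) Y := by
  rw [← map_bmap, Measure.map_apply continuous_bmap.measurable hY]

theorem isCompact_bmap {F : Set (ℕ → Bool)} (hF : IsClosed F) : IsCompact (bmap '' F) :=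
  hF.isCompact.image continuous_bmap

/-- A closed null set has a null image. -/
theorem bmap_null {F : Set (ℕ → Bool)} (hF : IsClosed F) (h0 : coin F = 0) :
    volume.restrict (Icc (0 : ℝ) 1) (bmap '' F) = 0 := by
  rw [← bmap_preimage (isCompact_bmap hF).isClosed.measurableSet]
  refine measure_mono_null (t := F ∪ flat coin emb) ?_ ?_
  · rintro z ⟨z', hz', hzz'⟩
    by_cases hz : z ∈ flat coin emb
    · exact Or.inr hz
    · left
      have h1 : emb z' = emb z := by
        by_contra hne
        have hU : ({emb z'}ᶜ : Set ℝ) ∈ 𝓝 (emb z) := isOpen_compl_singleton.mem_nhds (Ne.symm hne)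
        obtain ⟨O, hO, hO'⟩ := exists_nhds_cdfMap coin emb hz hU
        have h2 : cdfMap coin emb z' ∈ O := by
          have h3 : cdfMap coin emb z' = cdfMap coin emb z := hzz'
          rw [h3]
          exact mem_of_mem_nhds hO
        exact hO' z' h2 rfl
      exact emb_injective h1 ▸ hz'
  · exact measure_union_null h0 (measure_flat coin emb measurable_emb coin_emb)

theorem Icc_subset_range_bmap : Icc (0 : ℝ) 1 ⊆ range bmap := by
  intro t ht
  by_contra hcon
  have hcl : IsClosed (range bmap) := by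
    rw [← image_univ]
    exact (isCompact_bmap isClosed_univ).isClosed
  have h1 : volume.restrict (Icc (0 : ℝ) 1) (range bmap)ᶜ = 0 := by
    rw [← bmap_preimage hcl.measurableSet.compl]
    have : bmap ⁻¹' (range bmap)ᶜ = ∅ := by
      ext z
      simp
    rw [this, measure_empty]
  obtain ⟨a, b, hab, hsub⟩ := mem_nhds_iff_exists_Ioo_subset.mp (hcl.isOpen_compl.mem_nhds hcon)
  have h2 : volume (Ioo (max a 0) (min b 1)) = 0 := by
    refine measure_mono_null ?_ ((Measure.restrict_apply hcl.measurableSet.compl).symm.trans h1)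
    intro s hs
    rw [Set.mem_Ioo, max_lt_iff, lt_min_iff] at hs
    exact ⟨hsub ⟨hs.1.1, hs.2.1⟩, hs.1.2.le, hs.2.2.le⟩
  rw [Real.volume_Ioo, ENNReal.ofReal_eq_zero, sub_nonpos] at h2
  have h3 : max a 0 < min b 1 := by
    rw [max_lt_iff, lt_min_iff, lt_min_iff]
    exact ⟨⟨hab.1.trans hab.2, lt_of_lt_of_le hab.1 ht.2⟩,
      ⟨lt_of_le_of_lt ht.1 hab.2, one_pos⟩⟩
  exact absurd h3 (not_lt.mpr h2)

/-! ### The Polish space -/

section Space

variable {X : Type*} [TopologicalSpace X] [PolishSpace X] [MeasurableSpace X] [BorelSpace X]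
  (μ : Measure X) [IsProbabilityMeasure μ]

/-- A countable base with null frontiers. -/
theorem exists_base : ∃ V : ℕ → Set X, (∀ n, IsOpen (V n)) ∧ (∀ n, μ (frontier (V n)) = 0) ∧
    ∀ x, ∀ U ∈ 𝓝 x, ∃ n, x ∈ V n ∧ V n ⊆ U := by
  let _ := TopologicalSpace.upgradeIsCompletelyMetrizable X
  have hne : Nonempty X := by
    by_contra hcon
    rw [not_nonempty_iff] at hcon
    have h1 : μ univ = 0 := by rw [univ_eq_empty_iff.mpr hcon, measure_empty]
    rw [measure_univ] at h1
    exact one_ne_zero h1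
  have hr : ∀ (i k : ℕ), ∃ r ∈ Ioo (1 / ((k : ℝ) + 2)) (1 / ((k : ℝ) + 1)),
      μ (frontier (Metric.thickening r {TopologicalSpace.denseSeq X i})) = 0 := by
    intro i k
    exact exists_null_frontier_thickening μ _
      (one_div_lt_one_div_of_lt (by positivity) (by linarith))
  choose r hr1 hr2 using hr
  refine ⟨fun n => Metric.thickening (r n.unpair.1 n.unpair.2)
    {TopologicalSpace.denseSeq X n.unpair.1}, fun n => Metric.isOpen_thickening,
    fun n => hr2 _ _, ?_⟩
  intro x U hU
  obtain ⟨ε, hε, hεU⟩ := Metric.mem_nhds_iff.mp hU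
  obtain ⟨k, hk⟩ := exists_nat_one_div_lt (half_pos hε)
  have hk2 : (0 : ℝ) < 1 / ((k : ℝ) + 2) := by positivity
  obtain ⟨i, hi⟩ := (TopologicalSpace.denseRange_denseSeq X).exists_dist_lt x hk2
  refine ⟨Nat.pair i k, ?_, ?_⟩
  · simp only [Nat.unpair_pair, Metric.thickening_singleton]
    rw [Metric.mem_ball]
    exact hi.trans (hr1 i k).1
  · simp only [Nat.unpair_pair, Metric.thickening_singleton]
    intro y hy
    rw [Metric.mem_ball] at hy
    apply hεU
    rw [Metric.mem_ball]
    have h1 := (hr1 i k).2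
    have h2 := dist_triangle_right y x (TopologicalSpace.denseSeq X i)
    have h3 : 1 / ((k : ℝ) + 2) < 1 / ((k : ℝ) + 1) :=
      one_div_lt_one_div_of_lt (by positivity) (by linarith)
    linarith

/-- The transfer map: there are a null `F_σ` set `E` and a map `Φ` to the unit interval that
pushes `μ` to Lebesgue measure and is a homeomorphic embedding off `E`. -/
theorem exists_transfer (hμ : ∀ x, μ {x} = 0) :
    ∃ (E : ℕ → Set X) (Φ : X → ℝ), (∀ n, IsClosed (E n)) ∧ μ (⋃ n, E n) = 0 ∧
      Measurable Φ ∧ μ.map Φ = volume.restrict (Icc 0 1) ∧ (∀ x, Φ x ∈ Icc (0 : ℝ) 1) ∧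
      (∀ x, x ∉ (⋃ n, E n) → ContinuousAt Φ x) ∧
      (∀ x, x ∉ (⋃ n, E n) → ∀ U ∈ 𝓝 x, ∃ O ∈ 𝓝 (Φ x), ∀ y, Φ y ∈ O → y ∈ U) := by
  classical
  obtain ⟨V, hVo, hV0, hVb⟩ := exists_base μ
  let g : X → (ℕ → Bool) := fun x n => decide (x ∈ V n)
  have hgm : Measurable g := by
    rw [measurable_pi_iff]
    intro n
    refine measurable_to_bool ?_
    have : (fun x => g x n) ⁻¹' {true} = V n := by
      ext x
      simp [g]
    rw [this]
    exact (hVo n).measurableSet
  have hginj : Function.Injective g := by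
    intro x y hxy
    by_contra hne
    obtain ⟨n, hn1, hn2⟩ := hVb x {y}ᶜ (isOpen_compl_singleton.mem_nhds hne)
    have h1 : g x n = true := by simpa [g] using hn1
    rw [hxy] at h1
    have h2 : y ∈ V n := by simpa [g] using h1
    exact hn2 h2 rfl
  have hgc : ∀ x, x ∉ (⋃ n, frontier (V n)) → ContinuousAt g x := by
    intro x hx
    rw [continuousAt_pi]
    intro n
    have hxn : x ∉ frontier (V n) := fun h => hx (mem_iUnion.mpr ⟨n, h⟩)
    rw [frontier, (hVo n).interior_eq] at hxn
    by_cases hxV : x ∈ V n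
    · refine (continuousAt_const (y := true)).congr ?_
      filter_upwards [(hVo n).mem_nhds hxV] with y hy
      simp [g, hy]
    · have hxc : x ∉ closure (V n) := fun h => hxn ⟨h, hxV⟩
      refine (continuousAt_const (y := false)).congr ?_
      filter_upwards [isClosed_closure.isOpen_compl.mem_nhds hxc] with y hy
      have : y ∉ V n := fun h => hy (subset_closure h)
      simp [g, this]
  let j : X → ℝ := fun x => emb (g x)
  have hj : Measurable j := measurable_emb.comp hgm
  have hjinj : Function.Injective j := emb_injective.comp hginj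
  have hjμ : ∀ t, μ (j ⁻¹' {t}) = 0 := by
    intro t
    have h1 : (j ⁻¹' {t}).Subsingleton := by
      intro x hx y hy
      exact hjinj (hx.trans hy.symm)
    rcases h1.eq_empty_or_singleton with h | ⟨z, h⟩
    · rw [h, measure_empty]
    · rw [h, hμ]
  have hjc : ∀ x, x ∉ (⋃ n, frontier (V n)) → ContinuousAt j x := fun x hx =>
    isEmbedding_emb.continuous.continuousAt.comp (hgc x hx)
  let G := cdf (μ.map j)
  have hG : Continuous G := continuous_cdf_map μ j hj hjμ
  let K : ℚ → Set X := fun r => j ⁻¹' (G ⁻¹' {G r})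
  have hKcl : ∀ r, closure (K r \ ⋃ n, frontier (V n)) ⊆ K r ∪ ⋃ n, frontier (V n) := by
    intro r x hx
    by_cases hx0 : x ∈ ⋃ n, frontier (V n)
    · exact Or.inr hx0
    · left
      have hc : ContinuousAt (fun y => G (j y)) x := hG.continuousAt.comp (hjc x hx0)
      have h1 : G (j x) ∈ closure ({G r} : Set ℝ) := by
        refine hc.continuousWithinAt.mem_closure hx ?_
        rintro y ⟨hy, _⟩
        exact hy
      rw [closure_singleton] at h1
      exact h1
  have hflat := measure_flat μ j hj hjμ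
  have hfr : μ (⋃ n, frontier (V n)) = 0 := measure_iUnion_null hV0
  -- enumerate the closed sets
  obtain ⟨φ, hφ⟩ := exists_surjective_nat (ℕ ⊕ ℚ)
  let E' : ℕ ⊕ ℚ → Set X := Sum.elim (fun n => frontier (V n))
    (fun r => closure (K r \ ⋃ n, frontier (V n)))
  have hEU : (⋃ n, E' (φ n)) = ⋃ s, E' s := hφ.iUnion_comp E'
  have hmemfr : ∀ x, x ∉ (⋃ n, E' (φ n)) → x ∉ ⋃ n, frontier (V n) := by
    intro x hx h
    apply hx
    rw [hEU]
    obtain ⟨n, hn⟩ := mem_iUnion.mp h
    exact mem_iUnion.mpr ⟨Sum.inl n, hn⟩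
  refine ⟨fun n => E' (φ n), cdfMap μ j, ?_, ?_, measurable_cdfMap μ j hj hjμ,
    map_cdfMap μ j hj hjμ, cdfMap_mem μ j, ?_, ?_⟩
  · have hcl : ∀ t, IsClosed (E' t) := by
      rintro (m | r)
      · exact isClosed_frontier
      · exact isClosed_closure
    exact fun n => hcl (φ n)
  · rw [hEU]
    refine measure_iUnion_null fun s => ?_
    rcases s with m | r
    · exact hV0 m
    · refine measure_mono_null (hKcl r) (measure_union_null ?_ hfr)
      refine measure_mono_null ?_ hflat
      exact subset_iUnion (fun r : ℚ => j ⁻¹' (cdf (μ.map j) ⁻¹' {cdf (μ.map j) r})) r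
  · intro x hx
    exact hG.continuousAt.comp (hjc x (hmemfr x hx))
  · intro x hx U hU
    have hx0 := hmemfr x hx
    have hxf : x ∉ flat μ j := by
      intro h
      obtain ⟨r, hr⟩ := mem_iUnion.mp h
      apply hx
      rw [hEU]
      exact mem_iUnion.mpr ⟨Sum.inr r, subset_closure ⟨hr, hx0⟩⟩
    obtain ⟨n, hn1, hn2⟩ := hVb x U hU
    have hopen : IsOpen {z : ℕ → Bool | z n = true} := by
      have h1 : {z : ℕ → Bool | z n = true} = (fun z : ℕ → Bool => z n) ⁻¹' {true} := rfl
      rw [h1]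
      exact (isOpen_discrete _).preimage (continuous_apply n)
    obtain ⟨O', hO', hO'2⟩ := isEmbedding_emb.isOpen_iff.mp hopen
    have hgx : g x ∈ {z : ℕ → Bool | z n = true} := by
      simpa [g] using hn1
    have hjx : O' ∈ 𝓝 (j x) := by
      refine hO'.mem_nhds ?_
      rw [← hO'2] at hgx
      exact hgx
    obtain ⟨O, hO, hO2⟩ := exists_nhds_cdfMap μ j hxf hjx
    refine ⟨O, hO, fun y hy => hn2 ?_⟩
    have h2 : j y ∈ O' := hO2 y hy
    have h3 : g y ∈ {z : ℕ → Bool | z n = true} := by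
      rw [← hO'2]
      exact h2
    simpa [g] using h3

end Space

/-! ### The main implication -/

theorem main_probability (h : ClubMeas) {X : Type*} [TopologicalSpace X] [PolishSpace X]
    [MeasurableSpace X] [BorelSpace X] {A : Set X} (hA : CountablyPerfectlyMeager A)
    (μ : Measure X) [IsProbabilityMeasure μ] (hμ : ∀ x, μ {x} = 0) :
    ∃ F : ℕ → Set X, (∀ k, IsClosed (F k)) ∧ A ⊆ (⋃ k, F k) ∧ μ (⋃ k, F k) = 0 := by
  classical
  obtain ⟨E, Φ, hEcl, hE0, hΦm, hΦmap, hΦmem, hΦc, hΦe⟩ := exists_transfer μ hμ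
  have hpre : ∀ Y : Set ℝ, MeasurableSet Y → μ (Φ ⁻¹' Y) = volume.restrict (Icc (0 : ℝ) 1) Y := by
    intro Y hY
    rw [← hΦmap, Measure.map_apply hΦm hY]
  rcases h (bmap ⁻¹' (Φ '' (A \ ⋃ n, E n))) with ⟨F, hF, hcov⟩ | ⟨Z, hZ, hZcov⟩
  · -- first case
    let C : ℕ → Set X := fun k => closure (Φ ⁻¹' (bmap '' F k) \ ⋃ n, E n)
    have hC : ∀ k, C k ⊆ Φ ⁻¹' (bmap '' F k) ∪ ⋃ n, E n := by
      intro k x hx
      by_cases hxE : x ∈ ⋃ n, E n
      · exact Or.inr hxE
      · left
        have h1 : Φ x ∈ closure (bmap '' F k) := by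
          refine (hΦc x hxE).continuousWithinAt.mem_closure hx ?_
          rintro y ⟨hy, _⟩
          exact hy
        rw [(isCompact_bmap (hF k).1).isClosed.closure_eq] at h1
        exact h1
    have hC0 : ∀ k, μ (C k) = 0 := by
      intro k
      refine measure_mono_null (hC k) (measure_union_null ?_ hE0)
      rw [hpre _ (isCompact_bmap (hF k).1).isClosed.measurableSet]
      exact bmap_null (hF k).1 (hF k).2
    obtain ⟨φ, hφ⟩ := exists_surjective_nat (ℕ ⊕ ℕ)
    let D : ℕ ⊕ ℕ → Set X := Sum.elim E C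
    have hDU : (⋃ n, D (φ n)) = ⋃ s, D s := hφ.iUnion_comp D
    refine ⟨fun n => D (φ n), ?_, ?_, ?_⟩
    · have hcl : ∀ t, IsClosed (D t) := by
        rintro (m | r)
        · exact hEcl m
        · exact isClosed_closure
      exact fun n => hcl (φ n)
    · rw [hDU]
      intro x hx
      by_cases hxE : x ∈ ⋃ n, E n
      · obtain ⟨n, hn⟩ := mem_iUnion.mp hxE
        exact mem_iUnion.mpr ⟨Sum.inl n, hn⟩
      · obtain ⟨z, hz⟩ := Icc_subset_range_bmap (hΦmem x)
        have hzA : z ∈ bmap ⁻¹' (Φ '' (A \ ⋃ n, E n)) := ⟨x, ⟨hx, hxE⟩, hz.symm⟩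
        obtain ⟨k, hk⟩ := mem_iUnion.mp (hcov hzA)
        refine mem_iUnion.mpr ⟨Sum.inr k, subset_closure ⟨?_, hxE⟩⟩
        exact ⟨z, hk, hz⟩
    · rw [hDU]
      refine measure_iUnion_null fun s => ?_
      rcases s with m | r
      · exact measure_mono_null (subset_iUnion E m) hE0
      · exact hC0 r
  · -- second case
    exfalso
    let Y : ℕ → Set ℝ := fun n => bmap '' Z n
    have hYc : ∀ n, IsClosed (Y n) := fun n => (isCompact_bmap (hZ n).1).isClosed
    let ρ : ℕ → Measure X := fun n => μ.restrict (Φ ⁻¹' Y n)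
    have hρ0 : ∀ n, ρ n ≠ 0 := by
      intro n h0
      have h1 : μ (Φ ⁻¹' Y n) = 0 := Measure.restrict_eq_zero.mp h0
      rw [hpre _ (hYc n).measurableSet, ← bmap_preimage (hYc n).measurableSet] at h1
      exact (hZ n).2 (measure_mono_null (subset_preimage_image bmap (Z n)) h1)
    let P : ℕ → Set X := fun n => (ρ n).support
    have hPcl : ∀ n, IsClosed (P n) := fun n => Measure.isClosed_support
    have hPmem : ∀ n x, x ∈ P n → ∀ U ∈ 𝓝 x, μ (U ∩ Φ ⁻¹' Y n) ≠ 0 := by
      intro n x hx U hU h0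
      obtain ⟨U', hU'U, hU'o, hxU'⟩ := mem_nhds_iff.mp hU
      have h1 := (Measure.mem_support_iff_forall (μ := ρ n) x).mp hx U' (hU'o.mem_nhds hxU')
      rw [Measure.restrict_apply hU'o.measurableSet] at h1
      exact h1.ne' (measure_mono_null (inter_subset_inter_left _ hU'U) h0)
    have hPperf : ∀ n, IsPerfectSubset (P n) := by
      intro n
      refine ⟨Measure.nonempty_support (hρ0 n), hPcl n, ?_⟩
      intro x hx
      rw [accPt_iff_nhds]
      intro U hU
      by_contra hcon
      push Not at hcon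
      obtain ⟨U', hU'U, hU'o, hxU'⟩ := mem_nhds_iff.mp hU
      have h1 : U' ⊆ {x} ∪ (P n)ᶜ := by
        intro y hy
        by_cases hyP : y ∈ P n
        · exact Or.inl (hcon y ⟨hU'U hy, hyP⟩)
        · exact Or.inr hyP
      have h2 : ρ n U' = 0 := by
        refine measure_mono_null h1 (measure_union_null ?_ Measure.measure_compl_support)
        exact le_antisymm ((Measure.restrict_apply_le _ _).trans (hμ x).le) zero_le
      rw [Measure.restrict_apply hU'o.measurableSet] at h2
      exact hPmem n x hx U' (hU'o.mem_nhds hxU') h2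
    obtain ⟨F, hFcl, hFA, hFm⟩ := hA P hPperf
    obtain ⟨n, k, hnk⟩ := hZcov (fun k => bmap ⁻¹' closure (Φ '' (F k \ ⋃ n, E n)))
      (fun k => isClosed_closure.preimage continuous_bmap) (by
        rintro z ⟨x, ⟨hxA, hxE⟩, hxz⟩
        obtain ⟨k, hk⟩ := mem_iUnion.mp (hFA hxA)
        refine mem_iUnion.mpr ⟨k, ?_⟩
        change bmap z ∈ closure (Φ '' (F k \ ⋃ n, E n))
        rw [← hxz]
        exact subset_closure ⟨x, ⟨hk, hxE⟩, rfl⟩)
    have hYk : Y n ⊆ closure (Φ '' (F k \ ⋃ n, E n)) := by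
      rintro t ⟨z, hz, rfl⟩
      exact hnk hz
    -- a point of the support outside F k
    obtain ⟨x, hxP, hxF⟩ : ∃ x ∈ P n, x ∉ F k := by
      by_contra hcon
      push Not at hcon
      have h1 := hFm n
      have h2 : ((↑) : P n → X) ⁻¹' (⋃ k, F k) = univ := by
        rw [eq_univ_iff_forall]
        rintro ⟨y, hy⟩
        exact mem_iUnion.mpr ⟨k, hcon y hy⟩
      rw [h2] at h1
      have : PolishSpace (P n) := (hPcl n).polishSpace
      have : BaireSpace (P n) := inferInstance
      have h3 : Dense (univᶜ : Set (P n)) := dense_of_mem_residual h1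
      rw [compl_univ] at h3
      obtain ⟨y, hy⟩ := (hPperf n).1
      have h4 := h3 ⟨y, hy⟩
      rw [closure_empty] at h4
      exact h4
    have hV : (F k)ᶜ ∈ 𝓝 x := (hFcl k).isOpen_compl.mem_nhds hxF
    have h5 := hPmem n x hxP _ hV
    obtain ⟨y, ⟨hyF, hyY⟩, hyE⟩ : ∃ y ∈ (F k)ᶜ ∩ Φ ⁻¹' Y n, y ∉ ⋃ n, E n := by
      by_contra hcon
      push Not at hcon
      exact h5 (measure_mono_null hcon hE0)
    obtain ⟨O, hO, hO2⟩ := hΦe y hyE _ ((hFcl k).isOpen_compl.mem_nhds hyF)
    obtain ⟨t, htO, ⟨y', ⟨hy'F, _⟩, rfl⟩⟩ := mem_closure_iff_nhds.mp (hYk hyY) O hO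
    exact hO2 y' htO hy'F

/-- Part I-b. -/
theorem main_of_clubMeas (h : ClubMeas) {X : Type*} [TopologicalSpace X] [PolishSpace X]
    [MeasurableSpace X] [BorelSpace X] {A : Set X} (hA : CountablyPerfectlyMeager A) :
    CountablyPerfectlyNull A := by
  intro μ hfin hμ
  by_cases h0 : μ = 0
  · refine ⟨fun _ => univ, fun _ => isClosed_univ, fun x _ => mem_iUnion.mpr ⟨0, mem_univ x⟩, ?_⟩
    rw [h0]
    simp
  · have hne : NeZero μ := ⟨h0⟩
    have hprob : IsProbabilityMeasure ((μ univ)⁻¹ • μ) := isProbabilityMeasureSMul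
    obtain ⟨F, hF1, hF2, hF3⟩ := main_probability h hA ((μ univ)⁻¹ • μ) (fun x => by
      rw [Measure.smul_apply, hμ x, smul_zero])
    refine ⟨F, hF1, hF2, ?_⟩
    rw [Measure.smul_apply, smul_eq_mul, mul_eq_zero] at hF3
    rcases hF3 with h1 | h1
    · exact absurd h1 (ENNReal.inv_ne_zero.mpr (measure_ne_top _ _))
    · exact h1

end Pool.Agent.Lib.MP_40b13d_lc
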