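import Pool.Agent.Lib.Forcing.Defs

/-!
# The sentence `(♣)` inside a structure `(M, E)` for the language of set theory

`ZFC`, `IsSub`, `IsOPair`, `IsFun`, `HasInj`, `HasSurj`, `IsPower` come from
`Pool.Agent.Lib.Forcing.Defs`.
-/

namespace Pool.Agent.Lib.MP_40b13d_lc

open Pool.Agent.Lib.Forcing

variable {M : Type*} (E : M → M → Prop)

/-- `v` is inductive: it contains the empty set and is closed under `y ↦ y ∪ {y}`. -/
def IsInductive (v : M) : Prop :=
  (∃ e, IsZero E e ∧ E e v) ∧ ∀ y, E y v → ∃ z, E z v ∧ ∀ u, E u z ↔ E u y ∨ u = y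

/-- `w` is the set of natural numbers. -/
def IsOmega (w : M) : Prop := IsInductive E w ∧ ∀ v, IsInductive E v → IsSub E w v

/-- `x ∩ n = y ∩ n`. -/
def Agree (n x y : M) : Prop := ∀ i, E i n → (E i x ↔ E i y)

/-- `C` is a closed subset of the Cantor space, the set of all subsets of `w = ω`. -/
def ClosedSet (w C : M) : Prop :=
  (∀ x, E x C → IsSub E x w) ∧
    ∀ x, IsSub E x w → (∀ n, E n w → ∃ y, E y C ∧ Agree E n x y) → E x C

/-- `s = {x ∩ n : x ∈ C}`. -/
def IsTrace (s n C : M) : Prop := ∀ a, E a s ↔ IsSub E a n ∧ ∃ x, E x C ∧ Agree E n a x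

/-- `q = a × b`. -/
def IsProd (q a b : M) : Prop := ∀ z, E z q ↔ ∃ x y, E x a ∧ E y b ∧ IsOPair E z x y

/-- The closed set `C` has measure zero for the product probability measure of the Cantor space:
for every `m` there is `n` such that `m * |{x ∩ n : x ∈ C}| ≤ 2 ^ n` (there is an injective
function from the product of `m` and this set to the power set of `n`). -/
def NullSet (w C : M) : Prop :=
  ∀ m, E m w → ∃ n, E n w ∧ ∃ s p q, IsTrace E s n C ∧ IsPower E p n ∧ IsProd E q m s ∧
    HasInj E q p

/-- The sets in `F` cover `A`. -/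
def Covers (F A : M) : Prop := ∀ x, E x A → ∃ C, E C F ∧ E x C

/-- The sentence `(♣)` holds in `(M, E)`: for every set `A` of points of the Cantor space, either
`A` is covered by countably many closed null sets, or there is a countable set `Z` of closed sets
of positive measure such that for every cover of `A` by countably many closed sets some member of
`Z` is contained in one of the sets of the cover. -/
def Club : Prop :=
  ∀ w, IsOmega E w → ∀ A, (∀ x, E x A → IsSub E x w) →
    (∃ F, HasSurj E w F ∧ (∀ C, E C F → ClosedSet E w C ∧ NullSet E w C) ∧ Covers E F A) ∨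
    (∃ Z, HasSurj E w Z ∧ (∀ C, E C Z → ClosedSet E w C ∧ ¬ NullSet E w C) ∧
      ∀ F, HasSurj E w F → (∀ C, E C F → ClosedSet E w C) → Covers E F A →
        ∃ C D, E C Z ∧ E D F ∧ IsSub E C D)

end Pool.Agent.Lib.MP_40b13d_lc
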