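import Pool.Agent.Lib.Forcing.OrdNames
import Pool.Agent.Lib.Forcing.Countable
import Pool.Agent.Lib.MP_40b13d_lc.ZDefs

/-!
# Formulas for the notions of `ZDefs`
-/

set_option linter.unusedSimpArgs false

namespace Pool.Agent.Lib.MP_40b13d_lc

open Pool.Agent.Lib.Forcing

variable {M : Type*} {E : M → M → Prop} {v : ℕ → M}

/-- `z = y ∪ {y}` -/
def fSucc (z y : ℕ) : Fml :=
  .fall (fiff (.fmem 0 (z + 1)) (ffor (.fmem 0 (y + 1)) (.feq 0 (y + 1))))

@[simp] theorem sat_fSucc {z y : ℕ} : Sat E (fSucc z y) v ↔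
    ∀ u, E u (v z) ↔ E u (v y) ∨ u = v y := by
  simp only [fSucc, sat_all, sat_iff, sat_or, sat_mem, sat_eq, cons_zero, cons_succ]

def fInductive (a : ℕ) : Fml :=
  .fand (fex (.fand (fZero 0) (.fmem 0 (a + 1)))) (fball a (fex (.fand (.fmem 0 (a + 2))
    (fSucc 0 1))))

@[simp] theorem sat_fInductive {a : ℕ} : Sat E (fInductive a) v ↔ IsInductive E (v a) := by
  simp only [fInductive, IsInductive, sat_and, sat_ex, sat_ball, sat_fZero, sat_mem, sat_fSucc,
    cons_zero, cons_succ, cons_one]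

def fOmega (w : ℕ) : Fml :=
  .fand (fInductive w) (.fall (fimp (fInductive 0) (dSub (w + 1) 0)))

@[simp] theorem sat_fOmega {w : ℕ} : Sat E (fOmega w) v ↔ IsOmega E (v w) := by
  simp only [fOmega, IsOmega, sat_and, sat_all, sat_imp, sat_fInductive, sat_dSub, cons_zero,
    cons_succ]

def fAgree (n x y : ℕ) : Fml := fball n (fiff (.fmem 0 (x + 1)) (.fmem 0 (y + 1)))

@[simp] theorem sat_fAgree {n x y : ℕ} :
    Sat E (fAgree n x y) v ↔ Agree E (v n) (v x) (v y) := by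
  simp only [fAgree, Agree, sat_ball, sat_iff, sat_mem, cons_zero, cons_succ]

def fClosed (w C : ℕ) : Fml :=
  .fand (fball C (dSub 0 (w + 1))) (.fall (fimp (dSub 0 (w + 1)) (fimp
    (fball (w + 1) (fex (.fand (.fmem 0 (C + 3)) (fAgree 1 2 0)))) (.fmem 0 (C + 1)))))

@[simp] theorem sat_fClosed {w C : ℕ} :
    Sat E (fClosed w C) v ↔ ClosedSet E (v w) (v C) := by
  simp only [fClosed, ClosedSet, sat_ball, sat_and, sat_all, sat_imp, sat_ex, sat_dSub, sat_mem,
    sat_fAgree, cons_zero, cons_succ, cons_one, cons_two]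

def fTrace (s n C : ℕ) : Fml :=
  .fall (fiff (.fmem 0 (s + 1)) (.fand (dSub 0 (n + 1)) (fex (.fand (.fmem 0 (C + 2))
    (fAgree (n + 2) 1 0)))))

@[simp] theorem sat_fTrace {s n C : ℕ} :
    Sat E (fTrace s n C) v ↔ IsTrace E (v s) (v n) (v C) := by
  simp only [fTrace, IsTrace, sat_and, sat_all, sat_iff, sat_ex, sat_dSub, sat_mem,
    sat_fAgree, cons_zero, cons_succ, cons_one, cons_two]

def fProd (q a b : ℕ) : Fml :=
  .fall (fiff (.fmem 0 (q + 1)) (fex (fex (.fand (.fmem 1 (a + 3)) (.fand (.fmem 0 (b + 3))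
    (dOPair 2 1 0))))))

@[simp] theorem sat_fProd {q a b : ℕ} :
    Sat E (fProd q a b) v ↔ IsProd E (v q) (v a) (v b) := by
  simp only [fProd, IsProd, sat_and, sat_all, sat_iff, sat_ex, sat_dOPair, sat_mem,
    cons_zero, cons_succ, cons_one, cons_two]

def fNull (w C : ℕ) : Fml :=
  fball w (fex (.fand (.fmem 0 (w + 2)) (fex (fex (fex (.fand (fTrace 2 3 (C + 5))
    (.fand (fPower 1 3) (.fand (fProd 0 4 2) (fInj 0 1)))))))))

@[simp] theorem sat_fNull {w C : ℕ} : Sat E (fNull w C) v ↔ NullSet E (v w) (v C) := by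
  simp only [fNull, NullSet, sat_ball, sat_and, sat_ex, sat_mem, sat_fTrace, sat_fPower,
    sat_fProd, sat_fInj, cons_zero, cons_succ, cons_one, cons_two, cons_three, cons_four]

def fCovers (F A : ℕ) : Fml := fball A (fex (.fand (.fmem 0 (F + 2)) (.fmem 1 0)))

@[simp] theorem sat_fCovers {F A : ℕ} : Sat E (fCovers F A) v ↔ Covers E (v F) (v A) := by
  simp only [fCovers, Covers, sat_ball, sat_and, sat_ex, sat_mem, cons_zero, cons_succ, cons_one]

/-- first alternative -/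
def fAlt1 (w A : ℕ) : Fml :=
  fex (.fand (fSurj (w + 1) 0) (.fand (.fall (fimp (.fmem 0 1) (.fand (fClosed (w + 2) 0)
    (fNull (w + 2) 0)))) (fCovers 0 (A + 1))))

/-- second alternative -/
def fAlt2 (w A : ℕ) : Fml :=
  fex (.fand (fSurj (w + 1) 0) (.fand (.fall (fimp (.fmem 0 1) (.fand (fClosed (w + 2) 0)
    (.fneg (fNull (w + 2) 0)))))
    (.fall (fimp (fSurj (w + 2) 0) (fimp (.fall (fimp (.fmem 0 1) (fClosed (w + 3) 0)))
      (fimp (fCovers 0 (A + 2)) (fex (fex (.fand (.fmem 1 3) (.fand (.fmem 0 2)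
        (dSub 1 0)))))))))))

def fClub : Fml :=
  .fall (fimp (fOmega 0) (.fall (fimp (fball 0 (dSub 0 2)) (ffor (fAlt1 1 0) (fAlt2 1 0)))))

theorem sat_fAlt1 {w A : ℕ} : Sat E (fAlt1 w A) v ↔
    ∃ F, HasSurj E (v w) F ∧ (∀ C, E C F → ClosedSet E (v w) C ∧ NullSet E (v w) C) ∧
      Covers E F (v A) := by
  simp only [fAlt1, sat_ex, sat_and, sat_all, sat_imp, sat_fSurj, sat_mem, sat_fClosed, sat_fNull,
    sat_fCovers, cons_zero, cons_succ, cons_one, cons_two]

theorem sat_fAlt2 {w A : ℕ} : Sat E (fAlt2 w A) v ↔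
    ∃ Z, HasSurj E (v w) Z ∧ (∀ C, E C Z → ClosedSet E (v w) C ∧ ¬ NullSet E (v w) C) ∧
      ∀ F, HasSurj E (v w) F → (∀ C, E C F → ClosedSet E (v w) C) → Covers E F (v A) →
        ∃ C D, E C Z ∧ E D F ∧ IsSub E C D := by
  simp only [fAlt2, sat_ex, sat_and, sat_all, sat_imp, sat_neg, sat_fSurj, sat_mem, sat_fClosed,
    sat_fNull, sat_fCovers, sat_dSub, cons_zero, cons_succ, cons_one, cons_two, cons_three]

theorem sat_fClub : Sat E fClub v ↔ Club E := by
  simp only [fClub, Club, sat_all, sat_imp, sat_or, sat_fOmega, sat_ball, sat_dSub, sat_fAlt1,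
    sat_fAlt2, cons_zero, cons_succ, cons_one, cons_two]

/-- Transfer to a countable elementary substructure. -/
theorem exists_countable (k : M) (hZ : IsZFC M E) (hC : Club E) :
    ∃ (N : Type) (F : N → N → Prop), Countable N ∧ IsZFC N F ∧ Club F := by
  obtain ⟨N, F, k', j, hc, -, hj⟩ := exists_countable_elementary E k
  have hj' : Elem F E j := hj
  refine ⟨N, F, hc, hj'.isZFC k' hZ, ?_⟩
  rw [← sat_fClub (v := fun _ => k'), hj', sat_fClub]
  exact hC

end Pool.Agent.Lib.MP_40b13d_lc
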